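import Pool.Agent.C3A.Stmts

/-!
Closed 3-braids, arithmetic half: the theorem for matrices of odd trace (ARP, ARITH).
-/

set_option autoImplicit false

open scoped BigOperators Real MatrixGroups ContDiff Topology
open Filter

noncomputable section

namespace Pool.Agent.C3A

namespace ARP

theorem odd_of_unt {m t c : ℤ} (ht : Odd t) (h : Unt m t c) : Odd c := by
  obtain ⟨-, -, he⟩ := h
  have h1 : Odd (t ^ 2 - 4) := (ht.pow).sub_even (by decide)
  rw [he] at h1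
  have h2 := (Int.odd_mul.mp h1).1
  exact (Int.odd_pow.mp h2).resolve_right (by norm_num)

theorem odd_of_cop {m : ℤ} {N : ℕ} (h : Nat.Coprime N (MM m)) : Odd N := by
  have h1 : Nat.Coprime N 2 := Nat.Coprime.coprime_mul_right_right h
  exact (Nat.coprime_two_right).mp h1

theorem fm_inv (m β : ℤ) : fm m (-1 - β) = fm m β := by unfold fm; ring

theorem val_inv {m : ℤ} {a : ℕ} {β : ℤ} (h : Val m a β) : Val m a (-1 - β) := by
  obtain ⟨h1, h2, h3⟩ := h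
  exact ⟨h1, h2, by rw [fm_inv]; exact h3⟩

/-- The ideal itself has norm `a`. -/
theorem rg_pos {m : ℤ} (D : CD m) {a : ℕ} {β : ℤ} (h : Val m a β) :
    0 < rg D (D.cl a β) a := by
  classical
  obtain ⟨h1, h2, h3⟩ := h
  unfold rg
  rw [if_pos h2]
  have ha : a ∈ sqd a := by
    unfold sqd
    rw [Finset.mem_filter, Nat.mem_divisors]
    refine ⟨⟨dvd_rfl, h1.ne'⟩, ?_⟩
    rw [Nat.div_self h1]
    exact ⟨1, rfl⟩
  have haz : (0 : ℤ) < a := by exact_mod_cast h1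
  have hb0 : 0 ≤ β % (a : ℤ) := Int.emod_nonneg _ haz.ne'
  have hb1 : β % (a : ℤ) < a := Int.emod_lt_of_pos _ haz
  have hbn : ((β % (a : ℤ)).toNat : ℤ) = β % (a : ℤ) := Int.toNat_of_nonneg hb0
  have hbe : β % (a : ℤ) = β + a * (-(β / a)) := by
    have := Int.emod_add_mul_ediv β a
    linarith
  have hmem1 : (β % (a : ℤ)).toNat ∈ bs m a := by
    unfold bs
    rw [Finset.mem_filter, Finset.mem_range]
    refine ⟨?_, ?_⟩
    · have : ((β % (a : ℤ)).toNat : ℤ) < (a : ℤ) := by rw [hbn]; exact hb1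
      exact_mod_cast this
    · rw [hbn, hbe]
      have : fm m (β + a * (-(β / a))) = fm m β + a * (-(β / a) * (2 * β + a * (-(β / a)) + 1)) := by
        unfold fm; ring
      rw [this]
      exact dvd_add h3 (dvd_mul_right _ _)
  refine lt_of_lt_of_le ?_ (Finset.single_le_sum (fun i _ => Nat.zero_le _) ha)
  refine Finset.card_pos.mpr ⟨β % (a : ℤ), ?_⟩
  rw [Finset.mem_filter]
  refine ⟨?_, ?_⟩
  · simp only [Finset.bind_def, Finset.pure_def, Finset.mem_sup, Finset.mem_singleton]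
    exact ⟨_, hmem1, by rw [hbn]⟩
  · rw [hbe]
    exact D.per a β _ ⟨h1, h2, h3⟩

theorem cN_pos_odd {m t c : ℤ} (ht : Odd t) (h : Unt m t c) {N : ℕ} (hN : Nat.Coprime N (MM m)) :
    0 < c * (N : ℤ) ∧ Odd (c * (N : ℤ)) := by
  have hNo := odd_of_cop hN
  have hNp : 0 < N := hNo.pos
  refine ⟨mul_pos h.2.1 (by exact_mod_cast hNp), ?_⟩
  exact (odd_of_unt ht h).mul (by exact_mod_cast hNo)

/-- The value of the counting function at `c N`. -/
theorem cnt_eq (h4 : CNT_Stmt) (h7 : CVT_Stmt) {m t c : ℤ} (hm : Good m) (hu : Unt m t c) :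
    ∃ w : ℕ, 0 < w ∧ ∀ (D : CD m) (a : ℕ) (β : ℤ), Val m a β → ∀ (A g : SL(2, ℤ)),
      IsA m t c a β (g * A * g⁻¹) → ∀ N : ℕ, Nat.Coprime N (MM m) →
      cnt A (c * N) = w * rg D (D.cl a β) N := by
  obtain ⟨w, hw, H⟩ := h4 m hm t c hu
  refine ⟨w, hw, fun D a β hv A g hA N hN => ?_⟩
  rw [← H D a β hv _ hA N hN, ← h7.1 g A, (h7.2.1 m t c a β _ hu.2.1 hA).1]

theorem m_eq {m m' t c : ℤ} (h : Unt m t c) (h' : Unt m' t c) : m = m' := by
  have e : c ^ 2 * (1 + 4 * m) = c ^ 2 * (1 + 4 * m') := by rw [← h.2.2, ← h'.2.2]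
  have hc : c ^ 2 ≠ 0 := pow_ne_zero _ h.2.1.ne'
  have := mul_left_cancel₀ hc e
  linarith

theorem c_dvd (h1 : CDX_Stmt) (h4 : CNT_Stmt) (h5 : NRM_Stmt) (h7 : CVT_Stmt)
    {A A' : SL(2, ℤ)} (hodd : Odd A.1.trace)
    (h2 : 2 < A.1.trace) (hc : ∀ N : ℤ, 0 < N → Odd N → cnt A N = cnt A' N)
    {m c m' c' : ℤ} (hm : Good m) (hu : Unt m A.1.trace c)
    (hch : ∀ d : ℤ, (d ∣ A 1 0 ∧ d ∣ A 1 1 - A 0 0 ∧ d ∣ A 0 1) ↔ d ∣ c)
    {a' : ℕ} {β' : ℤ} {g' : SL(2, ℤ)} (hc'0 : 0 < c')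
    (hA' : IsA m' A'.1.trace c' a' β' (g' * A' * g'⁻¹)) : c' ∣ c := by
  obtain ⟨m₁, c₁, hm₁, hu₁, hch₁, a, β, hv, hcop, g, hA⟩ :=
    h5 A c'.natAbs (Int.natAbs_pos.mpr hc'0.ne') hodd h2
  have hcc : c₁ = c := by
    apply Int.dvd_antisymm hu₁.2.1.le hu.2.1.le
    · exact (hch c₁).mp ((hch₁ c₁).mpr dvd_rfl)
    · exact (hch₁ c).mp ((hch c).mpr dvd_rfl)
  subst hcc
  have hmm : m₁ = m := m_eq hu₁ hu
  subst hmm
  obtain ⟨D⟩ := h1 m₁ hm
  obtain ⟨w, hw, H⟩ := cnt_eq h4 h7 hm hu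
  have e1 := H D a β hv A g hA a hv.2.1
  obtain ⟨p1, p2⟩ := cN_pos_odd hodd hu hv.2.1
  rw [hc _ p1 p2] at e1
  have hpos : 0 < w * rg D (D.cl a β) a := mul_pos hw (rg_pos D hv)
  have hdvd : c' ∣ c₁ * (a : ℤ) := by
    by_contra hnd
    have := (h7.2.1 m' A'.1.trace c' a' β' _ hc'0 hA').2.1 (c₁ * (a : ℤ)) hnd
    rw [h7.1] at this
    omega
  have hcop' : IsCoprime (c' : ℤ) (a : ℤ) := by
    rw [Int.isCoprime_iff_gcd_eq_one, Int.gcd_eq_natAbs, Int.natAbs_natCast]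
    exact Nat.Coprime.symm hcop
  exact hcop'.dvd_of_dvd_mul_right hdvd

end ARP

open ARP in
theorem arp (h1 : CDX_Stmt) (h2 : IND_Stmt) (h3 : SBD_Stmt) (h4 : CNT_Stmt) (h5 : NRM_Stmt)
    (h6 : CNJ_Stmt) (h7 : CVT_Stmt) : ARP_Stmt := by
  intro A A' htr hodd ht2 hc
  obtain ⟨m, c, hm, hu, hch, a, β, hv, -, g, hA⟩ := h5 A 1 one_pos hodd ht2
  obtain ⟨m', c', hm', hu', hch', a', β', hv', -, g', hA'⟩ :=
    h5 A' 1 one_pos (htr ▸ hodd) (htr ▸ ht2)
  have d1 : c' ∣ c := c_dvd h1 h4 h5 h7 hodd ht2 hc hm hu hch hu'.2.1 hA'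
  have d2 : c ∣ c' := c_dvd h1 h4 h5 h7 (htr ▸ hodd) (htr ▸ ht2)
    (fun N hN hN' => (hc N hN hN').symm) hm' hu' hch' hu.2.1 hA
  have hcc : c' = c := Int.dvd_antisymm hu'.2.1.le hu.2.1.le d1 d2
  subst hcc
  rw [← htr] at hu' hA'
  have hmm : m' = m := m_eq hu' hu
  subst hmm
  obtain ⟨D⟩ := h1 m' hm
  obtain ⟨w, hw, H⟩ := cnt_eq h4 h7 hm hu
  have hrg : ∀ N, rg D (D.cl a β) N = rg D (D.cl a' β') N := by
    intro N
    by_cases hN : Nat.Coprime N (MM m')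
    · obtain ⟨p1, p2⟩ := cN_pos_odd hodd hu hN
      have e1 := H D a β hv A g hA N hN
      have e2 := H D a' β' hv' A' g' hA' N hN
      rw [hc _ p1 p2, e2] at e1
      exact (Nat.eq_of_mul_eq_mul_left hw e1).symm
    · unfold rg
      rw [if_neg hN, if_neg hN]
  rcases h2 m' hm D (fun ψ hψ => h3 m' hm _ _ hu D ψ hψ) _ _ hrg with hcl | hcl
  · left
    have hPE : PE m' a β a' β' := (D.eqv a β a' β' hv hv').mp hcl.symm
    obtain ⟨k, hk⟩ := h6.1 m' _ c' a β a' β' _ _ hm hv hv' hA hA' hPE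
    refine ⟨g'⁻¹ * k * g, ?_⟩
    have : A' = g'⁻¹ * (g' * A' * g'⁻¹) * g' := by group
    rw [this, hk]
    group
  · right
    rw [← D.inv a β hv] at hcl
    have hPE : PE m' a (-1 - β) a' β' := (D.eqv a (-1 - β) a' β' (val_inv hv) hv').mp hcl.symm
    have hrev := h6.2.1 m' _ c' a β _ hA
    obtain ⟨k, hk⟩ := h6.1 m' _ c' a (-1 - β) a' β' _ _ hm (val_inv hv) hv' hrev hA' hPE
    obtain ⟨l, hl⟩ := h6.2.2 g A
    refine ⟨g'⁻¹ * k * l, ?_⟩
    have : A' = g'⁻¹ * (g' * A' * g'⁻¹) * g' := by group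
    rw [this, hk, hl]
    group

namespace ARP

theorem trace_neg_inv (A : SL(2, ℤ)) : (-A⁻¹).1.trace = -A.1.trace := by
  rw [Matrix.SpecialLinearGroup.coe_neg, Matrix.trace_neg, Matrix.SpecialLinearGroup.coe_inv,
    Matrix.trace_fin_two, Matrix.trace_fin_two, Matrix.adjugate_fin_two]
  simp [add_comm]

theorem revM_neg_inv (A : SL(2, ℤ)) : revM (-A⁻¹) = -(revM A)⁻¹ := by
  apply Matrix.SpecialLinearGroup.ext
  intro i j
  rw [Matrix.SpecialLinearGroup.coe_neg, Matrix.SpecialLinearGroup.coe_inv,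
    Matrix.adjugate_fin_two]
  fin_cases i <;> fin_cases j <;>
    simp [revM, Matrix.SpecialLinearGroup.coe_inv, Matrix.adjugate_fin_two]

theorem neg_conj (g B : SL(2, ℤ)) : g * (-B) * g⁻¹ = -(g * B * g⁻¹) := by
  rw [mul_neg, neg_mul]

end ARP

open ARP in
theorem arith (h1 : ARP_Stmt) (h2 : CVT_Stmt) : ARITH_Stmt := by
  intro A A' htr hodd ht hc
  rcases le_or_gt 0 A.1.trace with hs | hs
  · rw [abs_of_nonneg hs] at ht
    exact h1 A A' htr hodd ht hc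
  · rw [abs_of_neg hs] at ht
    have ht' : 2 < |A.1.trace| := by rw [abs_of_neg hs]; exact ht
    have h3 := h1 (-A⁻¹) (-A'⁻¹) (by rw [trace_neg_inv, trace_neg_inv, htr])
      (by rw [trace_neg_inv]; exact hodd.neg) (by rw [trace_neg_inv]; exact ht)
      (fun N hN hN' => by
        rw [h2.2.2 A ht' N, h2.2.2 A' (by rw [← htr]; exact ht') N]
        exact hc N hN hN')
    rcases h3 with ⟨g, hg⟩ | ⟨g, hg⟩
    · left
      refine ⟨g, ?_⟩
      rw [neg_conj] at hg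
      have h4 := neg_injective hg
      have h5 := congrArg (fun x => x⁻¹) h4
      simp only [inv_inv] at h5
      rw [h5]
      group
    · right
      refine ⟨g, ?_⟩
      rw [revM_neg_inv, neg_conj] at hg
      have h4 := neg_injective hg
      have h5 := congrArg (fun x => x⁻¹) h4
      simp only [inv_inv] at h5
      rw [h5]
      group

end Pool.Agent.C3A
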