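import Pool.Agent.C3A.Stmts

/-!
Closed 3-braids, arithmetic half: `bc` is multiplicative.
-/

open scoped BigOperators

noncomputable section

namespace Pool.Agent.C3A

namespace BCM

variable {m : ℤ}

theorem mm_ne_one (m : ℤ) : MM m ≠ 1 := by
  unfold MM
  omega

theorem pos_of_coprime {a : ℕ} (h : Nat.Coprime a (MM m)) : 0 < a := by
  rcases Nat.eq_zero_or_pos a with h0 | h0
  · subst h0
    rw [Nat.coprime_zero_left] at h
    exact absurd h (mm_ne_one m)
  · exact h0

/-- the polynomial respects congruences -/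
theorem fm_sub_dvd (m : ℤ) {a x y : ℤ} (h : a ∣ x - y) : a ∣ fm m x - fm m y := by
  have e : fm m x - fm m y = (x - y) * (x + y + 1) := by
    unfold fm
    ring
  rw [e]
  exact h.mul_right _

theorem mod_sub (β a : ℕ) : (a : ℤ) ∣ (β : ℤ) - ((β % a : ℕ) : ℤ) := by
  refine ⟨((β / a : ℕ) : ℤ), ?_⟩
  have h : (β : ℤ) = ((β % a : ℕ) : ℤ) + (a : ℤ) * ((β / a : ℕ) : ℤ) := by
    exact_mod_cast (Nat.mod_add_div β a).symm
  linarith

theorem dvd_mod {a β : ℕ} (h : (a : ℤ) ∣ fm m β) : (a : ℤ) ∣ fm m ((β % a : ℕ) : ℤ) := by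
  have h1 := fm_sub_dvd m (mod_sub β a)
  have h2 := dvd_sub h h1
  rwa [sub_sub_cancel] at h2

theorem cl_mod (D : CD m) {a β : ℕ} (hc : Nat.Coprime a (MM m)) (h : (a : ℤ) ∣ fm m β) :
    D.cl a (β : ℤ) = D.cl a ((β % a : ℕ) : ℤ) := by
  have e : (β : ℤ) = ((β % a : ℕ) : ℤ) + (a : ℤ) * ((β / a : ℕ) : ℤ) := by
    exact_mod_cast (Nat.mod_add_div β a).symm
  rw [e]
  have := D.per a ((β % a : ℕ) : ℤ) ((β / a : ℕ) : ℤ) ⟨pos_of_coprime hc, hc, dvd_mod h⟩
  rw [this]

theorem bc_one (D : CD m) (χ : D.G →* ℂˣ) : bc D χ 1 = 1 := by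
  unfold bc
  rw [if_pos (Nat.coprime_one_left _)]
  have hb : bs m 1 = {0} := by
    unfold bs
    ext β
    simp
  rw [hb, Finset.sum_singleton]
  have hv : Val m (1 * 1) 0 := by
    refine ⟨by norm_num, ?_, ?_⟩
    · simp
    · simp
  have h := D.mul 1 1 0 hv
  have h1 : D.cl 1 0 = 1 := by
    rw [one_mul] at h
    exact (mul_eq_left.mp h.symm)
  rw [Nat.cast_zero, h1, map_one, Units.val_one]

theorem bc_mul (D : CD m) (χ : D.G →* ℂˣ) {a a' : ℕ} (hco : Nat.Coprime a a') :
    bc D χ (a * a') = bc D χ a * bc D χ a' := by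
  by_cases hc : Nat.Coprime (a * a') (MM m)
  · have hca : Nat.Coprime a (MM m) := Nat.Coprime.coprime_mul_right hc
    have hca' : Nat.Coprime a' (MM m) := Nat.Coprime.coprime_mul_left hc
    have ha := pos_of_coprime hca
    have ha' := pos_of_coprime hca'
    unfold bc
    rw [if_pos hc, if_pos hca, if_pos hca', Finset.sum_mul_sum, ← Finset.sum_product']
    refine Finset.sum_bij (fun β _ => (β % a, β % a')) ?_ ?_ ?_ ?_
    · intro β hβ
      unfold bs at hβ ⊢
      rw [Finset.mem_filter] at hβ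
      rw [Finset.mem_product, Finset.mem_filter, Finset.mem_filter, Finset.mem_range,
        Finset.mem_range]
      have hd := hβ.2
      push_cast at hd
      exact ⟨⟨Nat.mod_lt _ ha, dvd_mod (dvd_of_mul_right_dvd hd)⟩,
        ⟨Nat.mod_lt _ ha', dvd_mod (dvd_of_mul_left_dvd hd)⟩⟩
    · intro β hβ β' hβ' heq
      unfold bs at hβ hβ'
      rw [Finset.mem_filter, Finset.mem_range] at hβ hβ'
      rw [Prod.mk.injEq] at heq
      have h1 : β ≡ β' [MOD a * a'] :=
        (Nat.modEq_and_modEq_iff_modEq_mul hco).mp ⟨heq.1, heq.2⟩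
      exact Nat.ModEq.eq_of_lt_of_lt h1 hβ.1 hβ'.1
    · rintro ⟨x, y⟩ hxy
      unfold bs at hxy
      rw [Finset.mem_product, Finset.mem_filter, Finset.mem_filter, Finset.mem_range,
        Finset.mem_range] at hxy
      obtain ⟨⟨hx, hdx⟩, ⟨hy, hdy⟩⟩ := hxy
      simp only at hx hy hdx hdy
      set k := Nat.chineseRemainder hco x y with hk
      have hk1 : (k : ℕ) % a = x := by
        have := k.2.1
        unfold Nat.ModEq at this
        rw [this, Nat.mod_eq_of_lt hx]
      have hk2 : (k : ℕ) % a' = y := by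
        have := k.2.2
        unfold Nat.ModEq at this
        rw [this, Nat.mod_eq_of_lt hy]
      have hlt : (k : ℕ) < a * a' := Nat.chineseRemainder_lt_mul hco x y ha.ne' ha'.ne'
      refine ⟨(k : ℕ), ?_, ?_⟩
      · unfold bs
        rw [Finset.mem_filter, Finset.mem_range]
        refine ⟨hlt, ?_⟩
        push_cast
        have hcop : IsCoprime (a : ℤ) (a' : ℤ) := Nat.isCoprime_iff_coprime.mpr hco
        refine hcop.mul_dvd ?_ ?_
        · have h1 := fm_sub_dvd m (mod_sub (k : ℕ) a)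
          rw [hk1] at h1
          have h2 := dvd_add h1 hdx
          rwa [sub_add_cancel] at h2
        · have h1 := fm_sub_dvd m (mod_sub (k : ℕ) a')
          rw [hk2] at h1
          have h2 := dvd_add h1 hdy
          rwa [sub_add_cancel] at h2
      · rw [hk1, hk2]
    · intro β hβ
      unfold bs at hβ
      rw [Finset.mem_filter, Finset.mem_range] at hβ
      have hd := hβ.2
      have hv : Val m (a * a') β := ⟨Nat.mul_pos ha ha', hc, hd⟩
      push_cast at hd
      rw [D.mul a a' β hv, map_mul, Units.val_mul, cl_mod D hca (dvd_of_mul_right_dvd hd),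
        cl_mod D hca' (dvd_of_mul_left_dvd hd)]
  · have h1 : bc D χ (a * a') = 0 := by
      unfold bc
      rw [if_neg hc]
    rw [h1]
    have h2 : ¬ Nat.Coprime a (MM m) ∨ ¬ Nat.Coprime a' (MM m) := by
      by_contra hcon
      rw [not_or, not_not, not_not] at hcon
      exact hc (Nat.Coprime.mul_left hcon.1 hcon.2)
    rcases h2 with h2 | h2
    · have : bc D χ a = 0 := by
        unfold bc
        rw [if_neg h2]
      rw [this, zero_mul]
    · have : bc D χ a' = 0 := by
        unfold bc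
        rw [if_neg h2]
      rw [this, mul_zero]

end BCM

/-- BCM: `bc` is multiplicative. -/
theorem bcm : BCM_Stmt := fun _ _ D χ => ⟨BCM.bc_one D χ, fun _ _ h => BCM.bc_mul D χ h⟩

end Pool.Agent.C3A
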