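import Pool.Agent.C3A.Stmts

/-!
Closed 3-braids, arithmetic half, module CDX: class data exist.
-/

open scoped BigOperators Real MatrixGroups ContDiff Topology

noncomputable section

namespace Pool.Agent.C3A

namespace CDX

variable {m : ℤ}

theorem val_left {a a' : ℕ} {β : ℤ} (h : Val m (a * a') β) : Val m a β := by
  obtain ⟨h1, h2, h3⟩ := h
  refine ⟨Nat.pos_of_mul_pos_right h1, h2.coprime_mul_right, ?_⟩
  rw [Nat.cast_mul] at h3
  exact (dvd_mul_right _ _).trans h3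

theorem val_right {a a' : ℕ} {β : ℤ} (h : Val m (a * a') β) : Val m a' β := by
  rw [mul_comm] at h
  exact val_left h

theorem val_shift {a : ℕ} {β : ℤ} (k : ℤ) (h : Val m a β) : Val m a (β + a * k) := by
  obtain ⟨h1, h2, h3⟩ := h
  refine ⟨h1, h2, ?_⟩
  have h4 : fm m (β + a * k) = fm m β + a * (k * (2 * β + a * k + 1)) := by
    unfold fm
    ring
  rw [h4]
  exact dvd_add h3 (dvd_mul_right _ _)

theorem val_neg {a : ℕ} {β : ℤ} (h : Val m a β) : Val m a (-1 - β) := by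
  obtain ⟨h1, h2, h3⟩ := h
  refine ⟨h1, h2, ?_⟩
  have h4 : fm m (-1 - β) = fm m β := by
    unfold fm
    ring
  rw [h4]
  exact h3

theorem val_congr {a : ℕ} {β b : ℤ} (h : Val m a β) (hb : (a : ℤ) ∣ b - β) :
    Val m a b ∧ ∃ k : ℤ, b = β + a * k := by
  obtain ⟨k, hk⟩ := hb
  have h1 : b = β + a * k := by linarith
  refine ⟨?_, k, h1⟩
  rw [h1]
  exact val_shift k h

theorem val_one : Val m 1 0 := ⟨one_pos, Nat.coprime_one_left _, by simp⟩

theorem mul_span (x y : Km m) : Submodule.span (Om m) {x} * Submodule.span (Om m) {y} =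
    Submodule.span (Om m) {x * y} := by
  rw [Submodule.span_mul_span, Set.singleton_mul_singleton]

theorem exists_inv {α : Km m} (h : 0 < QuadraticAlgebra.norm α) :
    ∃ β : Km m, α * β = 1 ∧ 0 < QuadraticAlgebra.norm β := by
  have h1 : IsUnit α := QuadraticAlgebra.isUnit_iff_norm_isUnit.mpr h.ne'.isUnit
  obtain ⟨u, rfl⟩ := h1
  refine ⟨(u⁻¹ : (Km m)ˣ), u.mul_inv, ?_⟩
  have h2 : QuadraticAlgebra.norm (u : Km m) * QuadraticAlgebra.norm ((u⁻¹ : (Km m)ˣ) : Km m) =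
      1 := by
    rw [← map_mul, u.mul_inv, QuadraticAlgebra.norm_one]
  by_contra h3
  push Not at h3
  nlinarith [mul_nonneg h.le (neg_nonneg.mpr h3)]

theorem norm_nat (a : ℕ) (h : 0 < a) : 0 < QuadraticAlgebra.norm (⟨(a : ℚ), 0⟩ : Km m) := by
  rw [QuadraticAlgebra.norm_def]
  have : (0 : ℚ) < a := by exact_mod_cast h
  simp only [mul_zero, sub_zero, add_zero]
  positivity

/-- Fractional ideals. -/
abbrev UU (m : ℤ) := (Submodule (Om m) (Km m))ˣ

/-- Principal ideals with a generator of positive norm. -/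
def PP (m : ℤ) : Subgroup (UU m) where
  carrier := {u | ∃ α : Km m, 0 < QuadraticAlgebra.norm α ∧
    (u : Submodule (Om m) (Km m)) = Submodule.span (Om m) {α}}
  one_mem' := ⟨1, by rw [QuadraticAlgebra.norm_one]; exact one_pos, by
    rw [Units.val_one, Submodule.one_eq_span]⟩
  mul_mem' := by
    rintro u v ⟨α, hα, hu⟩ ⟨β, hβ, hv⟩
    refine ⟨α * β, ?_, ?_⟩
    · rw [map_mul]
      exact mul_pos hα hβ
    · rw [Units.val_mul, hu, hv, mul_span]
  inv_mem' := by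
    rintro u ⟨α, hα, hu⟩
    obtain ⟨β, hβ, hβ2⟩ := exists_inv hα
    refine ⟨β, hβ2, ?_⟩
    apply Units.inv_eq_of_mul_eq_one_right
    rw [hu, mul_span, hβ, Submodule.one_eq_span]

theorem uu_comm (u v : UU m) : u * v = v * u := by
  apply Units.ext
  rw [Units.val_mul, Units.val_mul]
  exact mul_comm _ _

instance normalPP (m : ℤ) : (PP m).Normal where
  conj_mem n hn g := by
    rw [uu_comm g n, mul_assoc, mul_inv_cancel, mul_one]
    exact hn

/-- The group of classes of fractional ideals. -/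
abbrev QQ (m : ℤ) := UU m ⧸ PP m

theorem qq_comm (x y : QQ m) : x * y = y * x := by
  obtain ⟨u, rfl⟩ := QuotientGroup.mk_surjective x
  obtain ⟨v, rfl⟩ := QuotientGroup.mk_surjective y
  rw [← QuotientGroup.mk_mul, ← QuotientGroup.mk_mul, uu_comm]

theorem exists_unit (h1 : IDM_Stmt) (hg : Good m) {a : ℕ} {β : ℤ} (h : Val m a β) :
    ∃ u : UU m, (u : Submodule (Om m) (Km m)) = idl m a β := by
  obtain ⟨γ, hγ, -⟩ := exists_inv (norm_nat (m := m) a h.1)
  refine ⟨Units.mkOfMulEqOne (idl m a β) (idl m a (-1 - β) * Submodule.span (Om m) {γ}) ?_, rfl⟩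
  rw [← mul_assoc, ((h1 m hg).2.2.1 a β h), mul_span, hγ, Submodule.one_eq_span]

open Classical in
/-- The ideal, as a unit. -/
def uu (m : ℤ) (a : ℕ) (β : ℤ) : UU m :=
  if h : ∃ u : UU m, (u : Submodule (Om m) (Km m)) = idl m a β then h.choose else 1

theorem uu_val (h1 : IDM_Stmt) (hg : Good m) {a : ℕ} {β : ℤ} (h : Val m a β) :
    (uu m a β : Submodule (Om m) (Km m)) = idl m a β := by
  have h2 := exists_unit h1 hg h
  rw [uu, dif_pos h2]
  exact h2.choose_spec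

open Classical in
/-- The class. -/
def cc (m : ℤ) (a : ℕ) (β : ℤ) : QQ m :=
  if Val m a β then QuotientGroup.mk (uu m a β) else 1

theorem cc_mul (h1 : IDM_Stmt) (hg : Good m) (a a' : ℕ) (β : ℤ) (h : Val m (a * a') β) :
    cc m (a * a') β = cc m a β * cc m a' β := by
  rw [cc, cc, cc, if_pos h, if_pos (val_left h), if_pos (val_right h), ← QuotientGroup.mk_mul]
  congr 1
  apply Units.ext
  rw [Units.val_mul, uu_val h1 hg h, uu_val h1 hg (val_left h), uu_val h1 hg (val_right h)]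
  exact (h1 m hg).2.1 a a' β h

theorem cc_per (h1 : IDM_Stmt) (hg : Good m) (a : ℕ) (β k : ℤ) (h : Val m a β) :
    cc m a (β + a * k) = cc m a β := by
  rw [cc, cc, if_pos h, if_pos (val_shift k h)]
  congr 1
  apply Units.ext
  rw [uu_val h1 hg h, uu_val h1 hg (val_shift k h)]
  exact (h1 m hg).2.2.2 a β k

theorem cc_inv (h1 : IDM_Stmt) (hg : Good m) (a : ℕ) (β : ℤ) (h : Val m a β) :
    cc m a (-1 - β) = (cc m a β)⁻¹ := by
  apply eq_inv_of_mul_eq_one_right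
  rw [cc, cc, if_pos h, if_pos (val_neg h), ← QuotientGroup.mk_mul, QuotientGroup.eq_one_iff]
  refine ⟨⟨(a : ℚ), 0⟩, norm_nat a h.1, ?_⟩
  rw [Units.val_mul, uu_val h1 hg h, uu_val h1 hg (val_neg h)]
  exact (h1 m hg).2.2.1 a β h

theorem cc_eqv (h1 : IDM_Stmt) (h2 : IDE_Stmt) (hg : Good m) (a : ℕ) (β : ℤ) (a' : ℕ) (β' : ℤ)
    (h : Val m a β) (h' : Val m a' β') : cc m a β = cc m a' β' ↔ PE m a β a' β' := by
  rw [← h2 m hg a β a' β' h h', cc, cc, if_pos h, if_pos h', eq_comm, QuotientGroup.eq]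
  constructor
  · rintro ⟨α, hα, hu⟩
    refine ⟨α, hα, ?_⟩
    rw [← uu_val h1 hg h, ← uu_val h1 hg h', ← hu, Units.val_mul, mul_comm, ← mul_assoc,
      Units.mul_inv, one_mul]
  · rintro ⟨α, hα, hu⟩
    refine ⟨α, hα, ?_⟩
    rw [Units.val_mul, uu_val h1 hg h, hu, ← uu_val h1 hg h', mul_comm, mul_assoc,
      Units.mul_inv, mul_one]

theorem cc_one (h1 : IDM_Stmt) (hg : Good m) : cc m 1 0 = 1 := by
  have h := cc_mul h1 hg 1 1 0 (by rw [mul_one]; exact val_one)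
  rw [mul_one] at h
  exact (mul_eq_left.mp h.symm)

theorem prim {a : ℕ} {β : ℤ} (h : Val m a β) (d : ℤ) (h1 : d ∣ (a : ℤ)) (h2 : d ∣ 2 * β + 1) :
    IsUnit d := by
  have h3 : d ∣ 1 + 4 * m := by
    have h4 : 1 + 4 * m = (2 * β + 1) * (2 * β + 1) - 4 * fm m β := by
      unfold fm
      ring
    rw [h4]
    exact dvd_sub (h2.mul_right _) ((h1.trans h.2.2).mul_left _)
  rw [Int.isUnit_iff_natAbs_eq]
  have h4 : d.natAbs ∣ a := by
    rw [← Int.natAbs_natCast a]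
    exact Int.natAbs_dvd_natAbs.mpr h1
  have h5 : d.natAbs ∣ MM m := by
    rw [MM]
    exact (Int.natAbs_dvd_natAbs.mpr h3).mul_left _
  exact Nat.eq_one_of_dvd_coprimes h.2.1 h4 h5

/-- The product of two classes is a class. -/
theorem closed (h1 : IDM_Stmt) (h2 : IDE_Stmt) (h4 : VAL_Stmt) (hg : Good m) {a : ℕ} {β : ℤ}
    {a' : ℕ} {β' : ℤ} (h : Val m a β) (h' : Val m a' β') :
    ∃ (n : ℕ) (b : ℤ), Val m n b ∧ cc m n b = cc m a β * cc m a' β' := by
  obtain ⟨c', hc'⟩ := h'.2.2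
  have ha' : (a' : ℤ) ≠ 0 := by
    have := h'.1
    omega
  have hdiv : fm m β' / (a' : ℤ) = c' := by
    rw [hc']
    exact Int.mul_ediv_cancel_left _ ha'
  obtain ⟨n, γ, hn, hcop, p, q, r, s, hdet, hv⟩ := h4 m hg a' (2 * β' + 1) c' (by
    have h5 : (2 * β' + 1) ^ 2 - 4 * (a' : ℤ) * c' = (2 * β' + 1) ^ 2 - 4 * fm m β' := by
      rw [hc']
      ring
    rw [h5]
    unfold fm
    ring) (fun d hd1 hd2 _ => prim h' d hd1 hd2) a h.1
  have h5 : PE m a' β' n γ := by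
    refine ⟨p, q, r, s, hdet, ?_⟩
    intro v
    rw [← hv v, frm, hdiv]
  have h6 : cc m a' β' = cc m n γ := (cc_eqv h1 h2 hg a' β' n γ h' hn).mpr h5
  have hcop' : IsCoprime (a : ℤ) (n : ℤ) := by
    rw [Int.isCoprime_iff_gcd_eq_one]
    exact hcop.symm
  obtain ⟨x, y, hxy⟩ := hcop'
  set b : ℤ := β * (y * n) + γ * (x * a) with hb
  have hb1 : (a : ℤ) ∣ b - β := by
    refine ⟨(γ - β) * x, ?_⟩
    rw [hb]
    linear_combination β * hxy
  have hb2 : (n : ℤ) ∣ b - γ := by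
    refine ⟨(β - γ) * y, ?_⟩
    rw [hb]
    linear_combination γ * hxy
  obtain ⟨hv1, k, hk⟩ := val_congr h hb1
  obtain ⟨hv2, l, hl⟩ := val_congr hn hb2
  have hv3 : Val m (a * n) b := by
    refine ⟨Nat.mul_pos h.1 hn.1, Nat.Coprime.mul_left h.2.1 hn.2.1, ?_⟩
    rw [Nat.cast_mul]
    exact IsCoprime.mul_dvd ⟨x, y, hxy⟩ hv1.2.2 hv2.2.2
  refine ⟨a * n, b, hv3, ?_⟩
  rw [cc_mul h1 hg a n b hv3, h6]
  congr 1
  · rw [hk]
    exact cc_per h1 hg a β k h
  · rw [hl]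
    exact cc_per h1 hg n γ l hn

/-- The class group. -/
def GG (h1 : IDM_Stmt) (h2 : IDE_Stmt) (h4 : VAL_Stmt) (hg : Good m) : Subgroup (QQ m) where
  carrier := {g | ∃ (a : ℕ) (β : ℤ), Val m a β ∧ cc m a β = g}
  one_mem' := ⟨1, 0, val_one, cc_one h1 hg⟩
  mul_mem' := by
    rintro _ _ ⟨a, β, h, rfl⟩ ⟨a', β', h', rfl⟩
    exact closed h1 h2 h4 hg h h'
  inv_mem' := by
    rintro _ ⟨a, β, h, rfl⟩
    exact ⟨a, -1 - β, val_neg h, cc_inv h1 hg a β h⟩

theorem cc_mem (h1 : IDM_Stmt) (h2 : IDE_Stmt) (h4 : VAL_Stmt) (hg : Good m) (a : ℕ) (β : ℤ) :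
    cc m a β ∈ GG h1 h2 h4 hg := by
  by_cases h : Val m a β
  · exact ⟨a, β, h, rfl⟩
  · rw [cc, if_neg h]
    exact (GG h1 h2 h4 hg).one_mem

theorem finite_GG (h1 : IDM_Stmt) (h2 : IDE_Stmt) (h3 : CLF_Stmt) (h4 : VAL_Stmt) (hg : Good m) :
    Finite (GG h1 h2 h4 hg) := by
  classical
  obtain ⟨S, hS⟩ := h3 m hg
  have h5 : (GG h1 h2 h4 hg : Set (QQ m)) ⊆ (S.image (fun p => cc m p.1 p.2) : Finset (QQ m)) := by
    rintro _ ⟨a, β, h, rfl⟩
    obtain ⟨p, hp, hp1, hp2⟩ := hS a β h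
    rw [Finset.mem_coe, Finset.mem_image]
    exact ⟨p, hp, ((cc_eqv h1 h2 hg a β p.1 p.2 h hp1).mpr hp2).symm⟩
  exact ((Finset.finite_toSet _).subset h5).to_subtype

end CDX

open CDX in
/-- CDX: class data exist. -/
theorem cdx (h1 : IDM_Stmt) (h2 : IDE_Stmt) (h3 : CLF_Stmt) (h4 : VAL_Stmt) : CDX_Stmt := by
  intro m hg
  have h5 := finite_GG h1 h2 h3 h4 hg
  exact ⟨{
    G := GG h1 h2 h4 hg
    cg := { (inferInstance : Group (GG h1 h2 h4 hg)) with
      mul_comm := fun x y => Subtype.ext (qq_comm x.1 y.1) }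
    fg := h5
    cl := fun a β => ⟨cc m a β, cc_mem h1 h2 h4 hg a β⟩
    mul := fun a a' β h => Subtype.ext (cc_mul h1 hg a a' β h)
    per := fun a β k h => Subtype.ext (cc_per h1 hg a β k h)
    inv := fun a β h => Subtype.ext (cc_inv h1 hg a β h)
    eqv := fun a β a' β' h h' => by
      rw [Subtype.ext_iff]
      exact cc_eqv h1 h2 hg a β a' β' h h'
    sur := by
      rintro ⟨_, a, β, h, rfl⟩
      exact ⟨a, β, h, rfl⟩ }⟩

end Pool.Agent.C3A
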