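import Pool.Agent.C3A.Stmts

/-!
CLF: finiteness of the number of classes (Lagrange reduction).
-/

noncomputable section

namespace Pool.Agent.C3A

namespace CLF

/-- the form `(A, B, C)` -/
def gf (A B C : ℤ) (v : ℤ × ℤ) : ℤ := A * v.1 ^ 2 + B * (v.1 * v.2) + C * v.2 ^ 2

/-- proper equivalence of functions -/
def EQ (f f' : ℤ × ℤ → ℤ) : Prop :=
  ∃ p q r s : ℤ, p * s - q * r = 1 ∧ ∀ v, f (sub2 p q r s v) = f' v

lemma EQ.refl (f : ℤ × ℤ → ℤ) : EQ f f := ⟨1, 0, 0, 1, by norm_num, fun v => by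
  congr 1; unfold sub2; ext <;> simp⟩

lemma EQ.trans {f f' f'' : ℤ × ℤ → ℤ} (h : EQ f f') (h' : EQ f' f'') : EQ f f'' := by
  obtain ⟨p, q, r, s, hd, he⟩ := h
  obtain ⟨p', q', r', s', hd', he'⟩ := h'
  refine ⟨p * p' + q * r', p * q' + q * s', r * p' + s * r', r * q' + s * s', ?_, fun v => ?_⟩
  · linear_combination hd' * (p * s - q * r) + hd
  · rw [← he' v, ← he]
    congr 1
    unfold sub2
    ext <;> simp <;> ring

lemma EQ.symm {f f' : ℤ × ℤ → ℤ} (h : EQ f f') : EQ f' f := by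
  obtain ⟨p, q, r, s, hd, he⟩ := h
  refine ⟨s, -q, -r, p, by linarith, fun v => ?_⟩
  rw [← he]
  congr 1
  obtain ⟨x, y⟩ := v
  unfold sub2
  ext
  · simp only
    linear_combination hd * x
  · simp only
    linear_combination hd * y

/-- translation -/
lemma tr (A B C n : ℤ) : EQ (gf A B C) (gf A (B + 2 * A * n) (A * n ^ 2 + B * n + C)) :=
  ⟨1, n, 0, 1, by ring, fun v => by unfold gf sub2; ring⟩

/-- exchange -/
lemma sw (A B C : ℤ) : EQ (gf A B C) (gf C (-B) A) :=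
  ⟨0, -1, 1, 0, by ring, fun v => by unfold gf sub2; ring⟩

/-- there is a translation with `|B + 2 A n| ≤ |A|` -/
lemma exists_tr {A : ℤ} (hA : A ≠ 0) (B : ℤ) : ∃ n : ℤ, |B + 2 * A * n| ≤ |A| := by
  -- `bmod` of `B` modulo `2 |A|`
  have h2 : 0 < 2 * A.natAbs := by have := Int.natAbs_pos.2 hA; omega
  have h1 := Int.le_bmod (x := B) (m := 2 * A.natAbs) h2
  have h3 := Int.bmod_lt (x := B) (m := 2 * A.natAbs) h2
  have h4 : ((2 * A.natAbs : ℕ) : ℤ) ∣ B - B.bmod (2 * A.natAbs) := Int.dvd_self_sub_bmod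
  obtain ⟨k, hk⟩ := h4
  have h5 : ((2 * A.natAbs : ℕ) : ℤ) = 2 * |A| := by push_cast; rfl
  rw [h5] at hk h1 h3
  have h6 : |B.bmod (2 * A.natAbs)| ≤ |A| := by
    rw [abs_le]; constructor <;> omega
  rcases abs_choice A with hc | hc
  · refine ⟨-k, ?_⟩
    rw [show B + 2 * A * -k = B.bmod (2 * A.natAbs) by rw [hc] at hk; linarith]
    exact h6
  · refine ⟨k, ?_⟩
    rw [show B + 2 * A * k = B.bmod (2 * A.natAbs) by rw [hc] at hk; linarith]
    exact h6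

lemma lead_ne {D A B C : ℤ} (hD : ¬ IsSquare D) (h : B ^ 2 - 4 * A * C = D) : A ≠ 0 ∧ C ≠ 0 := by
  constructor
  · rintro rfl
    exact hD ⟨B, by linarith [h, sq B]⟩
  · rintro rfl
    exact hD ⟨B, by linarith [h, sq B]⟩

/-- Lagrange reduction -/
lemma reduce {D : ℤ} (hD0 : 0 < D) (hD : ¬ IsSquare D) : ∀ (n : ℕ) (A B C : ℤ), A.natAbs ≤ n →
    B ^ 2 - 4 * A * C = D → ∃ A' B' C' : ℤ, EQ (gf A B C) (gf A' B' C') ∧
      B' ^ 2 - 4 * A' * C' = D ∧ |B'| ≤ |A'| ∧ 4 * A' ^ 2 ≤ D := by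
  intro n
  induction n with
  | zero =>
    intro A B C hA h
    exact absurd (Int.natAbs_eq_zero.1 (Nat.le_zero.1 hA)) (lead_ne hD h).1
  | succ n ih =>
    intro A B C hA h
    obtain ⟨hA0, -⟩ := lead_ne hD h
    obtain ⟨k, hk⟩ := exists_tr hA0 B
    set B₁ := B + 2 * A * k with hB₁
    set C₁ := A * k ^ 2 + B * k + C with hC₁
    have hdisc : B₁ ^ 2 - 4 * A * C₁ = D := by rw [hB₁, hC₁, ← h]; ring
    obtain ⟨-, hC0⟩ := lead_ne hD hdisc
    have hB2 : B₁ ^ 2 ≤ A ^ 2 := sq_le_sq.2 hk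
    by_cases hc : C₁.natAbs < A.natAbs
    · obtain ⟨A', B', C', h1, h2, h3, h4⟩ := ih C₁ (-B₁) A (by omega) (by linarith [neg_sq B₁])
      exact ⟨A', B', C', ((tr A B C k).trans (sw A B₁ C₁)).trans h1, h2, h3, h4⟩
    · refine ⟨A, B₁, C₁, tr A B C k, hdisc, hk, ?_⟩
      push Not at hc
      have hle : A ^ 2 ≤ |A * C₁| := by
        rw [abs_mul, ← sq_abs A, sq]
        apply mul_le_mul_of_nonneg_left _ (abs_nonneg A)
        rw [Int.abs_eq_natAbs, Int.abs_eq_natAbs]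
        exact_mod_cast hc
      rcases abs_cases (A * C₁) with ⟨h1, h2⟩ | ⟨h1, h2⟩
      · exfalso
        have hA2 : 0 < A ^ 2 := by positivity
        rw [h1] at hle
        nlinarith
      · rw [h1] at hle
        nlinarith [sq_nonneg B₁]

lemma frm_gf (m : ℤ) (a : ℕ) (β : ℤ) : frm m a β = gf a (2 * β + 1) (fm m β / a) := rfl

lemma disc {m : ℤ} {a : ℕ} {β : ℤ} (h : Val m a β) :
    (2 * β + 1) ^ 2 - 4 * (a : ℤ) * (fm m β / a) = 1 + 4 * m := by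
  have := Int.mul_ediv_cancel' h.2.2
  rw [mul_assoc, this]
  unfold fm
  ring

end CLF

open CLF in
/-- CLF: finiteness of the number of classes. -/
theorem clf : CLF_Stmt := by
  intro m hm
  obtain ⟨hm0, hsq⟩ := hm
  classical
  set D : ℤ := 1 + 4 * m with hD
  have hD0 : 0 < D := by linarith
  -- the choice of a valid form
  let ch : ℤ × ℤ × ℤ → ℕ × ℤ := fun t =>
    if h : ∃ p : ℕ × ℤ, Val m p.1 p.2 ∧ EQ (frm m p.1 p.2) (gf t.1 t.2.1 t.2.2) then h.choose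
    else (0, 0)
  have hch : ∀ t : ℤ × ℤ × ℤ, (∃ p : ℕ × ℤ, Val m p.1 p.2 ∧
      EQ (frm m p.1 p.2) (gf t.1 t.2.1 t.2.2)) →
      Val m (ch t).1 (ch t).2 ∧ EQ (frm m (ch t).1 (ch t).2) (gf t.1 t.2.1 t.2.2) := by
    intro t h
    have e : ch t = h.choose := by simp only [ch, dif_pos h]
    rw [e]
    exact h.choose_spec
  let I : Finset ℤ := Finset.Icc (-D) D
  refine ⟨(I ×ˢ (I ×ˢ I)).image ch, ?_⟩
  intro a β hv
  obtain ⟨A, B, C, h1, h2, h3, h4⟩ := reduce hD0 hsq _ a (2 * β + 1) (fm m β / a) le_rfl (disc hv)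
  obtain ⟨hA0, hC0⟩ := lead_ne hsq h2
  have hmem : (A, B, C) ∈ I ×ˢ (I ×ˢ I) := by
    have hA1 : 1 ≤ |A| := Int.one_le_abs hA0
    have hC1 : 1 ≤ |C| := Int.one_le_abs hC0
    have e1 : |A| ≤ D := by nlinarith [sq_abs A]
    have e2 : |B| ≤ D := h3.trans e1
    have e3 : B ^ 2 ≤ D := by nlinarith [sq_abs A, sq_abs B, abs_nonneg B, abs_nonneg A]
    have e4 : |4 * A * C| ≤ D := by
      rw [abs_le]; constructor <;> nlinarith [sq_nonneg B]
    have e5 : |C| ≤ D := by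
      rw [abs_mul, abs_mul] at e4
      have : |(4 : ℤ)| = 4 := rfl
      rw [this] at e4
      nlinarith [abs_nonneg C]
    simp only [I, Finset.mem_product, Finset.mem_Icc]
    exact ⟨abs_le.1 e1, abs_le.1 e2, abs_le.1 e5⟩
  have hex : ∃ p : ℕ × ℤ, Val m p.1 p.2 ∧ EQ (frm m p.1 p.2) (gf (A, B, C).1 (A, B, C).2.1
      (A, B, C).2.2) := ⟨(a, β), hv, by rw [frm_gf]; exact h1⟩
  obtain ⟨c1, c2⟩ := hch (A, B, C) hex
  refine ⟨ch (A, B, C), Finset.mem_image_of_mem _ hmem, c1, ?_⟩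
  have h5 : EQ (frm m a β) (gf A B C) := by rw [frm_gf]; exact h1
  exact h5.trans c2.symm

end Pool.Agent.C3A
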