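import Pool.Agent.C3A.Stmts

/-!
Module CONV: smooth sums of Dirichlet convolutions.
-/

open MeasureTheory Filter Topology Set
open scoped BigOperators

namespace Pool.Agent.C3A

namespace CONV

/-! ### The bump -/

theorem gf_cont : Continuous Gf :=
  (⟨1 / 4, 1 / 2, by norm_num, by norm_num⟩ : ContDiffBump (1 : ℝ)).continuous

theorem gf_nonneg (x : ℝ) : 0 ≤ Gf x :=
  (⟨1 / 4, 1 / 2, by norm_num, by norm_num⟩ : ContDiffBump (1 : ℝ)).nonneg

theorem gf_one {x : ℝ} (h1 : 3 / 4 ≤ x) (h2 : x ≤ 5 / 4) : Gf x = 1 := by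
  refine (⟨1 / 4, 1 / 2, by norm_num, by norm_num⟩ : ContDiffBump (1 : ℝ)).one_of_mem_closedBall ?_
  rw [Metric.mem_closedBall, Real.dist_eq, abs_le]
  constructor
  · show -(1 / 4 : ℝ) ≤ x - 1
    linarith
  · show x - 1 ≤ (1 / 4 : ℝ)
    linarith

theorem gf_zero_right {x : ℝ} (h : 3 / 2 ≤ x) : Gf x = 0 := by
  refine (⟨1 / 4, 1 / 2, by norm_num, by norm_num⟩ : ContDiffBump (1 : ℝ)).zero_of_le_dist ?_
  rw [Real.dist_eq]
  show (1 / 2 : ℝ) ≤ |x - 1|
  rw [abs_of_nonneg (by linarith)]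
  linarith

theorem gf_zero_left {x : ℝ} (h : x ≤ 1 / 2) : Gf x = 0 := by
  refine (⟨1 / 4, 1 / 2, by norm_num, by norm_num⟩ : ContDiffBump (1 : ℝ)).zero_of_le_dist ?_
  rw [Real.dist_eq]
  show (1 / 2 : ℝ) ≤ |x - 1|
  rw [abs_of_nonpos (by linarith)]
  linarith

/-! ### The kernel -/

/-- The weight. -/
noncomputable def HH (x : ℝ) : ℝ := ∫ t in Ioi (0 : ℝ), Gf (1 / t) * Gf (x * t) / t

theorem HH_nonneg (x : ℝ) : 0 ≤ HH x :=
  setIntegral_nonneg measurableSet_Ioi fun _ ht =>
    div_nonneg (mul_nonneg (gf_nonneg _) (gf_nonneg _)) (le_of_lt ht)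

theorem HH_zero {x : ℝ} (hx : 4 ≤ x) : HH x = 0 := by
  unfold HH
  refine setIntegral_eq_zero_of_forall_eq_zero fun t ht => ?_
  have ht0 : (0 : ℝ) < t := ht
  rcases le_or_gt t (2 / 3) with h | h
  · have h1 : 3 / 2 ≤ 1 / t := by
      rw [le_div_iff₀ ht0]
      linarith
    rw [gf_zero_right h1]
    ring
  · have h1 : 3 / 2 ≤ x * t := by nlinarith
    rw [gf_zero_right h1]
    ring

theorem HH_one : 0 < HH 1 := by
  have hcont : ContinuousOn (fun t : ℝ => Gf (1 / t) * Gf (1 * t) / t) (Icc (1 / 2) 2) := by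
    intro t ht
    have ht0 : t ≠ 0 := by
      have : (1 / 2 : ℝ) ≤ t := ht.1
      linarith [this] |> fun h : 0 < t => h.ne'
    refine ContinuousAt.continuousWithinAt ?_
    refine ContinuousAt.div (ContinuousAt.mul ?_ ?_) continuousAt_id ht0
    · exact gf_cont.continuousAt.comp (continuousAt_const.div continuousAt_id ht0)
    · exact gf_cont.continuousAt.comp (continuousAt_const.mul continuousAt_id)
  have h1 : HH 1 = ∫ t in Icc (1 / 2 : ℝ) 2, Gf (1 / t) * Gf (1 * t) / t := by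
    unfold HH
    refine setIntegral_eq_of_subset_of_forall_sdiff_eq_zero measurableSet_Ioi ?_ ?_
    · intro t ht
      have : (1 / 2 : ℝ) ≤ t := ht.1
      show (0 : ℝ) < t
      linarith
    · intro t ht
      have ht0 : (0 : ℝ) < t := ht.1
      have h2 : ¬ (1 / 2 ≤ t ∧ t ≤ 2) := ht.2
      rcases lt_or_ge t (1 / 2) with h | h
      · rw [gf_zero_left (x := 1 * t) (by linarith)]
        ring
      · have h3 : 2 < t := by
          by_contra h4
          exact h2 ⟨h, not_lt.1 h4⟩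
        rw [gf_zero_right (x := 1 * t) (by linarith)]
        ring
  rw [h1]
  have h2 : ∫ t in Icc (4 / 5 : ℝ) (5 / 4), (1 / 2 : ℝ)
      ≤ ∫ t in Icc (1 / 2 : ℝ) 2, Gf (1 / t) * Gf (1 * t) / t := by
    have hint : IntegrableOn (fun t : ℝ => Gf (1 / t) * Gf (1 * t) / t) (Icc (1 / 2) 2) :=
      hcont.integrableOn_compact isCompact_Icc
    have hsub : Icc (4 / 5 : ℝ) (5 / 4) ⊆ Icc (1 / 2) 2 := Icc_subset_Icc (by norm_num) (by norm_num)
    calc ∫ t in Icc (4 / 5 : ℝ) (5 / 4), (1 / 2 : ℝ)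
        ≤ ∫ t in Icc (4 / 5 : ℝ) (5 / 4), Gf (1 / t) * Gf (1 * t) / t := by
          refine setIntegral_mono_on (integrableOn_const (by simp)) (hint.mono_set hsub)
            measurableSet_Icc fun t ht => ?_
          have ht0 : (0 : ℝ) < t := by
            have := ht.1
            linarith
          have e1 : Gf (1 / t) = 1 := by
            refine gf_one ?_ ?_
            · rw [le_div_iff₀ ht0]
              linarith [ht.2]
            · rw [div_le_iff₀ ht0]
              linarith [ht.1]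
          have e2 : Gf (1 * t) = 1 := gf_one (by linarith [ht.1]) (by linarith [ht.2])
          rw [e1, e2, one_mul, le_div_iff₀ ht0]
          linarith [ht.2]
      _ ≤ _ := by
          refine setIntegral_mono_set hint ?_ (Eventually.of_forall hsub)
          refine ae_restrict_of_forall_mem measurableSet_Icc fun t ht => ?_
          have ht0 : (0 : ℝ) < t := by
            have := ht.1
            linarith
          exact div_nonneg (mul_nonneg (gf_nonneg _) (gf_nonneg _)) ht0.le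
  refine lt_of_lt_of_le ?_ h2
  rw [setIntegral_const]
  simp only [Real.volume_real_Icc, smul_eq_mul]
  norm_num

/-- The kernel of the pair `(n, k)`. -/
theorem HH_ker {n k X : ℕ} (hn : n ≠ 0) (hX : X ≠ 0) :
    HH ((n * k : ℕ) / X) = ∫ z in Ioi (0 : ℝ), Gf (n / z) * Gf (k / (X / z)) / z := by
  have hn0 : (0 : ℝ) < n := by
    have := Nat.pos_of_ne_zero hn
    exact_mod_cast this
  have hX0 : (0 : ℝ) < X := by
    have := Nat.pos_of_ne_zero hX
    exact_mod_cast this
  have h := integral_comp_mul_left_Ioi (fun z : ℝ => Gf (n / z) * Gf (k / (X / z)) / z) 0 hn0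
  rw [mul_zero, smul_eq_mul] at h
  have h2 : HH ((n * k : ℕ) / X)
      = n * ∫ t in Ioi (0 : ℝ), Gf (n / (n * t)) * Gf (k / (X / (n * t))) / (n * t) := by
    unfold HH
    rw [← integral_const_mul]
    refine setIntegral_congr_fun measurableSet_Ioi fun t ht => ?_
    have ht0 : (0 : ℝ) < t := ht
    have e1 : (n : ℝ) / (n * t) = 1 / t := by
      field_simp
    have e2 : (k : ℝ) / (X / (n * t)) = ((n * k : ℕ) : ℝ) / X * t := by
      push_cast
      field_simp
    show Gf (1 / t) * Gf (((n * k : ℕ) : ℝ) / X * t) / t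
      = n * (Gf (n / (n * t)) * Gf (k / (X / (n * t))) / (n * t))
    rw [e1, e2]
    field_simp
  rw [h2, h, ← mul_assoc, mul_inv_cancel₀ hn0.ne', one_mul]

/-- The kernel integral can be restricted to a bounded interval. -/
theorem ker_restrict {n k X : ℕ} (hn : n ≠ 0) (hk : k ≠ 0) (hX : X ≠ 0) :
    ∫ z in Ioi (0 : ℝ), Gf (n / z) * Gf (k / (X / z)) / z
      = ∫ z in Ioc (1 / 2 : ℝ) (2 * X), Gf (n / z) * Gf (k / (X / z)) / z := by
  have hn0 : (1 : ℝ) ≤ n := by
    exact_mod_cast Nat.one_le_iff_ne_zero.2 hn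
  have hk0 : (1 : ℝ) ≤ k := by
    exact_mod_cast Nat.one_le_iff_ne_zero.2 hk
  have hX0 : (0 : ℝ) < X := by
    have := Nat.pos_of_ne_zero hX
    exact_mod_cast this
  refine setIntegral_eq_of_subset_of_forall_sdiff_eq_zero measurableSet_Ioi ?_ ?_
  · intro z hz
    have : (1 / 2 : ℝ) < z := hz.1
    show (0 : ℝ) < z
    linarith
  · intro z hz
    have hz0 : (0 : ℝ) < z := hz.1
    have h2 : ¬ (1 / 2 < z ∧ z ≤ 2 * X) := hz.2
    rcases le_or_gt z (1 / 2) with h | h
    · rw [gf_zero_right (x := n / z) (by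
        rw [le_div_iff₀ hz0]
        linarith)]
      ring
    · have h3 : 2 * X < z := by
        by_contra h4
        exact h2 ⟨h, not_lt.1 h4⟩
      have e : (k : ℝ) / (X / z) = k * z / X := by
        field_simp
      rw [e, gf_zero_right (x := k * z / X) (by
        rw [le_div_iff₀ hX0]
        nlinarith)]
      ring

theorem ker_integrable (n k X : ℕ) (hX : X ≠ 0) :
    IntegrableOn (fun z : ℝ => Gf (n / z) * Gf (k / (X / z)) / z) (Ioc (1 / 2) (2 * X)) := by
  have hX0 : (X : ℝ) ≠ 0 := by exact_mod_cast hX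
  have hc : ContinuousOn (fun z : ℝ => Gf (n / z) * Gf (k / (X / z)) / z)
      (Icc (1 / 2 : ℝ) (2 * X)) := ?_
  · exact (hc.integrableOn_compact isCompact_Icc).mono_set Ioc_subset_Icc_self
  intro z hz
  have hz0 : z ≠ 0 := by
    have : (1 / 2 : ℝ) ≤ z := hz.1
    linarith [this] |> fun h : 0 < z => h.ne'
  refine ContinuousAt.continuousWithinAt ?_
  refine ContinuousAt.div (ContinuousAt.mul ?_ ?_) continuousAt_id hz0
  · exact gf_cont.continuousAt.comp (continuousAt_const.div continuousAt_id hz0)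
  · exact gf_cont.continuousAt.comp (continuousAt_const.div
      (continuousAt_const.div continuousAt_id hz0) (div_ne_zero hX0 hz0))

/-! ### The smooth sums are finite -/

theorem sm_eq {u : ℕ → ℂ} {z : ℝ} (hz : 0 < z) {B : ℕ} (hB : 3 / 2 * z ≤ B) :
    Sm u z = ∑ n ∈ Finset.range B, u n * (Gf (n / z) : ℂ) := by
  unfold Sm
  refine tsum_eq_sum fun n hn => ?_
  rw [Finset.mem_range, not_lt] at hn
  have hn' : (B : ℝ) ≤ n := by exact_mod_cast hn
  rw [gf_zero_right (x := n / z) (by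
    rw [le_div_iff₀ hz]
    linarith)]
  simp

/-- The product of the two smooth sums. -/
theorem prod_eq (u v : ℕ → ℂ) {X : ℕ} (hX : X ≠ 0) {z : ℝ} (hz : z ∈ Ioc (1 / 2 : ℝ) (2 * X)) :
    Sm u z * Sm v (X / z) * ((1 / z : ℝ) : ℂ)
      = ∑ n ∈ Finset.range (4 * X), ∑ k ∈ Finset.range (4 * X),
        u n * v k * ((Gf (n / z) * Gf (k / (X / z)) / z : ℝ) : ℂ) := by
  have hX0 : (0 : ℝ) < X := by
    have := Nat.pos_of_ne_zero hX
    exact_mod_cast this
  have hz0 : 0 < z := by
    have := hz.1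
    linarith
  rw [sm_eq (B := 4 * X) hz0 (by
      push_cast
      linarith [hz.2]),
    sm_eq (B := 4 * X) (div_pos hX0 hz0) (by
      push_cast
      rw [← mul_div_assoc, div_le_iff₀ hz0]
      nlinarith [hz.1]), Finset.sum_mul_sum, Finset.sum_mul]
  refine Finset.sum_congr rfl fun n _ => ?_
  rw [Finset.sum_mul]
  refine Finset.sum_congr rfl fun k _ => ?_
  push_cast
  ring

/-- The main identity, first half. -/
theorem integral_eq (u v : ℕ → ℂ) (hu : u 0 = 0) (hv : v 0 = 0) {X : ℕ} (hX : X ≠ 0) :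
    ∫ z in Ioc (1 / 2 : ℝ) (2 * X), Sm u z * Sm v (X / z) * ((1 / z : ℝ) : ℂ)
      = ∑ n ∈ Finset.range (4 * X), ∑ k ∈ Finset.range (4 * X),
        u n * v k * (HH ((n * k : ℕ) / X) : ℂ) := by
  rw [setIntegral_congr_fun measurableSet_Ioc fun z hz => prod_eq u v hX hz]
  have hint : ∀ n k : ℕ, Integrable (fun z : ℝ =>
      u n * v k * ((Gf (n / z) * Gf (k / (X / z)) / z : ℝ) : ℂ))
      (volume.restrict (Ioc (1 / 2 : ℝ) (2 * X))) := fun n k =>
    (ker_integrable n k X hX).ofReal.const_mul _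
  rw [integral_finsetSum _ fun n _ => integrable_finsetSum _ fun k _ => hint n k]
  refine Finset.sum_congr rfl fun n _ => ?_
  rw [integral_finsetSum _ fun k _ => hint n k]
  refine Finset.sum_congr rfl fun k _ => ?_
  rw [integral_const_mul, integral_complex_ofReal]
  rcases eq_or_ne n 0 with rfl | hn
  · rw [hu]
    ring
  rcases eq_or_ne k 0 with rfl | hk
  · rw [hv]
    ring
  rw [← ker_restrict hn hk hX, ← HH_ker hn hX]

/-- The main identity, second half. -/
theorem sum_eq (u v : ℕ → ℂ) (hu : u 0 = 0) (hv : v 0 = 0) {X : ℕ} (hX : X ≠ 0) :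
    ∑' N : ℕ, (∑ d ∈ N.divisors, u d * v (N / d)) * (HH (N / X) : ℂ)
      = ∑ n ∈ Finset.range (4 * X), ∑ k ∈ Finset.range (4 * X),
        u n * v k * (HH ((n * k : ℕ) / X) : ℂ) := by
  have hX0 : (0 : ℝ) < X := by
    have := Nat.pos_of_ne_zero hX
    exact_mod_cast this
  have hbig : ∀ N : ℕ, 4 * X ≤ N → HH (N / X) = 0 := by
    intro N hN
    refine HH_zero ?_
    rw [le_div_iff₀ hX0]
    exact_mod_cast hN
  rw [tsum_eq_sum (s := Finset.range (4 * X)) (by
    intro N hN
    rw [Finset.mem_range, not_lt] at hN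
    rw [hbig N hN]
    simp)]
  have hR : ∑ n ∈ Finset.range (4 * X), ∑ k ∈ Finset.range (4 * X),
        u n * v k * (HH ((n * k : ℕ) / X) : ℂ)
      = ∑ p ∈ (Finset.range (4 * X) ×ˢ Finset.range (4 * X)).filter
          (fun p => p.1 * p.2 ≠ 0 ∧ p.1 * p.2 < 4 * X),
        u p.1 * v p.2 * (HH ((p.1 * p.2 : ℕ) / X) : ℂ) := by
    rw [← Finset.sum_product' (Finset.range (4 * X)) (Finset.range (4 * X))
      (fun n k => u n * v k * (HH ((n * k : ℕ) / X) : ℂ))]
    symm
    refine Finset.sum_filter_of_ne ?_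
    rintro ⟨n, k⟩ _ hne
    refine ⟨?_, ?_⟩
    · intro h0
      rcases Nat.mul_eq_zero.1 h0 with h | h
      · have h' : n = 0 := h
        subst h'
        apply hne
        rw [hu]
        ring
      · have h' : k = 0 := h
        subst h'
        apply hne
        rw [hv]
        ring
    · by_contra h
      apply hne
      have h1 := hbig (n * k) (not_lt.1 h)
      rw [h1]
      simp
  have hL := Finset.sum_fiberwise_of_maps_to (s := (Finset.range (4 * X) ×ˢ
      Finset.range (4 * X)).filter (fun p => p.1 * p.2 ≠ 0 ∧ p.1 * p.2 < 4 * X))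
    (t := Finset.range (4 * X)) (g := fun p => p.1 * p.2) (by
      rintro ⟨n, k⟩ hp
      rw [Finset.mem_filter] at hp
      exact Finset.mem_range.2 hp.2.2)
    (fun p => u p.1 * v p.2 * (HH ((p.1 * p.2 : ℕ) / X) : ℂ))
  rw [hR, ← hL]
  refine Finset.sum_congr rfl fun N hN => ?_
  rw [← Nat.sum_divisorsAntidiagonal (fun a b => u a * v b), Finset.sum_mul]
  refine Finset.sum_congr ?_ ?_
  · ext ⟨n, k⟩
    simp only [Nat.mem_divisorsAntidiagonal, Finset.mem_filter, Finset.mem_product,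
      Finset.mem_range] at hN ⊢
    constructor
    · rintro ⟨h1, h2⟩
      have hn : n ≠ 0 := by
        rintro rfl
        exact h2 (by rw [← h1, zero_mul])
      have hk : k ≠ 0 := by
        rintro rfl
        exact h2 (by rw [← h1, mul_zero])
      have h3 : n ≤ n * k := Nat.le_mul_of_pos_right n (Nat.pos_of_ne_zero hk)
      have h4 : k ≤ n * k := Nat.le_mul_of_pos_left k (Nat.pos_of_ne_zero hn)
      exact ⟨⟨⟨by omega, by omega⟩, by omega, by omega⟩, h1⟩
    · rintro ⟨⟨_, h2, _⟩, h4⟩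
      exact ⟨h4, by omega⟩
  · rintro ⟨n, k⟩ hp
    simp only [Finset.mem_filter] at hp
    have h1 : n * k = N := hp.2
    show u n * v k * (HH (N / X) : ℂ) = u n * v k * (HH ((n * k : ℕ) / X) : ℂ)
    rw [h1]

/-- The bound of the integral. -/
theorem bound (u v : ℕ → ℂ) {C C' : ℝ} (hC : 0 ≤ C)
    (hu : ∀ z : ℝ, 1 / 2 ≤ z → ‖Sm u z‖ ≤ C / √z) (hv : ∀ z : ℝ, 1 / 2 ≤ z → ‖Sm v z‖ ≤ C' / √z)
    {X : ℕ} (hX : X ≠ 0) :
    ‖∫ z in Ioc (1 / 2 : ℝ) (2 * X), Sm u z * Sm v (X / z) * ((1 / z : ℝ) : ℂ)‖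
      ≤ C * C' / √X * Real.log (4 * X) := by
  have hX0 : (1 : ℝ) ≤ X := by
    exact_mod_cast Nat.one_le_iff_ne_zero.2 hX
  have hle : (1 / 2 : ℝ) ≤ 2 * X := by linarith
  have hlog : ∫ z in Ioc (1 / 2 : ℝ) (2 * X), C * C' / √X * (1 / z)
      = C * C' / √X * Real.log (4 * X) := by
    rw [integral_const_mul, ← intervalIntegral.integral_of_le hle,
      integral_one_div_of_pos (by norm_num) (by linarith)]
    congr 2
    ring
  rw [← hlog]
  refine norm_integral_le_of_norm_le ?_ ?_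
  · have h1 : IntervalIntegrable (fun z : ℝ => 1 / z) volume (1 / 2) (2 * X) := by
      refine ContinuousOn.intervalIntegrable ?_
      rw [uIcc_of_le hle]
      intro z hz
      have hz0 : z ≠ 0 := by
        have : (1 / 2 : ℝ) ≤ z := hz.1
        linarith [this] |> fun h : 0 < z => h.ne'
      exact (continuousAt_const.div continuousAt_id hz0).continuousWithinAt
    exact ((intervalIntegrable_iff_integrableOn_Ioc_of_le hle).1 h1).const_mul _
  · refine ae_restrict_of_forall_mem measurableSet_Ioc fun z hz => ?_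
    have hz0 : 0 < z := by
      have := hz.1
      linarith
    have h1 := hu z hz.1.le
    have h2 := hv (X / z) (by
      rw [le_div_iff₀ hz0]
      linarith [hz.2])
    have h3 : √z * √(X / z) = √X := by
      rw [← Real.sqrt_mul hz0.le]
      congr 1
      field_simp
    rw [norm_mul, norm_mul, Complex.norm_real, Real.norm_eq_abs, abs_of_pos (by positivity)]
    refine mul_le_mul_of_nonneg_right ?_ (by positivity)
    calc ‖Sm u z‖ * ‖Sm v (X / z)‖ ≤ C / √z * (C' / √(X / z)) :=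
          mul_le_mul h1 h2 (norm_nonneg _) (by positivity)
      _ = C * C' / √X := by
          rw [← h3]
          ring

end CONV

open CONV in
/-- Module CONV. -/
theorem conv : CONV_Stmt := by
  refine ⟨HH, HH_nonneg, HH_one, fun x hx => HH_zero hx, ?_⟩
  rintro u v hu hv ⟨C, hC⟩ ⟨C', hC'⟩
  have hpos : ∀ {w : ℕ → ℂ} {D : ℝ}, (∀ z : ℝ, 1 / 2 ≤ z → ‖Sm w z‖ ≤ D / √z) → 0 ≤ D := by
    intro w D h
    have h1 := (norm_nonneg _).trans (h 1 (by norm_num))
    rwa [Real.sqrt_one, div_one] at h1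
  have hlim : Tendsto (fun X : ℕ => C * C' / √X * Real.log (4 * X)) atTop (𝓝 0) := by
    have h1 : Tendsto (fun x : ℝ => Real.log x / x ^ (1 / 2 : ℝ)) atTop (𝓝 0) :=
      (isLittleO_log_rpow_atTop (by norm_num)).tendsto_div_nhds_zero
    have h2 : Tendsto (fun X : ℕ => (4 : ℝ) * X) atTop atTop :=
      tendsto_natCast_atTop_atTop.const_mul_atTop (by norm_num)
    have h3 := (h1.comp h2).const_mul (C * C' * 2)
    rw [mul_zero] at h3
    refine h3.congr fun X => ?_
    show C * C' * 2 * (Real.log (4 * X) / (4 * X) ^ (1 / 2 : ℝ)) = _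
    rw [← Real.sqrt_eq_rpow, Real.sqrt_mul (by norm_num)]
    have h4 : √4 = (2 : ℝ) := by
      rw [show (4 : ℝ) = 2 ^ 2 by norm_num, Real.sqrt_sq (by norm_num)]
    rw [h4]
    ring
  refine squeeze_zero_norm' ?_ hlim
  filter_upwards [eventually_ne_atTop 0] with X hX
  rw [sum_eq u v hu hv hX, ← integral_eq u v hu hv hX]
  exact bound u v (hpos hC) hC hC' hX

end Pool.Agent.C3A
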