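import Pool.Agent.C3A.Stmts

/-!
CVT: the counting function of a matrix.
-/

open scoped BigOperators Real MatrixGroups

namespace Pool.Agent.C3A

namespace CVT

/-- The action of the powers of `A`. -/
def ac (A : SL(2, ℤ)) (k : ℤ) (R : Fin 2 → ℤ) : Fin 2 → ℤ := (A ^ k).1.mulVec R

lemma ac_zero (A : SL(2, ℤ)) (R : Fin 2 → ℤ) : ac A 0 R = R := by
  simp [ac]

lemma ac_one (A : SL(2, ℤ)) (R : Fin 2 → ℤ) : ac A 1 R = A.1.mulVec R := by
  simp [ac]

lemma ac_add (A : SL(2, ℤ)) (k l : ℤ) (R : Fin 2 → ℤ) : ac A k (ac A l R) = ac A (k + l) R := by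
  unfold ac
  rw [Matrix.mulVec_mulVec, zpow_add, Matrix.SpecialLinearGroup.coe_mul]

lemma ac_neg (A : SL(2, ℤ)) (k : ℤ) (R : Fin 2 → ℤ) : ac A k (-R) = -ac A k R := by
  unfold ac
  rw [Matrix.mulVec_neg]

lemma mem_orb {A : SL(2, ℤ)} {R R' : Fin 2 → ℤ} : R' ∈ orb A R ↔ ∃ k : ℤ, R' = ac A k R := Iff.rfl

lemma self_mem (A : SL(2, ℤ)) (R : Fin 2 → ℤ) : R ∈ orb A R := ⟨0, (ac_zero A R).symm⟩

lemma orb_ac (A : SL(2, ℤ)) (k : ℤ) (R : Fin 2 → ℤ) : orb A (ac A k R) = orb A R := by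
  ext R'
  rw [mem_orb, mem_orb]
  constructor
  · rintro ⟨l, rfl⟩
    exact ⟨l + k, ac_add A l k R⟩
  · rintro ⟨l, rfl⟩
    exact ⟨l - k, by rw [ac_add]; congr 1; ring⟩

lemma qf_eq (A : SL(2, ℤ)) (R : Fin 2 → ℤ) :
    qf A R = A 1 0 * R 0 ^ 2 + (A 1 1 - A 0 0) * (R 0 * R 1) - A 0 1 * R 1 ^ 2 := by
  simp only [qf, Matrix.mulVec, dotProduct, Fin.sum_univ_two]
  ring

/-- `qf` is a determinant. -/
lemma qf_conj (g A : SL(2, ℤ)) (R : Fin 2 → ℤ) :
    qf (g * A * g⁻¹) (g.1.mulVec R) = qf A R := by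
  have h : (g * A * g⁻¹).1.mulVec (g.1.mulVec R) = g.1.mulVec (A.1.mulVec R) := by
    rw [Matrix.mulVec_mulVec, Matrix.mulVec_mulVec, ← Matrix.SpecialLinearGroup.coe_mul,
      ← Matrix.SpecialLinearGroup.coe_mul, inv_mul_cancel_right]
  unfold qf
  rw [h]
  have hd := g.det_coe
  rw [Matrix.det_fin_two] at hd
  generalize A.1.mulVec R = W
  simp only [Matrix.mulVec, dotProduct, Fin.sum_univ_two]
  have e : (g.1 0 0 * R 0 + g.1 0 1 * R 1) * (g.1 1 0 * W 0 + g.1 1 1 * W 1) -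
      (g.1 1 0 * R 0 + g.1 1 1 * R 1) * (g.1 0 0 * W 0 + g.1 0 1 * W 1)
      = (g.1 0 0 * g.1 1 1 - g.1 0 1 * g.1 1 0) * (R 0 * W 1 - R 1 * W 0) := by ring
  rw [e, hd, one_mul]

lemma qf_act (A : SL(2, ℤ)) (R : Fin 2 → ℤ) : qf A (A.1.mulVec R) = qf A R := by
  have h := qf_conj A A R
  rwa [mul_inv_cancel_right] at h

lemma conj_zpow' (g A : SL(2, ℤ)) (k : ℤ) : (g * A * g⁻¹) ^ k = g * A ^ k * g⁻¹ := by
  rw [← MulAut.conj_apply, ← map_zpow, MulAut.conj_apply]

lemma orb_conj (g A : SL(2, ℤ)) (R : Fin 2 → ℤ) :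
    orb (g * A * g⁻¹) (g.1.mulVec R) = (fun R => g.1.mulVec R) '' orb A R := by
  ext R'
  simp only [Set.mem_image]
  constructor
  · rintro ⟨k, rfl⟩
    refine ⟨ac A k R, ⟨k, rfl⟩, ?_⟩
    unfold ac
    rw [conj_zpow', Matrix.mulVec_mulVec, Matrix.mulVec_mulVec,
      ← Matrix.SpecialLinearGroup.coe_mul, ← Matrix.SpecialLinearGroup.coe_mul,
      inv_mul_cancel_right]
  · rintro ⟨_, ⟨k, rfl⟩, rfl⟩
    refine ⟨k, ?_⟩
    rw [conj_zpow', Matrix.mulVec_mulVec, Matrix.mulVec_mulVec,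
      ← Matrix.SpecialLinearGroup.coe_mul, ← Matrix.SpecialLinearGroup.coe_mul,
      inv_mul_cancel_right]

lemma mulVec_inj (g : SL(2, ℤ)) : Function.Injective (fun R : Fin 2 → ℤ => g.1.mulVec R) := by
  intro R R' h
  have h1 := congrArg (fun R => (g⁻¹).1.mulVec R) h
  simpa only [Matrix.mulVec_mulVec, ← Matrix.SpecialLinearGroup.coe_mul, inv_mul_cancel,
    Matrix.SpecialLinearGroup.coe_one, Matrix.one_mulVec] using h1

lemma cnt_conj (g A : SL(2, ℤ)) (N : ℤ) : cnt (g * A * g⁻¹) N = cnt A N := by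
  unfold cnt
  have h : {S : Set (Fin 2 → ℤ) | ∃ R, qf (g * A * g⁻¹) R = N ∧ S = orb (g * A * g⁻¹) R} =
      Set.image (fun R => g.1.mulVec R) ''
        {S : Set (Fin 2 → ℤ) | ∃ R, qf A R = N ∧ S = orb A R} := by
    ext S
    simp only [Set.mem_ofPred_eq, Set.mem_image]
    constructor
    · rintro ⟨R, h1, rfl⟩
      have e : R = g.1.mulVec ((g⁻¹).1.mulVec R) := by
        rw [Matrix.mulVec_mulVec, ← Matrix.SpecialLinearGroup.coe_mul, mul_inv_cancel,
          Matrix.SpecialLinearGroup.coe_one, Matrix.one_mulVec]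
      refine ⟨_, ⟨(g⁻¹).1.mulVec R, ?_, rfl⟩, ?_⟩
      · rw [e, qf_conj] at h1
        exact h1
      · rw [← orb_conj, ← e]
    · rintro ⟨_, ⟨R, h1, rfl⟩, rfl⟩
      exact ⟨g.1.mulVec R, by rw [qf_conj, h1], by rw [orb_conj]⟩
  rw [h]
  exact Set.ncard_image_of_injective _ (mulVec_inj g).image_injective

/-! ### Pairs -/

/-- Pairs and functions on `Fin 2`. -/
def pr (R : Fin 2 → ℤ) : ℤ × ℤ := (R 0, R 1)

lemma pr_inj : Function.Injective pr := by
  intro R R' h
  funext i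
  have h0 : R 0 = R' 0 := congrArg Prod.fst h
  have h1 : R 1 = R' 1 := congrArg Prod.snd h
  fin_cases i
  · exact h0
  · exact h1

lemma pr_surj (v : ℤ × ℤ) : pr ![v.1, v.2] = v := by
  simp [pr]

lemma act_pr (A : SL(2, ℤ)) (R : Fin 2 → ℤ) : act A (pr R) = pr (A.1.mulVec R) := by
  simp only [act, sub2, pr, Matrix.mulVec, dotProduct, Fin.sum_univ_two]

lemma orb2_pr (A : SL(2, ℤ)) (R : Fin 2 → ℤ) : orb2 A (pr R) = pr '' orb A R := by
  ext w
  simp only [Set.mem_image]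
  constructor
  · rintro ⟨k, rfl⟩
    exact ⟨ac A k R, ⟨k, rfl⟩, (act_pr _ _).symm⟩
  · rintro ⟨_, ⟨k, rfl⟩, rfl⟩
    exact ⟨k, (act_pr _ _).symm⟩

lemma qf_frm {m t c : ℤ} {a : ℕ} {β : ℤ} {A : SL(2, ℤ)} (h : IsA m t c a β A)
    (R : Fin 2 → ℤ) : qf A R = c * frm m a β (pr R) := by
  obtain ⟨h1, h2, h3, h4⟩ := h
  have h5 : A 1 1 - A 0 0 = c * (2 * β + 1) := by linarith
  rw [qf_eq, h2, h3, h5]
  simp only [frm, pr]
  ring

lemma cnt_frm {m t c : ℤ} {a : ℕ} {β : ℤ} {A : SL(2, ℤ)} (hc : 0 < c) (h : IsA m t c a β A)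
    (N : ℤ) : cnt A (c * N) = nor A {v | frm m a β v = N} := by
  unfold cnt nor
  have e : {T : Set (ℤ × ℤ) | ∃ v ∈ {v | frm m a β v = N}, T = orb2 A v} =
      Set.image pr '' {S : Set (Fin 2 → ℤ) | ∃ R, qf A R = c * N ∧ S = orb A R} := by
    ext T
    simp only [Set.mem_ofPred_eq, Set.mem_image]
    constructor
    · rintro ⟨v, hv, rfl⟩
      refine ⟨_, ⟨![v.1, v.2], ?_, rfl⟩, ?_⟩
      · rw [qf_frm h, pr_surj, hv]
      · rw [← orb2_pr, pr_surj]
    · rintro ⟨_, ⟨R, hR, rfl⟩, rfl⟩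
      refine ⟨pr R, ?_, by rw [orb2_pr]⟩
      rw [qf_frm h] at hR
      exact mul_left_cancel₀ hc.ne' hR
  rw [e]
  exact (Set.ncard_image_of_injective _ pr_inj.image_injective).symm

lemma cnt_zero {m t c : ℤ} {a : ℕ} {β : ℤ} {A : SL(2, ℤ)} (h : IsA m t c a β A)
    (N : ℤ) (hN : ¬ c ∣ N) : cnt A N = 0 := by
  unfold cnt
  have e : {S : Set (Fin 2 → ℤ) | ∃ R, qf A R = N ∧ S = orb A R} = ∅ := by
    rw [Set.eq_empty_iff_forall_notMem]
    rintro S ⟨R, hR, -⟩
    apply hN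
    rw [← hR, qf_frm h]
    exact Dvd.intro _ rfl
  rw [e, Set.ncard_empty]

lemma frm_act {m t c : ℤ} {a : ℕ} {β : ℤ} {A : SL(2, ℤ)} (hc : 0 < c) (h : IsA m t c a β A)
    (v : ℤ × ℤ) : frm m a β (act A v) = frm m a β v := by
  have h1 := qf_act A ![v.1, v.2]
  rw [qf_frm h, qf_frm h, ← act_pr, pr_surj] at h1
  exact mul_left_cancel₀ hc.ne' h1

/-! ### The orbits of `-A⁻¹` -/

lemma ncard_orbits {X : Type} (V : Set X) (o O : X → Set X) (τ : X → X)
    (hV : ∀ x ∈ V, τ x ∈ V) (ha : ∀ x y, o x = o y → O x = O y) (hb : ∀ x, O (τ x) = O x)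
    (hc : ∀ x y, O y = O x → o y = o x ∨ o (τ y) = o x) (hd : ∀ x ∈ V, o x ≠ o (τ x)) :
    {T | ∃ x ∈ V, T = o x}.ncard = Nat.card ({T | ∃ x ∈ V, T = O x} × Bool) := by
  choose r hr using fun U : {T | ∃ x ∈ V, T = O x} => U.2
  let f : ({T | ∃ x ∈ V, T = O x} × Bool) → {T | ∃ x ∈ V, T = o x} := fun p =>
    if p.2 then ⟨o (r p.1), r p.1, (hr p.1).1, rfl⟩
    else ⟨o (τ (r p.1)), τ (r p.1), hV _ (hr p.1).1, rfl⟩
  have hf1 : ∀ U, (f (U, true)).1 = o (r U) := fun U => rfl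
  have hf2 : ∀ U, (f (U, false)).1 = o (τ (r U)) := fun U => rfl
  have hf : Function.Bijective f := by
    constructor
    · rintro ⟨U, b⟩ ⟨U', b'⟩ h
      have h1 : O (r U) = O (r U') := by
        have h2 := congrArg Subtype.val h
        cases b <;> cases b' <;> simp only [hf1, hf2] at h2 <;> have h3 := ha _ _ h2 <;>
          simpa only [hb] using h3
      have h4 : U = U' := by
        apply Subtype.ext
        rw [(hr U).2, (hr U').2, h1]
      subst h4
      have h2 := congrArg Subtype.val h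
      cases b <;> cases b' <;> simp only [hf1, hf2] at h2
      · rfl
      · exact absurd h2.symm (hd _ (hr U).1)
      · exact absurd h2 (hd _ (hr U).1)
      · rfl
    · rintro ⟨T, x, hx, rfl⟩
      let U : {T | ∃ x ∈ V, T = O x} := ⟨O x, x, hx, rfl⟩
      have h1 : O (r U) = O x := (hr U).2.symm
      rcases hc _ _ h1 with h | h
      · exact ⟨(U, true), Subtype.ext h⟩
      · exact ⟨(U, false), Subtype.ext h⟩
  rw [← Nat.card_coe_set_eq]
  exact (Nat.card_congr (Equiv.ofBijective f hf)).symm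

lemma cayley (M : Matrix (Fin 2) (Fin 2) ℤ) (hd : M.det = 1) :
    M * M = M.trace • M - 1 := by
  rw [Matrix.det_fin_two] at hd
  rw [Matrix.trace_fin_two]
  ext i j
  fin_cases i <;> fin_cases j <;>
    simp [-zsmul_eq_mul, Matrix.mul_apply, Fin.sum_univ_two] <;> linarith

lemma trace_rec (A : SL(2, ℤ)) (k : ℕ) :
    (A.1 ^ (k + 2)).trace = A.1.trace * (A.1 ^ (k + 1)).trace - (A.1 ^ k).trace := by
  have h1 : A.1 * A.1 = A.1.trace • A.1 - 1 := cayley A.1 A.det_coe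
  have h2 : A.1 ^ (k + 2) = A.1.trace • A.1 ^ (k + 1) - A.1 ^ k := by
    rw [pow_succ, pow_succ, mul_assoc, h1, mul_sub, mul_one, mul_smul_comm]
  rw [h2, Matrix.trace_sub, Matrix.trace_smul, smul_eq_mul]

lemma trace_gt (A : SL(2, ℤ)) (ht : 2 < |A.1.trace|) (k : ℕ) :
    2 ≤ |(A.1 ^ k).trace| ∧ |(A.1 ^ k).trace| < |(A.1 ^ (k + 1)).trace| := by
  induction k with
  | zero =>
    simp only [pow_zero, Matrix.trace_one, Fintype.card_fin, zero_add, pow_one]
    norm_num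
    exact ht
  | succ k ih =>
    obtain ⟨h1, h2⟩ := ih
    refine ⟨by linarith, ?_⟩
    rw [show k + 1 + 1 = k + 2 by ring, trace_rec]
    have h3 : |A.1.trace| * |(A.1 ^ (k + 1)).trace| - |(A.1 ^ k).trace| ≤
        |A.1.trace * (A.1 ^ (k + 1)).trace - (A.1 ^ k).trace| := by
      rw [← abs_mul]
      exact abs_sub_abs_le_abs_sub _ _
    nlinarith

lemma free_nat (A : SL(2, ℤ)) (ht : 2 < |A.1.trace|) (k : ℕ) (R : Fin 2 → ℤ) (hR : R ≠ 0)
    (s : ℤ) (hs : s = 1 ∨ s = -1) (h : (A ^ (k + 1)).1.mulVec R = s • R) : False := by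
  have hd := (A ^ (k + 1)).det_coe
  have htr := trace_gt A ht k
  have ht2 : 2 < |(A ^ (k + 1)).1.trace| := by
    rw [Matrix.SpecialLinearGroup.coe_pow]
    linarith
  generalize (A ^ (k + 1)).1 = M at h hd ht2
  rw [Matrix.det_fin_two] at hd
  have h0 := congrFun h 0
  have h1 := congrFun h 1
  simp only [Matrix.mulVec, dotProduct, Fin.sum_univ_two, Pi.smul_apply, smul_eq_mul] at h0 h1
  have hss : s * s = 1 := by rcases hs with rfl | rfl <;> norm_num
  -- the determinant of `M - s` vanishes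
  have e0 : (2 - s * (M 0 0 + M 1 1)) * R 0 = 0 := by
    linear_combination (M 1 1 - s) * h0 - M 0 1 * h1 - R 0 * hd - R 0 * hss
  have e1 : (2 - s * (M 0 0 + M 1 1)) * R 1 = 0 := by
    linear_combination (M 0 0 - s) * h1 - M 1 0 * h0 - R 1 * hd - R 1 * hss
  have hne : R 0 ≠ 0 ∨ R 1 ≠ 0 := by
    by_contra hcon
    push Not at hcon
    apply hR
    funext i
    fin_cases i
    · exact hcon.1
    · exact hcon.2
  have e2 : 2 - s * (M 0 0 + M 1 1) = 0 := by
    rcases hne with h | h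
    · exact (mul_eq_zero.1 e0).resolve_right h
    · exact (mul_eq_zero.1 e1).resolve_right h
  have e3 : M.trace = M 0 0 + M 1 1 := by
    rw [Matrix.trace_fin_two]
  rw [e3] at ht2
  rcases hs with rfl | rfl
  · have : M 0 0 + M 1 1 = 2 := by linarith
    rw [this] at ht2
    norm_num at ht2
  · have : M 0 0 + M 1 1 = -2 := by linarith
    rw [this] at ht2
    norm_num at ht2

lemma free (A : SL(2, ℤ)) (ht : 2 < |A.1.trace|) (k : ℤ) (R : Fin 2 → ℤ) (hR : R ≠ 0)
    (s : ℤ) (hs : s = 1 ∨ s = -1) (h : ac A k R = s • R) : k = 0 := by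
  by_contra hk
  have hss : s * s = 1 := by rcases hs with rfl | rfl <;> norm_num
  have key : ∀ j : ℕ, ac A ((j : ℤ) + 1) R = s • R → False := by
    intro j hj
    have e : ac A ((j : ℤ) + 1) R = (A ^ (j + 1)).1.mulVec R := by
      unfold ac
      rw [show ((j : ℤ) + 1) = ((j + 1 : ℕ) : ℤ) by push_cast; ring, zpow_natCast]
    rw [e] at hj
    exact free_nat A ht j R hR s hs hj
  rcases lt_or_gt_of_ne hk with hk | hk
  · -- negative
    obtain ⟨j, hj⟩ : ∃ j : ℕ, -k = (j : ℤ) + 1 := ⟨(-k - 1).toNat, by omega⟩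
    apply key j
    rw [← hj]
    have h1 := congrArg (ac A (-k)) h
    rw [ac_add, neg_add_cancel, ac_zero] at h1
    have h2 : ac A (-k) (s • R) = s • ac A (-k) R := by
      unfold ac
      rw [Matrix.mulVec_smul]
    rw [h2] at h1
    have h3 := congrArg (fun v => s • v) h1
    simp only [smul_smul, hss, one_smul] at h3
    exact h3.symm
  · obtain ⟨j, hj⟩ : ∃ j : ℕ, k = (j : ℤ) + 1 := ⟨(k - 1).toNat, by omega⟩
    exact key j (by rw [← hj]; exact h)

/-- The orbits of the group generated by `A` and `-1`. -/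
def OO (A : SL(2, ℤ)) (R : Fin 2 → ℤ) : Set (Fin 2 → ℤ) :=
  {R' | ∃ k : ℤ, R' = ac A k R ∨ R' = -ac A k R}

lemma OO_self (A : SL(2, ℤ)) (R : Fin 2 → ℤ) : R ∈ OO A R := ⟨0, Or.inl (ac_zero A R).symm⟩

lemma OO_neg (A : SL(2, ℤ)) (R : Fin 2 → ℤ) : OO A (-R) = OO A R := by
  ext R'
  constructor
  · rintro ⟨k, h | h⟩
    · exact ⟨k, Or.inr (by rw [h, ac_neg])⟩
    · exact ⟨k, Or.inl (by rw [h, ac_neg, neg_neg])⟩
  · rintro ⟨k, h | h⟩
    · exact ⟨k, Or.inr (by rw [h, ac_neg, neg_neg])⟩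
    · exact ⟨k, Or.inl (by rw [h, ac_neg])⟩

lemma OO_ac (A : SL(2, ℤ)) (k : ℤ) (R : Fin 2 → ℤ) : OO A (ac A k R) = OO A R := by
  ext R'
  constructor
  · rintro ⟨l, h | h⟩
    · exact ⟨l + k, Or.inl (by rw [h, ac_add])⟩
    · exact ⟨l + k, Or.inr (by rw [h, ac_add])⟩
  · rintro ⟨l, h | h⟩
    · exact ⟨l - k, Or.inl (by rw [h, ac_add]; congr 1; ring)⟩
    · exact ⟨l - k, Or.inr (by rw [h, ac_add]; congr 2; ring)⟩

lemma OO_mem {A : SL(2, ℤ)} {R R' : Fin 2 → ℤ} (h : R' ∈ OO A R) : OO A R' = OO A R := by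
  obtain ⟨k, h | h⟩ := h
  · rw [h, OO_ac]
  · rw [h, OO_neg, OO_ac]

lemma ac_B_even (A : SL(2, ℤ)) {k : ℤ} (hk : Even k) (R : Fin 2 → ℤ) :
    ac (-A⁻¹) k R = ac A (-k) R := by
  unfold ac
  rw [hk.neg_zpow, inv_zpow', ]

lemma ac_B_odd (A : SL(2, ℤ)) {k : ℤ} (hk : Odd k) (R : Fin 2 → ℤ) :
    ac (-A⁻¹) k R = -ac A (-k) R := by
  unfold ac
  rw [hk.neg_zpow, inv_zpow', Matrix.SpecialLinearGroup.coe_neg, Matrix.neg_mulVec]

lemma qf_B (A : SL(2, ℤ)) (R : Fin 2 → ℤ) : qf (-A⁻¹) R = qf A R := by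
  rw [qf_eq, qf_eq]
  have h : (-A⁻¹).1 = !![-A.1 1 1, A.1 0 1; A.1 1 0, -A.1 0 0] := by
    rw [Matrix.SpecialLinearGroup.coe_neg, Matrix.SpecialLinearGroup.coe_inv,
      Matrix.adjugate_fin_two]
    ext i j
    fin_cases i <;> fin_cases j <;> simp
  have h00 : (-A⁻¹) 0 0 = -A 1 1 := congrFun (congrFun h 0) 0
  have h01 : (-A⁻¹) 0 1 = A 0 1 := congrFun (congrFun h 0) 1
  have h10 : (-A⁻¹) 1 0 = A 1 0 := congrFun (congrFun h 1) 0
  have h11 : (-A⁻¹) 1 1 = -A 0 0 := congrFun (congrFun h 1) 1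
  rw [h00, h01, h10, h11]
  ring

lemma qf_neg (A : SL(2, ℤ)) (R : Fin 2 → ℤ) : qf A (-R) = qf A R := by
  rw [qf_eq, qf_eq]
  simp only [Pi.neg_apply]
  ring

lemma isotropic (A : SL(2, ℤ)) (ht : 2 < |A.1.trace|) (R : Fin 2 → ℤ) (h : qf A R = 0) :
    R = 0 := by
  by_contra hR
  rw [qf_eq] at h
  have hd := A.det_coe
  rw [Matrix.det_fin_two] at hd
  rw [Matrix.trace_fin_two] at ht
  have hx : (2 * A 1 0 * R 0 + (A 1 1 - A 0 0) * R 1) ^ 2 =
      ((A.1 0 0 + A.1 1 1) ^ 2 - 4) * R 1 ^ 2 := by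
    linear_combination 4 * A 1 0 * h - 4 * R 1 ^ 2 * hd
  have ht3 : 3 ≤ |A.1 0 0 + A.1 1 1| := by omega
  by_cases h1 : R 1 = 0
  · have h0 : R 0 ≠ 0 := by
      intro h0
      apply hR
      funext i
      fin_cases i
      · exact h0
      · exact h1
    rw [h1] at h
    have h2 : A 1 0 * R 0 ^ 2 = 0 := by linarith
    have h3 : A.1 1 0 = 0 := (mul_eq_zero.1 h2).resolve_right (pow_ne_zero 2 h0)
    rw [h3] at hd
    have h4 : A.1 0 0 * A.1 1 1 = 1 := by linarith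
    rcases Int.eq_one_or_neg_one_of_mul_eq_one' h4 with ⟨h5, h6⟩ | ⟨h5, h6⟩
    · rw [h5, h6] at ht
      norm_num at ht
    · rw [h5, h6] at ht
      norm_num at ht
  · have hdvd : R 1 ^ 2 ∣ (2 * A 1 0 * R 0 + (A 1 1 - A 0 0) * R 1) ^ 2 := by
      rw [hx]
      exact Dvd.intro_left _ rfl
    rw [Int.pow_dvd_pow_iff (by norm_num)] at hdvd
    obtain ⟨q, hq⟩ := hdvd
    rw [hq] at hx
    have h2 : q ^ 2 = (A.1 0 0 + A.1 1 1) ^ 2 - 4 := by
      have h3 : R 1 ^ 2 * q ^ 2 = R 1 ^ 2 * ((A.1 0 0 + A.1 1 1) ^ 2 - 4) := by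
        linear_combination hx
      exact mul_left_cancel₀ (pow_ne_zero 2 h1) h3
    have h4 : |q| ^ 2 = |A.1 0 0 + A.1 1 1| ^ 2 - 4 := by
      rw [sq_abs, sq_abs, h2]
    generalize |A.1 0 0 + A.1 1 1| = T at h4 ht3
    have h5 : 0 ≤ |q| := abs_nonneg q
    generalize |q| = Q at h4 h5
    have h6 : Q < T := by nlinarith
    have h7 : T - 1 < Q := by nlinarith
    omega

lemma cnt_B (A : SL(2, ℤ)) (ht : 2 < |A.1.trace|) (N : ℤ) : cnt (-A⁻¹) N = cnt A N := by
  by_cases hN : N = 0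
  · subst hN
    have e : {S : Set (Fin 2 → ℤ) | ∃ R, qf (-A⁻¹) R = 0 ∧ S = orb (-A⁻¹) R} =
        {S : Set (Fin 2 → ℤ) | ∃ R, qf A R = 0 ∧ S = orb A R} := by
      have h0 : ∀ B : SL(2, ℤ), orb B 0 = {0} := by
        intro B
        ext R
        simp only [Set.mem_singleton_iff]
        constructor
        · rintro ⟨k, rfl⟩
          exact Matrix.mulVec_zero _
        · rintro rfl
          exact ⟨0, by simp⟩
      ext S
      simp only [Set.mem_ofPred_eq]
      constructor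
      · rintro ⟨R, h1, rfl⟩
        rw [qf_B] at h1
        have h2 := isotropic A ht R h1
        subst h2
        exact ⟨0, h1, by rw [h0, h0]⟩
      · rintro ⟨R, h1, rfl⟩
        have h2 := isotropic A ht R h1
        subst h2
        exact ⟨0, by rw [qf_B]; exact h1, by rw [h0, h0]⟩
    unfold cnt
    rw [e]
  · have hV0 : ∀ R, qf A R = N → R ≠ 0 := by
      rintro R h rfl
      apply hN
      rw [← h, qf_eq]
      simp
    have h1 := ncard_orbits {R | qf A R = N} (orb A) (OO A) (fun R => -R)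
      (fun R hR => by simpa only [Set.mem_ofPred_eq, qf_neg] using hR)
      (fun R R' h => by
        have h2 : R ∈ orb A R' := h ▸ self_mem A R
        obtain ⟨k, hk⟩ := h2
        exact OO_mem ⟨k, Or.inl hk⟩)
      (fun R => OO_neg A R)
      (fun R R' h => by
        have h2 : R ∈ OO A R' := h ▸ OO_self A R
        obtain ⟨k, hk | hk⟩ := h2
        · left
          rw [hk, orb_ac]
        · right
          rw [hk, ← ac_neg, orb_ac])
      (fun R hR h => by
        have h2 : -R ∈ orb A R := by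
          rw [h]
          exact self_mem A (-R)
        obtain ⟨k, hk⟩ := h2
        have h3 : ac A k R = (-1 : ℤ) • R := by
          rw [neg_smul, one_smul]
          exact hk.symm
        have h4 := free A ht k R (hV0 R hR) (-1) (Or.inr rfl) h3
        rw [h4, ac_zero, neg_smul, one_smul] at h3
        apply hV0 R hR
        funext i
        have := congrFun h3 i
        simp only [Pi.neg_apply] at this
        simp only [Pi.zero_apply]
        omega)
    have h2 := ncard_orbits {R | qf A R = N} (orb (-A⁻¹)) (OO A) (fun R => -R)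
      (fun R hR => by simpa only [Set.mem_ofPred_eq, qf_neg] using hR)
      (fun R R' h => by
        have h2 : R ∈ orb (-A⁻¹) R' := h ▸ self_mem (-A⁻¹) R
        obtain ⟨k, hk⟩ := h2
        change R = ac (-A⁻¹) k R' at hk
        rcases Int.even_or_odd k with he | he
        · rw [ac_B_even A he] at hk
          exact OO_mem ⟨-k, Or.inl hk⟩
        · rw [ac_B_odd A he] at hk
          exact OO_mem ⟨-k, Or.inr hk⟩)
      (fun R => OO_neg A R)
      (fun R R' h => by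
        have h2 : R ∈ OO A R' := h ▸ OO_self A R
        obtain ⟨k, hk | hk⟩ := h2
        · rcases Int.even_or_odd k with he | he
          · left
            have : R = ac (-A⁻¹) (-k) R' := by rw [ac_B_even A he.neg, neg_neg, hk]
            rw [this, orb_ac]
          · right
            have : R = ac (-A⁻¹) (-k) (-R') := by
              rw [ac_neg, ac_B_odd A he.neg, neg_neg, neg_neg, hk]
            rw [this, orb_ac]
        · rcases Int.even_or_odd k with he | he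
          · right
            have : R = ac (-A⁻¹) (-k) (-R') := by
              rw [ac_neg, ac_B_even A he.neg, neg_neg, hk]
            rw [this, orb_ac]
          · left
            have : R = ac (-A⁻¹) (-k) R' := by rw [ac_B_odd A he.neg, neg_neg, hk]
            rw [this, orb_ac])
      (fun R hR h => by
        have h2 : -R ∈ orb (-A⁻¹) R := by
          rw [h]
          exact self_mem (-A⁻¹) (-R)
        obtain ⟨k, hk⟩ := h2
        change -R = ac (-A⁻¹) k R at hk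
        rcases Int.even_or_odd k with he | he
        · rw [ac_B_even A he] at hk
          have h3 : ac A (-k) R = (-1 : ℤ) • R := by
            rw [neg_smul, one_smul]
            exact hk.symm
          have h4 := free A ht (-k) R (hV0 R hR) (-1) (Or.inr rfl) h3
          rw [h4, ac_zero, neg_smul, one_smul] at h3
          apply hV0 R hR
          funext i
          have := congrFun h3 i
          simp only [Pi.neg_apply] at this
          simp only [Pi.zero_apply]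
          omega
        · rw [ac_B_odd A he] at hk
          have h3 : ac A (-k) R = (1 : ℤ) • R := by
            rw [one_smul]
            exact (neg_injective hk).symm
          have h4 := free A ht (-k) R (hV0 R hR) 1 (Or.inl rfl) h3
          obtain ⟨j, hj⟩ := he
          omega)
    have e1 : {S : Set (Fin 2 → ℤ) | ∃ R, qf A R = N ∧ S = orb A R} =
        {T | ∃ x ∈ {R | qf A R = N}, T = orb A x} := rfl
    have e2 : {S : Set (Fin 2 → ℤ) | ∃ R, qf (-A⁻¹) R = N ∧ S = orb (-A⁻¹) R} =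
        {T | ∃ x ∈ {R | qf A R = N}, T = orb (-A⁻¹) x} := by
      ext S
      simp only [Set.mem_ofPred_eq, qf_B]
    unfold cnt
    rw [e1, e2, h1, h2]

end CVT

open CVT in
theorem cvt : CVT_Stmt := by
  refine ⟨cnt_conj, ?_, cnt_B⟩
  intro m t c a β A hc h
  exact ⟨cnt_frm hc h, cnt_zero h, frm_act hc h⟩

end Pool.Agent.C3A
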