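import Mathlib

/-!
Closed 3-braids (MP_31fd3b_gt), arithmetic half: indefinite binary quadratic forms of odd
discriminant are determined by their representation numbers. Definitions. See PAPER.md in this
folder.
-/

open scoped BigOperators Real MatrixGroups ContDiff

noncomputable section

namespace Pool.Agent.C3A

/-! ### Forms -/

/-- `f(β) = β² + β - m`, the norm of `β + ω` where `ω² = m + ω`; the discriminant is `1 + 4m`. -/
def fm (m β : ℤ) : ℤ := β ^ 2 + β - m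

/-- The modulus `2 |1 + 4m|`. -/
def MM (m : ℤ) : ℕ := 2 * (1 + 4 * m).natAbs

/-- The discriminant is positive and not a square. -/
def Good (m : ℤ) : Prop := 0 < m ∧ ¬ IsSquare (1 + 4 * m)

/-- Valid parameters `(a, β)`: `a > 0` is prime to `2(1+4m)` and divides `f(β)`. -/
def Val (m : ℤ) (a : ℕ) (β : ℤ) : Prop := 0 < a ∧ Nat.Coprime a (MM m) ∧ (a : ℤ) ∣ fm m β

/-- The form `(a, 2β+1, f(β)/a)` of discriminant `1 + 4m`. -/
def frm (m : ℤ) (a : ℕ) (β : ℤ) (v : ℤ × ℤ) : ℤ :=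
  a * v.1 ^ 2 + (2 * β + 1) * (v.1 * v.2) + (fm m β / a) * v.2 ^ 2

/-- Linear substitution with the matrix `(p q; r s)`. -/
def sub2 (p q r s : ℤ) (v : ℤ × ℤ) : ℤ × ℤ := (p * v.1 + q * v.2, r * v.1 + s * v.2)

/-- Proper equivalence of the forms `(a, β)` and `(a', β')`. -/
def PE (m : ℤ) (a : ℕ) (β : ℤ) (a' : ℕ) (β' : ℤ) : Prop :=
  ∃ p q r s : ℤ, p * s - q * r = 1 ∧ ∀ v, frm m a β (sub2 p q r s v) = frm m a' β' v

/-- Class data: a finite abelian group whose elements are the proper classes of the forms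
`(a, β)`, with the composition law. -/
structure CD (m : ℤ) where
  /-- the class group -/
  G : Type
  /-- group structure -/
  cg : CommGroup G
  /-- finiteness -/
  fg : Finite G
  /-- the class of `(a, β)` -/
  cl : ℕ → ℤ → G
  mul : ∀ a a' β, Val m (a * a') β → cl (a * a') β = cl a β * cl a' β
  per : ∀ a β k, Val m a β → cl a (β + a * k) = cl a β
  inv : ∀ a β, Val m a β → cl a (-1 - β) = (cl a β)⁻¹
  eqv : ∀ a β a' β', Val m a β → Val m a' β' → (cl a β = cl a' β' ↔ PE m a β a' β')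
  sur : ∀ g, ∃ a β, Val m a β ∧ cl a β = g

attribute [instance] CD.cg CD.fg

variable {m : ℤ}

/-- Roots of `f` modulo `a`, in `[0, a)`. -/
def bs (m : ℤ) (a : ℕ) : Finset ℕ := (Finset.range a).filter fun β => (a : ℤ) ∣ fm m β

/-- Divisors `a` of `N` with `N / a` a square. -/
def sqd (N : ℕ) : Finset ℕ := N.divisors.filter fun a => IsSquare (N / a)

/-- Sum of a character over the primitive ideals of norm `a`. -/
def bc (D : CD m) (χ : D.G →* ℂˣ) (a : ℕ) : ℂ :=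
  if Nat.Coprime a (MM m) then ∑ β ∈ bs m a, ((χ (D.cl a β) : ℂˣ) : ℂ) else 0

/-- Sum of a character over the ideals of norm `N`. -/
def rc (D : CD m) (χ : D.G →* ℂˣ) (N : ℕ) : ℂ :=
  if Nat.Coprime N (MM m) then ∑ a ∈ sqd N, bc D χ a else 0

open Classical in
/-- Number of ideals of norm `N` in the class `g`. -/
def rg (D : CD m) (g : D.G) (N : ℕ) : ℕ :=
  if Nat.Coprime N (MM m) then
    ∑ a ∈ sqd N, ((bs m a).filter fun β => D.cl a β = g).card else 0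

/-- Complete homogeneous polynomial `h_k(z, 1/z)`. -/
def hk (z : ℂ) (k : ℕ) : ℂ := ∑ i ∈ Finset.range (k + 1), z ^ i * z⁻¹ ^ (k - i)

/-! ### Orbits -/

/-- Action of `SL(2,ℤ)` on pairs. -/
def act (A : SL(2, ℤ)) (v : ℤ × ℤ) : ℤ × ℤ := sub2 (A 0 0) (A 0 1) (A 1 0) (A 1 1) v

/-- The orbit of `v` under the powers of `A`. -/
def orb2 (A : SL(2, ℤ)) (v : ℤ × ℤ) : Set (ℤ × ℤ) := {w | ∃ k : ℤ, w = act (A ^ k) v}

/-- Number of orbits of `A` which meet `S`. -/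
def nor (A : SL(2, ℤ)) (S : Set (ℤ × ℤ)) : ℕ := {T : Set (ℤ × ℤ) | ∃ v ∈ S, T = orb2 A v}.ncard

/-- `A` is multiplication by `(t - c)/2 + c ω` in the basis `a, β + ω`. -/
def IsA (m t c : ℤ) (a : ℕ) (β : ℤ) (A : SL(2, ℤ)) : Prop :=
  2 * A 0 0 = t - c - 2 * c * β ∧ A 0 1 = -(c * (fm m β / a)) ∧ A 1 0 = c * a ∧
    2 * A 1 1 = t + c + 2 * c * β

/-- Parameters of a unit `(t - c)/2 + c ω > 1` of norm 1. -/
def Unt (m t c : ℤ) : Prop := 2 < t ∧ 0 < c ∧ t ^ 2 - 4 = c ^ 2 * (1 + 4 * m)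

/-- Primitive vectors whose value in the form `(a, β)` completes to the form `(a₁, β₁)`. -/
def Pri (m : ℤ) (a : ℕ) (β : ℤ) (a₁ : ℕ) (β₁ : ℤ) : Set (ℤ × ℤ) :=
  {v | ∃ q s : ℤ, v.1 * s - q * v.2 = 1 ∧
    ∀ u, frm m a β (sub2 v.1 q v.2 s u) = frm m a₁ β₁ u}

/-! ### Smooth sums -/

/-- The bump `G`: smooth, `0 ≤ G ≤ 1`, `G = 1` on `[3/4, 5/4]`, `G = 0` outside `(1/2, 3/2)`. -/
def Gf (x : ℝ) : ℝ := (⟨1 / 4, 1 / 2, by norm_num, by norm_num⟩ : ContDiffBump (1 : ℝ)) x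

/-- The smooth sum of `u : ℕ → ℂ`. -/
def Sm (u : ℕ → ℂ) (z : ℝ) : ℂ := ∑' n : ℕ, u n * (Gf (n / z) : ℂ)

/-- First real linear form of `(a, β)`. -/
def l1 (m : ℤ) (a : ℕ) (β : ℤ) (u : ℝ × ℝ) : ℝ :=
  (a * u.1 + (β + (1 + √(1 + 4 * m)) / 2) * u.2) / √a

/-- Second real linear form; the product is the form. -/
def l2 (m : ℤ) (a : ℕ) (β : ℤ) (u : ℝ × ℝ) : ℝ :=
  (a * u.1 + (β + (1 - √(1 + 4 * m)) / 2) * u.2) / √a

open Classical in
/-- The smooth weight on the plane. -/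
def Psi (m : ℤ) (φ : ℝ → ℝ) (a : ℕ) (β : ℤ) (u : ℝ × ℝ) : ℝ :=
  if 0 < l1 m a β u ∧ 0 < l2 m a β u then
    Gf (l1 m a β u * l2 m a β u) * φ (Real.log (l1 m a β u / l2 m a β u)) else 0

/-- Smooth partitions of unity of period `ℓ`. -/
def IsPU (ℓ : ℝ) (φ : ℝ → ℝ) : Prop :=
  ContDiff ℝ ∞ φ ∧ HasCompactSupport φ ∧ (∀ s, 0 ≤ φ s) ∧
    ∀ s, HasSum (fun k : ℤ => φ (s + k * ℓ)) 1

/-- The smooth lattice sum over the vectors whose value is prime to the modulus. -/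
def Lsum (m : ℤ) (φ : ℝ → ℝ) (a : ℕ) (β : ℤ) (X : ℝ) : ℝ :=
  ∑' v : ℤ × ℤ, if Nat.Coprime (frm m a β v).natAbs (MM m) then
    Psi m φ a β (v.1 / √X, v.2 / √X) else 0

/-! ### The final statement (definitions shared with the topological half) -/

/-- The form `<R, A R>`. -/
def qf (A : SL(2, ℤ)) (R : Fin 2 → ℤ) : ℤ := R 0 * (A.1.mulVec R) 1 - R 1 * (A.1.mulVec R) 0

/-- The orbit of `R` under the powers of `A`. -/
def orb (A : SL(2, ℤ)) (R : Fin 2 → ℤ) : Set (Fin 2 → ℤ) := {R' | ∃ k : ℤ, R' = (A ^ k).1.mulVec R}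

/-- The number of orbits of `A` on the solutions of `<R, A R> = N`. -/
def cnt (A : SL(2, ℤ)) (N : ℤ) : ℕ := {S : Set (Fin 2 → ℤ) | ∃ R, qf A R = N ∧ S = orb A R}.ncard

/-- `E A⁻¹ E`: the matrix of the reversed word. -/
def revM (A : SL(2, ℤ)) : SL(2, ℤ) :=
  ⟨!![A 1 1, A 0 1; A 1 0, A 0 0], by
    have := A.det_coe
    rw [Matrix.det_fin_two] at this
    rw [Matrix.det_fin_two_of]
    linarith⟩

end Pool.Agent.C3A
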