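import Pool.Agent.C3A.Stmts

/-!
EM1: smooth sums in dimension 1 (third order Euler-Maclaurin formula).
-/

open scoped BigOperators Real ContDiff
open MeasureTheory

noncomputable section

namespace Pool.Agent.C3A

namespace EM1

/-- The third Bernoulli polynomial divided by six. -/
def pp (v : ℝ) : ℝ := (v ^ 3 - 3 / 2 * v ^ 2 + v / 2) / 6

theorem continuous_pp : Continuous pp := by
  unfold pp
  fun_prop

theorem abs_pp_le {v : ℝ} (h0 : 0 ≤ v) (h1 : v ≤ 1) : |pp v| ≤ 1 / 2 := by
  unfold pp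
  have h2 : v ^ 2 ≤ 1 := pow_le_one₀ h0 h1
  have h3 : v ^ 3 ≤ 1 := pow_le_one₀ h0 h1
  have h4 : 0 ≤ v ^ 2 := by positivity
  have h5 : 0 ≤ v ^ 3 := by positivity
  rw [abs_le]
  constructor <;> linarith

theorem em_local {H H1 H2 H3 : ℝ → ℝ} (h0 : ∀ u, HasDerivAt H (H1 u) u)
    (h1 : ∀ u, HasDerivAt H1 (H2 u) u) (h2 : ∀ u, HasDerivAt H2 (H3 u) u)
    (hc : Continuous H3) (a : ℝ) :
    (H a + H (a + 1)) / 2 - ∫ u in a..(a + 1), H u =
      (H1 (a + 1) - H1 a) / 12 + ∫ u in a..(a + 1), pp (u - a) * H3 u := by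
  have hH : Continuous H := continuous_iff_continuousAt.2 fun u => (h0 u).continuousAt
  have hd : ∀ u : ℝ, HasDerivAt (fun u => pp (u - a) * H2 u
      - ((u - a) ^ 2 - (u - a) + 1 / 6) / 2 * H1 u + ((u - a) - 1 / 2) * H u)
      (pp (u - a) * H3 u + H u) u := by
    intro u
    have e0 : HasDerivAt (fun u : ℝ => u - a) 1 u := (hasDerivAt_id u).sub_const a
    have e1 : HasDerivAt (fun u : ℝ => pp (u - a)) (((u - a) ^ 2 - (u - a) + 1 / 6) / 2) u := by
      unfold pp
      have := ((((e0.pow 3).sub ((e0.pow 2).const_mul (3 / 2))).add (e0.div_const 2)).div_const 6)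
      refine this.congr_deriv ?_
      push_cast
      ring
    have e2 : HasDerivAt (fun u : ℝ => ((u - a) ^ 2 - (u - a) + 1 / 6) / 2) ((u - a) - 1 / 2) u := by
      have := ((((e0.pow 2).sub e0).add_const (1 / 6)).div_const 2)
      refine this.congr_deriv ?_
      push_cast
      ring
    have e3 : HasDerivAt (fun u : ℝ => (u - a) - 1 / 2) 1 u := e0.sub_const _
    have := ((e1.mul (h2 u)).sub (e2.mul (h1 u))).add (e3.mul (h0 u))
    refine this.congr_deriv ?_
    ring
  have hcont : Continuous fun u => pp (u - a) * H3 u :=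
    (continuous_pp.comp (continuous_id.sub continuous_const)).mul hc
  have hI := intervalIntegral.integral_eq_sub_of_hasDerivAt (a := a) (b := a + 1)
    (fun u _ => hd u) ((hcont.add hH).intervalIntegrable _ _)
  rw [intervalIntegral.integral_add (hcont.intervalIntegrable _ _)
    (hH.intervalIntegrable _ _)] at hI
  have e1 : pp (a + 1 - a) = 0 := by unfold pp; ring
  have e2 : pp (a - a) = 0 := by unfold pp; ring
  rw [e1, e2] at hI
  have e3 : a + 1 - a = 1 := by ring
  have e4 : a - a = 0 := by ring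
  rw [e3, e4] at hI
  linarith

theorem em_sum {H H1 H2 H3 : ℝ → ℝ} (h0 : ∀ u, HasDerivAt H (H1 u) u)
    (h1 : ∀ u, HasDerivAt H1 (H2 u) u) (h2 : ∀ u, HasDerivAt H2 (H3 u) u)
    (hc : Continuous H3) (M : ℕ) :
    |(∑ j ∈ Finset.range M, H j) + (H M - H 0) / 2 - (∫ u in (0 : ℝ)..M, H u)
      - (H1 M - H1 0) / 12| ≤ 1 / 2 * ∫ u in (0 : ℝ)..M, |H3 u| := by
  have hH : Continuous H := continuous_iff_continuousAt.2 fun u => (h0 u).continuousAt
  induction M with
  | zero => simp
  | succ M ih =>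
    have hl := em_local h0 h1 h2 hc (M : ℝ)
    have hcont : Continuous fun u => pp (u - M) * H3 u :=
      (continuous_pp.comp (continuous_id.sub continuous_const)).mul hc
    have e1 : (∫ u in (0 : ℝ)..((M : ℝ) + 1), H u) =
        (∫ u in (0 : ℝ)..M, H u) + ∫ u in (M : ℝ)..((M : ℝ) + 1), H u :=
      (intervalIntegral.integral_add_adjacent_intervals (hH.intervalIntegrable _ _)
        (hH.intervalIntegrable _ _)).symm
    have e2 : (∫ u in (0 : ℝ)..((M : ℝ) + 1), |H3 u|) =
        (∫ u in (0 : ℝ)..M, |H3 u|) + ∫ u in (M : ℝ)..((M : ℝ) + 1), |H3 u| :=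
      (intervalIntegral.integral_add_adjacent_intervals (hc.abs.intervalIntegrable _ _)
        (hc.abs.intervalIntegrable _ _)).symm
    have e3 : |∫ u in (M : ℝ)..((M : ℝ) + 1), pp (u - M) * H3 u| ≤
        1 / 2 * ∫ u in (M : ℝ)..((M : ℝ) + 1), |H3 u| := by
      have hle : (M : ℝ) ≤ (M : ℝ) + 1 := by linarith
      refine (intervalIntegral.abs_integral_le_integral_abs hle).trans ?_
      rw [← intervalIntegral.integral_const_mul]
      refine intervalIntegral.integral_mono_on hle (hcont.abs.intervalIntegrable _ _)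
        ((hc.abs.const_mul _).intervalIntegrable _ _) ?_
      intro u hu
      rw [abs_mul]
      exact mul_le_mul_of_nonneg_right
        (abs_pp_le (by linarith [hu.1]) (by linarith [hu.2])) (abs_nonneg _)
    rw [Finset.sum_range_succ]
    push_cast
    rw [e1, e2]
    have e4 := abs_add_le
      ((∑ j ∈ Finset.range M, H j) + (H M - H 0) / 2 - (∫ u in (0 : ℝ)..M, H u)
        - (H1 M - H1 0) / 12) (∫ u in (M : ℝ)..((M : ℝ) + 1), pp (u - M) * H3 u)
    have e5 : (∑ j ∈ Finset.range M, H j) + (H M - H 0) / 2 - (∫ u in (0 : ℝ)..M, H u)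
        - (H1 M - H1 0) / 12 + (∫ u in (M : ℝ)..((M : ℝ) + 1), pp (u - M) * H3 u) =
        (∑ j ∈ Finset.range M, H j) + H M + (H (M + 1) - H 0) / 2
          - ((∫ u in (0 : ℝ)..M, H u) + ∫ u in (M : ℝ)..((M : ℝ) + 1), H u)
          - (H1 (M + 1) - H1 0) / 12 := by
      linarith
    rw [e5] at e4
    linarith

end EM1

open EM1 in
theorem em1 : EM1_Stmt := by
  intro B hB
  refine ⟨B + 1, ?_⟩
  intro K g hg hsupp hK x Y hY
  have hY0 : 0 < Y := by linarith
  have hK0 : 0 ≤ K := (abs_nonneg _).trans (hK 0)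
  -- derivatives of `g`
  have d0 : ∀ s, HasDerivAt g (iteratedDeriv 1 g s) s := by
    intro s
    rw [iteratedDeriv_one]
    exact (hg.differentiable (by simp) s).hasDerivAt
  have d1 : ∀ s, HasDerivAt (iteratedDeriv 1 g) (iteratedDeriv 2 g s) s := by
    intro s
    rw [iteratedDeriv_succ (n := 1)]
    exact (hg.differentiable_iteratedDeriv 1 (WithTop.coe_lt_coe.2 (ENat.natCast_lt_top _)) s).hasDerivAt
  have d2 : ∀ s, HasDerivAt (iteratedDeriv 2 g) (iteratedDeriv 3 g s) s := by
    intro s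
    rw [iteratedDeriv_succ (n := 2)]
    exact (hg.differentiable_iteratedDeriv 2 (WithTop.coe_lt_coe.2 (ENat.natCast_lt_top _)) s).hasDerivAt
  have c3 : Continuous (iteratedDeriv 3 g) :=
    hg.continuous_iteratedDeriv 3 (WithTop.coe_le_coe.2 le_top)
  have hz : ∀ k : ℕ, ∀ s, B < |s| → iteratedDeriv k g s = 0 := by
    intro k s hs
    have h1 : g =ᶠ[nhds s] fun _ => (0 : ℝ) := by
      have h2 : ∀ᶠ t in nhds s, B < |t| :=
        (continuous_abs.tendsto s).eventually (lt_mem_nhds hs)
      exact h2.mono fun t ht => hsupp t ht.le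
    rw [h1.iteratedDeriv_eq k]
    simp
  -- the range
  obtain ⟨N, hN⟩ := exists_nat_gt (|x| + (B + 1) * Y)
  have hx1 := neg_abs_le x
  have hx2 := le_abs_self x
  have hBY : 0 < (B + 1) * Y := by positivity
  set c : ℝ := x - N with hc
  -- the function `H`
  have aff : ∀ u : ℝ, HasDerivAt (fun u : ℝ => (u + c) / Y) (1 / Y) u := fun u =>
    ((hasDerivAt_id u).add_const c).div_const Y
  have D0 : ∀ u : ℝ, HasDerivAt (fun u => g ((u + c) / Y)) (iteratedDeriv 1 g ((u + c) / Y) / Y) u := by
    intro u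
    have := (d0 ((u + c) / Y)).comp u (aff u)
    refine this.congr_deriv ?_
    ring
  have D1 : ∀ u : ℝ, HasDerivAt (fun u => iteratedDeriv 1 g ((u + c) / Y) / Y)
      (iteratedDeriv 2 g ((u + c) / Y) / Y ^ 2) u := by
    intro u
    have := ((d1 ((u + c) / Y)).comp u (aff u)).div_const Y
    refine this.congr_deriv ?_
    field_simp
  have D2 : ∀ u : ℝ, HasDerivAt (fun u => iteratedDeriv 2 g ((u + c) / Y) / Y ^ 2)
      (iteratedDeriv 3 g ((u + c) / Y) / Y ^ 3) u := by
    intro u
    have := ((d2 ((u + c) / Y)).comp u (aff u)).div_const (Y ^ 2)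
    refine this.congr_deriv ?_
    field_simp
  have C3 : Continuous fun u : ℝ => iteratedDeriv 3 g ((u + c) / Y) / Y ^ 3 :=
    (c3.comp ((continuous_id.add continuous_const).div_const Y)).div_const _
  have key := em_sum D0 D1 D2 C3 (2 * N)
  -- the values at the ends
  have far : ∀ u : ℝ, u + c ≤ -((B + 1) * Y) ∨ (B + 1) * Y ≤ u + c → B < |(u + c) / Y| := by
    intro u hu
    rw [abs_div, abs_of_pos hY0, lt_div_iff₀ hY0]
    rcases hu with hu | hu
    · rw [abs_of_nonpos (by linarith)]
      linarith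
    · rw [abs_of_nonneg (by linarith)]
      linarith
  have far0 : ∀ u : ℝ, u ≤ 0 → B < |(u + c) / Y| := by
    intro u hu
    refine far u (Or.inl ?_)
    rw [hc]
    linarith
  have farN : ∀ u : ℝ, (2 * N : ℝ) ≤ u → B < |(u + c) / Y| := by
    intro u hu
    refine far u (Or.inr ?_)
    rw [hc]
    linarith
  have z0 : g ((((0 : ℝ)) + c) / Y) = 0 := hsupp _ (far0 0 le_rfl).le
  have zN : g ((((2 * N : ℕ) : ℝ) + c) / Y) = 0 := by
    push_cast
    exact hsupp _ (farN _ le_rfl).le
  have z0' : iteratedDeriv 1 g ((((0 : ℝ)) + c) / Y) = 0 := hz 1 _ (far0 0 le_rfl)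
  have zN' : iteratedDeriv 1 g ((((2 * N : ℕ) : ℝ) + c) / Y) = 0 := by
    push_cast
    exact hz 1 _ (farN _ le_rfl)
  rw [z0, zN, z0', zN'] at key
  simp only [sub_self, zero_div, add_zero, sub_zero] at key
  -- the sum
  have hsum : ∑' n : ℤ, g ((n + x) / Y) = ∑ j ∈ Finset.range (2 * N), g (((j : ℝ) + c) / Y) := by
    have h1 : ∑' n : ℤ, g ((n + x) / Y) =
        ∑ n ∈ (Finset.range (2 * N)).image (fun j : ℕ => (j : ℤ) - N), g (((n : ℤ) + x) / Y) := by
      refine tsum_eq_sum fun n hn => ?_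
      refine hsupp _ (le_of_lt ?_)
      have h2 : n < -(N : ℤ) ∨ (N : ℤ) ≤ n := by
        by_contra hcon
        push Not at hcon
        apply hn
        rw [Finset.mem_image]
        refine ⟨(n + N).toNat, ?_, ?_⟩
        · rw [Finset.mem_range]
          omega
        · omega
      have h3 : ((n : ℝ) + x) / Y = (((n : ℝ) + N) + c) / Y := by
        rw [hc]
        ring
      rw [h3]
      rcases h2 with h2 | h2
      · refine far0 _ ?_
        have : (n : ℝ) < -(N : ℝ) := by exact_mod_cast h2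
        linarith
      · refine farN _ ?_
        have : (N : ℝ) ≤ (n : ℝ) := by exact_mod_cast h2
        linarith
    rw [h1, Finset.sum_image]
    · refine Finset.sum_congr rfl fun j _ => ?_
      push_cast
      rw [hc]
      ring_nf
    · intro i _ j _ hij
      have : (i : ℤ) - N = (j : ℤ) - N := hij
      omega
  -- the integral
  have hint : ∫ u in (0 : ℝ)..((2 * N : ℕ) : ℝ), g ((u + c) / Y) = Y * ∫ s, g s := by
    have h1 : ∫ u : ℝ, g ((u + c) / Y) = Y * ∫ s, g s := by
      rw [integral_add_right_eq_self (fun u : ℝ => g (u / Y)) c, Measure.integral_comp_div,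
        abs_of_pos hY0, smul_eq_mul]
    rw [← h1, intervalIntegral.integral_of_le (by positivity),
      setIntegral_eq_integral_of_forall_compl_eq_zero]
    intro u hu
    refine hsupp _ (le_of_lt ?_)
    rw [Set.mem_Ioc, not_and_or, not_lt, not_le] at hu
    rcases hu with hu | hu
    · exact far0 u hu
    · refine farN u ?_
      push_cast at hu
      exact hu.le
  -- the error
  have hC0 : Continuous fun u : ℝ => |iteratedDeriv 3 g ((u + c) / Y) / Y ^ 3| := C3.abs
  have herr : ∫ u in (0 : ℝ)..((2 * N : ℕ) : ℝ), |iteratedDeriv 3 g ((u + c) / Y) / Y ^ 3| ≤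
      2 * (B + 1) * K / Y ^ 2 := by
    set a : ℝ := -((B + 1) * Y) - c with ha
    set b : ℝ := (B + 1) * Y - c with hb
    have ha0 : 0 ≤ a := by rw [ha, hc]; linarith
    have hbN : b ≤ ((2 * N : ℕ) : ℝ) := by
      push_cast
      rw [hb, hc]
      linarith
    have hab : a ≤ b := by rw [ha, hb]; linarith
    rw [← intervalIntegral.integral_add_adjacent_intervals (b := a)
      (hC0.intervalIntegrable _ _) (hC0.intervalIntegrable _ _),
      ← intervalIntegral.integral_add_adjacent_intervals (a := a) (b := b)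
      (hC0.intervalIntegrable _ _) (hC0.intervalIntegrable _ _)]
    have i1 : ∫ u in (0 : ℝ)..a, |iteratedDeriv 3 g ((u + c) / Y) / Y ^ 3| = 0 := by
      rw [intervalIntegral.integral_congr (g := fun _ => (0 : ℝ))]
      · simp
      · intro u hu
        rw [Set.uIcc_of_le ha0] at hu
        simp only
        rw [hz 3 _ (far u (Or.inl (by linarith [hu.2])))]
        simp
    have i2 : ∫ u in b..((2 * N : ℕ) : ℝ), |iteratedDeriv 3 g ((u + c) / Y) / Y ^ 3| = 0 := by
      rw [intervalIntegral.integral_congr (g := fun _ => (0 : ℝ))]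
      · simp
      · intro u hu
        rw [Set.uIcc_of_le hbN] at hu
        simp only
        rw [hz 3 _ (far u (Or.inr (by linarith [hu.1])))]
        simp
    have i3 : ∫ u in a..b, |iteratedDeriv 3 g ((u + c) / Y) / Y ^ 3| ≤
        ∫ u in a..b, K / Y ^ 3 := by
      refine intervalIntegral.integral_mono_on hab (hC0.intervalIntegrable _ _)
        (continuous_const.intervalIntegrable _ _) fun u _ => ?_
      rw [abs_div, abs_of_pos (pow_pos hY0 3)]
      exact div_le_div_of_nonneg_right (hK _) (by positivity)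
    rw [intervalIntegral.integral_const, smul_eq_mul] at i3
    have i4 : (b - a) * (K / Y ^ 3) = 2 * (B + 1) * K / Y ^ 2 := by
      rw [ha, hb]
      field_simp
      ring
    rw [i1, i2]
    linarith
  rw [hsum, ← hint]
  refine key.trans ?_
  have : 1 / 2 * (2 * (B + 1) * K / Y ^ 2) = (B + 1) * K / Y ^ 2 := by ring
  linarith

end Pool.Agent.C3A
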