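import Pool.Agent.C3A.Stmts

/-!
EM2: smooth sums over the lattice in dimension 2.
-/

open scoped BigOperators Real MatrixGroups ContDiff Topology
open Filter MeasureTheory

noncomputable section

namespace Pool.Agent.C3A

namespace EM2

lemma bound0 {E : Type*} [NormedAddCommGroup E] {f : E → ℝ} (hf : Continuous f)
    (hc : HasCompactSupport f) : ∃ K : ℝ, 0 ≤ K ∧ ∀ u, |f u| ≤ K := by
  obtain ⟨K, hK⟩ := hf.bounded_above_of_compact_support hc
  refine ⟨K, (norm_nonneg _).trans (hK 0), fun u => ?_⟩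
  rw [← Real.norm_eq_abs]
  exact hK u

/-- derivatives of smooth functions of one variable with compact support are bounded -/
lemma bound1 (k : ℕ) : ∀ g : ℝ → ℝ, ContDiff ℝ ∞ g → HasCompactSupport g →
    ∃ K : ℝ, 0 ≤ K ∧ ∀ s, |iteratedDeriv k g s| ≤ K := by
  induction k with
  | zero =>
    intro g hg hc
    simpa only [iteratedDeriv_zero] using bound0 hg.continuous hc
  | succ k ih =>
    intro g hg hc
    have h1 : ContDiff ℝ ∞ (deriv g) := (contDiff_infty_iff_deriv.1 hg).2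
    obtain ⟨K, h0, hK⟩ := ih (deriv g) h1 hc.deriv
    refine ⟨K, h0, fun s => ?_⟩
    rw [iteratedDeriv_succ']
    exact hK s

/-- partial derivatives are bounded -/
lemma bound2 (k : ℕ) : ∀ f : ℝ × ℝ → ℝ, ContDiff ℝ ∞ f → HasCompactSupport f →
    ∃ K : ℝ, 0 ≤ K ∧ ∀ s r, |iteratedDeriv k (fun r => f (s, r)) r| ≤ K := by
  induction k with
  | zero =>
    intro f hf hc
    obtain ⟨K, h0, hK⟩ := bound0 hf.continuous hc
    refine ⟨K, h0, fun s r => ?_⟩
    rw [iteratedDeriv_zero]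
    exact hK (s, r)
  | succ k ih =>
    intro f hf hc
    have h1 : ContDiff ℝ ∞ (fun u => fderiv ℝ f u (0, 1)) :=
      (hf.fderiv_right (m := ∞) (by simp)).clm_apply contDiff_const
    have h2 : HasCompactSupport (fun u => fderiv ℝ f u (0, 1)) := hc.fderiv_apply ℝ _
    obtain ⟨K, h0, hK⟩ := ih _ h1 h2
    refine ⟨K, h0, fun s r => ?_⟩
    rw [iteratedDeriv_succ']
    have h3 : deriv (fun r => f (s, r)) = fun r => fderiv ℝ f (s, r) (0, 1) := by
      funext r
      have e1 : HasFDerivAt f (fderiv ℝ f (s, r)) (s, r) :=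
        (hf.differentiable (by simp) (s, r)).hasFDerivAt
      have e2 : HasDerivAt (fun r : ℝ => (s, r)) ((0 : ℝ), (1 : ℝ)) r :=
        (hasDerivAt_const r s).prodMk (hasDerivAt_id r)
      exact (e1.comp_hasDerivAt r e2).deriv
    rw [h3]
    exact hK s r

/-- integrals over the second variable are smooth -/
lemma smooth_int {f : ℝ × ℝ → ℝ} (hf : ContDiff ℝ ∞ f) {B : ℝ}
    (hB : ∀ s r, B ≤ |r| → f (s, r) = 0) : ContDiff ℝ ∞ (fun s => ∫ r, f (s, r)) := by
  have h1 := contDiffOn_convolution_right_with_param (𝕜 := ℝ) (n := ⊤)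
    (μ := (volume : Measure ℝ)) (f := fun _ : ℝ => (1 : ℝ))
    (ContinuousLinearMap.lsmul ℝ ℝ) (g := fun (s : ℝ) (r : ℝ) => f (s, r)) (s := Set.univ)
    (k := Metric.closedBall (0 : ℝ) B) isOpen_univ (isCompact_closedBall _ _)
    (fun p x _ hx => by
      apply hB
      rw [Metric.mem_closedBall, dist_zero_right, Real.norm_eq_abs, not_le] at hx
      exact hx.le)
    (continuous_const.locallyIntegrable) (by
      rw [Set.univ_prod_univ, contDiffOn_univ]
      exact hf)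
  rw [Set.univ_prod_univ, contDiffOn_univ] at h1
  have h2 : (fun s => ∫ r, f (s, r)) = (fun q : ℝ × ℝ =>
      MeasureTheory.convolution (fun _ : ℝ => (1 : ℝ)) (fun r : ℝ => f (q.1, r))
        (ContinuousLinearMap.lsmul ℝ ℝ) volume q.2) ∘ fun s => (s, 0) := by
    funext s
    simp only [Function.comp_apply, MeasureTheory.convolution, ContinuousLinearMap.lsmul_apply,
      one_smul, zero_sub]
    exact (integral_neg_eq_self (fun r => f (s, r)) volume).symm
  rw [h2]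
  exact h1.comp (contDiff_id.prodMk contDiff_const)

/-- the integers `n` with `|(n + x)/Y| < B` -/
lemma exists_range {B : ℝ} (hB : 0 < B) (x Y : ℝ) (hY : 1 ≤ Y) : ∃ S : Finset ℤ,
    (∀ n : ℤ, n ∉ S → B ≤ |(n + x) / Y|) ∧ (S.card : ℝ) ≤ (2 * B + 1) * Y := by
  have hY0 : 0 < Y := by linarith
  refine ⟨Finset.Icc ⌈-(B * Y) - x⌉ ⌊B * Y - x⌋, ?_, ?_⟩
  · intro n hn
    by_contra hc
    push Not at hc
    apply hn
    rw [abs_div, abs_of_pos hY0, div_lt_iff₀ hY0, abs_lt] at hc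
    rw [Finset.mem_Icc, Int.ceil_le, Int.le_floor]
    constructor <;> linarith
  · rw [Int.card_Icc]
    have h1 := Int.floor_le (B * Y - x)
    have h2 := Int.le_ceil (-(B * Y) - x)
    have h3 : 0 ≤ B * Y := by positivity
    have h4 : (((⌊B * Y - x⌋ + 1 - ⌈-(B * Y) - x⌉).toNat : ℤ) : ℝ) ≤ (2 * B + 1) * Y := by
      rw [Int.toNat_eq_max]
      push_cast
      apply max_le
      · nlinarith
      · positivity
    exact_mod_cast h4

end EM2

open EM2 in
theorem em2 (h : EM1_Stmt) : EM2_Stmt := by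
  intro f hf hc
  -- the support
  obtain ⟨B, hB0, hB⟩ : ∃ B : ℝ, 0 < B ∧ ∀ u : ℝ × ℝ, B ≤ ‖u‖ → f u = 0 := by
    obtain ⟨R, hR⟩ := hc.isCompact.isBounded.subset_closedBall (0 : ℝ × ℝ)
    refine ⟨|R| + 1, by positivity, fun u hu => ?_⟩
    apply image_eq_zero_of_notMem_tsupport
    intro hu2
    have h1 := hR hu2
    rw [Metric.mem_closedBall, dist_zero_right] at h1
    have h2 := le_abs_self R
    linarith
  have hB1 : ∀ s r, B ≤ |s| → f (s, r) = 0 := fun s r hs => hB _ (by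
    rw [Prod.norm_def]
    exact hs.trans (le_max_left _ _))
  have hB2 : ∀ s r, B ≤ |r| → f (s, r) = 0 := fun s r hs => hB _ (by
    rw [Prod.norm_def]
    exact hs.trans (le_max_right _ _))
  obtain ⟨C, hC⟩ := h B hB0
  -- the inner integral
  obtain ⟨H, hH⟩ : ∃ H : ℝ → ℝ, H = fun s => ∫ r, f (s, r) := ⟨_, rfl⟩
  have hHs : ContDiff ℝ ∞ H := by
    rw [hH]
    exact smooth_int hf hB2
  have hH0 : ∀ s, B ≤ |s| → H s = 0 := by
    intro s hs
    rw [hH]
    have : (fun r => f (s, r)) = fun _ => 0 := funext fun r => hB1 s r hs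
    simp only [this, integral_zero]
  have hHc : HasCompactSupport H := by
    apply HasCompactSupport.intro (isCompact_closedBall (0 : ℝ) B)
    intro s hs
    rw [Metric.mem_closedBall, dist_zero_right, Real.norm_eq_abs, not_le] at hs
    exact hH0 s hs.le
  obtain ⟨K1, hK10, hK1⟩ := bound1 3 H hHs hHc
  obtain ⟨K2, hK20, hK2⟩ := bound2 3 f hf hc
  have hint : ∫ u, f u = ∫ s, H s := by
    have h1 : Integrable f := hf.continuous.integrable_of_hasCompactSupport hc
    rw [hH, Measure.volume_eq_prod]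
    rw [Measure.volume_eq_prod] at h1
    exact integral_prod f h1
  refine ⟨(2 * B + 1) * (|C| * K2) + |C| * K1, fun x y Y hY => ?_⟩
  have hY0 : 0 < Y := by linarith
  obtain ⟨S, hS, hScard⟩ := exists_range hB0 x Y hY
  obtain ⟨T, hT, -⟩ := exists_range hB0 y Y hY
  have e1 : ∑' n : ℤ × ℤ, f ((n.1 + x) / Y, (n.2 + y) / Y) =
      ∑ a ∈ S, ∑ b ∈ T, f ((a + x) / Y, (b + y) / Y) := by
    rw [tsum_eq_sum (s := S ×ˢ T), Finset.sum_product]
    intro n hn
    rw [Finset.mem_product, not_and_or] at hn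
    rcases hn with hn | hn
    · exact hB1 _ _ (hS _ hn)
    · exact hB2 _ _ (hT _ hn)
  have e2 : ∀ s : ℝ, ∑' b : ℤ, f (s, (b + y) / Y) = ∑ b ∈ T, f (s, (b + y) / Y) := by
    intro s
    exact tsum_eq_sum fun b hb => hB2 _ _ (hT _ hb)
  have e3 : ∑' a : ℤ, H ((a + x) / Y) = ∑ a ∈ S, H ((a + x) / Y) :=
    tsum_eq_sum fun a ha => hH0 _ (hS _ ha)
  have i1 : ∀ s : ℝ, |∑ b ∈ T, f (s, (b + y) / Y) - Y * H s| ≤ |C| * K2 / Y ^ 2 := by
    intro s
    have j1 : ContDiff ℝ ∞ (fun r => f (s, r)) := hf.comp (contDiff_const.prodMk contDiff_id)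
    have j2 := hC K2 (fun r => f (s, r)) j1 (fun r hr => hB2 s r hr) (fun r => hK2 s r) y Y hY
    rw [e2] at j2
    have j3 : H s = ∫ r, f (s, r) := by rw [hH]
    rw [j3]
    refine j2.trans ?_
    have : C * K2 ≤ |C| * K2 := mul_le_mul_of_nonneg_right (le_abs_self C) hK20
    exact div_le_div_of_nonneg_right this (by positivity)
  have i2 : |∑ a ∈ S, H ((a + x) / Y) - Y * ∫ s, H s| ≤ |C| * K1 / Y ^ 2 := by
    have j2 := hC K1 H hHs hH0 hK1 x Y hY
    rw [e3] at j2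
    refine j2.trans ?_
    have : C * K1 ≤ |C| * K1 := mul_le_mul_of_nonneg_right (le_abs_self C) hK10
    exact div_le_div_of_nonneg_right this (by positivity)
  rw [e1, hint]
  have e4 : ∑ a ∈ S, ∑ b ∈ T, f ((a + x) / Y, (b + y) / Y) - Y ^ 2 * ∫ s, H s =
      ∑ a ∈ S, (∑ b ∈ T, f ((a + x) / Y, (b + y) / Y) - Y * H ((a + x) / Y)) +
        Y * (∑ a ∈ S, H ((a + x) / Y) - Y * ∫ s, H s) := by
    rw [Finset.sum_sub_distrib, ← Finset.mul_sum]
    ring
  rw [e4]
  have i3 : |∑ a ∈ S, (∑ b ∈ T, f ((a + x) / Y, (b + y) / Y) - Y * H ((a + x) / Y))| ≤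
      (2 * B + 1) * (|C| * K2) / Y := by
    calc _ ≤ ∑ a ∈ S, |∑ b ∈ T, f ((a + x) / Y, (b + y) / Y) - Y * H ((a + x) / Y)| :=
          Finset.abs_sum_le_sum_abs _ _
      _ ≤ ∑ _a ∈ S, |C| * K2 / Y ^ 2 := Finset.sum_le_sum fun a _ => i1 _
      _ = S.card * (|C| * K2 / Y ^ 2) := by rw [Finset.sum_const, nsmul_eq_mul]
      _ ≤ ((2 * B + 1) * Y) * (|C| * K2 / Y ^ 2) :=
          mul_le_mul_of_nonneg_right hScard (by positivity)
      _ = _ := by
          field_simp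
  have i4 : |Y * (∑ a ∈ S, H ((a + x) / Y) - Y * ∫ s, H s)| ≤ |C| * K1 / Y := by
    rw [abs_mul, abs_of_pos hY0]
    calc _ ≤ Y * (|C| * K1 / Y ^ 2) := mul_le_mul_of_nonneg_left i2 hY0.le
      _ = _ := by field_simp
  calc _ ≤ (2 * B + 1) * (|C| * K2) / Y + |C| * K1 / Y := (abs_add_le _ _).trans (add_le_add i3 i4)
    _ = _ := by ring

end Pool.Agent.C3A
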