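import Pool.Agent.C3A.Stmts

/-!
Closed 3-braids, arithmetic half: FOUR, the characters of a finite abelian group span the
functions.
-/

open scoped BigOperators

noncomputable section

namespace Pool.Agent.C3A

namespace FOUR

variable {G : Type} [CommGroup G] [Finite G]

instance enough : HasEnoughRootsOfUnity ℂ (Monoid.exponent G) := by
  have h : Monoid.exponent G ≠ 0 := Monoid.exponent_ne_zero_of_finite
  have : NeZero ((Monoid.exponent G : ℕ) : ℂ) := ⟨by exact_mod_cast h⟩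
  exact IsSepClosed.hasEnoughRootsOfUnity ℂ (Monoid.exponent G)

theorem finite_chars : Finite (G →* ℂˣ) :=
  Finite.of_equiv G (CommGroup.monoidHom_mulEquiv_of_hasEnoughRootsOfUnity G ℂ).some.symm.toEquiv

/-- The sum of the values of all characters. -/
theorem sum_chars [Fintype (G →* ℂˣ)] (x : G) (hx : x ≠ 1) :
    ∑ χ : G →* ℂˣ, ((χ x : ℂˣ) : ℂ) = 0 := by
  obtain ⟨φ, hφ⟩ := CommGroup.exists_apply_ne_one_of_hasEnoughRootsOfUnity G ℂ hx
  have h1 : ∑ χ : G →* ℂˣ, ((χ x : ℂˣ) : ℂ) =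
      ((φ x : ℂˣ) : ℂ) * ∑ χ : G →* ℂˣ, ((χ x : ℂˣ) : ℂ) := by
    rw [Finset.mul_sum]
    refine (Fintype.sum_equiv (Equiv.mulLeft φ) _ _ fun χ => ?_).symm
    simp
  have h2 : (((φ x : ℂˣ) : ℂ) - 1) * ∑ χ : G →* ℂˣ, ((χ x : ℂˣ) : ℂ) = 0 := by
    rw [sub_mul, one_mul, ← h1, sub_self]
  refine (mul_eq_zero.mp h2).resolve_left fun h3 => hφ ?_
  exact Units.ext (sub_eq_zero.mp h3)

end FOUR

theorem four : FOUR_Stmt := by
  classical
  intro G _ _
  have hfin : Finite (G →* ℂˣ) := FOUR.finite_chars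
  refine ⟨hfin, fun f => ?_⟩
  have : Fintype (G →* ℂˣ) := Fintype.ofFinite _
  have : Fintype G := Fintype.ofFinite _
  have hcard : (Fintype.card (G →* ℂˣ) : ℂ) = Fintype.card G := by
    have h := CommGroup.card_monoidHom_of_hasEnoughRootsOfUnity G ℂ
    rw [Nat.card_eq_fintype_card, Nat.card_eq_fintype_card] at h
    exact_mod_cast h
  have hG : (Fintype.card G : ℂ) ≠ 0 := by exact_mod_cast Fintype.card_ne_zero
  refine ⟨fun χ => (∑ h : G, f h * ((χ h⁻¹ : ℂˣ) : ℂ)) / Fintype.card G, fun g => ?_⟩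
  rw [finsum_eq_sum_of_fintype]
  have h1 : ∀ χ : G →* ℂˣ, (∑ h : G, f h * ((χ h⁻¹ : ℂˣ) : ℂ)) / Fintype.card G *
      ((χ g : ℂˣ) : ℂ) = (∑ h : G, f h * ((χ (h⁻¹ * g) : ℂˣ) : ℂ)) / Fintype.card G := by
    intro χ
    rw [div_mul_eq_mul_div, Finset.sum_mul]
    congr 1
    refine Finset.sum_congr rfl fun h _ => ?_
    rw [map_mul, Units.val_mul]
    ring
  rw [Finset.sum_congr rfl fun χ _ => h1 χ, ← Finset.sum_div, Finset.sum_comm]
  have h2 : ∀ h : G, ∑ χ : G →* ℂˣ, f h * ((χ (h⁻¹ * g) : ℂˣ) : ℂ) =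
      if h = g then f g * Fintype.card G else 0 := by
    intro h
    rw [← Finset.mul_sum]
    split_ifs with hh
    · subst hh
      simp [hcard]
    · rw [FOUR.sum_chars (h⁻¹ * g) (fun h3 => hh (inv_mul_eq_one.mp h3)), mul_zero]
  rw [Finset.sum_congr rfl fun h _ => h2 h, Finset.sum_ite_eq' Finset.univ g]
  simp only [Finset.mem_univ, if_true]
  field_simp

end Pool.Agent.C3A
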