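import Pool.Agent.C3A.Stmts

/-!
Closed 3-braids, arithmetic half: module IDE. Narrow equivalence of the ideals is proper
equivalence of the forms. See PAPER.md, A.IDE.
-/

namespace Pool.Agent.C3A

open QuadraticAlgebra

namespace IDE

variable {m : ℤ}

/-- The orientation form. -/
def dl (z w : Km m) : ℚ := z.re * w.im - z.im * w.re

lemma dl_mul (α z w : Km m) : dl (α * z) (α * w) = QuadraticAlgebra.norm α * dl z w := by
  simp only [dl, re_mul, im_mul, norm_def]
  ring

/-- The second basis vector `β + ω`. -/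
def e2 (m β : ℤ) : Km m := ⟨(β : ℚ), 1⟩

/-- The first basis vector `a`. -/
def e1 (m : ℤ) (a : ℕ) : Km m := ⟨(a : ℚ), 0⟩

/-- The lattice vector with coordinates `x, y`. -/
def lv (m : ℤ) (a : ℕ) (β : ℤ) (x y : ℤ) : Km m := ⟨(x * a + y * β : ℤ), (y : ℚ)⟩

lemma e1_eq (a : ℕ) (β : ℤ) : e1 m a = lv m a β 1 0 := by
  ext <;> simp [e1, lv]

lemma e2_eq (a : ℕ) (β : ℤ) : e2 m β = lv m a β 0 1 := by
  ext <;> simp [e2, lv]

lemma dl_lv (a : ℕ) (β p q r s : ℤ) :
    dl (lv m a β p r) (lv m a β q s) = ((p * s - q * r : ℤ) : ℚ) * a := by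
  simp only [dl, lv]
  push_cast
  ring

lemma norm_lv {a : ℕ} {β : ℤ} (h : Val m a β) (x y : ℤ) :
    QuadraticAlgebra.norm (lv m a β x y) = (a : ℚ) * (frm m a β (x, y) : ℤ) := by
  obtain ⟨c, hc⟩ := h.2.2
  have ha : (a : ℤ) ≠ 0 := by
    have := h.1
    omega
  have h1 : fm m β / a = c := by
    rw [hc]
    exact Int.mul_ediv_cancel_left c ha
  have h2 : ((β : ℚ) ^ 2 + β - m) = a * c := by
    have := congrArg (fun t : ℤ => (t : ℚ)) hc
    simp only [fm] at this
    push_cast at this
    exact this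
  simp only [norm_def, lv, frm, h1]
  push_cast
  linear_combination (y : ℚ) ^ 2 * h2

lemma smul_lv (α : Km m) (a : ℕ) (β x y : ℤ) :
    α * lv m a β x y = (x : Km m) * (α * e1 m a) + (y : Km m) * (α * e2 m β) := by
  ext <;> simp [lv, e1, e2] <;> ring

lemma lv_comb (a : ℕ) (β p q r s x y : ℤ) :
    (x : Km m) * lv m a β p r + (y : Km m) * lv m a β q s =
      lv m a β (p * x + q * y) (r * x + s * y) := by
  ext <;> simp [lv] <;> ring

/-- The forward direction. -/
lemma fwd (h : IDM_Stmt) (hm : Good m) {a : ℕ} {β : ℤ} {a' : ℕ} {β' : ℤ} (hv : Val m a β)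
    (hv' : Val m a' β') (α : Km m) (hα : 0 < QuadraticAlgebra.norm α)
    (hI : idl m a β = Submodule.span (Om m) {α} * idl m a' β') : PE m a β a' β' := by
  obtain ⟨h1, -, -, -⟩ := h m hm
  have haQ : (0 : ℚ) < a := by exact_mod_cast hv.1
  have haQ' : (0 : ℚ) < a' := by exact_mod_cast hv'.1
  have memI : ∀ z, z ∈ idl m a' β' → α * z ∈ idl m a β := by
    intro z hz
    rw [hI]
    exact Submodule.mul_mem_mul (Submodule.mem_span_singleton_self α) hz
  have hlv' : ∀ x y, lv m a' β' x y ∈ idl m a' β' := fun x y => (h1 a' β' hv' _).2 ⟨x, y, rfl⟩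
  have hlv : ∀ x y, lv m a β x y ∈ idl m a β := fun x y => (h1 a β hv _).2 ⟨x, y, rfl⟩
  have ex : ∀ z, z ∈ idl m a' β' → ∃ x y : ℤ, α * z = lv m a β x y := by
    intro z hz
    obtain ⟨x, y, hxy⟩ := (h1 a β hv _).1 (memI z hz)
    exact ⟨x, y, hxy⟩
  have ex' : ∀ z, z ∈ idl m a β → ∃ x y : ℤ, z = α * lv m a' β' x y := by
    intro z hz
    rw [hI] at hz
    obtain ⟨w, hw, hwz⟩ := (Submodule.mem_span_singleton_mul).1 hz
    obtain ⟨x, y, hxy⟩ := (h1 a' β' hv' _).1 hw
    exact ⟨x, y, by rw [← hwz, hxy]; rfl⟩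
  obtain ⟨p, r, hpr⟩ := ex (lv m a' β' 1 0) (hlv' 1 0)
  obtain ⟨q, s, hqs⟩ := ex (lv m a' β' 0 1) (hlv' 0 1)
  obtain ⟨x, z, hxz⟩ := ex' (lv m a β 1 0) (hlv 1 0)
  obtain ⟨y, w, hyw⟩ := ex' (lv m a β 0 1) (hlv 0 1)
  have e1' : QuadraticAlgebra.norm α * (a' : ℚ) = ((p * s - q * r : ℤ) : ℚ) * a := by
    have := dl_lv (m := m) a β p q r s
    rw [← hpr, ← hqs, dl_mul, dl_lv] at this
    simpa using this
  have e2' : (a : ℚ) = QuadraticAlgebra.norm α * (((x * w - y * z : ℤ) : ℚ) * a') := by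
    have := dl_lv (m := m) a β 1 0 0 1
    rw [hxz, hyw, dl_mul, dl_lv] at this
    simpa using this.symm
  set D : ℤ := p * s - q * r with hD
  set D' : ℤ := x * w - y * z with hD'
  have hDD : (D : ℚ) * D' = 1 := by
    have : (a : ℚ) * (D * D') = a * 1 := by
      calc (a : ℚ) * (D * D') = (D * a) * D' := by ring
        _ = a * 1 := by rw [← e1', mul_one]; conv_rhs => rw [e2']
                        ring
    exact mul_left_cancel₀ haQ.ne' this
  have hDDz : D * D' = 1 := by exact_mod_cast hDD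
  have hDpos : 0 < D := by
    have : (0 : ℚ) < (D : ℚ) := by
      have h3 : 0 < QuadraticAlgebra.norm α * (a' : ℚ) := mul_pos hα haQ'
      rw [e1'] at h3
      exact (pos_iff_pos_of_mul_pos h3).2 haQ
    exact_mod_cast this
  have hD1 : D = 1 := by
    rcases Int.eq_one_or_neg_one_of_mul_eq_one hDDz with h4 | h4
    · exact h4
    · omega
  refine ⟨p, q, r, s, hD1, fun v => ?_⟩
  have hna : QuadraticAlgebra.norm α * (a' : ℚ) = a := by
    rw [e1', hD1]
    simp
  have key : α * lv m a' β' v.1 v.2 = lv m a β (p * v.1 + q * v.2) (r * v.1 + s * v.2) := by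
    rw [smul_lv, e1_eq a' β', e2_eq a' β', hpr, hqs, lv_comb]
  have hn := congrArg QuadraticAlgebra.norm key
  rw [map_mul, norm_lv hv', norm_lv hv, ← mul_assoc, hna] at hn
  have hn2 := mul_left_cancel₀ haQ.ne' hn
  have hn3 : frm m a' β' (v.1, v.2) = frm m a β (p * v.1 + q * v.2, r * v.1 + s * v.2) := by
    exact_mod_cast hn2
  exact hn3.symm

/-- The backward direction. -/
lemma bwd (h : IDM_Stmt) (hm : Good m) {a : ℕ} {β : ℤ} {a' : ℕ} {β' : ℤ} (hv : Val m a β)
    (hv' : Val m a' β') (hPE : PE m a β a' β') :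
    ∃ α : Km m, 0 < QuadraticAlgebra.norm α ∧
      idl m a β = Submodule.span (Om m) {α} * idl m a' β' := by
  obtain ⟨h1, -, -, -⟩ := h m hm
  obtain ⟨p, q, r, s, hdet, hF⟩ := hPE
  have haQ : (0 : ℚ) < a := by exact_mod_cast hv.1
  have haQ' : (0 : ℚ) < a' := by exact_mod_cast hv'.1
  have hdetQ : (p : ℚ) * s - q * r = 1 := by exact_mod_cast hdet
  -- the norm form of `x u₁ + y u₂`
  have hnorm : ∀ x y : ℤ, QuadraticAlgebra.norm (lv m a β (p * x + q * y) (r * x + s * y)) =
      (a : ℚ) * (frm m a' β' (x, y) : ℤ) := by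
    intro x y
    rw [norm_lv hv, ← hF (x, y)]
    rfl
  have hnorm' : ∀ x y : ℤ, QuadraticAlgebra.norm (lv m a' β' x y) =
      (a' : ℚ) * (frm m a' β' (x, y) : ℤ) := norm_lv hv'
  set u1 : Km m := lv m a β p r with hu1
  set u2 : Km m := lv m a β q s with hu2
  set α : Km m := ⟨u1.re / a', u1.im / a'⟩ with hαdef
  have hαe1 : α * e1 m a' = u1 := by
    ext <;> simp [hαdef, e1] <;> field_simp
  have hn10 : QuadraticAlgebra.norm u1 = a * a' := by
    have h2 := hnorm 1 0
    have h3 : frm m a' β' (1, 0) = a' := by simp [frm]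
    rw [h3] at h2
    simpa [hu1] using h2
  have hα : QuadraticAlgebra.norm α * a' = a := by
    have h2 := congrArg QuadraticAlgebra.norm hαe1
    rw [map_mul, hn10] at h2
    have h3 : QuadraticAlgebra.norm (e1 m a') = (a' : ℚ) ^ 2 := by
      simp [e1, norm_def]
      ring
    rw [h3] at h2
    have h4 : (a' : ℚ) * (QuadraticAlgebra.norm α * a') = a' * a := by
      rw [← mul_comm (a : ℚ) a', ← h2]
      ring
    exact mul_left_cancel₀ haQ'.ne' h4
  have hαpos : 0 < QuadraticAlgebra.norm α := by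
    have h3 : 0 < QuadraticAlgebra.norm α * (a' : ℚ) := by rw [hα]; exact haQ
    exact (pos_iff_pos_of_mul_pos h3).2 haQ'
  -- the second vector
  have hαe2 : α * e2 m β' = u2 := by
    set w : Km m := α * e2 m β' with hw
    have hd1 : dl u1 w = a := by
      rw [← hαe1, hw, dl_mul]
      have : dl (e1 m a') (e2 m β') = a' := by simp [dl, e1, e2]
      rw [this, hα]
    have hd2 : dl u1 u2 = a := by
      rw [hu1, hu2, dl_lv, hdet]
      simp
    have hn1 : QuadraticAlgebra.norm (u1 + w) = QuadraticAlgebra.norm (u1 + u2) := by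
      have h2 : u1 + w = α * lv m a' β' 1 1 := by
        rw [smul_lv, hαe1]
        simp [hw]
      have h3 : u1 + u2 = lv m a β (p * 1 + q * 1) (r * 1 + s * 1) := by
        rw [← lv_comb, ← hu1, ← hu2]
        simp
      rw [h2, h3, map_mul, hnorm', hnorm, ← mul_assoc, hα]
    have hn2 : QuadraticAlgebra.norm w = QuadraticAlgebra.norm u2 := by
      have h2 : w = α * lv m a' β' 0 1 := by
        rw [smul_lv]
        simp [hw]
      have h3 : u2 = lv m a β (p * 0 + q * 1) (r * 0 + s * 1) := by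
        rw [← lv_comb, ← hu1, ← hu2]
        simp
      rw [h2, h3, map_mul, hnorm', hnorm, ← mul_assoc, hα]
    have hu1n : QuadraticAlgebra.norm u1 ≠ 0 := by
      rw [hn10]
      positivity
    have hA : u1.re * w.im - u1.im * w.re = u1.re * u2.im - u1.im * u2.re := by
      have := hd1.trans hd2.symm
      exact this
    have hB : 2 * u1.re * w.re + (u1.re * w.im + u1.im * w.re) - 2 * m * (u1.im * w.im) =
        2 * u1.re * u2.re + (u1.re * u2.im + u1.im * u2.re) - 2 * m * (u1.im * u2.im) := by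
      have h5 := hn1
      have h6 := hn2
      simp only [norm_def, re_add, im_add] at h5 h6
      linear_combination h5 - h6
    have hC : QuadraticAlgebra.norm u1 = u1.re * u1.re + u1.re * u1.im - m * (u1.im * u1.im) := by
      simp only [norm_def]
      ring
    rw [hC] at hu1n
    ext
    · apply mul_left_cancel₀ hu1n
      linear_combination (u1.re / 2) * hB - ((u1.re - 2 * m * u1.im) / 2) * hA
    · apply mul_left_cancel₀ hu1n
      linear_combination (u1.im / 2) * hB + ((2 * u1.re + u1.im) / 2) * hA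
  refine ⟨α, hαpos, ?_⟩
  have hlv : ∀ x y, lv m a β x y ∈ idl m a β := fun x y => (h1 a β hv _).2 ⟨x, y, rfl⟩
  have hspan : Submodule.span (Om m) {α} * idl m a' β' = Submodule.span (Om m) {u1, u2} := by
    have : idl m a' β' = Submodule.span (Om m) {e1 m a', e2 m β'} := rfl
    rw [this, Submodule.span_mul_span]
    congr 1
    rw [Set.singleton_mul, Set.image_pair, hαe1, hαe2]
  rw [hspan]
  apply le_antisymm
  · have : idl m a β = Submodule.span (Om m) {e1 m a, e2 m β} := rfl
    rw [this, Submodule.span_le]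
    have m1 : u1 ∈ Submodule.span (Om m) {u1, u2} := Submodule.subset_span (by simp)
    have m2 : u2 ∈ Submodule.span (Om m) {u1, u2} := Submodule.subset_span (by simp)
    rintro z hz
    rcases hz with hz | hz
    · rw [hz]
      have h3 : e1 m a = s • u1 - r • u2 := by
        ext
        · simp [e1, hu1, hu2, lv]
          linear_combination (-(a : ℚ)) * hdetQ
        · simp [e1, hu1, hu2, lv]
          ring
      rw [h3]
      exact sub_mem (zsmul_mem m1 s) (zsmul_mem m2 r)
    · rw [Set.mem_singleton_iff] at hz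
      rw [hz]
      have h3 : e2 m β = p • u2 - q • u1 := by
        ext
        · simp [e2, hu1, hu2, lv]
          linear_combination (-(β : ℚ)) * hdetQ
        · simp [e2, hu1, hu2, lv]
          linear_combination (-1 : ℚ) * hdetQ
      rw [h3]
      exact sub_mem (zsmul_mem m2 p) (zsmul_mem m1 q)
  · rw [Submodule.span_le]
    rintro z hz
    rcases hz with hz | hz
    · rw [hz]
      exact hlv p r
    · rw [Set.mem_singleton_iff] at hz
      rw [hz]
      exact hlv q s

end IDE

/-- IDE: narrow equivalence of ideals is proper equivalence of forms. -/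
theorem ide (h : IDM_Stmt) : IDE_Stmt := by
  intro m hm a β a' β' hv hv'
  constructor
  · rintro ⟨α, hα, hI⟩
    exact IDE.fwd h hm hv hv' α hα hI
  · intro hPE
    exact IDE.bwd h hm hv hv' hPE

end Pool.Agent.C3A
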