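import Pool.Agent.C3A.Stmts

/-!
Closed 3-braids, arithmetic half: IND, the representation numbers determine the class up to
inversion (the main argument).
-/

open scoped BigOperators Real MatrixGroups ContDiff Topology
open Filter

noncomputable section

namespace Pool.Agent.C3A

namespace IND

variable {m : ℤ} (D : CD m)

theorem not_coprime_zero (m : ℤ) : ¬ Nat.Coprime 0 (MM m) := by
  intro h
  rw [Nat.coprime_zero_left] at h
  unfold MM at h
  omega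

theorem rc_zero (χ : D.G →* ℂˣ) : rc D χ 0 = 0 := by
  unfold rc
  rw [if_neg (not_coprime_zero m)]

/-- The Rankin-Selberg product. -/
def S (χ χ₀ : D.G →* ℂˣ) (N : ℕ) : ℂ :=
  if Nat.Coprime N (MM m) then ∑ a ∈ sqd N, rc D χ a * rc D χ₀ a else 0

theorem conv_eq (hm : Good m) (h2 : RSI_Stmt) (χ χ₀ : D.G →* ℂˣ) (N : ℕ) :
    ∑ d ∈ N.divisors, rc D (χ * χ₀) d * rc D (χ * χ₀⁻¹) (N / d) = S D χ χ₀ N := by
  unfold S
  split_ifs with h
  · exact (h2 m hm D χ χ₀ N h).symm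
  · refine Finset.sum_eq_zero fun d hd => ?_
    by_cases h3 : Nat.Coprime d (MM m)
    · have h4 : ¬ Nat.Coprime (N / d) (MM m) := by
        intro h4
        apply h
        rw [← Nat.mul_div_cancel' (Nat.dvd_of_mem_divisors hd)]
        exact Nat.Coprime.mul_left h3 h4
      rw [show rc D (χ * χ₀⁻¹) (N / d) = 0 by unfold rc; rw [if_neg h4], mul_zero]
    · rw [show rc D (χ * χ₀) d = 0 by unfold rc; rw [if_neg h3], zero_mul]

theorem tsum_fin (H : ℝ → ℝ) (hH : ∀ x, 4 ≤ x → H x = 0) (f : ℕ → ℂ) (X : ℕ) (hX : 1 ≤ X) :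
    ∑' N : ℕ, f N * (H (N / X) : ℂ) = ∑ N ∈ Finset.range (4 * X), f N * (H (N / X) : ℂ) := by
  refine tsum_eq_sum fun N hN => ?_
  rw [Finset.mem_range, not_lt] at hN
  have h1 : (4 : ℝ) ≤ (N : ℝ) / X := by
    have hX' : (0 : ℝ) < X := by exact_mod_cast hX
    rw [le_div_iff₀ hX']
    exact_mod_cast hN
  rw [hH _ h1]
  simp

/-- The complete homogeneous polynomial at a root of unity. -/
theorem hk_one_le (z : ℂ) (k : ℕ) (hk1 : z ^ k = 1) :
    1 ≤ (hk z k).re ∧ (hk z k).im = 0 := by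
  have h1 : hk z k = ∑ i ∈ Finset.range (k + 1), (z ^ 2) ^ i := by
    unfold hk
    refine Finset.sum_congr rfl fun i hi => ?_
    have hik : i ≤ k := Nat.lt_succ_iff.mp (Finset.mem_range.mp hi)
    have h2 : z⁻¹ ^ (k - i) = z ^ i := by
      rw [inv_pow]
      refine (eq_inv_of_mul_eq_one_left ?_).symm
      rw [← pow_add, Nat.add_sub_cancel' hik, hk1]
    rw [h2, ← pow_mul, ← pow_add]
    congr 1
    ring
  by_cases h2 : z ^ 2 = 1
  · rw [h1, h2]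
    simp
  · have h3 : hk z k = 1 := by
      rw [h1, geom_sum_eq h2, pow_succ, ← pow_mul, mul_comm 2 k, pow_mul, hk1, one_pow, one_mul,
        div_self (sub_ne_zero.mpr h2)]
    rw [h3]
    simp

/-- There are arbitrarily large `X` at which the coefficient is at least 1. -/
theorem large (hm : Good m) (h1 : RCM_Stmt) (χ : D.G →* ℂˣ) :
    ∃ q : ℕ, 1 < q ∧ ∀ j : ℕ, Nat.Coprime (q ^ j) (MM m) ∧ 1 ≤ (rc D χ (q ^ j)).re := by
  classical
  obtain ⟨p, hp1, hp⟩ := Nat.exists_infinite_primes (MM m + 1)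
  have hMM : 0 < MM m := by
    unfold MM
    omega
  have hcop : Nat.Coprime p (MM m) := by
    rw [Nat.Prime.coprime_iff_not_dvd hp]
    intro h
    have := Nat.le_of_dvd hMM h
    omega
  have hn : 0 < Nat.card D.G := Nat.card_pos
  refine ⟨p ^ (2 * Nat.card D.G), Nat.one_lt_pow (by omega) hp.one_lt, fun j => ⟨?_, ?_⟩⟩
  · exact Nat.Coprime.pow_left _ (Nat.Coprime.pow_left _ hcop)
  · rw [← pow_mul]
    rcases (h1 m hm D).2 p hp hcop with h | ⟨g, h⟩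
    · rw [h χ, if_pos (by rw [mul_assoc]; exact even_two_mul _)]
      simp
    · rw [h χ]
      refine (hk_one_le _ _ ?_).1
      have h3 : (χ g) ^ Nat.card D.G = 1 := by
        rw [← map_pow, pow_card_eq_one', map_one]
      have h4 : (χ g) ^ (2 * Nat.card D.G * j) = 1 := by
        rw [show 2 * Nat.card D.G * j = Nat.card D.G * (2 * j) by ring, pow_mul, h3, one_pow]
      rw [← Units.val_pow_eq_pow_val, h4, Units.val_one]

theorem S_re (h3 : RGC_Stmt) (hm : Good m) (χ₀ : D.G →* ℂˣ) (N : ℕ) :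
    0 ≤ (S D χ₀ χ₀ N).re ∧ (S D χ₀ χ₀ N).im = 0 := by
  have h := fun N => ((h3 m hm D).2.2 χ₀ N).2
  unfold S
  split_ifs with h4
  · rw [Complex.re_sum, Complex.im_sum]
    refine ⟨Finset.sum_nonneg fun a _ => ?_, Finset.sum_eq_zero fun a _ => ?_⟩
    · rw [Complex.mul_re, h a]
      nlinarith [mul_self_nonneg (rc D χ₀ a).re]
    · rw [Complex.mul_im, h a]
      ring
  · simp

theorem S_ge (h3 : RGC_Stmt) (hm : Good m) (χ₀ : D.G →* ℂˣ) (N : ℕ) (hN : 0 < N)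
    (hc : Nat.Coprime N (MM m)) (h : 1 ≤ (rc D χ₀ N).re) : 1 ≤ (S D χ₀ χ₀ N).re := by
  have h5 := fun N => ((h3 m hm D).2.2 χ₀ N).2
  unfold S
  rw [if_pos hc, Complex.re_sum]
  have hmem : N ∈ sqd N := by
    unfold sqd
    rw [Finset.mem_filter, Nat.mem_divisors]
    refine ⟨⟨dvd_rfl, hN.ne'⟩, ?_⟩
    rw [Nat.div_self hN]
    exact ⟨1, rfl⟩
  have h6 : ∀ a ∈ sqd N, 0 ≤ (rc D χ₀ a * rc D χ₀ a).re := by
    intro a _
    rw [Complex.mul_re, h5 a]
    nlinarith [mul_self_nonneg (rc D χ₀ a).re]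
  refine le_trans ?_ (Finset.single_le_sum h6 hmem)
  rw [Complex.mul_re, h5 N]
  nlinarith

theorem S_inv (h3 : RGC_Stmt) (hm : Good m) (χ₀ : D.G →* ℂˣ) (N : ℕ) :
    S D χ₀⁻¹ χ₀ N = S D χ₀ χ₀ N := by
  unfold S
  simp only [((h3 m hm D).2.2 χ₀ _).1]

/-- The symmetrized coefficients vanish. -/
theorem coef [Fintype (D.G →* ℂˣ)] [DecidableEq (D.G →* ℂˣ)] (h1 : RCM_Stmt) (h2 : RSI_Stmt)
    (h3 : RGC_Stmt) (h5 : CONV_Stmt) (hm : Good m)
    (hb : ∀ ψ : D.G →* ℂˣ, ψ ≠ 1 → ∃ C : ℝ, ∀ z : ℝ, 1 / 2 ≤ z → ‖Sm (rc D ψ) z‖ ≤ C / √z)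
    (c : (D.G →* ℂˣ) → ℂ) (hc : ∀ N, ∑ χ : D.G →* ℂˣ, c χ * rc D χ N = 0) (χ₀ : D.G →* ℂˣ) :
    ∑ χ ∈ ({χ₀, χ₀⁻¹} : Finset (D.G →* ℂˣ)), c χ = 0 := by
  obtain ⟨H, hH0, hH1, hH4, hH⟩ := h5
  set T : (D.G →* ℂˣ) → ℕ → ℂ := fun χ X => ∑' N : ℕ, S D χ χ₀ N * (H (N / X) : ℂ) with hT
  -- the limit for the other characters
  have hlim : ∀ χ : D.G →* ℂˣ, χ ∉ ({χ₀, χ₀⁻¹} : Finset (D.G →* ℂˣ)) →
      Tendsto (T χ) atTop (𝓝 0) := by
    intro χ hχ
    rw [Finset.mem_insert, Finset.mem_singleton, not_or] at hχ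
    have ha : χ * χ₀ ≠ 1 := by
      intro h
      refine hχ.2 (MonoidHom.ext fun x => ?_)
      have h' := DFunLike.congr_fun h x
      rw [MonoidHom.mul_apply, MonoidHom.one_apply] at h'
      rw [MonoidHom.inv_apply]
      exact eq_inv_of_mul_eq_one_left h'
    have hb' : χ * χ₀⁻¹ ≠ 1 := fun h => hχ.1 (mul_inv_eq_one.mp h)
    have h := hH (rc D (χ * χ₀)) (rc D (χ * χ₀⁻¹)) (rc_zero D _) (rc_zero D _) (hb _ ha) (hb _ hb')
    simpa only [conv_eq D hm h2] using h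
  -- the relation
  have hrelS : ∀ N, ∑ χ : D.G →* ℂˣ, c χ * S D χ χ₀ N = 0 := by
    intro N
    unfold S
    split_ifs with h
    · simp only [Finset.mul_sum]
      rw [Finset.sum_comm]
      refine Finset.sum_eq_zero fun a _ => ?_
      have h6 : ∀ χ : D.G →* ℂˣ, c χ * (rc D χ a * rc D χ₀ a) =
          c χ * rc D χ a * rc D χ₀ a := fun χ => by ring
      rw [Finset.sum_congr rfl fun χ _ => h6 χ, ← Finset.sum_mul, hc a, zero_mul]
    · simp
  have hrel : ∀ X : ℕ, 1 ≤ X → ∑ χ : D.G →* ℂˣ, c χ * T χ X = 0 := by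
    intro X hX
    simp only [hT]
    simp only [fun χ : D.G →* ℂˣ => tsum_fin H hH4 (S D χ χ₀) X hX, Finset.mul_sum]
    rw [Finset.sum_comm]
    refine Finset.sum_eq_zero fun N _ => ?_
    have h6 : ∀ χ : D.G →* ℂˣ, c χ * (S D χ χ₀ N * (H (N / X) : ℂ)) =
        c χ * S D χ χ₀ N * (H (N / X) : ℂ) := fun χ => by ring
    rw [Finset.sum_congr rfl fun χ _ => h6 χ, ← Finset.sum_mul, hrelS N, zero_mul]
  set e : ℂ := ∑ χ ∈ ({χ₀, χ₀⁻¹} : Finset (D.G →* ℂˣ)), c χ with he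
  have hrel2 : ∀ X : ℕ, 1 ≤ X → e * T χ₀ X =
      - ∑ χ ∈ ({χ₀, χ₀⁻¹} : Finset (D.G →* ℂˣ))ᶜ, c χ * T χ X := by
    intro X hX
    have h := hrel X hX
    rw [← Finset.sum_add_sum_compl ({χ₀, χ₀⁻¹} : Finset (D.G →* ℂˣ))] at h
    have h7 : ∑ χ ∈ ({χ₀, χ₀⁻¹} : Finset (D.G →* ℂˣ)), c χ * T χ X = e * T χ₀ X := by
      rw [he, Finset.sum_mul]
      refine Finset.sum_congr rfl fun χ hχ => ?_
      rw [Finset.mem_insert, Finset.mem_singleton] at hχ
      rcases hχ with rfl | rfl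
      · rfl
      · congr 1
        simp only [hT, S_inv D h3 hm]
    rw [h7] at h
    linear_combination h
  have hlim2 : Tendsto (fun X => e * T χ₀ X) atTop (𝓝 0) := by
    have h8 : Tendsto (fun X => - ∑ χ ∈ ({χ₀, χ₀⁻¹} : Finset (D.G →* ℂˣ))ᶜ, c χ * T χ X) atTop
        (𝓝 (- ∑ χ ∈ ({χ₀, χ₀⁻¹} : Finset (D.G →* ℂˣ))ᶜ, c χ * 0)) := by
      refine Tendsto.neg (tendsto_finsetSum _ fun χ hχ => ?_)
      exact Tendsto.const_mul _ (hlim χ (Finset.mem_compl.mp hχ))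
    simp only [mul_zero, Finset.sum_const_zero, neg_zero] at h8
    refine h8.congr' ?_
    filter_upwards [eventually_ge_atTop 1] with X hX
    exact (hrel2 X hX).symm
  -- lower bound
  obtain ⟨q, hq1, hq⟩ := large D hm h1 χ₀
  have hqt : Tendsto (fun j : ℕ => q ^ j) atTop atTop := tendsto_pow_atTop_atTop_of_one_lt hq1
  have hlow : ∀ j : ℕ, H 1 ≤ ‖T χ₀ (q ^ j)‖ := by
    intro j
    have hqj : 1 ≤ q ^ j := Nat.one_le_pow _ _ (by omega)
    refine le_trans ?_ (Complex.re_le_norm _)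
    simp only [hT]
    rw [tsum_fin H hH4 _ _ hqj, Complex.re_sum]
    have h9 : ∀ N ∈ Finset.range (4 * q ^ j),
        0 ≤ (S D χ₀ χ₀ N * (H (N / (q ^ j : ℕ)) : ℂ)).re := by
      intro N _
      rw [Complex.re_mul_ofReal]
      exact mul_nonneg (S_re D h3 hm χ₀ N).1 (hH0 _)
    have hmem : q ^ j ∈ Finset.range (4 * q ^ j) := by
      rw [Finset.mem_range]
      omega
    refine le_trans ?_ (Finset.single_le_sum h9 hmem)
    rw [Complex.re_mul_ofReal, div_self (by exact_mod_cast (by omega : q ^ j ≠ 0))]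
    have h10 := S_ge D h3 hm χ₀ (q ^ j) (by omega) (hq j).1 (hq j).2
    nlinarith
  by_contra hne
  have h11 : Tendsto (fun j : ℕ => ‖e * T χ₀ (q ^ j)‖) atTop (𝓝 ‖(0 : ℂ)‖) :=
    (hlim2.comp hqt).norm
  rw [norm_zero] at h11
  have h12 : ‖e‖ * H 1 ≤ 0 := by
    refine ge_of_tendsto' h11 fun j => ?_
    rw [norm_mul]
    exact mul_le_mul_of_nonneg_left (hlow j) (norm_nonneg _)
  have h13 : 0 < ‖e‖ * H 1 := mul_pos (norm_pos_iff.mpr hne) hH1
  linarith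

end IND

theorem ind (h1 : RCM_Stmt) (h2 : RSI_Stmt) (h3 : RGC_Stmt) (h4 : FOUR_Stmt) (h5 : CONV_Stmt) :
    IND_Stmt := by
  classical
  intro m hm D hb g g' hgg
  by_contra hcon
  rw [not_or] at hcon
  obtain ⟨hfin, hfour⟩ := h4 D.G
  have : Fintype (D.G →* ℂˣ) := Fintype.ofFinite _
  have : Fintype D.G := Fintype.ofFinite _
  set F : D.G → ℂ := fun h => (if h = g then 1 else 0) + (if h = g⁻¹ then 1 else 0) -
    (if h = g' then 1 else 0) - (if h = g'⁻¹ then 1 else 0) with hF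
  obtain ⟨c, hc⟩ := hfour F
  simp only [finsum_eq_sum_of_fintype] at hc
  obtain ⟨hr1, hr2, hr3⟩ := h3 m hm D
  simp only [finsum_eq_sum_of_fintype] at hr1
  have hrel : ∀ N, ∑ χ : D.G →* ℂˣ, c χ * rc D χ N = 0 := by
    intro N
    have h6 : ∀ χ : D.G →* ℂˣ, c χ * rc D χ N =
        ∑ h : D.G, c χ * ((χ h : ℂˣ) : ℂ) * (rg D h N : ℂ) := by
      intro χ
      rw [hr1, Finset.mul_sum]
      exact Finset.sum_congr rfl fun h _ => by ring
    rw [Finset.sum_congr rfl fun χ _ => h6 χ, Finset.sum_comm]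
    have h7 : ∀ h : D.G, ∑ χ : D.G →* ℂˣ, c χ * ((χ h : ℂˣ) : ℂ) * (rg D h N : ℂ) =
        F h * (rg D h N : ℂ) := by
      intro h
      rw [← Finset.sum_mul, ← hc h]
    rw [Finset.sum_congr rfl fun h _ => h7 h]
    simp only [hF, sub_mul, add_mul, Finset.sum_sub_distrib, Finset.sum_add_distrib, ite_mul,
      one_mul, zero_mul, Finset.sum_ite_eq', Finset.mem_univ, if_true]
    rw [hr2 g, hr2 g', hgg N]
    ring
  have hco := IND.coef D h1 h2 h3 h5 hm hb c hrel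
  have hco2 : ∀ χ : D.G →* ℂˣ, c χ + c χ⁻¹ = 0 := by
    intro χ
    have h := hco χ
    by_cases h8 : χ = χ⁻¹
    · rw [← h8, Finset.pair_eq_singleton, Finset.sum_singleton] at h
      rw [← h8, h, add_zero]
    · rwa [Finset.sum_pair h8] at h
  have hFeven : F g⁻¹ = F g := by
    simp only [hF, inv_eq_iff_eq_inv, inv_inv]
    ring
  have hF2 : F g + F g⁻¹ = 0 := by
    rw [hc g, hc g⁻¹]
    have h9 : ∑ χ : D.G →* ℂˣ, c χ * ((χ g⁻¹ : ℂˣ) : ℂ) =
        ∑ χ : D.G →* ℂˣ, c χ⁻¹ * ((χ g : ℂˣ) : ℂ) := by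
      refine Fintype.sum_equiv (Equiv.inv _) _ _ fun χ => ?_
      simp
    rw [h9, ← Finset.sum_add_distrib]
    refine Finset.sum_eq_zero fun χ _ => ?_
    rw [← add_mul, hco2 χ, zero_mul]
  rw [hFeven] at hF2
  have hFg : F g = 0 := by
    linear_combination hF2 / 2
  have h10 : g ≠ g' := fun h => hcon.1 h.symm
  have h11 : g ≠ g'⁻¹ := fun h => hcon.2 (by rw [h, inv_inv])
  simp only [hF, if_true, if_neg h10, if_neg h11, sub_zero] at hFg
  split_ifs at hFg with h12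
  · norm_num at hFg
  · norm_num at hFg

end Pool.Agent.C3A
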