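import Pool.Agent.C3A.Stmts

/-!
# The integral of the weight does not depend on the form
-/

set_option autoImplicit false

open MeasureTheory
open scoped BigOperators Real MatrixGroups ContDiff

noncomputable section

namespace Pool.Agent.C3A

namespace INTF

open Classical in
/-- The weight in the coordinates `(l1, l2)`. -/
def F (φ : ℝ → ℝ) (w : ℝ × ℝ) : ℝ :=
  if 0 < w.1 ∧ 0 < w.2 then Gf (w.1 * w.2) * φ (Real.log (w.1 / w.2)) else 0

/-- The linear map `(l1, l2)`. -/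
def L (m : ℤ) (a : ℕ) (β : ℤ) : ℝ × ℝ →ₗ[ℝ] ℝ × ℝ :=
  Matrix.toLin (Module.Basis.finTwoProd ℝ) (Module.Basis.finTwoProd ℝ)
    !![a / √a, (β + (1 + √(1 + 4 * m)) / 2) / √a; a / √a, (β + (1 - √(1 + 4 * m)) / 2) / √a]

theorem L_apply (m : ℤ) (a : ℕ) (β : ℤ) (u : ℝ × ℝ) :
    L m a β u = (l1 m a β u, l2 m a β u) := by
  unfold L l1 l2
  rw [Matrix.toLin_finTwoProd_apply]
  apply Prod.ext
  · simp only
    ring
  · simp only
    ring

theorem det_L (m : ℤ) (a : ℕ) (β : ℤ) (ha : 0 < a) :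
    LinearMap.det (L m a β) = -√(1 + 4 * m) := by
  unfold L
  rw [LinearMap.det_toLin, Matrix.det_fin_two_of]
  have h1 : (0 : ℝ) < a := by exact_mod_cast ha
  have h2 : √(a : ℝ) ≠ 0 := (Real.sqrt_pos.mpr h1).ne'
  have h3 : √(a : ℝ) * √(a : ℝ) = a := Real.mul_self_sqrt h1.le
  have h4 : (a : ℝ) / √a = √a := by
    rw [div_eq_iff h2, h3]
  rw [h4]
  field_simp
  ring

theorem key {m : ℤ} (hm : 0 < m) (φ : ℝ → ℝ) (a : ℕ) (β : ℤ) (ha : 0 < a) :
    ∫ u, Psi m φ a β u = |(-√(1 + 4 * (m : ℝ)))⁻¹| * ∫ w, F φ w := by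
  have hD : (0 : ℝ) < √(1 + 4 * m) := by
    apply Real.sqrt_pos.mpr
    have : (0 : ℝ) < m := by exact_mod_cast hm
    linarith
  have hdet : LinearMap.det (L m a β) ≠ 0 := by
    rw [det_L m a β ha]
    exact neg_ne_zero.mpr hD.ne'
  let e : ℝ × ℝ ≃ᵐ ℝ × ℝ :=
    (LinearMap.equivOfDetNeZero (L m a β) hdet).toContinuousLinearEquiv.toHomeomorph.toMeasurableEquiv
  have he : ∀ u, e u = L m a β u := fun u => rfl
  have h1 : ∫ u, Psi m φ a β u = ∫ u, F φ (e u) := by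
    refine integral_congr_ae (Filter.Eventually.of_forall fun u => ?_)
    change Psi m φ a β u = F φ (e u)
    rw [he, L_apply]
    rfl
  have h2 : Measure.map e (volume : Measure (ℝ × ℝ))
      = ENNReal.ofReal |(LinearMap.det (L m a β))⁻¹| • volume :=
    Measure.map_linearMap_addHaar_eq_smul_addHaar (volume : Measure (ℝ × ℝ)) hdet
  rw [h1, ← integral_map_equiv e (F φ), h2, integral_smul_measure, det_L m a β ha,
    ENNReal.toReal_ofReal (abs_nonneg _), smul_eq_mul]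

end INTF

theorem intf : INTF_Stmt := by
  intro m hm ℓ φ _ a β a' β' hv hv'
  rw [INTF.key hm.1 φ a β hv.1, INTF.key hm.1 φ a' β' hv'.1]

end Pool.Agent.C3A
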