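import Pool.Agent.C3A.Stmts

/-!
Closed 3-braids, arithmetic half: module LAT (smooth lattice sums).
-/

open scoped BigOperators Real MatrixGroups ContDiff Topology
open Filter MeasureTheory

noncomputable section

namespace Pool.Agent.C3A

namespace LAT

/-- Decomposition of a sum over the plane lattice into residue classes. -/
theorem decomp {M : ℕ} (hM : 0 < M) (P : ℤ × ℤ → Prop) [DecidablePred P]
    (hP : ∀ n c : ℤ × ℤ, P (n.1 * M + c.1, n.2 * M + c.2) ↔ P c) (g : ℤ × ℤ → ℝ)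
    (hg : (Function.support g).Finite) :
    ∑' v, (if P v then g v else 0) =
      ∑ c ∈ (Finset.range M ×ˢ Finset.range M).filter (fun c : ℕ × ℕ => P (c.1, c.2)),
        ∑' n : ℤ × ℤ, g (n.1 * M + c.1, n.2 * M + c.2) := by
  have hne : NeZero M := ⟨hM.ne'⟩
  let E : (Fin M × Fin M) × (ℤ × ℤ) ≃ ℤ × ℤ :=
    (Equiv.prodComm _ _).trans ((Equiv.prodProdProdComm ℤ ℤ (Fin M) (Fin M)).trans
      (Equiv.prodCongr (Int.divModEquiv M).symm (Int.divModEquiv M).symm))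
  have hE : ∀ (c1 c2 : Fin M) (n : ℤ × ℤ),
      E ((c1, c2), n) = (n.1 * M + ((c1 : ℕ) : ℤ), n.2 * M + ((c2 : ℕ) : ℤ)) := by
    intro c1 c2 n
    rfl
  have hFs : Summable (fun v : ℤ × ℤ => if P v then g v else 0) := by
    apply summable_of_hasFiniteSupport
    refine hg.subset ?_
    intro v hv
    rw [Function.mem_support] at hv ⊢
    intro h0
    apply hv
    rw [h0, ite_self]
  rw [← E.tsum_eq]
  have hs2 : Summable (fun q => (fun v : ℤ × ℤ => if P v then g v else 0) (E q)) :=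
    (E.summable_iff (f := fun v : ℤ × ℤ => if P v then g v else 0)).2 hFs
  rw [hs2.tsum_prod, tsum_fintype, Fintype.sum_prod_type]
  rw [Finset.sum_filter, Finset.sum_product, Finset.sum_range]
  refine Finset.sum_congr rfl fun c1 _ => ?_
  rw [Finset.sum_range]
  refine Finset.sum_congr rfl fun c2 _ => ?_
  simp only [hE]
  have h1 : ∀ n : ℤ × ℤ, (P (n.1 * M + ((c1 : ℕ) : ℤ), n.2 * M + ((c2 : ℕ) : ℤ)) ↔
      P (((c1 : ℕ) : ℤ), ((c2 : ℕ) : ℤ))) := fun n => hP n (((c1 : ℕ) : ℤ), ((c2 : ℕ) : ℤ))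
  simp only [h1]
  by_cases h2 : P (((c1 : ℕ) : ℤ), ((c2 : ℕ) : ℤ))
  · simp only [if_pos h2]
  · simp only [if_neg h2, tsum_zero]

theorem MM_pos {m : ℤ} (hm : Good m) : 0 < MM m := by
  unfold MM
  have := hm.1
  have : (1 + 4 * m) ≠ 0 := by omega
  have := Int.natAbs_pos.2 this
  omega

theorem cop_iff (m : ℤ) (a : ℕ) (β : ℤ) (n c : ℤ × ℤ) :
    Nat.Coprime (frm m a β (n.1 * (MM m : ℕ) + c.1, n.2 * (MM m : ℕ) + c.2)).natAbs (MM m) ↔
      Nat.Coprime (frm m a β c).natAbs (MM m) := by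
  have key : ∀ x : ℤ, Nat.Coprime x.natAbs (MM m) ↔ IsCoprime x ((MM m : ℕ) : ℤ) := by
    intro x
    rw [Int.isCoprime_iff_gcd_eq_one]
    rfl
  rw [key, key]
  have h1 : frm m a β (n.1 * (MM m : ℕ) + c.1, n.2 * (MM m : ℕ) + c.2) = frm m a β c
      + ((MM m : ℕ) : ℤ) * (a * (n.1 ^ 2 * (MM m : ℕ) + 2 * n.1 * c.1)
        + (2 * β + 1) * (n.1 * n.2 * (MM m : ℕ) + n.1 * c.2 + c.1 * n.2)
        + (fm m β / a) * (n.2 ^ 2 * (MM m : ℕ) + 2 * n.2 * c.2)) := by
    unfold frm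
    ring
  rw [h1]
  exact IsCoprime.add_mul_left_left_iff

/-- The support of a compactly supported function of the scaled lattice points. -/
theorem box {f : ℝ × ℝ → ℝ} (hf : HasCompactSupport f) : ∃ B : ℝ, 0 ≤ B ∧
    ∀ (s : ℝ), 0 < s → ∀ v : ℤ × ℤ, f (v.1 / s, v.2 / s) ≠ 0 →
      |(v.1 : ℝ)| ≤ B * s ∧ |(v.2 : ℝ)| ≤ B * s := by
  obtain ⟨B, hB⟩ := hf.isCompact.isBounded.subset_closedBall (0 : ℝ × ℝ)
  refine ⟨|B|, abs_nonneg _, ?_⟩
  intro s hs v hv
  have h1 : ((v.1 : ℝ) / s, (v.2 : ℝ) / s) ∈ Metric.closedBall (0 : ℝ × ℝ) B :=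
    hB (subset_tsupport f hv)
  rw [Metric.mem_closedBall, dist_zero_right, Prod.norm_def, max_le_iff] at h1
  have h2 := h1.1
  have h3 := h1.2
  simp only [Real.norm_eq_abs, abs_div, abs_of_pos hs] at h2 h3
  rw [div_le_iff₀ hs] at h2 h3
  constructor
  · refine h2.trans ?_
    exact mul_le_mul_of_nonneg_right (le_abs_self B) hs.le
  · refine h3.trans ?_
    exact mul_le_mul_of_nonneg_right (le_abs_self B) hs.le

theorem mem_box {x : ℤ} {y : ℝ} {N : ℕ} (h : |(x : ℝ)| ≤ y) (hN : y ≤ N) :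
    x ∈ Finset.Icc (-(N : ℤ)) N := by
  rw [Finset.mem_Icc]
  have h1 := abs_le.1 (h.trans hN)
  constructor
  · have : ((-(N : ℤ) : ℤ) : ℝ) ≤ (x : ℝ) := by push_cast; exact h1.1
    exact_mod_cast this
  · exact_mod_cast h1.2

end LAT

open LAT in
theorem lat (h1 : EM2_Stmt) (h2 : PSI_Stmt) (h3 : INTF_Stmt) (h4 : RES_Stmt) : LAT_Stmt := by
  intro m hm ℓ φ hφ
  have hM := MM_pos hm
  set M : ℕ := MM m with hMdef
  have hMR : (0 : ℝ) < (M : ℝ) := by exact_mod_cast hM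
  set S : ℕ → ℤ → Finset (ℕ × ℕ) := fun a β =>
    (Finset.range (MM m) ×ˢ Finset.range (MM m)).filter fun v : ℕ × ℕ =>
      Nat.Coprime (frm m a β (v.1, v.2)).natAbs (MM m) with hS
  have hv1 : Val m 1 0 := ⟨one_pos, Nat.coprime_one_left _, by simp⟩
  set κ : ℝ := (S 1 0).card * (∫ u, Psi m φ 1 0 u) / (M : ℝ) ^ 2 with hκ
  refine ⟨κ, ?_⟩
  intro a β hv
  obtain ⟨hcd, hcs⟩ := h2 m hm ℓ φ hφ a β hv
  have hI : ∫ u, Psi m φ 1 0 u = ∫ u, Psi m φ a β u := h3 m hm ℓ φ hφ 1 0 a β hv1 hv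
  have hR : (S 1 0).card = (S a β).card := h4 m hm 1 0 a β hv1 hv
  obtain ⟨C, hC⟩ := h1 (Psi m φ a β) hcd hcs
  obtain ⟨B, hB0, hB⟩ := box hcs
  obtain ⟨P, hP⟩ := hcs.exists_bound_of_continuous hcd.continuous
  have hP0 : 0 ≤ P := (norm_nonneg _).trans (hP 0)
  -- bound for small X
  set N : ℕ := ⌈B * M⌉₊ with hN
  have hNle : B * M ≤ N := Nat.le_ceil _
  set D : ℝ := ((Finset.Icc (-(N : ℤ)) N ×ˢ Finset.Icc (-(N : ℤ)) N).card : ℝ) * P
    + |κ| * (M : ℝ) ^ 2 with hD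
  have hD0 : 0 ≤ D := by positivity
  refine ⟨(S a β).card * |C| * M + D * M, ?_⟩
  intro X hX
  have hX0 : 0 < X := by linarith
  have hs0 : 0 < √X := Real.sqrt_pos.2 hX0
  have hsq : √X ^ 2 = X := Real.sq_sqrt hX0.le
  have hA0 : 0 ≤ ((S a β).card : ℝ) * |C| * M := by positivity
  by_cases hbig : (M : ℝ) ≤ √X
  · -- large X
    set Y : ℝ := √X / M with hY
    have hY1 : 1 ≤ Y := by
      rw [hY, le_div_iff₀ hMR, one_mul]
      exact hbig
    have hY0 : 0 < Y := by linarith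
    have hfin : (Function.support fun v : ℤ × ℤ => Psi m φ a β (v.1 / √X, v.2 / √X)).Finite := by
      refine (Finset.finite_toSet (Finset.Icc (-((⌈B * √X⌉₊ : ℕ) : ℤ)) (⌈B * √X⌉₊ : ℕ) ×ˢ
        Finset.Icc (-((⌈B * √X⌉₊ : ℕ) : ℤ)) (⌈B * √X⌉₊ : ℕ))).subset ?_
      intro v hv
      have h5 := hB _ hs0 v hv
      rw [Finset.mem_coe, Finset.mem_product]
      exact ⟨mem_box h5.1 (Nat.le_ceil _), mem_box h5.2 (Nat.le_ceil _)⟩
    have hdec := decomp hM (fun v => Nat.Coprime (frm m a β v).natAbs (MM m))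
      (fun n c => cop_iff m a β n c) (fun v : ℤ × ℤ => Psi m φ a β (v.1 / √X, v.2 / √X)) hfin
    have hL : Lsum m φ a β X = ∑ c ∈ S a β,
        ∑' n : ℤ × ℤ, Psi m φ a β ((n.1 + (c.1 : ℝ) / M) / Y, (n.2 + (c.2 : ℝ) / M) / Y) := by
      unfold Lsum
      refine hdec.trans ?_
      refine Finset.sum_congr rfl fun c _ => ?_
      refine tsum_congr fun n => ?_
      congr 2
      · rw [hY]
        push_cast
        field_simp
      · rw [hY]
        push_cast
        field_simp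
    have hκX : κ * X = ∑ _c ∈ S a β, Y ^ 2 * ∫ u, Psi m φ a β u := by
      rw [Finset.sum_const, nsmul_eq_mul, hκ, hI, hR, hY, div_pow, hsq]
      ring
    rw [hL, hκX, ← Finset.sum_sub_distrib]
    calc |∑ c ∈ S a β, (∑' n : ℤ × ℤ, Psi m φ a β ((n.1 + (c.1 : ℝ) / M) / Y,
            (n.2 + (c.2 : ℝ) / M) / Y) - Y ^ 2 * ∫ u, Psi m φ a β u)|
        ≤ ∑ c ∈ S a β, |∑' n : ℤ × ℤ, Psi m φ a β ((n.1 + (c.1 : ℝ) / M) / Y,
            (n.2 + (c.2 : ℝ) / M) / Y) - Y ^ 2 * ∫ u, Psi m φ a β u| :=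
          Finset.abs_sum_le_sum_abs _ _
      _ ≤ ∑ _c ∈ S a β, |C| / Y := by
          refine Finset.sum_le_sum fun c _ => ?_
          refine (hC _ _ Y hY1).trans ?_
          exact div_le_div_of_nonneg_right (le_abs_self C) hY0.le
      _ = (S a β).card * |C| * M / √X := by
          rw [Finset.sum_const, nsmul_eq_mul, hY]
          field_simp
      _ ≤ ((S a β).card * |C| * M + D * M) / √X := by
          apply div_le_div_of_nonneg_right _ hs0.le
          have : 0 ≤ D * M := by positivity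
          linarith
  · -- small X
    push Not at hbig
    have hLb : |Lsum m φ a β X| ≤
        ((Finset.Icc (-(N : ℤ)) N ×ˢ Finset.Icc (-(N : ℤ)) N).card : ℝ) * P := by
      unfold Lsum
      rw [tsum_eq_sum (s := Finset.Icc (-(N : ℤ)) N ×ˢ Finset.Icc (-(N : ℤ)) N)]
      · refine (Finset.abs_sum_le_sum_abs _ _).trans ?_
        rw [← nsmul_eq_mul]
        refine Finset.sum_le_card_nsmul _ _ _ fun v _ => ?_
        split_ifs
        · exact hP _
        · rw [abs_zero]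
          exact hP0
      · intro v hv
        by_contra hne
        apply hv
        have hne2 : Psi m φ a β (v.1 / √X, v.2 / √X) ≠ 0 := by
          intro h0
          apply hne
          rw [h0, ite_self]
        have h5 := hB _ hs0 v hne2
        have h6 : B * √X ≤ N := (mul_le_mul_of_nonneg_left hbig.le hB0).trans hNle
        rw [Finset.mem_product]
        exact ⟨mem_box h5.1 h6, mem_box h5.2 h6⟩
    have hXM : X ≤ (M : ℝ) ^ 2 := by
      rw [← hsq]
      exact pow_le_pow_left₀ hs0.le hbig.le 2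
    have h7 : |Lsum m φ a β X - κ * X| ≤ D := by
      refine (abs_sub _ _).trans ?_
      rw [hD]
      refine add_le_add hLb ?_
      rw [abs_mul, abs_of_pos hX0]
      exact mul_le_mul_of_nonneg_left hXM (abs_nonneg _)
    refine h7.trans ?_
    rw [le_div_iff₀ hs0]
    have h8 : D * √X ≤ D * M := mul_le_mul_of_nonneg_left hbig.le hD0
    linarith

end Pool.Agent.C3A

end
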