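import Pool.Agent.C3A.Stmts

/-!
LOC: the local identity.
-/

open scoped BigOperators

noncomputable section

namespace Pool.Agent.C3A

namespace LOC

theorem hk_zero (z : ℂ) : hk z 0 = 1 := by
  simp [hk]

theorem hk_succ (z : ℂ) (k : ℕ) : hk z (k + 1) = z * hk z k + z⁻¹ ^ (k + 1) := by
  unfold hk
  rw [Finset.sum_range_succ', Finset.mul_sum]
  congr 1
  · refine Finset.sum_congr rfl fun i _ => ?_
    rw [Nat.add_sub_add_right]
    ring
  · simp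

theorem hk_rec {z : ℂ} (hz : z ≠ 0) (k : ℕ) :
    hk z (k + 2) = (z + z⁻¹) * hk z (k + 1) - hk z k := by
  have h1 := hk_succ z (k + 1)
  have h2 := hk_succ z k
  have h3 : z * z⁻¹ = 1 := mul_inv_cancel₀ hz
  have h4 : z⁻¹ ^ (k + 1 + 1) = z⁻¹ * z⁻¹ ^ (k + 1) := pow_succ' _ _
  rw [show k + 2 = k + 1 + 1 from rfl, h1, h4]
  linear_combination (-z⁻¹) * h2 - hk z k * h3

theorem hk_one (z : ℂ) : hk z 1 = z + z⁻¹ := by
  rw [hk_succ, hk_zero]
  simp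

theorem hk_diff {z : ℂ} (hz : z ≠ 0) (k : ℕ) :
    hk z (k + 2) = hk z k + (z ^ (k + 2) + z⁻¹ ^ (k + 2)) := by
  induction k using Nat.twoStepInduction with
  | zero =>
    have h3 : z * z⁻¹ = 1 := mul_inv_cancel₀ hz
    rw [hk_rec hz, hk_one, hk_zero]
    linear_combination 2 * h3
  | one =>
    have h3 : z * z⁻¹ = 1 := mul_inv_cancel₀ hz
    rw [hk_rec hz, hk_rec hz, hk_one, hk_zero]
    linear_combination (3 * z + 3 * z⁻¹) * h3
  | more k h1 h2 =>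
    have h3 : z * z⁻¹ = 1 := mul_inv_cancel₀ hz
    have e1 := hk_rec hz (k + 2)
    have e2 := hk_rec hz k
    rw [show k + 1 + 2 = k + 2 + 1 from rfl] at h2
    rw [show k + 2 + 2 = k + 2 + 2 from rfl, e1, h2]
    have e3 := hk_rec hz k
    have p1 : z ^ (k + 2 + 2) = z * z ^ (k + 1 + 2) := by ring
    have p2 : z⁻¹ ^ (k + 2 + 2) = z⁻¹ * z⁻¹ ^ (k + 1 + 2) := by ring
    have p3 : z⁻¹ * z ^ (k + 1 + 2) = z ^ (k + 2) := by
      have : z ^ (k + 1 + 2) = z * z ^ (k + 2) := by ring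
      rw [this, ← mul_assoc, inv_mul_cancel₀ hz, one_mul]
    have p4 : z * z⁻¹ ^ (k + 1 + 2) = z⁻¹ ^ (k + 2) := by
      have : z⁻¹ ^ (k + 1 + 2) = z⁻¹ * z⁻¹ ^ (k + 2) := by ring
      rw [this, ← mul_assoc, h3, one_mul]
    have p5 : z ^ (k + 2 + 1) = z ^ (k + 1 + 2) := rfl
    have p6 : z⁻¹ ^ (k + 2 + 1) = z⁻¹ ^ (k + 1 + 2) := rfl
    rw [p1, p2]
    linear_combination (-1 : ℂ) * h1 + p3 + p4 - e3

/-- The left side. -/
def Lk (z w : ℂ) (k : ℕ) : ℂ :=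
  ∑ i ∈ Finset.range (k / 2 + 1), hk z (k - 2 * i) * hk w (k - 2 * i)

/-- The right side. -/
def Rk (x y : ℂ) (k : ℕ) : ℂ := ∑ j ∈ Finset.range (k + 1), hk x j * hk y (k - j)

theorem Lk_zero (z w : ℂ) : Lk z w 0 = 1 := by
  simp [Lk, hk_zero]

theorem Lk_one (z w : ℂ) : Lk z w 1 = hk z 1 * hk w 1 := by
  simp [Lk]

theorem Lk_succ (z w : ℂ) (k : ℕ) :
    Lk z w (k + 2) = Lk z w k + hk z (k + 2) * hk w (k + 2) := by
  unfold Lk
  rw [show (k + 2) / 2 + 1 = (k / 2 + 1) + 1 by omega, Finset.sum_range_succ']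
  congr 1
  refine Finset.sum_congr rfl fun i _ => ?_
  rw [show k + 2 - 2 * (i + 1) = k - 2 * i by omega]

theorem Rk_zero (x y : ℂ) : Rk x y 0 = 1 := by
  simp [Rk, hk_zero]

theorem Rk_one (x y : ℂ) : Rk x y 1 = hk y 1 + hk x 1 := by
  simp [Rk, hk_zero, Finset.sum_range_succ]

theorem Rk_succ (x : ℂ) {y : ℂ} (hy : y ≠ 0) (k : ℕ) :
    Rk x y (k + 2) = hk x (k + 2) + (y + y⁻¹) * Rk x y (k + 1) - Rk x y k := by
  have h1 : Rk x y (k + 1) = (∑ j ∈ Finset.range (k + 1), hk x j * hk y (k + 1 - j))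
      + hk x (k + 1) := by
    unfold Rk
    rw [Finset.sum_range_succ, Nat.sub_self, hk_zero, mul_one]
  have h2 : Rk x y (k + 2) = (∑ j ∈ Finset.range (k + 1), hk x j * hk y (k + 2 - j))
      + hk x (k + 1) * (y + y⁻¹) + hk x (k + 2) := by
    unfold Rk
    rw [Finset.sum_range_succ, Finset.sum_range_succ, Nat.sub_self, hk_zero, mul_one,
      show k + 2 - (k + 1) = 1 by omega, hk_one]
  have h3 : (∑ j ∈ Finset.range (k + 1), hk x j * hk y (k + 2 - j)) =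
      (y + y⁻¹) * (∑ j ∈ Finset.range (k + 1), hk x j * hk y (k + 1 - j)) - Rk x y k := by
    unfold Rk
    rw [Finset.mul_sum, ← Finset.sum_sub_distrib]
    refine Finset.sum_congr rfl fun j hj => ?_
    have hj' : j ≤ k := by
      rw [Finset.mem_range] at hj
      omega
    rw [show k + 2 - j = (k - j) + 2 by omega, show k + 1 - j = (k - j) + 1 by omega,
      hk_rec hy]
    ring
  rw [h2, h3, h1]
  ring

theorem step_alg {S T P Q A0 A1 A2 A3 A4 B0 B1 B2 B3 B4 G0 G1 G2 : ℂ} (h1 : P + Q = S * T)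
    (h2 : P * Q = S ^ 2 + T ^ 2 - 4) (a2 : A2 = S * A1 - A0) (a3 : A3 = S * A2 - A1)
    (a4 : A4 = S * A3 - A2) (b2 : B2 = T * B1 - B0) (b3 : B3 = T * B2 - B1)
    (b4 : B4 = T * B3 - B2) (e0 : A2 * B2 - Q * (A1 * B1) + A0 * B0 = G0)
    (e1 : A3 * B3 - Q * (A2 * B2) + A1 * B1 = G1) (e2 : G2 = P * G1 - G0) :
    A4 * B4 - Q * (A3 * B3) + A2 * B2 = G2 := by
  rw [e2, ← e0, ← e1]
  have h3 : A4 * B4 - (S * T) * (A3 * B3) + (S ^ 2 + T ^ 2 - 2) * (A2 * B2)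
      - (S * T) * (A1 * B1) + A0 * B0 = 0 := by
    rw [a4, b4, a3, b3, a2, b2]
    ring
  linear_combination h3 + (-(A3 * B3) - A1 * B1) * h1 + (A2 * B2) * h2

section

variable {z w : ℂ} (hz : z ≠ 0) (hw : w ≠ 0)

include hz hw

/-- The products `u_k = h_k(z) h_k(w)`. -/
theorem key_u (k : ℕ) :
    hk z (k + 2) * hk w (k + 2) - (z * w⁻¹ + (z * w⁻¹)⁻¹) * (hk z (k + 1) * hk w (k + 1))
      + hk z k * hk w k = (z * w) ^ (k + 2) + (z * w)⁻¹ ^ (k + 2) := by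
  have h3 : z * z⁻¹ = 1 := mul_inv_cancel₀ hz
  have h4 : w * w⁻¹ = 1 := mul_inv_cancel₀ hw
  have h5 : (z * w) * (z * w)⁻¹ = 1 := mul_inv_cancel₀ (mul_ne_zero hz hw)
  obtain ⟨S, hS⟩ : ∃ S, S = z + z⁻¹ := ⟨_, rfl⟩
  obtain ⟨T, hT⟩ : ∃ T, T = w + w⁻¹ := ⟨_, rfl⟩
  obtain ⟨P, hP⟩ : ∃ P, P = z * w + (z * w)⁻¹ := ⟨_, rfl⟩
  obtain ⟨Q, hQ⟩ : ∃ Q, Q = z * w⁻¹ + (z * w⁻¹)⁻¹ := ⟨_, rfl⟩
  have hPQ1 : P + Q = S * T := by
    rw [hP, hQ, hS, hT, mul_inv, mul_inv, inv_inv]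
    ring
  have hPQ2 : P * Q = S ^ 2 + T ^ 2 - 4 := by
    rw [hP, hQ, hS, hT, mul_inv, mul_inv, inv_inv]
    generalize z⁻¹ = a at *
    generalize w⁻¹ = b at *
    linear_combination (w ^ 2 + b ^ 2 - 2) * h3 + (z ^ 2 + a ^ 2 - 2) * h4
  have ra := hk_rec hz
  have rb := hk_rec hw
  have a1 := hk_one z
  have b1 := hk_one w
  have a0 := hk_zero z
  have b0 := hk_zero w
  rw [← hS] at ra a1
  rw [← hT] at rb b1
  rw [← hQ]
  generalize (z * w)⁻¹ = y at *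
  generalize z * w = x at *
  induction k using Nat.twoStepInduction with
  | zero =>
    have e1 := ra 0
    have e2 := rb 0
    simp only [Nat.zero_add] at e1 e2 ⊢
    rw [e1, e2, a1, b1, a0, b0]
    have e3 : x ^ 2 + y ^ 2 = P ^ 2 - 2 := by
      rw [hP]
      linear_combination (-2 : ℂ) * h5
    rw [e3]
    linear_combination (-(S * T) - P) * hPQ1 + hPQ2
  | one =>
    have e1 := ra 0
    have e2 := rb 0
    have f1 := ra 1
    have f2 := rb 1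
    simp only [Nat.zero_add] at e1 e2
    rw [show (1 : ℕ) + 2 = 3 from rfl, show (1 : ℕ) + 1 = 2 from rfl] at f1 f2 ⊢
    rw [f1, f2, e1, e2, a1, b1, a0, b0]
    have e3 : x ^ 3 + y ^ 3 = P ^ 3 - 3 * P := by
      rw [hP]
      linear_combination (-(3 * x) - 3 * y) * h5
    rw [e3]
    linear_combination (-((S ^ 2 - 1) * (T ^ 2 - 1)) - (S * T + P) * P) * hPQ1
      + (S * T + P) * hPQ2
  | more k h1 h2 =>
    refine step_alg hPQ1 hPQ2 (ra k) (ra (k + 1)) (ra (k + 2)) (rb k) (rb (k + 1)) (rb (k + 2))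
      h1 h2 ?_
    rw [hP]
    have e1 : x ^ (k + 2 + 2) + y ^ (k + 2 + 2) =
        (x + y) * (x ^ (k + 1 + 2) + y ^ (k + 1 + 2))
          - (x * y) * (x ^ (k + 2) + y ^ (k + 2)) := by ring
    rw [e1, h5, one_mul]

theorem rec_L (k : ℕ) : Lk z w (k + 2) =
    hk (z * w) (k + 2) + (z * w⁻¹ + (z * w⁻¹)⁻¹) * Lk z w (k + 1) - Lk z w k := by
  have hzw : z * w ≠ 0 := mul_ne_zero hz hw
  induction k using Nat.twoStepInduction with
  | zero =>
    have e1 := key_u hz hw 0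
    have e2 := hk_diff hzw 0
    have e3 := Lk_succ z w 0
    simp only [Nat.zero_add] at e1 e2 e3 ⊢
    rw [Lk_one]
    rw [hk_zero, hk_zero] at e1
    rw [hk_zero] at e2
    rw [Lk_zero] at e3 ⊢
    linear_combination e1 - e2 + e3
  | one =>
    have e1 := key_u hz hw 1
    have e2 := hk_diff hzw 1
    have e3 := Lk_succ z w 1
    have e4 := Lk_succ z w 0
    have e5 := key_u hz hw 0
    rw [show (1 : ℕ) + 2 = 3 from rfl] at e1 e2 e3 ⊢
    rw [show (1 : ℕ) + 1 = 2 from rfl] at e1 ⊢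
    simp only [Nat.zero_add] at e4 e5
    rw [Lk_zero] at e4
    rw [Lk_one] at e3 ⊢
    have e6 : hk (z * w) 1 = z * w + (z * w)⁻¹ := hk_one _
    have e7 : hk z 1 * hk w 1 = (z * w + (z * w)⁻¹) + (z * w⁻¹ + (z * w⁻¹)⁻¹) := by
      rw [hk_one, hk_one, mul_inv, mul_inv, inv_inv]
      ring
    rw [e3, e4, e2, e6]
    linear_combination e1 + e7
  | more k h1 h2 =>
    have e1 := key_u hz hw (k + 2)
    have e2 := hk_diff hzw (k + 2)
    have e3 := Lk_succ z w (k + 2)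
    have e4 := Lk_succ z w (k + 1)
    have e5 := Lk_succ z w k
    rw [show k + 1 + 2 = k + 2 + 1 from rfl] at e4
    rw [e3, e2]
    linear_combination h1 + e1 - (z * w⁻¹ + (z * w⁻¹)⁻¹) * e4 + e5

theorem main (k : ℕ) : Lk z w k = Rk (z * w) (z * w⁻¹) k := by
  have hy : z * w⁻¹ ≠ 0 := mul_ne_zero hz (inv_ne_zero hw)
  induction k using Nat.twoStepInduction with
  | zero => rw [Lk_zero, Rk_zero]
  | one =>
    rw [Lk_one, Rk_one, hk_one, hk_one, hk_one, hk_one, mul_inv, mul_inv, inv_inv]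
    ring
  | more k h1 h2 =>
    rw [rec_L hz hw, Rk_succ _ hy, h1, h2]

end

end LOC

theorem loc : LOC_Stmt := fun _ _ hz hw k => LOC.main hz hw k

end Pool.Agent.C3A
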