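import Pool.Agent.C3A.Stmts

/-!
Closed 3-braids, arithmetic half: modules NRM (normal form of a matrix of odd trace) and CNJ
(equivalent forms give conjugate matrices). See PAPER.md in this folder, section F.
-/

open scoped BigOperators Real MatrixGroups ContDiff
open Filter

noncomputable section

namespace Pool.Agent.C3A

namespace NRM

/-- the matrix with given entries -/
def mk (p q r s : ℤ) (h : p * s - q * r = 1) : SL(2, ℤ) :=
  ⟨!![p, q; r, s], by rw [Matrix.det_fin_two_of]; exact h⟩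

theorem mk00 (p q r s : ℤ) (h : p * s - q * r = 1) : (mk p q r s h) 0 0 = p := rfl
theorem mk01 (p q r s : ℤ) (h : p * s - q * r = 1) : (mk p q r s h) 0 1 = q := rfl
theorem mk10 (p q r s : ℤ) (h : p * s - q * r = 1) : (mk p q r s h) 1 0 = r := rfl
theorem mk11 (p q r s : ℤ) (h : p * s - q * r = 1) : (mk p q r s h) 1 1 = s := rfl

theorem mul_apply2 (A B : SL(2, ℤ)) (i j : Fin 2) :
    (A * B) i j = A i 0 * B 0 j + A i 1 * B 1 j := by
  show (A.1 * B.1) i j = _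
  rw [Matrix.mul_apply, Fin.sum_univ_two]

theorem inv00 (A : SL(2, ℤ)) : A⁻¹ 0 0 = A 1 1 := by
  rw [Matrix.SpecialLinearGroup.SL2_inv_expl]; rfl
theorem inv01 (A : SL(2, ℤ)) : A⁻¹ 0 1 = -A 0 1 := by
  rw [Matrix.SpecialLinearGroup.SL2_inv_expl]; rfl
theorem inv10 (A : SL(2, ℤ)) : A⁻¹ 1 0 = -A 1 0 := by
  rw [Matrix.SpecialLinearGroup.SL2_inv_expl]; rfl
theorem inv11 (A : SL(2, ℤ)) : A⁻¹ 1 1 = A 0 0 := by
  rw [Matrix.SpecialLinearGroup.SL2_inv_expl]; rfl

theorem det2 (A : SL(2, ℤ)) : A 0 0 * A 1 1 - A 0 1 * A 1 0 = 1 := by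
  have := A.det_coe
  rw [Matrix.det_fin_two] at this
  exact this

theorem ext2 {A B : SL(2, ℤ)} (h00 : A 0 0 = B 0 0) (h01 : A 0 1 = B 0 1) (h10 : A 1 0 = B 1 0)
    (h11 : A 1 1 = B 1 1) : A = B := by
  refine Matrix.SpecialLinearGroup.ext _ _ fun i j => ?_
  fin_cases i <;> fin_cases j
  · exact h00
  · exact h01
  · exact h10
  · exact h11

theorem tr2 (A : SL(2, ℤ)) : A.1.trace = A 0 0 + A 1 1 := by
  rw [Matrix.trace_fin_two]

/-- the main computation: a base change of the form conjugates the matrix -/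
theorem isA_conj {m t c : ℤ} {n : ℕ} {β x y z : ℤ} (A : SL(2, ℤ)) {p q r s : ℤ}
    (hd : p * s - q * r = 1) (hx : A 1 0 = c * x) (hy : A 1 1 - A 0 0 = c * y)
    (hz : A 0 1 = -(c * z)) (ht : A 0 0 + A 1 1 = t)
    (hF : ∀ v : ℤ × ℤ, x * (sub2 p q r s v).1 ^ 2 +
      y * ((sub2 p q r s v).1 * (sub2 p q r s v).2) + z * (sub2 p q r s v).2 ^ 2 =
        frm m n β v) :
    IsA m t c n β ((mk p q r s hd)⁻¹ * A * (mk p q r s hd)⁻¹⁻¹) := by
  have h10 := hF (1, 0)
  have h01 := hF (0, 1)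
  have h11 := hF (1, 1)
  simp only [sub2, frm, mul_one, mul_zero, add_zero, zero_add, one_pow, ne_eq, OfNat.ofNat_ne_zero,
    not_false_eq_true, zero_pow] at h10 h01 h11
  rw [inv_inv]
  unfold IsA
  simp only [mul_apply2, inv00, inv01, inv10, inv11, mk00, mk01, mk10, mk11]
  set a00 := A 0 0
  set a01 := A 0 1
  set a10 := A 1 0
  set a11 := A 1 1
  refine ⟨?_, ?_, ?_, ?_⟩
  · linear_combination t * hd + (ht) * (p * s - q * r) - hy * (p * s + q * r) + 2 * r * s * hz -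
      2 * p * q * hx - c * (h11 - h10 - h01)
  · linear_combination (-q ^ 2) * hx - q * s * hy + s ^ 2 * hz - c * h01
  · linear_combination p ^ 2 * hx + p * r * hy - r ^ 2 * hz + c * h10
  · linear_combination t * hd + (ht) * (p * s - q * r) + hy * (p * s + q * r) - 2 * r * s * hz +
      2 * p * q * hx + c * (h11 - h10 - h01)

end NRM

open NRM

theorem cnj : CNJ_Stmt := by
  refine ⟨?_, ?_, ?_⟩
  · rintro m t c a β a' β' A A' - - - hA hA' ⟨p, q, r, s, hd, hF⟩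
    obtain ⟨h1, h2, h3, h4⟩ := hA
    refine ⟨(mk p q r s hd)⁻¹, ?_⟩
    have h := isA_conj (m := m) (t := t) (c := c) (n := a') (β := β') (x := a) (y := 2 * β + 1)
      (z := fm m β / a) A hd h3 (by linarith) h2 (by linarith) (fun v => by
        rw [← hF v]
        rfl)
    obtain ⟨k1, k2, k3, k4⟩ := h
    obtain ⟨l1, l2, l3, l4⟩ := hA'
    refine ext2 (by linarith) (by rw [k2, l2]) (by rw [k3, l3]) (by linarith)
  · rintro m t c a β A ⟨h1, h2, h3, h4⟩
    refine ⟨?_, ?_, h3, ?_⟩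
    · show 2 * A 1 1 = _
      rw [h4]
      ring
    · show A 0 1 = _
      rw [h2]
      have : fm m (-1 - β) = fm m β := by unfold fm; ring
      rw [this]
    · show 2 * A 0 0 = _
      rw [h1]
      ring
  · intro g A
    have hdg := det2 g
    refine ⟨mk (g 0 0) (-g 0 1) (-g 1 0) (g 1 1) (by linarith), ?_⟩
    refine ext2 ?_ ?_ ?_ ?_
    · show (g * A * g⁻¹) 1 1 = _
      simp only [mul_apply2, inv00, inv01, inv10, inv11, mk00, mk01, mk10, mk11]
      show _ = (g 0 0 * A 1 1 + -g 0 1 * A 1 0) * g 1 1 + (g 0 0 * A 0 1 + -g 0 1 * A 0 0) * _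
      ring
    · show (g * A * g⁻¹) 0 1 = _
      simp only [mul_apply2, inv00, inv01, inv10, inv11, mk00, mk01, mk10, mk11]
      show _ = (g 0 0 * A 1 1 + -g 0 1 * A 1 0) * _ + (g 0 0 * A 0 1 + -g 0 1 * A 0 0) * g 0 0
      ring
    · show (g * A * g⁻¹) 1 0 = _
      simp only [mul_apply2, inv00, inv01, inv10, inv11, mk00, mk01, mk10, mk11]
      show _ = (-g 1 0 * A 1 1 + g 1 1 * A 1 0) * g 1 1 + (-g 1 0 * A 0 1 + g 1 1 * A 0 0) * _
      ring
    · show (g * A * g⁻¹) 0 0 = _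
      simp only [mul_apply2, inv00, inv01, inv10, inv11, mk00, mk01, mk10, mk11]
      show _ = (-g 1 0 * A 1 1 + g 1 1 * A 1 0) * _ + (-g 1 0 * A 0 1 + g 1 1 * A 0 0) * g 0 0
      ring

theorem nrm (h : VAL_Stmt) : NRM_Stmt := by
  intro A K hK hodd ht
  have hdA := det2 A
  rw [tr2] at hodd ht
  simp only [tr2]
  -- the content
  set x : ℤ := A 1 0 with hx
  set y : ℤ := A 1 1 - A 0 0 with hy
  set z : ℤ := -A 0 1 with hz
  set t : ℤ := A 0 0 + A 1 1 with htt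
  have hdisc : y ^ 2 - 4 * x * z = t ^ 2 - 4 := by
    rw [hx, hy, hz, htt]
    linear_combination (-4) * hdA
  have hpos : 0 < t ^ 2 - 4 := by nlinarith
  set c : ℕ := Int.gcd x (Int.gcd y z) with hc
  have hcx : (c : ℤ) ∣ x := Int.gcd_dvd_left _ _
  have hc2 : (c : ℤ) ∣ Int.gcd y z := Int.gcd_dvd_right _ _
  have hcy : (c : ℤ) ∣ y := hc2.trans (Int.gcd_dvd_left _ _)
  have hcz : (c : ℤ) ∣ z := hc2.trans (Int.gcd_dvd_right _ _)
  have hall : ∀ d : ℤ, (d ∣ x ∧ d ∣ y ∧ d ∣ z) ↔ d ∣ (c : ℤ) := by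
    intro d
    constructor
    · rintro ⟨h1, h2, h3⟩
      exact Int.dvd_coe_gcd h1 (Int.dvd_coe_gcd h2 h3)
    · intro h1
      exact ⟨h1.trans hcx, h1.trans hcy, h1.trans hcz⟩
  obtain ⟨x', hx'⟩ := hcx
  obtain ⟨y', hy'⟩ := hcy
  obtain ⟨z', hz'⟩ := hcz
  have hc0 : (0 : ℤ) < c := by
    rcases Nat.eq_zero_or_pos c with h0 | h0
    · exfalso
      rw [h0] at hx' hy' hz'
      rw [hx', hy', hz'] at hdisc
      norm_num at hdisc
      omega
    · exact_mod_cast h0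
  set D : ℤ := y' ^ 2 - 4 * x' * z' with hD
  have hcD : t ^ 2 - 4 = (c : ℤ) ^ 2 * D := by
    rw [← hdisc, hx', hy', hz', hD]
    ring
  have hoddD : Odd D := by
    have h1 : Odd (t ^ 2 - 4) := by
      have : Odd (t ^ 2) := hodd.pow
      exact this.sub_even (by decide)
    rw [hcD] at h1
    exact (Int.odd_mul.1 h1).2
  have hyodd : Odd y' := by
    have h1 : Odd (y' ^ 2) := by
      have : y' ^ 2 = D + 4 * x' * z' := by rw [hD]; ring
      rw [this]
      refine hoddD.add_even ?_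
      exact ⟨2 * x' * z', by ring⟩
    exact (Int.odd_pow.1 h1).resolve_right (by norm_num)
  have hDpos : 0 < D := by
    rw [hcD] at hpos
    by_contra hn
    have : (c : ℤ) ^ 2 * D ≤ 0 := mul_nonpos_of_nonneg_of_nonpos (by positivity) (not_lt.1 hn)
    linarith
  have hDsq : ¬ IsSquare D := by
    rintro ⟨w, hw⟩
    have h1 : t ^ 2 - 4 = (|(c : ℤ) * w|) ^ 2 := by
      rw [sq_abs, hcD, hw]
      ring
    set e : ℤ := |(c : ℤ) * w| with he
    have he0 : 0 ≤ e := abs_nonneg _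
    have h2 : e < t := by
      by_contra hn
      have h3 : t ≤ e := not_lt.1 hn
      nlinarith
    have h3 : e ≤ t - 1 := by omega
    nlinarith
  obtain ⟨k, hk⟩ := hyodd
  -- `m = (D - 1) / 4`
  obtain ⟨m, hm⟩ : ∃ m : ℤ, D = 1 + 4 * m := by
    refine ⟨k ^ 2 + k - x' * z', ?_⟩
    rw [hD, hk]
    ring
  have hm0 : 0 < m := by
    by_contra hn
    have hm1 : m ≤ 0 := not_lt.1 hn
    have hm2 : m = 0 := by omega
    apply hDsq
    rw [hm, hm2]
    exact ⟨1, by norm_num⟩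
  have hgood : Good m := ⟨hm0, by rw [← hm]; exact hDsq⟩
  have hunt : Unt m t c := ⟨ht, hc0, by rw [← hm]; exact hcD⟩
  have hprim : ∀ d : ℤ, d ∣ x' → d ∣ y' → d ∣ z' → IsUnit d := by
    intro d h1 h2 h3
    have h4 : (c : ℤ) * d ∣ (c : ℤ) * 1 := by
      rw [mul_one]
      refine (hall _).1 ⟨?_, ?_, ?_⟩
      · rw [hx']; exact mul_dvd_mul_left _ h1
      · rw [hy']; exact mul_dvd_mul_left _ h2
      · rw [hz']; exact mul_dvd_mul_left _ h3
    exact isUnit_of_dvd_one (Int.dvd_of_mul_dvd_mul_left hc0.ne' h4)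
  obtain ⟨n, β, hval, hcop, p, q, r, s, hd, hF⟩ := h m hgood x' y' z' (by rw [← hm]) hprim K hK
  refine ⟨m, c, hgood, hunt, ?_, n, β, hval, hcop, (mk p q r s hd)⁻¹, ?_⟩
  · intro d
    rw [← hall d, hz, Int.dvd_neg]
  · exact isA_conj A hd hx' hy' (by rw [← hz', hz]; ring) rfl hF

end Pool.Agent.C3A
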