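import Pool.Agent.C3A.Stmts

/-!
ORBS: the smooth sum of the numbers of orbits is twice the smooth lattice sum.
-/

open scoped BigOperators Real MatrixGroups ContDiff Topology
open Filter

noncomputable section

namespace Pool.Agent.C3A

namespace ORBS

/-! ### The action -/

theorem act_one (v : ℤ × ℤ) : act 1 v = v := by
  simp [act, sub2]

theorem act_mul (A B : SL(2, ℤ)) (v : ℤ × ℤ) : act (A * B) v = act A (act B v) := by
  simp only [act, sub2, Matrix.SpecialLinearGroup.coe_mul, Matrix.mul_apply, Fin.sum_univ_two]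
  ext <;> simp <;> ring

theorem self_mem (A : SL(2, ℤ)) (v : ℤ × ℤ) : v ∈ orb2 A v := ⟨0, by rw [zpow_zero, act_one]⟩

theorem orb_act (A : SL(2, ℤ)) (k : ℤ) (v : ℤ × ℤ) : orb2 A (act (A ^ k) v) = orb2 A v := by
  ext w
  constructor
  · rintro ⟨j, rfl⟩
    exact ⟨j + k, by rw [zpow_add, act_mul]⟩
  · rintro ⟨j, rfl⟩
    exact ⟨j - k, by rw [← act_mul, ← zpow_add, sub_add_cancel]⟩

/-- The number of orbits is the sum of the weights. -/
theorem count {A : SL(2, ℤ)} {ℓ : ℝ} {φ : ℝ → ℝ} {s : ℤ × ℤ → ℝ} (S : Set (ℤ × ℤ))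
    (W : Finset (ℤ × ℤ)) (hWS : ∀ w ∈ W, w ∈ S) (hSW : ∀ w ∈ S, φ (s w) ≠ 0 → w ∈ W)
    (hinv : ∀ v ∈ S, ∀ k : ℤ, act (A ^ k) v ∈ S)
    (hs : ∀ v ∈ S, ∀ k : ℤ, s (act (A ^ k) v) = s v + k * ℓ) (hℓ : ℓ ≠ 0)
    (hsum : ∀ x, HasSum (fun k : ℤ => φ (x + k * ℓ)) 1) :
    (nor A S : ℝ) = ∑ w ∈ W, φ (s w) := by
  classical
  have hinj : ∀ v ∈ S, Function.Injective fun k : ℤ => act (A ^ k) v := by
    intro v hv i j hij
    have h1 := congrArg s hij
    simp only [hs v hv] at h1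
    have h2 : (i : ℝ) * ℓ = j * ℓ := by linarith
    exact_mod_cast mul_right_cancel₀ hℓ h2
  -- the weights with nonzero value in an orbit
  have hone : ∀ v ∈ S, ∑ w ∈ W.filter fun w => orb2 A w = orb2 A v, φ (s w) = 1 := by
    intro v hv
    have hfin : {k : ℤ | act (A ^ k) v ∈ W}.Finite := by
      have : {k : ℤ | act (A ^ k) v ∈ W} = (fun k : ℤ => act (A ^ k) v) ⁻¹' (W : Set (ℤ × ℤ)) := rfl
      rw [this]
      exact W.finite_toSet.preimage ((hinj v hv).injOn)
    have h1 : (W.filter fun w => orb2 A w = orb2 A v)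
        = hfin.toFinset.image fun k : ℤ => act (A ^ k) v := by
      ext w
      simp only [Finset.mem_filter, Finset.mem_image, Set.Finite.mem_toFinset, Set.mem_ofPred_eq]
      constructor
      · rintro ⟨hw, ho⟩
        have h2 : w ∈ orb2 A v := by
          rw [← ho]
          exact self_mem A w
        obtain ⟨k, rfl⟩ := h2
        exact ⟨k, hw, rfl⟩
      · rintro ⟨k, hk, rfl⟩
        exact ⟨hk, orb_act A k v⟩
    rw [h1, Finset.sum_image fun i _ j _ hij => hinj v hv hij]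
    have h3 := (hsum (s v)).tsum_eq
    rw [tsum_eq_sum (s := hfin.toFinset)] at h3
    · rw [← h3]
      exact Finset.sum_congr rfl fun k _ => by rw [hs v hv k]
    · intro k hk
      by_contra hne
      apply hk
      rw [Set.Finite.mem_toFinset, Set.mem_ofPred_eq]
      apply hSW _ (hinv v hv k)
      rwa [hs v hv k]
  have himg : {T : Set (ℤ × ℤ) | ∃ v ∈ S, T = orb2 A v} = ↑(W.image (orb2 A)) := by
    ext T
    simp only [Set.mem_ofPred_eq, Finset.coe_image, Set.mem_image, Finset.mem_coe]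
    constructor
    · rintro ⟨v, hv, rfl⟩
      have h1 := hone v hv
      have h2 : (W.filter fun w => orb2 A w = orb2 A v).Nonempty := by
        rw [Finset.nonempty_iff_ne_empty]
        intro h0
        rw [h0, Finset.sum_empty] at h1
        exact zero_ne_one h1
      obtain ⟨w, hw⟩ := h2
      rw [Finset.mem_filter] at hw
      exact ⟨w, hw.1, hw.2⟩
    · rintro ⟨w, hw, rfl⟩
      exact ⟨w, hWS w hw, rfl⟩
  have hn : nor A S = (W.image (orb2 A)).card := by
    unfold nor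
    rw [himg, Set.ncard_coe_finset]
  rw [hn, ← Finset.sum_fiberwise_of_maps_to (t := W.image (orb2 A)) (g := orb2 A)
    fun w hw => Finset.mem_image_of_mem _ hw]
  rw [Finset.card_eq_sum_ones, Nat.cast_sum]
  refine Finset.sum_congr rfl fun T hT => ?_
  rw [Finset.mem_image] at hT
  obtain ⟨v, hv, rfl⟩ := hT
  rw [hone v (hWS v hv), Nat.cast_one]

/-! ### The linear forms -/

/-- `l1` on integral vectors. -/
def L1 (m : ℤ) (a : ℕ) (β : ℤ) (v : ℤ × ℤ) : ℝ := l1 m a β ((v.1 : ℝ), (v.2 : ℝ))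

/-- `l2` on integral vectors. -/
def L2 (m : ℤ) (a : ℕ) (β : ℤ) (v : ℤ × ℤ) : ℝ := l2 m a β ((v.1 : ℝ), (v.2 : ℝ))

/-- The eigenvalue. -/
def lam (t : ℤ) : ℝ := (t + √((t : ℝ) ^ 2 - 4)) / 2

section

variable {m t c : ℤ} {a : ℕ} {β : ℤ} {A : SL(2, ℤ)}

theorem disc_pos (hm : Good m) : (0 : ℝ) < 1 + 4 * m := by
  have : (0 : ℝ) < m := by exact_mod_cast hm.1
  linarith

theorem sqrt_disc_sq (hm : Good m) : √(1 + 4 * (m : ℝ)) ^ 2 = 1 + 4 * m :=
  Real.sq_sqrt (disc_pos hm).le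

theorem a_mul (hV : Val m a β) : (a : ℝ) * ((fm m β / a : ℤ) : ℝ) = β ^ 2 + β - m := by
  have h := Int.mul_ediv_cancel' hV.2.2
  have h2 : ((a * (fm m β / a) : ℤ) : ℝ) = ((fm m β : ℤ) : ℝ) := by rw [h]
  push_cast at h2
  rw [h2]
  simp [fm]

theorem L1_mul_L2 (hm : Good m) (hV : Val m a β) (v : ℤ × ℤ) :
    L1 m a β v * L2 m a β v = frm m a β v := by
  have ha : (0 : ℝ) < a := by exact_mod_cast hV.1
  have hsa : √(a : ℝ) * √(a : ℝ) = a := Real.mul_self_sqrt ha.le
  have hD := sqrt_disc_sq hm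
  have hq := a_mul hV
  unfold L1 L2 l1 l2
  rw [div_mul_div_comm, hsa, div_eq_iff ha.ne']
  simp only [frm]
  push_cast
  linear_combination (-(v.2 : ℝ) ^ 2) * hq - ((v.2 : ℝ) ^ 2 / 4) * hD

theorem sqrt_tc (hU : Unt m t c) (hm : Good m) :
    √((t : ℝ) ^ 2 - 4) = c * √(1 + 4 * (m : ℝ)) := by
  obtain ⟨_, hc, h⟩ := hU
  have h1 : ((t : ℝ) ^ 2 - 4) = c ^ 2 * (1 + 4 * m) := by exact_mod_cast h
  have hc' : (0 : ℝ) ≤ c := by exact_mod_cast hc.le
  rw [h1, Real.sqrt_mul (sq_nonneg _), Real.sqrt_sq hc']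

theorem entries (hA : IsA m t c a β A) :
    2 * ((A 0 0 : ℤ) : ℝ) = t - c - 2 * c * β ∧
    ((A 0 1 : ℤ) : ℝ) = -(c * ((fm m β / a : ℤ) : ℝ)) ∧ ((A 1 0 : ℤ) : ℝ) = c * a ∧
    2 * ((A 1 1 : ℤ) : ℝ) = t + c + 2 * c * β := by
  obtain ⟨h1, h2, h3, h4⟩ := hA
  refine ⟨by exact_mod_cast h1, by exact_mod_cast h2, by exact_mod_cast h3, by exact_mod_cast h4⟩

theorem L1_act (hm : Good m) (hU : Unt m t c) (hV : Val m a β) (hA : IsA m t c a β A)
    (v : ℤ × ℤ) : L1 m a β (act A v) = lam t * L1 m a β v := by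
  obtain ⟨h00, h01, h10, h11⟩ := entries hA
  have hD := sqrt_disc_sq hm
  have hq := a_mul hV
  unfold L1 l1 lam
  rw [sqrt_tc hU hm, mul_div_assoc']
  congr 1
  simp only [act, sub2]
  push_cast
  set D := √(1 + 4 * (m : ℝ))
  linear_combination ((a : ℝ) * v.1 / 2) * h00 + ((a : ℝ) * v.2) * h01
    + ((β + (1 + D) / 2) * v.1) * h10 + ((β + (1 + D) / 2) * v.2 / 2) * h11
    - (c * (v.2 : ℝ)) * hq - (c * (v.2 : ℝ) / 4) * hD

theorem L2_act (hm : Good m) (hU : Unt m t c) (hV : Val m a β) (hA : IsA m t c a β A)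
    (v : ℤ × ℤ) : lam t * L2 m a β (act A v) = L2 m a β v := by
  obtain ⟨h00, h01, h10, h11⟩ := entries hA
  have hD := sqrt_disc_sq hm
  have hq := a_mul hV
  have h1 : L2 m a β (act A v) = (t - c * √(1 + 4 * (m : ℝ))) / 2 * L2 m a β v := by
    unfold L2 l2
    rw [mul_div_assoc']
    congr 1
    simp only [act, sub2]
    push_cast
    set D := √(1 + 4 * (m : ℝ))
    linear_combination ((a : ℝ) * v.1 / 2) * h00 + ((a : ℝ) * v.2) * h01
      + ((β + (1 - D) / 2) * v.1) * h10 + ((β + (1 - D) / 2) * v.2 / 2) * h11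
      - (c * (v.2 : ℝ)) * hq - (c * (v.2 : ℝ) / 4) * hD
  have h2 : (t : ℝ) ^ 2 - 4 = c ^ 2 * (1 + 4 * m) := by exact_mod_cast hU.2.2
  rw [h1]
  unfold lam
  rw [sqrt_tc hU hm]
  linear_combination (L2 m a β v / 4) * h2 - (c ^ 2 * L2 m a β v / 4) * hD

theorem lam_gt (hU : Unt m t c) : 1 < lam t := by
  have h1 : (2 : ℝ) < t := by exact_mod_cast hU.1
  have h2 := Real.sqrt_nonneg ((t : ℝ) ^ 2 - 4)
  unfold lam
  linarith

theorem L_act_pow (hm : Good m) (hU : Unt m t c) (hV : Val m a β) (hA : IsA m t c a β A)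
    (n : ℕ) (v : ℤ × ℤ) : L1 m a β (act (A ^ n) v) = lam t ^ n * L1 m a β v ∧
      lam t ^ n * L2 m a β (act (A ^ n) v) = L2 m a β v := by
  induction n with
  | zero => simp [act_one]
  | succ n ih =>
    rw [pow_succ' A, act_mul]
    constructor
    · rw [L1_act hm hU hV hA, ih.1]
      ring
    · have := L2_act hm hU hV hA (act (A ^ n) v)
      rw [← ih.2, ← this]
      ring

theorem L_act_zpow (hm : Good m) (hU : Unt m t c) (hV : Val m a β) (hA : IsA m t c a β A)
    (k : ℤ) (v : ℤ × ℤ) : L1 m a β (act (A ^ k) v) = lam t ^ k * L1 m a β v ∧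
      L2 m a β (act (A ^ k) v) = (lam t ^ k)⁻¹ * L2 m a β v := by
  have hl : lam t ≠ 0 := (zero_lt_one.trans (lam_gt hU)).ne'
  obtain ⟨n, rfl | rfl⟩ := k.eq_nat_or_neg
  · obtain ⟨h1, h2⟩ := L_act_pow hm hU hV hA n v
    rw [zpow_natCast, zpow_natCast]
    refine ⟨h1, ?_⟩
    rw [← h2]
    field_simp
  · obtain ⟨h1, h2⟩ := L_act_pow hm hU hV hA n (act (A ^ (-(n : ℤ))) v)
    rw [← act_mul, zpow_neg, zpow_natCast, mul_inv_cancel, act_one] at h1 h2
    rw [zpow_neg, zpow_neg, zpow_natCast, zpow_natCast]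
    constructor
    · rw [h1]
      field_simp
    · rw [← h2]
      field_simp

theorem finInt (C : ℝ) : {y : ℤ | |(y : ℝ)| ≤ C}.Finite := by
  apply (Set.finite_Icc (-⌈C⌉) ⌈C⌉).subset
  intro y hy
  rw [Set.mem_ofPred_eq, abs_le] at hy
  have h := Int.le_ceil C
  constructor
  · have : -(⌈C⌉ : ℝ) ≤ y := by linarith [hy.1]
    exact_mod_cast this
  · have : (y : ℝ) ≤ ⌈C⌉ := by linarith [hy.2]
    exact_mod_cast this

theorem fin_box (hm : Good m) (hV : Val m a β) (R : ℝ) :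
    {v : ℤ × ℤ | |L1 m a β v| ≤ R ∧ |L2 m a β v| ≤ R}.Finite := by
  have ha : (0 : ℝ) < a := by exact_mod_cast hV.1
  have hsa : 0 < √(a : ℝ) := Real.sqrt_pos.2 ha
  have hD0 : 0 < √(1 + 4 * (m : ℝ)) := Real.sqrt_pos.2 (disc_pos hm)
  set D := √(1 + 4 * (m : ℝ)) with hDdef
  set C2 := √(a : ℝ) * (2 * R) / D with hC2
  set C1 := (√(a : ℝ) * R + |β + (1 + D) / 2| * C2) / a with hC1
  apply ((finInt C1).prod (finInt C2)).subset
  rintro ⟨x, y⟩ ⟨h1, h2⟩
  have e1 : √(a : ℝ) * L1 m a β (x, y) = a * x + (β + (1 + D) / 2) * y := by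
    change √(a : ℝ) * ((a * x + (β + (1 + D) / 2) * y) / √(a : ℝ)) = _
    exact mul_div_cancel₀ _ hsa.ne'
  have e2 : √(a : ℝ) * L2 m a β (x, y) = a * x + (β + (1 - D) / 2) * y := by
    change √(a : ℝ) * ((a * x + (β + (1 - D) / 2) * y) / √(a : ℝ)) = _
    exact mul_div_cancel₀ _ hsa.ne'
  have hy : |(y : ℝ)| ≤ C2 := by
    rw [hC2, le_div_iff₀ hD0]
    have e3 : (y : ℝ) * D = √(a : ℝ) * (L1 m a β (x, y) - L2 m a β (x, y)) := by
      linear_combination e2 - e1
    have e4 : |(y : ℝ)| * D = |(y : ℝ) * D| := by rw [abs_mul, abs_of_pos hD0]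
    rw [e4, e3, abs_mul, abs_of_pos hsa]
    apply mul_le_mul_of_nonneg_left _ hsa.le
    calc |L1 m a β (x, y) - L2 m a β (x, y)| ≤ |L1 m a β (x, y)| + |L2 m a β (x, y)| := abs_sub _ _
      _ ≤ 2 * R := by linarith
  refine ⟨?_, hy⟩
  change |(x : ℝ)| ≤ C1
  rw [hC1, le_div_iff₀ ha]
  have e5 : (x : ℝ) * a = √(a : ℝ) * L1 m a β (x, y) - (β + (1 + D) / 2) * y := by
    linear_combination -e1
  have e6 : |(x : ℝ)| * a = |(x : ℝ) * a| := by rw [abs_mul, abs_of_pos ha]
  rw [e6, e5]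
  calc |√(a : ℝ) * L1 m a β (x, y) - (β + (1 + D) / 2) * y|
      ≤ |√(a : ℝ) * L1 m a β (x, y)| + |(β + (1 + D) / 2) * y| := abs_sub _ _
    _ = √(a : ℝ) * |L1 m a β (x, y)| + |β + (1 + D) / 2| * |(y : ℝ)| := by
        rw [abs_mul, abs_mul, abs_of_pos hsa]
    _ ≤ √(a : ℝ) * R + |β + (1 + D) / 2| * C2 := by
        gcongr

/-- The finite set which contains everything. -/
theorem fin_all (hm : Good m) (hV : Val m a β) (M B : ℝ) :
    {v : ℤ × ℤ | 0 < L1 m a β v * L2 m a β v ∧ L1 m a β v * L2 m a β v ≤ M ∧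
      |Real.log (L1 m a β v / L2 m a β v)| ≤ B}.Finite := by
  apply (fin_box hm hV (√(M * Real.exp B))).subset
  rintro v ⟨h1, h2, h3⟩
  have hne1 : L1 m a β v ≠ 0 := left_ne_zero_of_mul h1.ne'
  have hne2 : L2 m a β v ≠ 0 := right_ne_zero_of_mul h1.ne'
  have hr : 0 < L1 m a β v / L2 m a β v := by
    have : L1 m a β v / L2 m a β v = (L1 m a β v * L2 m a β v) / L2 m a β v ^ 2 := by
      field_simp
    rw [this]
    positivity
  have hr' : 0 < L2 m a β v / L1 m a β v := by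
    rw [← inv_div]
    exact inv_pos.2 hr
  have hu : L1 m a β v / L2 m a β v ≤ Real.exp B := by
    rw [← Real.exp_log hr]
    exact Real.exp_le_exp.2 (abs_le.1 h3).2
  have hl : L2 m a β v / L1 m a β v ≤ Real.exp B := by
    rw [← Real.exp_log hr']
    apply Real.exp_le_exp.2
    rw [← inv_div, Real.log_inv]
    linarith [(abs_le.1 h3).1]
  constructor
  · apply Real.abs_le_sqrt
    calc L1 m a β v ^ 2 = (L1 m a β v * L2 m a β v) * (L1 m a β v / L2 m a β v) := by
          field_simp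
      _ ≤ M * Real.exp B := by
          apply mul_le_mul h2 hu hr.le (h1.le.trans h2)
  · apply Real.abs_le_sqrt
    calc L2 m a β v ^ 2 = (L1 m a β v * L2 m a β v) * (L2 m a β v / L1 m a β v) := by
          field_simp
      _ ≤ M * Real.exp B := by
          apply mul_le_mul h2 hl hr'.le (h1.le.trans h2)

theorem Gf_zero_of_le {x : ℝ} (hx : x ≤ 1 / 2) : Gf x = 0 := by
  unfold Gf
  apply ContDiffBump.zero_of_le_dist
  rw [Real.dist_eq, abs_of_nonpos (by linarith)]
  change (1 / 2 : ℝ) ≤ _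
  linarith

theorem Gf_zero_of_ge {x : ℝ} (hx : 3 / 2 ≤ x) : Gf x = 0 := by
  unfold Gf
  apply ContDiffBump.zero_of_le_dist
  rw [Real.dist_eq, abs_of_nonneg (by linarith)]
  change (1 / 2 : ℝ) ≤ _
  linarith

theorem L1_neg (v : ℤ × ℤ) : L1 m a β (-v) = -L1 m a β v := by
  unfold L1 l1
  simp only [Prod.fst_neg, Prod.snd_neg]
  push_cast
  ring

theorem L2_neg (v : ℤ × ℤ) : L2 m a β (-v) = -L2 m a β v := by
  unfold L2 l2
  simp only [Prod.fst_neg, Prod.snd_neg]
  push_cast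
  ring

theorem frm_neg (v : ℤ × ℤ) : frm m a β (-v) = frm m a β v := by
  unfold frm
  simp only [Prod.fst_neg, Prod.snd_neg]
  ring

end

end ORBS

open ORBS in
open Classical in
theorem orbs : ORBS_Stmt := by
  intro m hm t c hU φ hφ a β hV A hA X hX
  set ℓ := 2 * Real.log ((t + √((t : ℝ) ^ 2 - 4)) / 2) with hℓ
  have hℓlam : ℓ = 2 * Real.log (lam t) := rfl
  have hlam : 1 < lam t := lam_gt hU
  have hlam0 : 0 < lam t := zero_lt_one.trans hlam
  have hℓpos : 0 < ℓ := by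
    rw [hℓlam]
    have := Real.log_pos hlam
    linarith
  obtain ⟨_, hcs, _, hsum⟩ := hφ
  -- the support of the weight
  obtain ⟨B, hB⟩ : ∃ B : ℝ, ∀ s, φ s ≠ 0 → |s| ≤ B := by
    obtain ⟨B, hB⟩ := hcs.isCompact.isBounded.subset_closedBall (0 : ℝ)
    refine ⟨B, fun s hs => ?_⟩
    have := hB (subset_tsupport _ hs)
    simpa using this
  set s : ℤ × ℤ → ℝ := fun v => Real.log (L1 m a β v / L2 m a β v) with hs
  set V : Finset (ℤ × ℤ) := (fin_all hm hV (2 * X) B).toFinset with hVdef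
  have hmemV : ∀ v, v ∈ V ↔ 0 < L1 m a β v * L2 m a β v ∧ L1 m a β v * L2 m a β v ≤ 2 * X ∧
      |s v| ≤ B := by
    intro v
    rw [hVdef, Set.Finite.mem_toFinset]
    rfl
  set E : ℤ × ℤ → ℝ := fun v => if Nat.Coprime (frm m a β v).natAbs (MM m) then
    Gf ((frm m a β v : ℝ) / X) * φ (s v) else 0 with hE
  have hsX : 0 < √X := Real.sqrt_pos.2 hX
  -- the lattice sum
  have hL : Lsum m φ a β X = ∑ v ∈ V.filter fun v => 0 < L1 m a β v, E v := by
    have e1 : ∀ v : ℤ × ℤ, l1 m a β ((v.1 : ℝ) / √X, (v.2 : ℝ) / √X) = L1 m a β v / √X := by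
      intro v
      unfold L1 l1
      simp only
      ring
    have e2 : ∀ v : ℤ × ℤ, l2 m a β ((v.1 : ℝ) / √X, (v.2 : ℝ) / √X) = L2 m a β v / √X := by
      intro v
      unfold L2 l2
      simp only
      ring
    have e3 : ∀ v : ℤ × ℤ, Psi m φ a β ((v.1 : ℝ) / √X, (v.2 : ℝ) / √X)
        = if 0 < L1 m a β v ∧ 0 < L2 m a β v then Gf ((frm m a β v : ℝ) / X) * φ (s v) else 0 := by
      intro v
      unfold Psi
      rw [e1, e2]
      have h1 : (0 < L1 m a β v / √X ∧ 0 < L2 m a β v / √X) ↔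
          (0 < L1 m a β v ∧ 0 < L2 m a β v) := by
        rw [div_pos_iff_of_pos_right hsX, div_pos_iff_of_pos_right hsX]
      have h2 : L1 m a β v / √X * (L2 m a β v / √X) = (frm m a β v : ℝ) / X := by
        rw [div_mul_div_comm, Real.mul_self_sqrt hX.le, L1_mul_L2 hm hV]
      have h3 : L1 m a β v / √X / (L2 m a β v / √X) = L1 m a β v / L2 m a β v :=
        div_div_div_cancel_right₀ hsX.ne' _ _
      simp only [h1, h2, h3]
      rfl
    unfold Lsum
    rw [tsum_eq_sum (s := V.filter fun v => 0 < L1 m a β v)]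
    · refine Finset.sum_congr rfl fun v hv => ?_
      rw [Finset.mem_filter, hmemV] at hv
      have h2 : 0 < L2 m a β v := (pos_iff_pos_of_mul_pos hv.1.1).1 hv.2
      simp only [hE, e3, if_pos (And.intro hv.2 h2)]
    · intro v hv
      by_cases hc : Nat.Coprime (frm m a β v).natAbs (MM m)
      · rw [if_pos hc, e3]
        by_cases hp : 0 < L1 m a β v ∧ 0 < L2 m a β v
        · rw [if_pos hp]
          by_contra hne
          apply hv
          have h1 : φ (s v) ≠ 0 := right_ne_zero_of_mul hne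
          have h2 : Gf ((frm m a β v : ℝ) / X) ≠ 0 := left_ne_zero_of_mul hne
          rw [Finset.mem_filter, hmemV]
          refine ⟨⟨mul_pos hp.1 hp.2, ?_, hB _ h1⟩, hp.1⟩
          rw [L1_mul_L2 hm hV]
          by_contra hgt
          push Not at hgt
          apply h2
          apply Gf_zero_of_ge
          rw [le_div_iff₀ hX]
          linarith
        · rw [if_neg hp]
      · rw [if_neg hc]
  -- symmetry
  have hsym : ∑ v ∈ V, E v = 2 * ∑ v ∈ V.filter fun v => 0 < L1 m a β v, E v := by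
    rw [← Finset.sum_filter_add_sum_filter_not V fun v => 0 < L1 m a β v]
    have : ∑ v ∈ V.filter (fun v => ¬ 0 < L1 m a β v), E v
        = ∑ v ∈ V.filter fun v => 0 < L1 m a β v, E v := by
      have hsneg : ∀ v, s (-v) = s v := by
        intro v
        simp only [hs, L1_neg, L2_neg, neg_div_neg_eq]
      refine Finset.sum_bij' (fun v _ => -v) (fun v _ => -v) ?_ ?_ ?_ ?_ ?_
      · intro v hv
        rw [Finset.mem_filter, hmemV] at hv ⊢
        rw [L1_neg, L2_neg, neg_mul_neg, hsneg]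
        refine ⟨hv.1, ?_⟩
        have hne : L1 m a β v ≠ 0 := left_ne_zero_of_mul hv.1.1.ne'
        have := lt_of_le_of_ne (not_lt.1 hv.2) hne
        linarith
      · intro v hv
        rw [Finset.mem_filter, hmemV] at hv ⊢
        rw [L1_neg, L2_neg, neg_mul_neg, hsneg]
        exact ⟨hv.1, by linarith [hv.2]⟩
      · intro v _
        exact neg_neg v
      · intro v _
        exact neg_neg v
      · intro v _
        simp only [hE, frm_neg, hsneg]
    rw [this]
    ring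
  rw [hL, ← hsym]
  -- the sum over the numbers
  have hN : ∀ N : ℕ, (if Nat.Coprime N (MM m) then (nor A {v | frm m a β v = N} : ℝ) else 0) *
      Gf (N / X) = ∑ v ∈ V.filter fun v => (frm m a β v).natAbs = N, E v := by
    intro N
    have hVN : ∀ v ∈ V.filter (fun v => (frm m a β v).natAbs = N), frm m a β v = N := by
      intro v hv
      rw [Finset.mem_filter, hmemV, L1_mul_L2 hm hV] at hv
      have h1 : 0 < frm m a β v := by exact_mod_cast hv.1.1
      omega
    have hEN : ∑ v ∈ V.filter (fun v => (frm m a β v).natAbs = N), E v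
        = (if Nat.Coprime N (MM m) then 1 else 0) * Gf (N / X) *
          ∑ v ∈ V.filter (fun v => (frm m a β v).natAbs = N), φ (s v) := by
      rw [Finset.mul_sum]
      refine Finset.sum_congr rfl fun v hv => ?_
      have h1 := hVN v hv
      simp only [hE, h1, Int.natAbs_natCast, Int.cast_natCast]
      split_ifs <;> ring
    rw [hEN]
    by_cases hG : Gf ((N : ℝ) / X) = 0
    · rw [hG]
      ring
    have hN0 : 0 < (N : ℝ) := by
      by_contra hle
      apply hG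
      apply Gf_zero_of_le
      have : (N : ℝ) / X ≤ 0 := div_nonpos_of_nonpos_of_nonneg (not_lt.1 hle) hX.le
      linarith
    have hN2 : (N : ℝ) ≤ 2 * X := by
      by_contra hgt
      push Not at hgt
      apply hG
      apply Gf_zero_of_ge
      rw [le_div_iff₀ hX]
      linarith
    have hfrm : ∀ v, frm m a β v = N → L1 m a β v * L2 m a β v = N := by
      intro v hv
      rw [L1_mul_L2 hm hV, hv]
      simp
    have hcount := count (A := A) (ℓ := ℓ) (φ := φ) (s := s) {v | frm m a β v = N}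
      (V.filter fun v => (frm m a β v).natAbs = N) (fun w hw => hVN w hw) ?_ ?_ ?_ hℓpos.ne' hsum
    · rw [hcount]
      split_ifs <;> ring
    · intro w hw hne
      have h1 := hfrm w hw
      rw [Finset.mem_filter, hmemV, h1]
      refine ⟨⟨hN0, hN2, hB _ hne⟩, ?_⟩
      rw [Set.mem_ofPred_eq] at hw
      rw [hw, Int.natAbs_natCast]
    · intro v hv k
      obtain ⟨h1, h2⟩ := L_act_zpow hm hU hV hA k v
      have h3 : ((frm m a β (act (A ^ k) v) : ℤ) : ℝ) = ((N : ℤ) : ℝ) := by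
        rw [← L1_mul_L2 hm hV, h1, h2]
        have h4 := hfrm v hv
        have h5 : lam t ^ k ≠ 0 := (zpow_pos hlam0 k).ne'
        rw [Int.cast_natCast, ← h4]
        field_simp
      exact_mod_cast h3
    · intro v hv k
      obtain ⟨h1, h2⟩ := L_act_zpow hm hU hV hA k v
      have h4 := hfrm v hv
      have h5 : 0 < lam t ^ k := zpow_pos hlam0 k
      have h6 : L1 m a β v ≠ 0 := left_ne_zero_of_mul (h4 ▸ hN0.ne')
      have h7 : L2 m a β v ≠ 0 := right_ne_zero_of_mul (h4 ▸ hN0.ne')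
      simp only [hs]
      rw [h1, h2]
      have h8 : lam t ^ k * L1 m a β v / ((lam t ^ k)⁻¹ * L2 m a β v)
          = (lam t ^ k * lam t ^ k) * (L1 m a β v / L2 m a β v) := by
        field_simp
      rw [h8, Real.log_mul (mul_pos h5 h5).ne' (div_ne_zero h6 h7), Real.log_mul h5.ne' h5.ne',
        Real.log_zpow, hℓlam]
      ring
  simp only [hN]
  have hmaps : ∀ v ∈ V, (frm m a β v).natAbs ∈ Finset.range (⌈2 * X⌉₊ + 1) := by
    intro v hv
    rw [hmemV, L1_mul_L2 hm hV] at hv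
    rw [Finset.mem_range]
    have h1 : 0 < frm m a β v := by exact_mod_cast hv.1
    have h2 : (((frm m a β v).natAbs : ℕ) : ℝ) ≤ 2 * X := by
      have : (((frm m a β v).natAbs : ℤ) : ℝ) = ((frm m a β v : ℤ) : ℝ) := by
        rw [Int.natAbs_of_nonneg h1.le]
      rw [Int.cast_natCast] at this
      rw [this]
      exact hv.2.1
    have h3 : (((frm m a β v).natAbs : ℕ) : ℝ) ≤ (⌈2 * X⌉₊ : ℝ) := h2.trans (Nat.le_ceil _)
    have h4 : (frm m a β v).natAbs ≤ ⌈2 * X⌉₊ := by exact_mod_cast h3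
    omega
  rw [tsum_eq_sum (s := Finset.range (⌈2 * X⌉₊ + 1))]
  · exact Finset.sum_fiberwise_of_maps_to hmaps E
  · intro N hNr
    apply Finset.sum_eq_zero
    intro v hv
    exfalso
    rw [Finset.mem_filter] at hv
    apply hNr
    rw [← hv.2]
    exact hmaps v hv.1

end Pool.Agent.C3A
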