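import Pool.Agent.C3A.Stmts

/-!
C3A_PHI: smooth partitions of unity of every period.
-/

open scoped BigOperators Real MatrixGroups ContDiff Topology
open Filter

noncomputable section

namespace Pool.Agent.C3A

namespace PHI

/-- The elementary bump. -/
def th (x : ℝ) : ℝ := Real.smoothTransition (x + 1) - Real.smoothTransition x

theorem th_smooth : ContDiff ℝ ∞ th := by
  unfold th
  exact (Real.smoothTransition.contDiff.comp (contDiff_id.add contDiff_const)).sub
    Real.smoothTransition.contDiff

theorem th_left {x : ℝ} (h : x ≤ -1) : th x = 0 := by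
  unfold th
  rw [Real.smoothTransition.zero_of_nonpos (by linarith : x + 1 ≤ 0),
    Real.smoothTransition.zero_of_nonpos (by linarith : x ≤ 0), sub_zero]

theorem th_right {x : ℝ} (h : 1 ≤ x) : th x = 0 := by
  unfold th
  rw [Real.smoothTransition.one_of_one_le (by linarith : 1 ≤ x + 1),
    Real.smoothTransition.one_of_one_le h, sub_self]

theorem th_nonneg (x : ℝ) : 0 ≤ th x := by
  unfold th
  rcases le_total x 0 with h | h
  · rw [Real.smoothTransition.zero_of_nonpos h, sub_zero]
    exact Real.smoothTransition.nonneg _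
  · rw [Real.smoothTransition.one_of_one_le (by linarith : 1 ≤ x + 1)]
    linarith [Real.smoothTransition.le_one x]

theorem th_two {f : ℝ} (h0 : 0 ≤ f) (h1 : f < 1) : th (f - 1) + th f = 1 := by
  unfold th
  rw [show f - 1 + 1 = f by ring, Real.smoothTransition.zero_of_nonpos (by linarith : f - 1 ≤ 0),
    Real.smoothTransition.one_of_one_le (by linarith : 1 ≤ f + 1)]
  ring

theorem th_sum (x : ℝ) : HasSum (fun k : ℤ => th (x + k)) 1 := by
  have hx : x = ⌊x⌋ + Int.fract x := (Int.floor_add_fract x).symm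
  have h0 := Int.fract_nonneg x
  have h1 := Int.fract_lt_one x
  have key : HasSum (fun k : ℤ => th (x + k)) (∑ k ∈ ({-⌊x⌋ - 1, -⌊x⌋} : Finset ℤ), th (x + k)) := by
    apply hasSum_sum_of_ne_finset_zero
    intro k hk
    simp only [Finset.mem_insert, Finset.mem_singleton, not_or] at hk
    rcases lt_or_gt_of_ne hk.1 with h | h
    · apply th_left
      have h2 : k ≤ -⌊x⌋ - 2 := by omega
      have h3 : (k : ℝ) ≤ -(⌊x⌋ : ℝ) - 2 := by exact_mod_cast h2
      linarith
    · apply th_right
      have h2 : -⌊x⌋ + 1 ≤ k := by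
        have := hk.2
        omega
      have h3 : -(⌊x⌋ : ℝ) + 1 ≤ (k : ℝ) := by exact_mod_cast h2
      linarith
  rw [Finset.sum_pair (by omega)] at key
  have e1 : x + ((-⌊x⌋ - 1 : ℤ) : ℝ) = Int.fract x - 1 := by
    push_cast
    linarith
  have e2 : x + ((-⌊x⌋ : ℤ) : ℝ) = Int.fract x := by
    push_cast
    linarith
  rw [e1, e2, th_two h0 h1] at key
  exact key

end PHI

/-- PHI: partitions of unity. -/
theorem phi : PHI_Stmt := by
  intro ℓ hℓ
  refine ⟨fun s => PHI.th (s / ℓ), ?_, ?_, fun s => PHI.th_nonneg _, fun s => ?_⟩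
  · exact PHI.th_smooth.comp (contDiff_id.div_const ℓ)
  · apply HasCompactSupport.intro (isCompact_Icc : IsCompact (Set.Icc (-ℓ) ℓ))
    intro s hs
    rw [Set.mem_Icc, not_and_or, not_le, not_le] at hs
    rcases hs with h | h
    · apply PHI.th_left
      rw [div_le_iff₀ hℓ]
      linarith
    · apply PHI.th_right
      rw [le_div_iff₀ hℓ]
      linarith
  · have h := PHI.th_sum (s / ℓ)
    have e : (fun k : ℤ => PHI.th ((s + k * ℓ) / ℓ)) = fun k : ℤ => PHI.th (s / ℓ + k) := by
      funext k
      congr 1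
      field_simp
    rw [e]
    exact h

end Pool.Agent.C3A
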