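import Pool.Agent.C3A.Stmts

/-!
Closed 3-braids, arithmetic half, module PRM: the sums over primitive ideals at prime powers.
-/

open scoped BigOperators

noncomputable section

namespace Pool.Agent.C3A

namespace PRM

variable {m : ℤ}

theorem fm_sub (m x y : ℤ) : fm m x - fm m y = (x - y) * (x + y + 1) := by
  unfold fm
  ring

theorem fm_neg (m x : ℤ) : fm m (-1 - x) = fm m x := by
  unfold fm
  ring

theorem fm_four (m x : ℤ) : (2 * x + 1) ^ 2 = 4 * fm m x + (1 + 4 * m) := by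
  unfold fm
  ring

theorem dvd_fm_iff {m a x y : ℤ} (h : a ∣ x - y) : a ∣ fm m x ↔ a ∣ fm m y := by
  have h1 : a ∣ fm m x - fm m y := by
    rw [fm_sub]
    exact Dvd.dvd.mul_right h _
  exact (dvd_iff_dvd_of_dvd_sub h1)

theorem not_dvd {p : ℕ} (hp : p.Prime) (hcop : Nat.Coprime p (MM m)) {b : ℤ}
    (hb : (p : ℤ) ∣ fm m b) : ¬ (p : ℤ) ∣ 2 * b + 1 := by
  intro h
  have h1 : (p : ℤ) ∣ 1 + 4 * m := by
    have h2 : (p : ℤ) ∣ (2 * b + 1) ^ 2 := Dvd.dvd.mul_left h _ |>.trans (by rw [sq])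
    rw [fm_four m b] at h2
    exact (Int.dvd_add_right (Dvd.dvd.mul_left hb 4)).mp h2
  have h3 : p ∣ MM m := by
    unfold MM
    exact Dvd.dvd.mul_left (Int.natCast_dvd.mp h1) 2
  exact (hp.coprime_iff_not_dvd.mp hcop) h3

/-- uniqueness of the lift -/
theorem uniq {p : ℕ} (hp : p.Prime) (hcop : Nat.Coprime p (MM m)) {b : ℤ}
    (hb : (p : ℤ) ∣ fm m b) {n : ℕ} {x y : ℤ} (hx : ((p : ℤ) ^ n) ∣ fm m x)
    (hy : ((p : ℤ) ^ n) ∣ fm m y) (hxb : (p : ℤ) ∣ x - b) (hyb : (p : ℤ) ∣ y - b) :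
    ((p : ℤ) ^ n) ∣ x - y := by
  have h1 : ((p : ℤ) ^ n) ∣ (x - y) * (x + y + 1) := by
    rw [← fm_sub m]
    exact dvd_sub hx hy
  have h2 : IsCoprime ((p : ℤ) ^ n) (x + y + 1) := by
    apply IsCoprime.pow_left
    rw [(Nat.prime_iff_prime_int.mp hp).coprime_iff_not_dvd]
    intro h3
    apply not_dvd hp hcop hb
    have h4 : 2 * b + 1 = (x + y + 1) - (x - b) - (y - b) := by ring
    rw [h4]
    exact dvd_sub (dvd_sub h3 hxb) hyb
  exact h2.dvd_of_dvd_mul_right h1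

/-- existence of the lift -/
theorem lift {p : ℕ} (hp : p.Prime) (hcop : Nat.Coprime p (MM m)) {b : ℤ}
    (hb : (p : ℤ) ∣ fm m b) (k : ℕ) :
    ∃ x : ℤ, ((p : ℤ) ^ (k + 1)) ∣ fm m x ∧ (p : ℤ) ∣ x - b := by
  induction k with
  | zero => exact ⟨b, by simpa using hb, by simp⟩
  | succ k ih =>
    obtain ⟨x, ⟨c, hc⟩, hxb⟩ := ih
    have h1 : IsCoprime (p : ℤ) (2 * x + 1) := by
      rw [(Nat.prime_iff_prime_int.mp hp).coprime_iff_not_dvd]
      intro h3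
      apply not_dvd hp hcop hb
      have h4 : 2 * b + 1 = (2 * x + 1) - 2 * (x - b) := by ring
      rw [h4]
      exact dvd_sub h3 (Dvd.dvd.mul_left hxb 2)
    obtain ⟨u, v, huv⟩ := h1
    refine ⟨x - c * v * (p : ℤ) ^ (k + 1), ?_, ?_⟩
    · have e1 : fm m (x - c * v * (p : ℤ) ^ (k + 1)) =
          fm m x - (c * v * (2 * x + 1)) * (p : ℤ) ^ (k + 1)
            + (c * v) ^ 2 * ((p : ℤ) ^ (k + 1) * (p : ℤ) ^ (k + 1)) := by
        unfold fm
        ring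
      have e2 : v * (2 * x + 1) = 1 - u * p := by linarith
      have e3 : c * v * (2 * x + 1) = c - c * u * p := by
        rw [mul_assoc, e2]
        ring
      rw [e1, e3, hc]
      have e4 : (p : ℤ) ^ (k + 1) * c - (c - c * u * p) * (p : ℤ) ^ (k + 1)
          + (c * v) ^ 2 * ((p : ℤ) ^ (k + 1) * (p : ℤ) ^ (k + 1)) =
          (p : ℤ) ^ (k + 1 + 1) * (c * u + (c * v) ^ 2 * (p : ℤ) ^ k) := by
        ring
      rw [e4]
      exact dvd_mul_right _ _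
    · have e1 : x - c * v * (p : ℤ) ^ (k + 1) - b = (x - b) - (p : ℤ) * (c * v * (p : ℤ) ^ k) := by
        ring
      rw [e1]
      exact dvd_sub hxb (dvd_mul_right _ _)

theorem cl_congr (D : CD m) {a : ℕ} {x y : ℤ} (hx : Val m a x) (h : (a : ℤ) ∣ y - x) :
    D.cl a y = D.cl a x := by
  obtain ⟨k, hk⟩ := h
  have e : y = x + a * k := by linarith
  rw [e]
  exact D.per a x k hx

theorem cl_pow (D : CD m) {p : ℕ} (hp : p.Prime) (hcop : Nat.Coprime p (MM m)) (k : ℕ) (x : ℤ)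
    (hx : ((p : ℤ) ^ (k + 1)) ∣ fm m x) : D.cl (p ^ (k + 1)) x = D.cl p x ^ (k + 1) := by
  induction k with
  | zero => simp
  | succ k ih =>
    have h1 : ((p : ℤ) ^ (k + 1)) ∣ fm m x := dvd_trans (pow_dvd_pow _ (by omega)) hx
    have hv : Val m (p ^ (k + 1) * p) x := by
      refine ⟨by positivity [hp.pos], ?_, ?_⟩
      · rw [← pow_succ]
        exact Nat.Coprime.pow_left _ hcop
      · push_cast
        rw [← pow_succ]
        exact hx
    rw [pow_succ p (k + 1), D.mul _ _ _ hv, ih h1, ← pow_succ]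

theorem toNat_emod {a : ℕ} (ha : 0 < a) (x : ℤ) :
    (((x % (a : ℤ)).toNat : ℕ) : ℤ) = x % (a : ℤ) :=
  Int.toNat_of_nonneg (Int.emod_nonneg _ (by exact_mod_cast ha.ne'))

theorem emod_dvd (a x : ℤ) : a ∣ x % a - x := by
  have := Int.emod_add_mul_ediv x a
  exact ⟨-(x / a), by linarith⟩

theorem emod_dvd' (a x : ℤ) : a ∣ x - x % a := by
  have := Int.emod_add_mul_ediv x a
  exact ⟨x / a, by linarith⟩

theorem eq_of_dvd {a y z : ℕ} (hy : y < a) (hz : z < a) (h : (a : ℤ) ∣ (y : ℤ) - z) : y = z := by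
  have h1 : (y : ℤ) ≡ z [ZMOD a] := (Int.modEq_iff_dvd.mpr (by
    have := dvd_neg.mpr h
    rwa [neg_sub] at this))
  have h2 : y ≡ z [MOD a] := (Int.natCast_modEq_iff).mp h1
  have h3 := h2
  unfold Nat.ModEq at h3
  rwa [Nat.mod_eq_of_lt hy, Nat.mod_eq_of_lt hz] at h3

/-- the roots modulo a prime power -/
theorem bs_eq {p : ℕ} (hp : p.Prime) (hcop : Nat.Coprime p (MM m)) {b : ℤ}
    (hb : (p : ℤ) ∣ fm m b) {k : ℕ} {x : ℤ} (hx : ((p : ℤ) ^ (k + 1)) ∣ fm m x)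
    (hxb : (p : ℤ) ∣ x - b) :
    bs m (p ^ (k + 1)) = {(x % ((p ^ (k + 1) : ℕ) : ℤ)).toNat,
      ((-1 - x) % ((p ^ (k + 1) : ℕ) : ℤ)).toNat} := by
  have hpos : 0 < p ^ (k + 1) := pow_pos hp.pos _
  have hcast : ((p ^ (k + 1) : ℕ) : ℤ) = (p : ℤ) ^ (k + 1) := by push_cast; ring
  have hpp : (p : ℤ) ∣ ((p ^ (k + 1) : ℕ) : ℤ) := by
    rw [hcast, pow_succ']
    exact dvd_mul_right _ _
  have hlt : ∀ z : ℤ, (z % ((p ^ (k + 1) : ℕ) : ℤ)).toNat < p ^ (k + 1) := by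
    intro z
    have h1 := Int.emod_lt_of_pos z (by exact_mod_cast hpos : (0 : ℤ) < ((p ^ (k + 1) : ℕ) : ℤ))
    have h2 := toNat_emod hpos z
    have h3 : (((z % ((p ^ (k + 1) : ℕ) : ℤ)).toNat : ℕ) : ℤ) < ((p ^ (k + 1) : ℕ) : ℤ) := by
      rw [h2]
      exact h1
    exact_mod_cast h3
  have hx' : ((p ^ (k + 1) : ℕ) : ℤ) ∣ fm m x := by rw [hcast]; exact hx
  ext y
  rw [bs, Finset.mem_filter, Finset.mem_range, Finset.mem_insert, Finset.mem_singleton]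
  constructor
  · rintro ⟨hy, hy'⟩
    have hyp : (p : ℤ) ∣ fm m y := dvd_trans hpp hy'
    have h1 : (p : ℤ) ∣ ((y : ℤ) - b) * (y + b + 1) := by
      rw [← fm_sub m]
      exact dvd_sub hyp hb
    rcases (Nat.prime_iff_prime_int.mp hp).dvd_or_dvd h1 with h2 | h2
    · left
      have h3 := uniq hp hcop hb (n := k + 1) (by rw [← hcast]; exact hy') hx h2 hxb
      apply eq_of_dvd hy (hlt x)
      rw [toNat_emod hpos]
      have h4 : (y : ℤ) - x % ((p ^ (k + 1) : ℕ) : ℤ) =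
          ((y : ℤ) - x) + (x - x % ((p ^ (k + 1) : ℕ) : ℤ)) := by ring
      rw [h4]
      exact dvd_add (by rw [hcast]; exact h3) (emod_dvd' _ _)
    · right
      have h5 : (p : ℤ) ∣ (-1 - (y : ℤ)) - b := by
        have : (-1 - (y : ℤ)) - b = -((y : ℤ) + b + 1) := by ring
        rw [this]
        exact dvd_neg.mpr h2
      have h3 := uniq hp hcop hb (n := k + 1) (x := -1 - (y : ℤ)) (y := x)
        (by rw [fm_neg, ← hcast]; exact hy') hx h5 hxb
      apply eq_of_dvd hy (hlt _)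
      rw [toNat_emod hpos]
      have h4 : (y : ℤ) - (-1 - x) % ((p ^ (k + 1) : ℕ) : ℤ) =
          -((-1 - (y : ℤ)) - x) + ((-1 - x) - (-1 - x) % ((p ^ (k + 1) : ℕ) : ℤ)) := by ring
      rw [h4]
      exact dvd_add (dvd_neg.mpr (by rw [hcast]; exact h3)) (emod_dvd' _ _)
  · rintro (rfl | rfl)
    · refine ⟨hlt _, ?_⟩
      rw [toNat_emod hpos]
      exact (dvd_fm_iff (emod_dvd _ _)).mpr hx'
    · refine ⟨hlt _, ?_⟩
      rw [toNat_emod hpos]
      rw [dvd_fm_iff (emod_dvd _ _), fm_neg]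
      exact hx'

end PRM

open PRM in
theorem prm : PRM_Stmt := by
  intro m _ D p hp hcop
  by_cases hroot : ∃ b : ℤ, (p : ℤ) ∣ fm m b
  · right
    obtain ⟨b, hb⟩ := hroot
    refine ⟨D.cl p b, ?_⟩
    intro χ k
    obtain ⟨x, hx, hxb⟩ := lift hp hcop hb k
    have hpos : 0 < p ^ (k + 1) := pow_pos hp.pos _
    have hcast : ((p ^ (k + 1) : ℕ) : ℤ) = (p : ℤ) ^ (k + 1) := by push_cast; ring
    have hcopk : Nat.Coprime (p ^ (k + 1)) (MM m) := Nat.Coprime.pow_left _ hcop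
    have hvx : Val m (p ^ (k + 1)) x := ⟨hpos, hcopk, by rw [hcast]; exact hx⟩
    have hvx' : Val m (p ^ (k + 1)) (-1 - x) := ⟨hpos, hcopk, by rw [hcast, fm_neg]; exact hx⟩
    have hvb : Val m p b := ⟨hp.pos, hcop, hb⟩
    have hne : (x % ((p ^ (k + 1) : ℕ) : ℤ)).toNat ≠
        ((-1 - x) % ((p ^ (k + 1) : ℕ) : ℤ)).toNat := by
      intro h
      have h1 : x % ((p ^ (k + 1) : ℕ) : ℤ) = (-1 - x) % ((p ^ (k + 1) : ℕ) : ℤ) := by
        rw [← toNat_emod hpos x, ← toNat_emod hpos (-1 - x), h]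
      have h2 : ((p ^ (k + 1) : ℕ) : ℤ) ∣ x - (-1 - x) := by
        have h3 := dvd_add (emod_dvd' ((p ^ (k + 1) : ℕ) : ℤ) x)
          (emod_dvd ((p ^ (k + 1) : ℕ) : ℤ) (-1 - x))
        rw [h1] at h3
        have h4 : x - (-1 - x) % ((p ^ (k + 1) : ℕ) : ℤ) +
          ((-1 - x) % ((p ^ (k + 1) : ℕ) : ℤ) - (-1 - x)) = x - (-1 - x) := by ring
        rwa [h4] at h3
      have hpp : (p : ℤ) ∣ ((p ^ (k + 1) : ℕ) : ℤ) := by
        rw [hcast, pow_succ']
        exact dvd_mul_right _ _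
      have hxp : (p : ℤ) ∣ fm m x := dvd_trans hpp (by rw [hcast]; exact hx)
      apply not_dvd hp hcop hxp
      have h5 : 2 * x + 1 = x - (-1 - x) := by ring
      rw [h5]
      exact dvd_trans hpp h2
    have hclx : D.cl (p ^ (k + 1)) x = D.cl p b ^ (k + 1) := by
      rw [cl_pow D hp hcop k x hx, cl_congr D hvb hxb]
    rw [bc, if_pos hcopk, bs_eq hp hcop hb hx hxb, Finset.sum_pair hne]
    rw [toNat_emod hpos, toNat_emod hpos, cl_congr D hvx (emod_dvd _ _),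
      cl_congr D hvx' (emod_dvd _ _), D.inv _ _ hvx, hclx, map_inv, map_pow]
    push_cast
    rw [inv_pow]
  · left
    intro χ k
    have hcopk : Nat.Coprime (p ^ (k + 1)) (MM m) := Nat.Coprime.pow_left _ hcop
    rw [bc, if_pos hcopk]
    apply Finset.sum_eq_zero
    intro β hβ
    exfalso
    apply hroot
    rw [bs, Finset.mem_filter] at hβ
    refine ⟨β, dvd_trans ?_ hβ.2⟩
    push_cast
    rw [pow_succ']
    exact dvd_mul_right _ _

end Pool.Agent.C3A
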