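import Pool.Agent.C3A.Stmts

/-!
The weight `Psi` is smooth with compact support.
-/

open scoped BigOperators Real MatrixGroups ContDiff Topology
open Set Filter

noncomputable section

namespace Pool.Agent.C3A

namespace PSI

lemma Gf_contDiff : ContDiff ℝ ∞ Gf := by
  unfold Gf
  exact ContDiffBump.contDiff _

lemma Gf_supp {x : ℝ} (hx : Gf x ≠ 0) : 1 / 2 < x ∧ x < 3 / 2 := by
  by_contra hcon
  apply hx
  unfold Gf
  apply ContDiffBump.zero_of_le_dist
  show (1 / 2 : ℝ) ≤ dist x 1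
  rw [Real.dist_eq]
  by_contra h1
  rw [not_le, abs_lt] at h1
  exact hcon ⟨by linarith, by linarith⟩

open Classical in
/-- the weight in the coordinates `l1`, `l2` -/
def Phi (φ : ℝ → ℝ) (w : ℝ × ℝ) : ℝ :=
  if 0 < w.1 ∧ 0 < w.2 then Gf (w.1 * w.2) * φ (Real.log (w.1 / w.2)) else 0

lemma Phi_supp {φ : ℝ → ℝ} (hc : HasCompactSupport φ) :
    ∃ c C : ℝ, 0 < c ∧ ∀ w, Phi φ w ≠ 0 → w ∈ Icc c C ×ˢ Icc c C := by
  obtain ⟨R, hR⟩ := hc.isCompact.isBounded.subset_closedBall (0 : ℝ)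
  refine ⟨√(1 / 2 * Real.exp (-R)), √(3 / 2 * Real.exp R), Real.sqrt_pos.2 (by positivity),
    fun w hw => ?_⟩
  unfold Phi at hw
  split_ifs at hw with h0
  · obtain ⟨hx, hy⟩ := h0
    obtain ⟨g1, g2⟩ := Gf_supp (left_ne_zero_of_mul hw)
    have h1 := hR (subset_tsupport φ (right_ne_zero_of_mul hw))
    rw [mem_closedBall_zero_iff, Real.norm_eq_abs, abs_le] at h1
    obtain ⟨l1, l2⟩ := h1
    have hq : 0 < w.1 / w.2 := div_pos hx hy
    have q1 : Real.exp (-R) ≤ w.1 / w.2 := by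
      rw [← Real.exp_log hq]; exact Real.exp_le_exp.2 l1
    have q2 : w.1 / w.2 ≤ Real.exp R := by
      rw [← Real.exp_log hq]; exact Real.exp_le_exp.2 l2
    have q3 : w.2 / w.1 ≤ Real.exp R := by
      have e1 : w.2 / w.1 = (w.1 / w.2)⁻¹ := by rw [inv_div]
      have e2 : Real.exp R = (Real.exp (-R))⁻¹ := by rw [Real.exp_neg, inv_inv]
      rw [e1, e2]
      exact inv_anti₀ (Real.exp_pos _) q1
    have q4 : Real.exp (-R) ≤ w.2 / w.1 := by
      have e1 : w.2 / w.1 = (w.1 / w.2)⁻¹ := by rw [inv_div]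
      rw [e1, Real.exp_neg]
      exact inv_anti₀ hq q2
    have s1 : w.1 ^ 2 = (w.1 * w.2) * (w.1 / w.2) := by field_simp
    have s2 : w.2 ^ 2 = (w.1 * w.2) * (w.2 / w.1) := by field_simp
    have hE := Real.exp_pos (-R)
    have hE' := Real.exp_pos R
    refine ⟨⟨?_, ?_⟩, ⟨?_, ?_⟩⟩
    · rw [Real.sqrt_le_left hx.le, s1]
      exact mul_le_mul g1.le q1 hE.le (by linarith)
    · refine Real.le_sqrt_of_sq_le ?_
      rw [s1]
      exact mul_le_mul g2.le q2 hq.le (by norm_num)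
    · rw [Real.sqrt_le_left hy.le, s2]
      exact mul_le_mul g1.le q4 hE.le (by linarith)
    · refine Real.le_sqrt_of_sq_le ?_
      rw [s2]
      exact mul_le_mul g2.le q3 (div_pos hy hx).le (by norm_num)
  · exact absurd rfl hw

lemma Phi_contDiff {φ : ℝ → ℝ} (hs : ContDiff ℝ ∞ φ) (hc : HasCompactSupport φ) :
    ContDiff ℝ ∞ (Phi φ) := by
  obtain ⟨c, C, hc0, hK⟩ := Phi_supp hc
  rw [contDiff_iff_contDiffAt]
  intro w
  by_cases hw : 0 < w.1 ∧ 0 < w.2
  · have ho : IsOpen {w : ℝ × ℝ | 0 < w.1 ∧ 0 < w.2} :=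
      (isOpen_lt continuous_const continuous_fst).inter
        (isOpen_lt continuous_const continuous_snd)
    have he : Phi φ =ᶠ[𝓝 w] fun w => Gf (w.1 * w.2) * φ (Real.log (w.1 / w.2)) := by
      filter_upwards [ho.mem_nhds hw] with v hv
      unfold Phi
      rw [if_pos hv]
    refine ContDiffAt.congr_of_eventuallyEq ?_ he
    have h1 : ContDiffAt ℝ ∞ (fun w : ℝ × ℝ => w.1 / w.2) w :=
      contDiffAt_fst.div contDiffAt_snd hw.2.ne'
    have h2 : ContDiffAt ℝ ∞ (fun w : ℝ × ℝ => Real.log (w.1 / w.2)) w :=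
      h1.log (div_pos hw.1 hw.2).ne'
    exact (Gf_contDiff.contDiffAt.comp w (contDiffAt_fst.mul contDiffAt_snd)).mul
      (hs.contDiffAt.comp w h2)
  · have hw' : w ∉ Icc c C ×ˢ Icc c C := by
      rintro ⟨⟨h1, -⟩, ⟨h2, -⟩⟩
      exact hw ⟨hc0.trans_le h1, hc0.trans_le h2⟩
    have ho : IsOpen (Icc c C ×ˢ Icc c C)ᶜ := (isClosed_Icc.prod isClosed_Icc).isOpen_compl
    have he : Phi φ =ᶠ[𝓝 w] fun _ => 0 := by
      filter_upwards [ho.mem_nhds hw'] with v hv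
      by_contra hne
      exact hv (hK v hne)
    exact contDiffAt_const.congr_of_eventuallyEq he

variable (m : ℤ) (a : ℕ) (β : ℤ)

lemma l1_contDiff : ContDiff ℝ ∞ (l1 m a β) := by
  unfold l1
  exact ((contDiff_const.mul contDiff_fst).add (contDiff_const.mul contDiff_snd)).div_const _

lemma l2_contDiff : ContDiff ℝ ∞ (l2 m a β) := by
  unfold l2
  exact ((contDiff_const.mul contDiff_fst).add (contDiff_const.mul contDiff_snd)).div_const _

lemma Psi_eq (φ : ℝ → ℝ) : Psi m φ a β = fun u => Phi φ (l1 m a β u, l2 m a β u) := by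
  funext u
  unfold Psi Phi
  rfl

/-- the inverse of `(l1, l2)` -/
def Sinv (w : ℝ × ℝ) : ℝ × ℝ :=
  ((√a * w.1 - (β + (1 + √(1 + 4 * m)) / 2) * ((w.1 - w.2) * √a / √(1 + 4 * m))) / a,
    (w.1 - w.2) * √a / √(1 + 4 * m))

lemma Sinv_cont : Continuous (Sinv m a β) := by
  unfold Sinv
  have h2 : Continuous fun w : ℝ × ℝ => (w.1 - w.2) * √(a : ℝ) / √(1 + 4 * (m : ℝ)) :=
    ((continuous_fst.sub continuous_snd).mul continuous_const).div_const _
  exact (((continuous_const.mul continuous_fst).sub (continuous_const.mul h2)).div_const _).prodMk h2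

lemma Sinv_eq {m : ℤ} {a : ℕ} (β : ℤ) (hm : 0 < m) (ha : 0 < a) (u : ℝ × ℝ) :
    Sinv m a β (l1 m a β u, l2 m a β u) = u := by
  have ha0 : (0 : ℝ) < a := by exact_mod_cast ha
  have hm0 : (0 : ℝ) < m := by exact_mod_cast hm
  have hsa : 0 < √(a : ℝ) := Real.sqrt_pos.2 ha0
  have hD : 0 < √(1 + 4 * (m : ℝ)) := Real.sqrt_pos.2 (by positivity)
  have e2 : (l1 m a β u - l2 m a β u) * √(a : ℝ) / √(1 + 4 * (m : ℝ)) = u.2 := by
    unfold l1 l2
    field_simp
    ring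
  unfold Sinv
  simp only
  rw [e2]
  refine Prod.ext ?_ rfl
  show (√(a : ℝ) * l1 m a β u - (β + (1 + √(1 + 4 * (m : ℝ))) / 2) * u.2) / a = u.1
  have e1 : √(a : ℝ) * l1 m a β u = a * u.1 + (β + (1 + √(1 + 4 * (m : ℝ))) / 2) * u.2 := by
    unfold l1
    field_simp
  rw [e1]
  field_simp
  ring

end PSI

open PSI in
theorem psi : PSI_Stmt := by
  intro m hm ℓ φ hφ a β hV
  obtain ⟨hs, hc, -, -⟩ := hφ
  rw [Psi_eq]
  refine ⟨(Phi_contDiff hs hc).comp ((l1_contDiff m a β).prodMk (l2_contDiff m a β)), ?_⟩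
  obtain ⟨c, C, -, hK⟩ := Phi_supp hc
  have hcomp : IsCompact (Sinv m a β '' (Icc c C ×ˢ Icc c C)) :=
    (isCompact_Icc.prod isCompact_Icc).image (Sinv_cont m a β)
  refine HasCompactSupport.of_support_subset_isCompact hcomp fun u hu => ?_
  exact ⟨_, hK _ hu, Sinv_eq β hm.1 hV.1 u⟩

end Pool.Agent.C3A
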