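import Pool.Agent.C3A.Stmts

/-!
Closed 3-braids, arithmetic half. RCM: `rc` is multiplicative, and its values at prime powers.
-/

open scoped BigOperators

noncomputable section

namespace Pool.Agent.C3A

namespace RCM

lemma MM_ne_one (m : ℤ) : MM m ≠ 1 := by
  unfold MM
  omega

lemma not_coprime_zero (m : ℤ) : ¬ Nat.Coprime 0 (MM m) := by
  rw [Nat.coprime_zero_left]
  exact MM_ne_one m

lemma isSquare_prime_pow {p : ℕ} (hp : p.Prime) (n : ℕ) : IsSquare (p ^ n) ↔ Even n := by
  constructor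
  · rintro ⟨r, hr⟩
    have hr0 : r ≠ 0 := by
      rintro rfl
      have := pow_pos hp.pos n
      omega
    have h := congrArg (fun t => t.factorization p) hr
    simp only [hp.factorization_pow, Nat.factorization_mul hr0 hr0, Finsupp.add_apply,
      Finsupp.single_eq_same] at h
    exact ⟨_, h⟩
  · rintro ⟨r, rfl⟩
    exact ⟨p ^ r, pow_add _ _ _⟩

lemma isSquare_mul_iff {a b : ℕ} (h : Nat.Coprime a b) :
    IsSquare (a * b) ↔ IsSquare a ∧ IsSquare b := by
  constructor
  · rintro ⟨r, hr⟩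
    rw [← sq] at hr
    constructor
    · obtain ⟨c, hc⟩ := exists_associated_pow_of_mul_eq_pow
        (Nat.isUnit_iff.mpr h) hr
      exact ⟨c, by rw [← sq]; exact (associated_iff_eq.mp hc).symm⟩
    · rw [mul_comm] at hr
      obtain ⟨c, hc⟩ := exists_associated_pow_of_mul_eq_pow
        (Nat.isUnit_iff.mpr h.symm) hr
      exact ⟨c, by rw [← sq]; exact (associated_iff_eq.mp hc).symm⟩
  · rintro ⟨h1, h2⟩
    exact h1.mul h2

variable {m : ℤ}

/-- the function `bc` as an arithmetic function -/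
def bA (D : CD m) (χ : D.G →* ℂˣ) : ArithmeticFunction ℂ :=
  ⟨bc D χ, by
    unfold bc
    rw [if_neg (not_coprime_zero m)]⟩

open Classical in
/-- the indicator of the nonzero squares -/
def sA : ArithmeticFunction ℂ := ⟨fun n => if n = 0 then 0 else if IsSquare n then 1 else 0, by simp⟩

lemma sA_apply {n : ℕ} (hn : n ≠ 0) [Decidable (IsSquare n)] :
    sA n = if IsSquare n then 1 else 0 := by
  show (if n = 0 then (0 : ℂ) else _) = _
  rw [if_neg hn]
  congr

lemma sA_mult : sA.IsMultiplicative := by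
  classical
  rw [ArithmeticFunction.IsMultiplicative.iff_ne_zero]
  refine ⟨?_, fun {a b} ha hb h => ?_⟩
  · rw [sA_apply one_ne_zero, if_pos ⟨1, rfl⟩]
  · rw [sA_apply ha, sA_apply hb, sA_apply (mul_ne_zero ha hb)]
    by_cases h1 : IsSquare a <;> by_cases h2 : IsSquare b <;>
      simp [isSquare_mul_iff h, h1, h2]

lemma bA_mult (h1 : BCM_Stmt) (hm : Good m) (D : CD m) (χ : D.G →* ℂˣ) :
    (bA D χ).IsMultiplicative :=
  ⟨(h1 m hm D χ).1, fun {a b} h => (h1 m hm D χ).2 a b h⟩

lemma conv_eq (D : CD m) (χ : D.G →* ℂˣ) {N : ℕ} (hN : Nat.Coprime N (MM m)) :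
    (bA D χ * sA) N = rc D χ N := by
  classical
  have hN0 : N ≠ 0 := by
    rintro rfl
    exact not_coprime_zero m hN
  rw [ArithmeticFunction.mul_apply, Nat.sum_divisorsAntidiagonal (fun a b => bA D χ a * sA b)]
  unfold rc sqd
  rw [if_pos hN, Finset.sum_filter]
  refine Finset.sum_congr rfl fun a ha => ?_
  have hd := Nat.dvd_of_mem_divisors ha
  have h0 : N / a ≠ 0 := by
    rw [Nat.div_ne_zero_iff]
    exact ⟨fun h => hN0 (by rw [h] at hd; exact Nat.eq_zero_of_zero_dvd hd),
      Nat.le_of_dvd (Nat.pos_of_ne_zero hN0) hd⟩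
  rw [sA_apply h0]
  by_cases h : IsSquare (N / a)
  · rw [if_pos h, if_pos h, mul_one]
    rfl
  · rw [if_neg h, if_neg h, mul_zero]

/-- the sum of the numbers of the same parity -/
lemma sum_step (b : ℕ → ℂ) (k : ℕ) :
    ∑ j ∈ Finset.range (k + 3), (if Even (k + 2 - j) then b j else 0)
      = ∑ j ∈ Finset.range (k + 1), (if Even (k - j) then b j else 0) + b (k + 2) := by
  rw [Finset.sum_range_succ, Finset.sum_range_succ]
  have e1 : k + 2 - (k + 2) = 0 := by omega
  have e2 : k + 2 - (k + 1) = 1 := by omega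
  have h0 : Even (0 : ℕ) := ⟨0, rfl⟩
  have h1 : ¬ Even (1 : ℕ) := by decide
  rw [e1, e2, if_pos h0, if_neg h1, add_zero]
  congr 1
  refine Finset.sum_congr rfl fun j hj => ?_
  have h1 : j ≤ k := by
    rw [Finset.mem_range] at hj
    omega
  have e3 : k + 2 - j = k - j + 2 := by omega
  rw [e3]
  congr 1
  simp [Nat.even_add]

lemma hk_step {z : ℂ} (hz : z ≠ 0) (k : ℕ) :
    hk z (k + 2) = hk z k + (z ^ (k + 2) + z⁻¹ ^ (k + 2)) := by
  unfold hk
  rw [Finset.sum_range_succ, Finset.sum_range_succ']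
  have e : ∑ i ∈ Finset.range (k + 1), z ^ (i + 1) * z⁻¹ ^ (k + 2 - (i + 1))
      = ∑ i ∈ Finset.range (k + 1), z ^ i * z⁻¹ ^ (k - i) := by
    refine Finset.sum_congr rfl fun i hi => ?_
    have h1 : i ≤ k := by
      rw [Finset.mem_range] at hi
      omega
    have e3 : k + 2 - (i + 1) = k - i + 1 := by omega
    rw [e3, pow_succ, pow_succ]
    have h2 : z * z⁻¹ = 1 := mul_inv_cancel₀ hz
    linear_combination (z ^ i * z⁻¹ ^ (k - i)) * h2
  rw [e]
  simp only [pow_zero, one_mul, Nat.sub_zero, Nat.sub_self, mul_one]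
  ring

lemma rc_prime_pow (D : CD m) (χ : D.G →* ℂˣ) {p : ℕ} (hp : p.Prime)
    (hpM : Nat.Coprime p (MM m)) (k : ℕ) :
    rc D χ (p ^ k) = ∑ j ∈ Finset.range (k + 1), (if Even (k - j) then bc D χ (p ^ j) else 0) := by
  classical
  unfold rc sqd
  rw [if_pos (hpM.pow_left k), Finset.sum_filter, Nat.divisors_prime_pow hp, Finset.sum_map]
  refine Finset.sum_congr rfl fun j hj => ?_
  have h1 : j ≤ k := by
    rw [Finset.mem_range] at hj
    omega
  simp only [Function.Embedding.coeFn_mk]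
  rw [Nat.pow_div h1 hp.pos]
  by_cases h : Even (k - j)
  · rw [if_pos h, if_pos ((isSquare_prime_pow hp _).mpr h)]
  · rw [if_neg h, if_neg (fun h' => h ((isSquare_prime_pow hp _).mp h'))]

lemma two_step {P : ℕ → Prop} (h0 : P 0) (h1 : P 1) (h : ∀ k, P k → P (k + 2)) : ∀ k, P k
  | 0 => h0
  | 1 => h1
  | k + 2 => h k (two_step h0 h1 h k)

end RCM

open RCM in
/-- **RCM**: `rc` is multiplicative, and its values at prime powers. -/
theorem rcm (h1 : BCM_Stmt) (h2 : PRM_Stmt) : RCM_Stmt := by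
  intro m hm D
  have hone : ∀ χ : D.G →* ℂˣ, rc D χ 1 = 1 := fun χ => by
    rw [← conv_eq D χ (Nat.coprime_one_left _)]
    exact ((bA_mult h1 hm D χ).mul sA_mult).map_one
  have hb1 : ∀ χ : D.G →* ℂˣ, bc D χ 1 = 1 := fun χ => (h1 m hm D χ).1
  refine ⟨fun χ => ⟨hone χ, fun N N' hc => ?_⟩, fun p hp hpM => ?_⟩
  · by_cases hN : Nat.Coprime N (MM m)
    · by_cases hN' : Nat.Coprime N' (MM m)
      · rw [← conv_eq D χ hN, ← conv_eq D χ hN', ← conv_eq D χ (hN.mul_left hN')]
        exact ((bA_mult h1 hm D χ).mul sA_mult).map_mul_of_coprime hc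
      · have h3 : ¬ Nat.Coprime (N * N') (MM m) := fun h => hN' (Nat.Coprime.coprime_mul_left h)
        unfold rc
        rw [if_neg h3, if_neg hN', mul_zero]
    · have h3 : ¬ Nat.Coprime (N * N') (MM m) := fun h => hN (Nat.Coprime.coprime_mul_right h)
      unfold rc
      rw [if_neg h3, if_neg hN, zero_mul]
  · rcases h2 m hm D p hp hpM with h | ⟨g, h⟩
    · left
      intro χ
      refine two_step ?_ ?_ fun k hk => ?_
      · simpa using hone χ
      · rw [rc_prime_pow D χ hp hpM, Finset.sum_range_succ, Finset.sum_range_one]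
        have := h χ 0
        rw [zero_add] at this
        rw [this]
        simp
      · rw [rc_prime_pow D χ hp hpM] at hk ⊢
        rw [sum_step, hk, h χ (k + 1)]
        simp [Nat.even_add]
    · right
      refine ⟨g, fun χ => two_step ?_ ?_ fun k hk' => ?_⟩
      · rw [pow_zero, hone]
        simp [hk]
      · rw [rc_prime_pow D χ hp hpM, Finset.sum_range_succ, Finset.sum_range_one]
        have := h χ 0
        rw [zero_add] at this
        rw [this]
        simp [hk, Finset.sum_range_succ, add_comm]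
      · rw [rc_prime_pow D χ hp hpM] at hk' ⊢
        rw [sum_step, hk', h χ (k + 1), hk_step (Units.ne_zero _)]

end Pool.Agent.C3A
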