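import Pool.Agent.C3A.Stmts

/-!
RGC: characters and classes.
-/

open scoped BigOperators

namespace Pool.Agent.C3A

namespace RGC

open Classical in
/-- number of roots with class `g` -/
noncomputable def nb {m : ℤ} (D : CD m) (g : D.G) (a : ℕ) : ℕ :=
  ((bs m a).filter fun β : ℕ => D.cl a (β : ℤ) = g).card

theorem val_of {m : ℤ} {a β : ℕ} (ha : Nat.Coprime a (MM m)) (hβ : β ∈ bs m a) :
    Val m a β := by
  unfold bs at hβ
  rw [Finset.mem_filter, Finset.mem_range] at hβ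
  exact ⟨lt_of_le_of_lt (Nat.zero_le _) hβ.1, ha, hβ.2⟩

theorem flip_mem {m : ℤ} {a β : ℕ} (hβ : β ∈ bs m a) : a - 1 - β ∈ bs m a := by
  unfold bs at hβ ⊢
  rw [Finset.mem_filter, Finset.mem_range] at hβ ⊢
  obtain ⟨h1, h2⟩ := hβ
  refine ⟨by omega, ?_⟩
  have e1 : ((a - 1 - β : ℕ) : ℤ) = (a : ℤ) - 1 - β := by
    omega
  have e2 : fm m ((a - 1 - β : ℕ) : ℤ) = fm m β + a * (a - 1 - 2 * β) := by
    rw [e1]; unfold fm; ring
  rw [e2]
  exact dvd_add h2 (dvd_mul_right _ _)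

theorem flip_cl {m : ℤ} (D : CD m) {a β : ℕ} (ha : Nat.Coprime a (MM m)) (hβ : β ∈ bs m a) :
    D.cl a ((a - 1 - β : ℕ) : ℤ) = (D.cl a β)⁻¹ := by
  have hv := val_of ha hβ
  have hlt : β < a := by
    unfold bs at hβ
    rw [Finset.mem_filter, Finset.mem_range] at hβ
    exact hβ.1
  have e1 : ((a - 1 - β : ℕ) : ℤ) = (-1 - (β : ℤ)) + a * 1 := by
    omega
  have hv' : Val m a (-1 - (β : ℤ)) := by
    refine ⟨hv.1, hv.2.1, ?_⟩
    have : fm m (-1 - (β : ℤ)) = fm m β := by unfold fm; ring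
    rw [this]; exact hv.2.2
  rw [e1, D.per a _ 1 hv', D.inv a β hv]

theorem nb_inv {m : ℤ} (D : CD m) (g : D.G) {a : ℕ} (ha : Nat.Coprime a (MM m)) :
    nb D g⁻¹ a = nb D g a := by
  classical
  unfold nb
  refine Finset.card_bij' (fun β _ => a - 1 - β) (fun β _ => a - 1 - β) ?_ ?_ ?_ ?_
  · intro β hβ
    rw [Finset.mem_filter] at hβ ⊢
    refine ⟨flip_mem hβ.1, ?_⟩
    rw [flip_cl D ha hβ.1, hβ.2, inv_inv]
  · intro β hβ
    rw [Finset.mem_filter] at hβ ⊢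
    refine ⟨flip_mem hβ.1, ?_⟩
    rw [flip_cl D ha hβ.1, hβ.2]
  · intro β hβ
    rw [Finset.mem_filter] at hβ
    have := hβ.1
    unfold bs at this
    rw [Finset.mem_filter, Finset.mem_range] at this
    omega
  · intro β hβ
    rw [Finset.mem_filter] at hβ
    have := hβ.1
    unfold bs at this
    rw [Finset.mem_filter, Finset.mem_range] at this
    omega

open Classical in
theorem coe_bs (S : Finset ℕ) :
    (do let a ← S; pure (a : ℤ) : Finset ℤ) = S.map ⟨fun n : ℕ => (n : ℤ), Nat.cast_injective⟩ := by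
  ext x
  simp [Finset.bind_def, Finset.pure_def]

/-- the number of ideals in terms of the numbers of roots -/
theorem rg_eq {m : ℤ} (D : CD m) (g : D.G) {N : ℕ} (hN : Nat.Coprime N (MM m)) :
    rg D g N = ∑ a ∈ sqd N, nb D g a := by
  classical
  unfold rg
  rw [if_pos hN]
  refine Finset.sum_congr rfl fun a _ => ?_
  rw [coe_bs, Finset.filter_map, Finset.card_map]
  rfl

theorem cop_of {m : ℤ} {N a : ℕ} (hN : Nat.Coprime N (MM m)) (ha : a ∈ sqd N) :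
    Nat.Coprime a (MM m) := by
  unfold sqd at ha
  rw [Finset.mem_filter, Nat.mem_divisors] at ha
  exact Nat.Coprime.coprime_dvd_left ha.1.1 hN

theorem rg_inv {m : ℤ} (D : CD m) (g : D.G) (N : ℕ) : rg D g⁻¹ N = rg D g N := by
  by_cases hN : Nat.Coprime N (MM m)
  · rw [rg_eq D _ hN, rg_eq D _ hN]
    exact Finset.sum_congr rfl fun a ha => nb_inv D g (cop_of hN ha)
  · unfold rg
    rw [if_neg hN, if_neg hN]

theorem rc_eq {m : ℤ} (D : CD m) (χ : D.G →* ℂˣ) (N : ℕ) :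
    rc D χ N = ∑ᶠ g : D.G, ((χ g : ℂˣ) : ℂ) * (rg D g N : ℂ) := by
  classical
  have : Fintype D.G := Fintype.ofFinite D.G
  rw [finsum_eq_sum_of_fintype]
  by_cases hN : Nat.Coprime N (MM m)
  · have h1 : ∀ g : D.G, ((χ g : ℂˣ) : ℂ) * (rg D g N : ℂ)
        = ∑ a ∈ sqd N, ((χ g : ℂˣ) : ℂ) * (nb D g a : ℂ) := by
      intro g
      rw [rg_eq D g hN, Nat.cast_sum, Finset.mul_sum]
    simp only [h1]
    rw [Finset.sum_comm]
    unfold rc
    rw [if_pos hN]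
    refine Finset.sum_congr rfl fun a ha => ?_
    unfold bc
    rw [if_pos (cop_of hN ha)]
    rw [← Finset.sum_fiberwise (bs m a) (fun β : ℕ => D.cl a (β : ℤ))
      (fun β : ℕ => ((χ (D.cl a (β : ℤ)) : ℂˣ) : ℂ))]
    refine Finset.sum_congr rfl fun g _ => ?_
    have h2 : ∀ β ∈ (bs m a).filter (fun β : ℕ => D.cl a (β : ℤ) = g),
        ((χ (D.cl a (β : ℤ)) : ℂˣ) : ℂ) = ((χ g : ℂˣ) : ℂ) := by
      intro β hβ
      rw [(Finset.mem_filter.1 hβ).2]
    rw [Finset.sum_congr rfl h2, Finset.sum_const, nsmul_eq_mul, mul_comm]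
    rfl
  · unfold rc rg
    simp [hN]

theorem rc_inv {m : ℤ} (D : CD m) (χ : D.G →* ℂˣ) (N : ℕ) : rc D χ⁻¹ N = rc D χ N := by
  classical
  have : Fintype D.G := Fintype.ofFinite D.G
  rw [rc_eq, rc_eq, finsum_eq_sum_of_fintype, finsum_eq_sum_of_fintype]
  rw [← Equiv.sum_comp (Equiv.inv D.G) (fun g => ((χ g : ℂˣ) : ℂ) * (rg D g N : ℂ))]
  refine Finset.sum_congr rfl fun g _ => ?_
  simp only [Equiv.inv_apply]
  rw [rg_inv, map_inv]
  rfl

theorem norm_chi {G : Type} [CommGroup G] [Finite G] (χ : G →* ℂˣ) (g : G) :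
    ‖((χ g : ℂˣ) : ℂ)‖ = 1 := by
  have h1 : (χ g) ^ Nat.card G = 1 := by
    rw [← map_pow, pow_card_eq_one', map_one]
  have h2 : ((χ g : ℂˣ) : ℂ) ^ Nat.card G = 1 := by
    rw [← Units.val_pow_eq_pow_val, h1, Units.val_one]
  exact Complex.norm_eq_one_of_pow_eq_one h2 Nat.card_pos.ne'

theorem conj_chi {G : Type} [CommGroup G] [Finite G] (χ : G →* ℂˣ) (g : G) :
    (starRingEnd ℂ) ((χ g : ℂˣ) : ℂ) = ((χ⁻¹ g : ℂˣ) : ℂ) := by
  have h1 := norm_chi χ g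
  have h2 : ((χ g : ℂˣ) : ℂ) * (starRingEnd ℂ) ((χ g : ℂˣ) : ℂ) = 1 := by
    rw [Complex.mul_conj, Complex.normSq_eq_norm_sq, h1]
    norm_num
  have h3 : ((χ⁻¹ g : ℂˣ) : ℂ) = (((χ g : ℂˣ) : ℂ))⁻¹ := by
    rw [MonoidHom.inv_apply, Units.val_inv_eq_inv_val]
  rw [h3]
  exact (inv_eq_of_mul_eq_one_right h2).symm

end RGC

open RGC in
/-- characters and classes -/
theorem rgc : RGC_Stmt := by
  intro m _ D
  refine ⟨fun χ N => rc_eq D χ N, fun g N => rg_inv D g N, fun χ N => ⟨rc_inv D χ N, ?_⟩⟩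
  rw [← Complex.conj_eq_iff_im]
  conv_rhs => rw [← rc_inv D χ N]
  classical
  have : Fintype D.G := Fintype.ofFinite D.G
  rw [rc_eq, rc_eq, finsum_eq_sum_of_fintype, finsum_eq_sum_of_fintype, map_sum]
  refine Finset.sum_congr rfl fun g _ => ?_
  rw [map_mul, conj_chi, Complex.conj_natCast]

end Pool.Agent.C3A
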