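import Pool.Agent.C3A.Stmts

/-!
Closed 3-braids, arithmetic half: the Rankin-Selberg identity.
-/

open scoped BigOperators

noncomputable section

namespace Pool.Agent.C3A

namespace RSI

variable {m : ℤ}

theorem two_le_MM (m : ℤ) : 2 ≤ MM m := by
  unfold MM
  have : (1 + 4 * m).natAbs ≠ 0 := by
    rw [Int.natAbs_ne_zero]
    omega
  omega

theorem not_coprime_zero (m : ℤ) : ¬ Nat.Coprime 0 (MM m) := by
  rw [Nat.coprime_zero_left]
  have := two_le_MM m
  omega

/-- `rc` as an arithmetic function. -/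
def rcA (D : CD m) (χ : D.G →* ℂˣ) : ArithmeticFunction ℂ :=
  ⟨rc D χ, by rw [rc, if_neg (not_coprime_zero m)]⟩

theorem rcA_apply (D : CD m) (χ : D.G →* ℂˣ) (N : ℕ) : rcA D χ N = rc D χ N := rfl

theorem rcA_mult (h1 : RCM_Stmt) (hm : Good m) (D : CD m) (χ : D.G →* ℂˣ) :
    (rcA D χ).IsMultiplicative :=
  ⟨((h1 m hm D).1 χ).1, fun h => ((h1 m hm D).1 χ).2 _ _ h⟩

open Classical in
/-- The indicator of the squares. -/
def sq : ArithmeticFunction ℂ := ⟨fun n => if n ≠ 0 ∧ IsSquare n then 1 else 0, by simp⟩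

open Classical in
theorem sq_apply (n : ℕ) : sq n = if n ≠ 0 ∧ IsSquare n then 1 else 0 := rfl

theorem isSquare_of_mul {a b : ℕ} (h : Nat.Coprime a b) (hs : IsSquare (a * b)) : IsSquare a := by
  obtain ⟨r, hr⟩ := hs
  have h1 := exists_associated_pow_of_mul_eq_pow (a := a) (b := b) (c := r) (k := 2)
    (Nat.isUnit_iff.mpr h) (by rw [hr, pow_two])
  obtain ⟨d, hd⟩ := h1
  rw [associated_iff_eq] at hd
  exact ⟨d, by rw [← hd, pow_two]⟩

theorem isSquare_mul_iff {a b : ℕ} (h : Nat.Coprime a b) :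
    IsSquare (a * b) ↔ IsSquare a ∧ IsSquare b := by
  constructor
  · intro hs
    exact ⟨isSquare_of_mul h hs, isSquare_of_mul h.symm (by rwa [mul_comm])⟩
  · rintro ⟨⟨r, rfl⟩, ⟨s, rfl⟩⟩
    exact ⟨r * s, by ring⟩

theorem sq_mult : sq.IsMultiplicative := by
  constructor
  · rw [sq_apply, if_pos ⟨one_ne_zero, IsSquare.one⟩]
  · intro a b h
    rw [sq_apply, sq_apply, sq_apply]
    by_cases ha : a ≠ 0 ∧ IsSquare a
    · by_cases hb : b ≠ 0 ∧ IsSquare b
      · rw [if_pos ha, if_pos hb, if_pos ⟨mul_ne_zero ha.1 hb.1,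
          (isSquare_mul_iff h).mpr ⟨ha.2, hb.2⟩⟩, one_mul]
      · rw [if_neg hb, mul_zero, if_neg]
        rintro ⟨h1, h2⟩
        exact hb ⟨right_ne_zero_of_mul h1, ((isSquare_mul_iff h).mp h2).2⟩
    · rw [if_neg ha, zero_mul, if_neg]
      rintro ⟨h1, h2⟩
      exact ha ⟨left_ne_zero_of_mul h1, ((isSquare_mul_iff h).mp h2).1⟩

/-- The left side. -/
def L (D : CD m) (χ χ₀ : D.G →* ℂˣ) : ArithmeticFunction ℂ :=
  ((rcA D χ).pmul (rcA D χ₀)) * sq

/-- The right side. -/
def R (D : CD m) (χ χ₀ : D.G →* ℂˣ) : ArithmeticFunction ℂ :=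
  rcA D (χ * χ₀) * rcA D (χ * χ₀⁻¹)

theorem L_apply (D : CD m) (χ χ₀ : D.G →* ℂˣ) (N : ℕ) :
    L D χ χ₀ N = ∑ a ∈ sqd N, rc D χ a * rc D χ₀ a := by
  classical
  rw [L, ArithmeticFunction.mul_apply,
    Nat.sum_divisorsAntidiagonal (fun a b => ((rcA D χ).pmul (rcA D χ₀)) a * sq b), sqd,
    Finset.sum_filter]
  refine Finset.sum_congr rfl fun a ha => ?_
  rw [ArithmeticFunction.pmul_apply, rcA_apply, rcA_apply, sq_apply]
  have h0 : N / a ≠ 0 := by
    rw [Nat.mem_divisors] at ha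
    exact (Nat.div_pos (Nat.le_of_dvd (Nat.pos_of_ne_zero ha.2) ha.1)
      (Nat.pos_of_dvd_of_pos ha.1 (Nat.pos_of_ne_zero ha.2))).ne'
  by_cases h : IsSquare (N / a)
  · rw [if_pos ⟨h0, h⟩, if_pos h, mul_one]
  · rw [if_neg (fun h' => h h'.2), if_neg h, mul_zero]

theorem R_apply (D : CD m) (χ χ₀ : D.G →* ℂˣ) (N : ℕ) :
    R D χ χ₀ N = ∑ d ∈ N.divisors, rc D (χ * χ₀) d * rc D (χ * χ₀⁻¹) (N / d) := by
  rw [R, ArithmeticFunction.mul_apply,
    Nat.sum_divisorsAntidiagonal (fun a b => rcA D (χ * χ₀) a * rcA D (χ * χ₀⁻¹) b)]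
  rfl

theorem even_of_isSquare {p n : ℕ} (hp : p.Prime) (h : IsSquare (p ^ n)) : Even n := by
  obtain ⟨r, hr⟩ := h
  have hr0 : r ≠ 0 := by
    rintro rfl
    rw [mul_zero] at hr
    exact (pow_ne_zero n hp.ne_zero) hr
  have h1 := congrArg (fun x => x.factorization p) hr
  simp only [hp.factorization_pow, Nat.factorization_mul hr0 hr0, Finsupp.single_eq_same,
    Finsupp.add_apply] at h1
  exact ⟨_, h1⟩

/-- The sum over `sqd (p ^ k)`. -/
theorem sum_sqd {p : ℕ} (hp : p.Prime) (k : ℕ) (F : ℕ → ℂ) :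
    ∑ a ∈ sqd (p ^ k), F a = ∑ i ∈ Finset.range (k / 2 + 1), F (p ^ (k - 2 * i)) := by
  symm
  refine Finset.sum_nbij (fun i => p ^ (k - 2 * i)) ?_ ?_ ?_ (fun _ _ => rfl)
  · intro i hi
    rw [Finset.mem_range] at hi
    rw [sqd, Finset.mem_filter, Nat.mem_divisors]
    refine ⟨⟨pow_dvd_pow p (Nat.sub_le k _), pow_ne_zero k hp.ne_zero⟩, ?_⟩
    rw [Nat.pow_div (Nat.sub_le k _) hp.pos]
    exact ⟨p ^ i, by rw [← pow_add]; congr 1; omega⟩
  · intro i hi j hj hij
    have hi' := Finset.mem_range.mp (Finset.mem_coe.mp hi)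
    have hj' := Finset.mem_range.mp (Finset.mem_coe.mp hj)
    have := Nat.pow_right_injective hp.two_le hij
    omega
  · intro a ha
    rw [Finset.mem_coe, sqd, Finset.mem_filter, Nat.mem_divisors] at ha
    obtain ⟨⟨h1, h2⟩, h3⟩ := ha
    obtain ⟨j, hj, rfl⟩ := (Nat.dvd_prime_pow hp).mp h1
    rw [Nat.pow_div hj hp.pos] at h3
    obtain ⟨l, hl⟩ := even_of_isSquare hp h3
    refine ⟨l, ?_, ?_⟩
    · rw [Finset.mem_coe, Finset.mem_range]
      omega
    · change p ^ (k - 2 * l) = p ^ j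
      congr 1
      omega

theorem prime_pow (h1 : RCM_Stmt) (h2 : LOC_Stmt) (hm : Good m) (D : CD m) (χ χ₀ : D.G →* ℂˣ)
    {p : ℕ} (hp : p.Prime) (hc : Nat.Coprime p (MM m)) (k : ℕ) :
    L D χ χ₀ (p ^ k) = R D χ χ₀ (p ^ k) := by
  rw [L_apply, R_apply, sum_sqd hp, Nat.divisors_prime_pow hp, Finset.sum_map]
  have hR : ∑ x ∈ Finset.range (k + 1), rc D (χ * χ₀) (p ^ x) *
      rc D (χ * χ₀⁻¹) (p ^ k / p ^ x) = ∑ x ∈ Finset.range (k + 1), rc D (χ * χ₀) (p ^ x) *
      rc D (χ * χ₀⁻¹) (p ^ (k - x)) := by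
    refine Finset.sum_congr rfl fun x hx => ?_
    rw [Nat.pow_div (Nat.lt_succ_iff.mp (Finset.mem_range.mp hx)) hp.pos]
  change _ = ∑ x ∈ Finset.range (k + 1), rc D (χ * χ₀) (p ^ x) *
      rc D (χ * χ₀⁻¹) (p ^ k / p ^ x)
  rw [hR]
  rcases (h1 m hm D).2 p hp hc with h | ⟨g, hg⟩
  · simp only [h]
    rcases Nat.even_or_odd k with hk | hk
    · have e1 : ∀ i ∈ Finset.range (k / 2 + 1),
          (if Even (k - 2 * i) then (1 : ℂ) else 0) * (if Even (k - 2 * i) then 1 else 0) = 1 := by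
        intro i hi
        have hi' := Finset.mem_range.mp hi
        have : Even (k - 2 * i) := by
          rw [Nat.even_sub (by omega)]
          simp [hk]
        rw [if_pos this, mul_one]
      rw [Finset.sum_congr rfl e1]
      have e2 : ∀ x ∈ Finset.range (k + 1),
          (if Even x then (1 : ℂ) else 0) * (if Even (k - x) then 1 else 0) =
            if Even x then 1 else 0 := by
        intro x hx
        have hx' := Finset.mem_range.mp hx
        by_cases h : Even x
        · have : Even (k - x) := by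
            rw [Nat.even_sub (by omega)]
            simp [hk, h]
          rw [if_pos h, if_pos this, mul_one]
        · rw [if_neg h, zero_mul]
      rw [Finset.sum_congr rfl e2, ← Finset.sum_filter, Finset.sum_const, Finset.sum_const,
        Finset.card_range]
      congr 1
      obtain ⟨l, hl⟩ := hk
      symm
      refine (Finset.card_bij (s := Finset.range (l + 1)) (fun i _ => 2 * i) ?_ ?_ ?_).symm.trans ?_
      · intro i hi
        rw [Finset.mem_range] at hi
        rw [Finset.mem_filter, Finset.mem_range]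
        exact ⟨by omega, even_two_mul i⟩
      · intro i _ j _ hij
        omega
      · intro b hb
        rw [Finset.mem_filter, Finset.mem_range] at hb
        obtain ⟨hb1, ⟨c, hc⟩⟩ := hb
        exact ⟨c, by rw [Finset.mem_range]; omega, by omega⟩
      · rw [Finset.card_range]
        omega
    · have e1 : ∀ i ∈ Finset.range (k / 2 + 1),
          (if Even (k - 2 * i) then (1 : ℂ) else 0) * (if Even (k - 2 * i) then 1 else 0) = 0 := by
        intro i hi
        have hi' := Finset.mem_range.mp hi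
        have : ¬ Even (k - 2 * i) := by
          rw [Nat.even_sub (by omega)]
          simp [hk]
        rw [if_neg this, mul_zero]
      have e2 : ∀ x ∈ Finset.range (k + 1),
          (if Even x then (1 : ℂ) else 0) * (if Even (k - x) then 1 else 0) = 0 := by
        intro x hx
        have hx' := Finset.mem_range.mp hx
        by_cases h : Even x
        · have : ¬ Even (k - x) := by
            rw [Nat.even_sub (by omega)]
            simp [hk, h]
          rw [if_neg this, mul_zero]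
        · rw [if_neg h, zero_mul]
      rw [Finset.sum_congr rfl e1, Finset.sum_congr rfl e2, Finset.sum_const_zero,
        Finset.sum_const_zero]
  · have h3 := h2 ((χ g : ℂˣ) : ℂ) ((χ₀ g : ℂˣ) : ℂ) (Units.ne_zero _) (Units.ne_zero _) k
    simp only [hg]
    rw [h3]
    refine Finset.sum_congr rfl fun j _ => ?_
    rw [MonoidHom.mul_apply, MonoidHom.mul_apply, MonoidHom.inv_apply, Units.val_mul,
      Units.val_mul, Units.val_inv_eq_inv_val]

end RSI

open RSI in
theorem rsi (h1 : RCM_Stmt) (h2 : LOC_Stmt) : RSI_Stmt := by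
  intro m hm D χ χ₀ N hN
  rw [← L_apply, ← R_apply]
  have hL : (L D χ χ₀).IsMultiplicative :=
    ((rcA_mult h1 hm D χ).pmul (rcA_mult h1 hm D χ₀)).mul sq_mult
  have hR : (R D χ χ₀).IsMultiplicative := (rcA_mult h1 hm D _).mul (rcA_mult h1 hm D _)
  revert hN
  induction N using Nat.recOnPosPrimePosCoprime with
  | prime_pow p n hp hn =>
    intro hN
    exact prime_pow h1 h2 hm D χ χ₀ hp (Nat.Coprime.coprime_dvd_left (dvd_pow_self p hn.ne') hN) n
  | zero => exact fun h => absurd h (not_coprime_zero m)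
  | one => exact fun _ => by rw [hL.1, hR.1]
  | coprime a b _ _ hab iha ihb =>
    intro hN
    rw [hL.2 hab, hR.2 hab, iha (Nat.Coprime.coprime_mul_right hN),
      ihb (Nat.Coprime.coprime_mul_left hN)]

end Pool.Agent.C3A
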