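import Pool.Agent.C3A.Stmts

/-!
Closed 3-braids, arithmetic half: modules CNT and SBD. See PAPER.md in this folder.
-/

open scoped BigOperators Real MatrixGroups ContDiff Topology
open Filter

noncomputable section

namespace Pool.Agent.C3A

namespace SBD

lemma exists_isA {m t c : ℤ} (h : Unt m t c) {a : ℕ} {β : ℤ} (hv : Val m a β) :
    ∃ A : SL(2, ℤ), IsA m t c a β A := by
  obtain ⟨ht, hc, heq⟩ := h
  obtain ⟨ha, hco, hd⟩ := hv
  have hpar : Even (t - c) := by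
    have h2 : Even ((t - c) * (t + c)) := ⟨2 + 2 * c ^ 2 * m, by linear_combination heq⟩
    rcases Int.even_mul.1 h2 with h3 | h3
    · exact h3
    · have : t - c = (t + c) - 2 * c := by ring
      rw [this]
      exact h3.sub (even_two_mul c)
  obtain ⟨u, hu⟩ := hpar
  obtain ⟨e, he⟩ := hd
  have ha0 : (a : ℤ) ≠ 0 := by exact_mod_cast ha.ne'
  have he' : fm m β / a = e := by rw [he]; exact Int.mul_ediv_cancel_left e ha0
  have hdet : (u - c * β) * (u + c + c * β) - (-(c * e)) * (c * a) = 1 := by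
    have h3 : c ^ 2 * (β ^ 2 + β - m) = c ^ 2 * (a * e) := by
      unfold fm at he; rw [he]
    have h4 : t = 2 * u + c := by linarith
    subst h4
    nlinarith [heq, h3]
  refine ⟨⟨!![u - c * β, -(c * e); c * a, u + c + c * β], by
    rw [Matrix.det_fin_two_of]; exact hdet⟩, ?_, ?_, ?_, ?_⟩
  · change 2 * (u - c * β) = t - c - 2 * c * β
    linarith
  · change -(c * e) = -(c * (fm m β / a))
    rw [he']
  · rfl
  · change 2 * (u + c + c * β) = t + c + 2 * c * β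
    linarith

lemma Gf_zero {x : ℝ} (h : 3 / 2 ≤ x) : Gf x = 0 := by
  unfold Gf
  apply ContDiffBump.zero_of_le_dist
  rw [Real.dist_eq]
  change (1 / 2 : ℝ) ≤ |x - 1|
  rw [abs_of_nonneg (by linarith)]
  linarith

lemma tsum_cut {E : Type*} [NormedAddCommGroup E] {z : ℝ} (hz : 0 < z) {K : ℕ}
    (hK : 3 / 2 * z ≤ K) (u : ℕ → E) (hu : ∀ N : ℕ, Gf (N / z) = 0 → u N = 0) :
    ∑' N : ℕ, u N = ∑ N ∈ Finset.range K, u N := by
  apply tsum_eq_sum
  intro N hN
  apply hu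
  apply Gf_zero
  rw [Finset.mem_range, not_lt] at hN
  rw [le_div_iff₀ hz]
  have : (K : ℝ) ≤ N := by exact_mod_cast hN
  linarith

lemma sum_char {G : Type} [CommGroup G] [Fintype G] (ψ : G →* ℂˣ) (hψ : ψ ≠ 1) :
    ∑ g : G, ((ψ g : ℂˣ) : ℂ) = 0 := by
  have h := sum_hom_units_eq_zero ((Units.coeHom ℂ).comp ψ) (by
    intro h
    apply hψ
    ext g
    have := DFunLike.congr_fun h g
    simpa using this)
  simpa using h

end SBD

open SBD

/-- CNT: the number of orbits and the number of ideals. -/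
theorem cnt_thm (h1 : UNT_Stmt) (h2 : SPL_Stmt) (h3 : CVT_Stmt) : CNT_Stmt := by
  intro m hm t c hU
  obtain ⟨w, hw, hW⟩ := h1 m hm t c hU
  refine ⟨w, hw, fun D a β hv A hA N hN => ?_⟩
  exact h2 m hm D a β hv A w hw ((h3.2.1 m t c a β A hU.2.1 hA).2.2)
    (fun a₁ β₁ hv₁ hpe => hW a β a₁ β₁ hv hv₁ hpe A hA) N hN

/-- SBD: the smooth sums of a nontrivial character are small. -/
theorem sbd (h1 : PHI_Stmt) (h2 : LAT_Stmt) (h3 : ORBS_Stmt) (h4 : CNT_Stmt) (h5 : RGC_Stmt) :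
    SBD_Stmt := by
  intro m hm t c hU D ψ hψ
  classical
  haveI : Fintype D.G := Fintype.ofFinite _
  -- the partition of unity
  have hl : 0 < 2 * Real.log ((t + √((t : ℝ) ^ 2 - 4)) / 2) := by
    have ht : (2 : ℝ) < t := by exact_mod_cast hU.1
    have : 0 ≤ √((t : ℝ) ^ 2 - 4) := Real.sqrt_nonneg _
    have := Real.log_pos (x := ((t : ℝ) + √((t : ℝ) ^ 2 - 4)) / 2) (by linarith)
    linarith
  obtain ⟨φ, hφ⟩ := h1 _ hl
  obtain ⟨κ, hκ⟩ := h2 m hm _ φ hφ
  obtain ⟨w, hw, hcnt⟩ := h4 m hm t c hU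
  -- representatives of the classes
  choose a β hv hcl using D.sur
  choose A hA using fun g : D.G => exists_isA hU (hv g)
  choose Cg hCg using fun g : D.G => hκ (a g) (β g) (hv g)
  have hwR : (0 : ℝ) < w := by exact_mod_cast hw
  refine ⟨(∑ g : D.G, ‖((ψ g : ℂˣ) : ℂ)‖ * (2 * Cg g)) / w, fun z hz => ?_⟩
  have hz0 : 0 < z := by linarith
  obtain ⟨K, hK⟩ := exists_nat_ge (3 / 2 * z)
  -- the sums of a class
  have e1 : ∀ g : D.G, (w : ℝ) * ∑ N ∈ Finset.range K, (rg D g N : ℝ) * Gf (N / z) =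
      2 * Lsum m φ (a g) (β g) z := by
    intro g
    rw [← h3 m hm t c hU φ hφ (a g) (β g) (hv g) (A g) (hA g) z hz0,
      tsum_cut hz0 hK _ (fun N hN => by rw [hN, mul_zero]), Finset.mul_sum]
    refine Finset.sum_congr rfl fun N _ => ?_
    by_cases hN : Nat.Coprime N (MM m)
    · rw [if_pos hN, hcnt D (a g) (β g) (hv g) (A g) (hA g) N hN, hcl g]
      push_cast
      ring
    · rw [if_neg hN]
      unfold rg
      rw [if_neg hN]
      simp
  have e2 : Sm (rc D ψ) z = ∑ g : D.G, ((ψ g : ℂˣ) : ℂ) *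
      ((∑ N ∈ Finset.range K, (rg D g N : ℝ) * Gf (N / z) : ℝ) : ℂ) := by
    unfold Sm
    rw [tsum_cut hz0 hK _ (fun N hN => by rw [hN]; simp)]
    have e3 : ∀ N, rc D ψ N * (Gf (N / z) : ℂ) =
        ∑ g : D.G, ((ψ g : ℂˣ) : ℂ) * ((rg D g N : ℂ) * (Gf (N / z) : ℂ)) := by
      intro N
      rw [(h5 m hm D).1 ψ N, finsum_eq_sum_of_fintype, Finset.sum_mul]
      refine Finset.sum_congr rfl fun g _ => ?_
      ring
    rw [Finset.sum_congr rfl (fun N _ => e3 N), Finset.sum_comm]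
    refine Finset.sum_congr rfl fun g _ => ?_
    rw [← Finset.mul_sum]
    push_cast
    rfl
  have e4 : (w : ℂ) * Sm (rc D ψ) z = ∑ g : D.G, ((ψ g : ℂˣ) : ℂ) *
      ((2 * (Lsum m φ (a g) (β g) z - κ * z) : ℝ) : ℂ) := by
    have e5 : ∀ g : D.G, ((ψ g : ℂˣ) : ℂ) * ((2 * (Lsum m φ (a g) (β g) z - κ * z) : ℝ) : ℂ) =
        (w : ℂ) * (((ψ g : ℂˣ) : ℂ) *
          ((∑ N ∈ Finset.range K, (rg D g N : ℝ) * Gf (N / z) : ℝ) : ℂ)) -
        ((ψ g : ℂˣ) : ℂ) * (2 * κ * z) := by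
      intro g
      have h := congrArg (fun x : ℝ => (x : ℂ)) (e1 g)
      simp only [Complex.ofReal_mul, Complex.ofReal_natCast, Complex.ofReal_ofNat] at h
      rw [show (w : ℂ) * (((ψ g : ℂˣ) : ℂ) *
          ((∑ N ∈ Finset.range K, (rg D g N : ℝ) * Gf (N / z) : ℝ) : ℂ)) =
          ((ψ g : ℂˣ) : ℂ) * ((w : ℂ) *
          ((∑ N ∈ Finset.range K, (rg D g N : ℝ) * Gf (N / z) : ℝ) : ℂ)) by ring, h]
      push_cast
      ring
    rw [Finset.sum_congr rfl (fun g _ => e5 g), Finset.sum_sub_distrib, ← Finset.mul_sum,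
      ← e2, ← Finset.sum_mul, sum_char ψ hψ, zero_mul, sub_zero]
  have e6 : (w : ℝ) * ‖Sm (rc D ψ) z‖ ≤ (∑ g : D.G, ‖((ψ g : ℂˣ) : ℂ)‖ * (2 * Cg g)) / √z := by
    have : (w : ℝ) * ‖Sm (rc D ψ) z‖ = ‖(w : ℂ) * Sm (rc D ψ) z‖ := by
      rw [norm_mul, Complex.norm_natCast]
    rw [this, e4]
    refine (norm_sum_le _ _).trans ?_
    rw [Finset.sum_div]
    refine Finset.sum_le_sum fun g _ => ?_
    rw [norm_mul, Complex.norm_real, Real.norm_eq_abs, abs_mul, abs_of_pos (by norm_num : (0:ℝ) < 2),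
      mul_div_assoc]
    refine mul_le_mul_of_nonneg_left ?_ (norm_nonneg _)
    have := hCg g z hz
    rw [mul_div_assoc]
    linarith
  rw [div_div, mul_comm (w : ℝ) (√z), ← div_div, le_div_iff₀ hwR, mul_comm]
  exact e6

end Pool.Agent.C3A
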