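import Pool.Agent.C3A.Stmts

/-!
Closed 3-braids, arithmetic half: SPL, the number of orbits on the vectors of value `N`.
See PAPER.md in this folder.
-/

open scoped BigOperators Real MatrixGroups ContDiff Topology
open Filter

noncomputable section

namespace Pool.Agent.C3A

namespace SPL

/-! ### Forms -/

lemma frm_eq {m : ℤ} {a : ℕ} {β c : ℤ} (ha : 0 < a) (hc : (a : ℤ) * c = fm m β) (v : ℤ × ℤ) :
    frm m a β v = a * v.1 ^ 2 + (2 * β + 1) * (v.1 * v.2) + c * v.2 ^ 2 := by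
  have h0 : (a : ℤ) ≠ 0 := by exact_mod_cast ha.ne'
  have : fm m β / a = c := by
    rw [← hc]
    exact Int.mul_ediv_cancel_left _ h0
  rw [frm, this]

/-- translation of the parameter -/
lemma frm_add {m : ℤ} {a : ℕ} {β : ℤ} (ha : 0 < a) (hd : (a : ℤ) ∣ fm m β) (k : ℤ) (v : ℤ × ℤ) :
    frm m a (β + k * a) v = frm m a β (v.1 + k * v.2, v.2) := by
  obtain ⟨c, hc⟩ := hd
  have h1 : (a : ℤ) * (c + k ^ 2 * a + (2 * β + 1) * k) = fm m (β + k * a) := by
    unfold fm at hc ⊢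
    linear_combination -hc
  rw [frm_eq ha h1, frm_eq ha hc.symm]
  simp only
  ring

lemma frm_scal {m : ℤ} {a : ℕ} {β : ℤ} (d : ℤ) (v : ℤ × ℤ) :
    frm m a β (d * v.1, d * v.2) = d ^ 2 * frm m a β v := by
  unfold frm
  ring

/-! ### The action -/

lemma det2 (B : SL(2, ℤ)) : B 0 0 * B 1 1 - B 0 1 * B 1 0 = 1 := by
  have := B.det_coe
  rw [Matrix.det_fin_two] at this
  exact this

lemma act_one (v : ℤ × ℤ) : act 1 v = v := by
  simp [act, sub2]

lemma act_mul (A B : SL(2, ℤ)) (v : ℤ × ℤ) : act (A * B) v = act A (act B v) := by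
  simp only [act, sub2, Matrix.SpecialLinearGroup.coe_mul, Matrix.mul_apply, Fin.sum_univ_two]
  refine Prod.ext ?_ ?_
  · simp only
    ring
  · simp only
    ring

/-- the matrices which fix the form -/
def Fx (F : ℤ × ℤ → ℤ) : Subgroup SL(2, ℤ) where
  carrier := {B | ∀ v, F (act B v) = F v}
  one_mem' := fun v => by rw [act_one]
  mul_mem' := by
    intro A B hA hB v
    rw [act_mul, hA, hB]
  inv_mem' := by
    intro A hA v
    have h := hA (act A⁻¹ v)
    rw [← act_mul, mul_inv_cancel, act_one] at h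
    exact h.symm

lemma Pri_act {m : ℤ} {a : ℕ} {β : ℤ} {a₁ : ℕ} {β₁ : ℤ} {B : SL(2, ℤ)}
    (hB : B ∈ Fx (frm m a β)) {v : ℤ × ℤ} (hv : v ∈ Pri m a β a₁ β₁) :
    act B v ∈ Pri m a β a₁ β₁ := by
  obtain ⟨q, s, h1, h2⟩ := hv
  refine ⟨B 0 0 * q + B 0 1 * s, B 1 0 * q + B 1 1 * s, ?_, ?_⟩
  · have h3 := det2 B
    simp only [act, sub2]
    linear_combination (B 0 0 * B 1 1 - B 0 1 * B 1 0) * h1 + h3
  · intro u
    rw [← h2 u, ← hB (sub2 v.1 q v.2 s u)]
    congr 1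
    simp only [act, sub2]
    refine Prod.ext ?_ ?_
    · simp only
      ring
    · simp only
      ring

/-- multiplication by `d` -/
def scal (d : ℤ) (v : ℤ × ℤ) : ℤ × ℤ := (d * v.1, d * v.2)

lemma act_scal (B : SL(2, ℤ)) (d : ℤ) (v : ℤ × ℤ) : act B (scal d v) = scal d (act B v) := by
  simp only [act, sub2, scal]
  refine Prod.ext ?_ ?_
  · simp only
    ring
  · simp only
    ring

lemma scal_inj {d : ℤ} (hd : d ≠ 0) : Function.Injective (scal d) := by
  intro v w h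
  have h1 : d * v.1 = d * w.1 := congrArg Prod.fst h
  have h2 : d * v.2 = d * w.2 := congrArg Prod.snd h
  exact Prod.ext (mul_left_cancel₀ hd h1) (mul_left_cancel₀ hd h2)

lemma orb2_scal (A : SL(2, ℤ)) (d : ℤ) (v : ℤ × ℤ) :
    orb2 A (scal d v) = scal d '' orb2 A v := by
  ext w
  constructor
  · rintro ⟨k, rfl⟩
    exact ⟨_, ⟨k, rfl⟩, (act_scal _ _ _).symm⟩
  · rintro ⟨_, ⟨k, rfl⟩, rfl⟩
    exact ⟨k, (act_scal _ _ _).symm⟩

lemma nor_scal (A : SL(2, ℤ)) {d : ℤ} (hd : d ≠ 0) (P : Set (ℤ × ℤ)) :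
    nor A (scal d '' P) = nor A P := by
  unfold nor
  have h : {T : Set (ℤ × ℤ) | ∃ v ∈ scal d '' P, T = orb2 A v} =
      (fun T => scal d '' T) '' {T : Set (ℤ × ℤ) | ∃ v ∈ P, T = orb2 A v} := by
    ext T
    constructor
    · rintro ⟨_, ⟨v, hv, rfl⟩, rfl⟩
      exact ⟨_, ⟨v, hv, rfl⟩, (orb2_scal A d v).symm⟩
    · rintro ⟨_, ⟨v, hv, rfl⟩, rfl⟩
      exact ⟨_, ⟨v, hv, rfl⟩, (orb2_scal A d v).symm⟩
  rw [h]
  exact Set.ncard_image_of_injective _ (Set.image_injective.mpr (scal_inj hd))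

lemma self_mem (A : SL(2, ℤ)) (v : ℤ × ℤ) : v ∈ orb2 A v := ⟨0, by rw [zpow_zero, act_one]⟩

/-! ### Primitive vectors -/

lemma pri_value {m : ℤ} {a : ℕ} {β : ℤ} {a₁ : ℕ} {β₁ : ℤ} {v : ℤ × ℤ}
    (hv : v ∈ Pri m a β a₁ β₁) : frm m a β v = a₁ := by
  obtain ⟨q, s, h1, h2⟩ := hv
  have h3 := h2 (1, 0)
  have h4 : sub2 v.1 q v.2 s (1, 0) = v := by
    simp [sub2]
  rw [h4] at h3
  rw [h3]
  unfold frm
  ring

lemma pri_gcd {m : ℤ} {a : ℕ} {β : ℤ} {a₁ : ℕ} {β₁ : ℤ} {v : ℤ × ℤ}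
    (hv : v ∈ Pri m a β a₁ β₁) : Int.gcd v.1 v.2 = 1 := by
  obtain ⟨q, s, h1, h2⟩ := hv
  exact Int.isCoprime_iff_gcd_eq_one.mp ⟨s, -q, by linarith⟩

lemma scal_gcd (d : ℤ) (v : ℤ × ℤ) : Int.gcd (scal d v).1 (scal d v).2 = d.natAbs * Int.gcd v.1 v.2 := by
  simp only [scal]
  exact Int.gcd_mul_left _ _ _

/-- the parameter is determined modulo `a₁` -/
lemma pri_unique {m : ℤ} {a : ℕ} {β : ℤ} {a₁ : ℕ} {β₁ β₂ : ℤ} {v : ℤ × ℤ}
    (hv : v ∈ Pri m a β a₁ β₁) (hv' : v ∈ Pri m a β a₁ β₂) : (a₁ : ℤ) ∣ β₂ - β₁ := by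
  obtain ⟨q, s, h1, h2⟩ := hv
  obtain ⟨q', s', h1', h2'⟩ := hv'
  set k : ℤ := q' * s - q * s' with hk
  have e1 : q' = q + k * v.1 := by
    rw [hk]
    linear_combination -q' * h1 + q * h1'
  have e2 : s' = s + k * v.2 := by
    rw [hk]
    linear_combination -s' * h1 + s * h1'
  have e3 : ∀ u : ℤ × ℤ, frm m a₁ β₂ u = frm m a₁ β₁ (u.1 + k * u.2, u.2) := by
    intro u
    rw [← h2, ← h2']
    congr 1
    simp only [sub2]
    refine Prod.ext ?_ ?_
    · simp only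
      rw [e1]
      ring
    · simp only
      rw [e2]
      ring
  have f1 := e3 (1, 0)
  have f2 := e3 (0, 1)
  have f3 := e3 (1, 1)
  unfold frm at f1 f2 f3
  simp only at f1 f2 f3
  refine ⟨k, ?_⟩
  have h3 : 2 * (β₂ - β₁) = 2 * (a₁ * k) := by
    linear_combination f3 - f1 - f2
  linarith

/-- every vector with a value prime to the modulus -/
lemma exists_pri {m : ℤ} {a : ℕ} {β : ℤ} (hval : Val m a β) {v : ℤ × ℤ}
    (hg : Int.gcd v.1 v.2 = 1) {a₁ : ℕ} (ha₁ : 0 < a₁) (hF : frm m a β v = a₁) :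
    ∃ b ∈ bs m a₁, v ∈ Pri m a β a₁ b := by
  obtain ⟨x, y⟩ := v
  obtain ⟨s, r, hsr⟩ := Int.isCoprime_iff_gcd_eq_one.mpr hg
  simp only at hsr
  obtain ⟨ha, _, c, hc⟩ := hval
  rw [frm_eq ha hc.symm] at hF
  simp only at hF
  set q : ℤ := -r with hq
  have hdet : x * s - q * y = 1 := by
    rw [hq]
    linarith
  set B' : ℤ := 2 * a * x * q + (2 * β + 1) * (x * s + q * y) + 2 * c * y * s with hB'
  set C' : ℤ := a * q ^ 2 + (2 * β + 1) * (q * s) + c * s ^ 2 with hC'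
  have hdisc : B' ^ 2 - 4 * a₁ * C' = 1 + 4 * m := by
    have h1 : B' ^ 2 - 4 * (a * x ^ 2 + (2 * β + 1) * (x * y) + c * y ^ 2) * C' =
        (x * s - q * y) ^ 2 * ((2 * β + 1) ^ 2 - 4 * (a * c)) := by
      rw [hB', hC']
      ring
    rw [hF, hdet, ← hc] at h1
    rw [h1]
    unfold fm
    ring
  have hodd : B' % 2 = 1 := by
    rcases Int.emod_two_eq_zero_or_one B' with h | h
    · exfalso
      obtain ⟨t, ht⟩ := Int.dvd_of_emod_eq_zero h
      rw [ht] at hdisc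
      have : (2 * t) ^ 2 - 4 * a₁ * C' - 4 * m = 1 := by linarith
      have h2 : 4 * (t ^ 2 - a₁ * C' - m) = 1 := by linarith
      omega
    · exact h
  obtain ⟨b₀, hb₀⟩ : ∃ b₀, B' = 2 * b₀ + 1 := ⟨B' / 2, by omega⟩
  have hf : (a₁ : ℤ) * C' = fm m b₀ := by
    unfold fm
    rw [hb₀] at hdisc
    linarith
  have hform : ∀ u, frm m a β (sub2 x q y s u) = frm m a₁ b₀ u := by
    intro u
    rw [frm_eq ha hc.symm, frm_eq ha₁ hf, ← hb₀, ← hF, hB', hC']
    simp only [sub2]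
    ring
  have ha₁0 : (a₁ : ℤ) ≠ 0 := by exact_mod_cast ha₁.ne'
  set b : ℕ := (b₀ % a₁).toNat with hb
  have hbz : (b : ℤ) = b₀ % a₁ := Int.toNat_of_nonneg (Int.emod_nonneg _ ha₁0)
  have hbk : (b : ℤ) = b₀ + (-(b₀ / a₁)) * a₁ := by
    rw [hbz]
    have := Int.emod_add_mul_ediv b₀ a₁
    linarith
  set k : ℤ := -(b₀ / a₁) with hk
  refine ⟨b, ?_, q + k * x, s + k * y, ?_, ?_⟩
  · unfold bs
    rw [Finset.mem_filter, Finset.mem_range]
    constructor
    · have : (b : ℤ) < a₁ := by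
        rw [hbz]
        exact Int.emod_lt_of_pos _ (by exact_mod_cast ha₁)
      exact_mod_cast this
    · refine ⟨C' + k ^ 2 * a₁ + (2 * b₀ + 1) * k, ?_⟩
      rw [hbk]
      unfold fm at hf ⊢
      linear_combination -hf
  · simp only
    linear_combination hdet
  · intro u
    rw [hbk, frm_add ha₁ ⟨C', hf.symm⟩, ← hform]
    congr 1
    simp only [sub2]
    refine Prod.ext ?_ ?_
    · simp only
      ring
    · simp only
      ring

/-! ### Counting -/

open Classical in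
lemma mem_bind {α β : Type} (s : Finset α) (f : α → Finset β) (z : β) :
    z ∈ s >>= f ↔ ∃ n ∈ s, z ∈ f n := by
  have h1 := congrFun (congrFun (Finset.bind_def (α := β) (β := α)) s) f
  rw [h1, Finset.mem_sup]

open Classical in
/-- the lifting of a finite set of natural numbers to the integers -/
lemma card_lift (s : Finset ℕ) (P : ℤ → Prop) :
    ((do let n ← s; pure (n : ℤ) : Finset ℤ).filter P).card =
      (s.filter fun n : ℕ => P (n : ℤ)).card := by
  have h : (do let n ← s; pure (n : ℤ) : Finset ℤ) = s.image fun n : ℕ => (n : ℤ) := by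
    ext z
    rw [mem_bind, Finset.mem_image]
    simp only [Finset.pure_def, Finset.mem_singleton, eq_comm]
  rw [h, Finset.filter_image, Finset.card_image_of_injective _ Nat.cast_injective]

lemma ncard_biUnion {ι α : Type*} (s : Finset ι) (f : ι → Set α) (w : ℕ)
    (hf : ∀ i ∈ s, (f i).Finite) (hw : ∀ i ∈ s, (f i).ncard = w)
    (hd : ∀ i ∈ s, ∀ j ∈ s, i ≠ j → Disjoint (f i) (f j)) :
    (⋃ i ∈ s, f i).Finite ∧ (⋃ i ∈ s, f i).ncard = s.card * w := by
  classical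
  induction s using Finset.induction_on with
  | empty => simp
  | insert i s hi ih =>
    obtain ⟨h1, h2⟩ := ih (fun j hj => hf j (Finset.mem_insert_of_mem hj))
      (fun j hj => hw j (Finset.mem_insert_of_mem hj))
      (fun j hj k hk => hd j (Finset.mem_insert_of_mem hj) k (Finset.mem_insert_of_mem hk))
    have h3 : Disjoint (f i) (⋃ j ∈ s, f j) := by
      rw [Set.disjoint_iUnion₂_right]
      intro j hj
      exact hd i (Finset.mem_insert_self _ _) j (Finset.mem_insert_of_mem hj)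
        (fun h => hi (h ▸ hj))
    rw [Finset.set_biUnion_insert]
    have h4 := hf i (Finset.mem_insert_self _ _)
    refine ⟨h4.union h1, ?_⟩
    rw [Set.ncard_union_eq h3 h4 h1, h2, hw i (Finset.mem_insert_self _ _),
      Finset.card_insert_of_notMem hi]
    ring

end SPL

open SPL in
open Classical in
/-- SPL: the number of orbits on the vectors of value `N`. -/
theorem spl : SPL_Stmt := by
  intro m _ D a β hval A w hw hA hPri N hN
  have hA1 : A ∈ Fx (frm m a β) := hA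
  have hAF : ∀ k : ℤ, A ^ k ∈ Fx (frm m a β) := fun k => Subgroup.zpow_mem _ hA1 k
  have hMM : MM m ≠ 1 := by
    unfold MM
    omega
  have hN0 : 0 < N := by
    rcases Nat.eq_zero_or_pos N with h | h
    · rw [h, Nat.coprime_zero_left] at hN
      exact absurd hN hMM
    · exact h
  -- the index set
  set I : Finset (Σ _ : ℕ, ℕ) :=
    (sqd N).sigma fun a₁ => (bs m a₁).filter fun b => D.cl a₁ b = D.cl a β with hI
  have hcard : rg D (D.cl a β) N = I.card := by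
    unfold rg
    rw [if_pos hN, hI, Finset.card_sigma]
    refine Finset.sum_congr rfl fun a₁ _ => ?_
    exact card_lift (bs m a₁) (fun b => D.cl a₁ b = D.cl a β)
  -- the data of an index
  set dd : ℕ → ℕ := fun a₁ => Nat.sqrt (N / a₁) with hdd
  have hsq : ∀ a₁ ∈ sqd N, 0 < a₁ ∧ a₁ * dd a₁ ^ 2 = N ∧ 0 < dd a₁ := by
    intro a₁ h
    unfold sqd at h
    rw [Finset.mem_filter, Nat.mem_divisors] at h
    obtain ⟨⟨h1, _⟩, r, hr⟩ := h
    have h2 : dd a₁ = r := by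
      simp only [hdd]
      rw [hr, Nat.sqrt_eq]
    have h3 : a₁ * (N / a₁) = N := Nat.mul_div_cancel' h1
    have h4 : a₁ * dd a₁ ^ 2 = N := by
      rw [h2, sq, ← hr, h3]
    have h5 : 0 < a₁ := Nat.pos_of_dvd_of_pos h1 hN0
    refine ⟨h5, h4, ?_⟩
    rcases Nat.eq_zero_or_pos (dd a₁) with h6 | h6
    · rw [h6] at h4
      simp at h4
      omega
    · exact h6
  have hVal : ∀ a₁ ∈ sqd N, ∀ b ∈ bs m a₁, Val m a₁ b := by
    intro a₁ h b hb
    unfold bs at hb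
    rw [Finset.mem_filter] at hb
    refine ⟨(hsq a₁ h).1, ?_, hb.2⟩
    unfold sqd at h
    rw [Finset.mem_filter, Nat.mem_divisors] at h
    exact Nat.Coprime.coprime_dvd_left h.1.1 hN
  set SS : (Σ _ : ℕ, ℕ) → Set (ℤ × ℤ) := fun i =>
    scal (dd i.1) '' Pri m a β i.1 i.2 with hSS
  have hmemI : ∀ i : (Σ _ : ℕ, ℕ), i ∈ I ↔
      i.1 ∈ sqd N ∧ i.2 ∈ bs m i.1 ∧ D.cl i.1 i.2 = D.cl a β := by
    intro i
    rw [hI, Finset.mem_sigma, Finset.mem_filter]
  have hPE : ∀ i ∈ I, PE m a β i.1 i.2 := by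
    intro i hi
    obtain ⟨h1, h2, h3⟩ := (hmemI i).mp hi
    exact (D.eqv a β i.1 i.2 hval (hVal _ h1 _ h2)).mp h3.symm
  -- uniqueness
  have huniq : ∀ i ∈ I, ∀ j ∈ I, ∀ v, v ∈ SS i → v ∈ SS j → i = j := by
    rintro ⟨a₁, b₁⟩ hi ⟨a₂, b₂⟩ hj v ⟨v₁, hv₁, rfl⟩ ⟨v₂, hv₂, h⟩
    obtain ⟨i1, i2, _⟩ := (hmemI _).mp hi
    obtain ⟨j1, j2, _⟩ := (hmemI _).mp hj
    obtain ⟨p1, p2, p3⟩ := hsq _ i1
    obtain ⟨q1, q2, q3⟩ := hsq _ j1
    simp only at p1 p2 p3 q1 q2 q3 h hv₁ hv₂ i2 j2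
    have g1 := scal_gcd (dd a₁) v₁
    have g2 := scal_gcd (dd a₂) v₂
    rw [pri_gcd hv₁] at g1
    rw [pri_gcd hv₂, h, g1] at g2
    have g3 : dd a₁ = dd a₂ := by
      simpa using g2
    have g4 : a₁ = a₂ := by
      rw [← g3, ← p2] at q2
      exact (Nat.eq_of_mul_eq_mul_right (by positivity) q2).symm
    subst g4
    have g5 : v₂ = v₁ := scal_inj (by exact_mod_cast p3.ne') h
    rw [g5] at hv₂
    have g6 := pri_unique hv₁ hv₂
    unfold bs at i2 j2
    rw [Finset.mem_filter, Finset.mem_range] at i2 j2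
    have g7 : b₁ = b₂ := by
      have h1 : (b₁ : ℤ) ≡ b₂ [ZMOD a₁] := (Int.modEq_iff_dvd).mpr g6
      have h2 : b₁ ≡ b₂ [MOD a₁] := (Int.natCast_modEq_iff).mp h1
      exact Nat.ModEq.eq_of_lt_of_lt h2 i2.1 j2.1
    rw [g7]
  -- stability
  have hstab : ∀ i, ∀ v ∈ SS i, ∀ k : ℤ, act (A ^ k) v ∈ SS i := by
    rintro i _ ⟨v, hv, rfl⟩ k
    exact ⟨_, Pri_act (hAF k) hv, (act_scal _ _ _).symm⟩
  -- the decomposition
  have hdec : {v | frm m a β v = N} = ⋃ i ∈ I, SS i := by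
    ext v
    simp only [Set.mem_iUnion]
    constructor
    · intro hv
      have hv : frm m a β v = N := hv
      set d : ℕ := Int.gcd v.1 v.2 with hd
      have hd0 : 0 < d := by
        rcases Nat.eq_zero_or_pos d with h | h
        · exfalso
          rw [hd, Int.gcd_eq_zero_iff] at h
          have hv0 : frm m a β v = 0 := by
            unfold frm
            rw [h.1, h.2]
            ring
          rw [hv0] at hv
          have : N = 0 := by exact_mod_cast hv.symm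
          omega
        · exact h
      obtain ⟨x, hx⟩ := Int.gcd_dvd_left v.1 v.2
      obtain ⟨y, hy⟩ := Int.gcd_dvd_right v.1 v.2
      rw [← hd] at hx hy
      have hvs : v = scal d (x, y) := Prod.ext hx hy
      have hg : Int.gcd (x, y).1 (x, y).2 = 1 := by
        have h1 := scal_gcd (d : ℤ) (x, y)
        rw [← hvs, ← hd, Int.natAbs_natCast] at h1
        exact (Nat.eq_of_mul_eq_mul_left hd0 (by rw [mul_one]; exact h1)).symm
      have hF : (d : ℤ) ^ 2 * frm m a β (x, y) = N := by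
        rw [← hv, hvs]
        exact (frm_scal (d : ℤ) (x, y)).symm
      have hFpos : 0 < frm m a β (x, y) := by
        have h1 : (0 : ℤ) < (d : ℤ) ^ 2 := by positivity
        have h2 : (0 : ℤ) < (d : ℤ) ^ 2 * frm m a β (x, y) := by
          rw [hF]
          exact_mod_cast hN0
        exact (mul_pos_iff_of_pos_left h1).mp h2
      obtain ⟨a₁, ha₁⟩ : ∃ a₁ : ℕ, frm m a β (x, y) = a₁ :=
        ⟨(frm m a β (x, y)).toNat, (Int.toNat_of_nonneg hFpos.le).symm⟩
      have ha₁0 : 0 < a₁ := by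
        rw [ha₁] at hFpos
        exact_mod_cast hFpos
      have hFN : d ^ 2 * a₁ = N := by
        rw [ha₁] at hF
        exact_mod_cast hF
      obtain ⟨b, hb, hvb⟩ := exists_pri hval hg ha₁0 ha₁
      have hdiv : N / a₁ = d * d := by
        rw [← hFN, sq]
        exact Nat.mul_div_cancel _ ha₁0
      have hsqd : a₁ ∈ sqd N := by
        unfold sqd
        rw [Finset.mem_filter, Nat.mem_divisors]
        exact ⟨⟨⟨d ^ 2, by rw [← hFN, mul_comm]⟩, hN0.ne'⟩, d, hdiv⟩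
      have hdda : dd a₁ = d := by
        simp only [hdd]
        rw [hdiv, Nat.sqrt_eq]
      refine ⟨⟨a₁, b⟩, (hmemI _).mpr ⟨hsqd, hb, ?_⟩, ?_⟩
      · have hpe : PE m a β a₁ b := by
          obtain ⟨q, s, h1, h2⟩ := hvb
          exact ⟨x, q, y, s, h1, h2⟩
        exact ((D.eqv a β a₁ b hval (hVal _ hsqd _ hb)).mpr hpe).symm
      · refine ⟨(x, y), hvb, ?_⟩
        simp only
        rw [hdda]
        exact hvs.symm
    · rintro ⟨i, hi, v', hv', rfl⟩
      obtain ⟨i1, _, _⟩ := (hmemI _).mp hi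
      obtain ⟨_, p2, _⟩ := hsq _ i1
      show frm m a β (scal (dd i.1) v') = N
      have h1 := frm_scal (m := m) (a := a) (β := β) (dd i.1 : ℤ) v'
      rw [pri_value hv'] at h1
      unfold scal
      rw [h1, ← p2]
      push_cast
      ring
  -- the orbits
  have hO : {T : Set (ℤ × ℤ) | ∃ v ∈ {v | frm m a β v = N}, T = orb2 A v} =
      ⋃ i ∈ I, {T : Set (ℤ × ℤ) | ∃ v ∈ SS i, T = orb2 A v} := by
    rw [hdec]
    ext T
    simp only [Set.mem_iUnion, Set.mem_ofPred_eq]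
    constructor
    · rintro ⟨v, ⟨i, hi, hv⟩, rfl⟩
      exact ⟨i, hi, v, hv, rfl⟩
    · rintro ⟨i, hi, v, hv, rfl⟩
      exact ⟨v, ⟨i, hi, hv⟩, rfl⟩
  have hcount : ∀ i ∈ I, {T : Set (ℤ × ℤ) | ∃ v ∈ SS i, T = orb2 A v}.ncard = w := by
    intro i hi
    obtain ⟨i1, i2, _⟩ := (hmemI _).mp hi
    obtain ⟨_, _, p3⟩ := hsq _ i1
    have h1 := nor_scal A (d := (dd i.1 : ℤ)) (by exact_mod_cast p3.ne') (Pri m a β i.1 i.2)
    rw [hPri _ _ (hVal _ i1 _ i2) (hPE i hi)] at h1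
    exact h1
  unfold nor
  rw [hO, hcard, (ncard_biUnion I _ w ?_ hcount ?_).2, mul_comm]
  · intro i hi
    exact Set.finite_of_ncard_pos (by rw [hcount i hi]; exact hw)
  · intro i hi j hj hij
    rw [Set.disjoint_left]
    rintro _ ⟨v, hv, rfl⟩ ⟨v', hv', h⟩
    have h1 : v ∈ orb2 A v' := by
      rw [← h]
      exact self_mem A v
    obtain ⟨k, rfl⟩ := h1
    exact hij (huniq i hi j hj _ hv (hstab j v' hv' k))

end Pool.Agent.C3A
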