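import Pool.Agent.C3A.Stmts

/-!
# C3A, module UNT: orbits of a unit on the primitive vectors which complete to a given form
-/

open scoped BigOperators Real MatrixGroups ContDiff

namespace Pool.Agent.C3A

namespace UNT

/-! ### The action -/

lemma act_mul (A B : SL(2, ℤ)) (v : ℤ × ℤ) : act (A * B) v = act A (act B v) := by
  simp only [act, sub2, Matrix.SpecialLinearGroup.coe_mul, Matrix.mul_apply, Fin.sum_univ_two]
  ext <;> simp <;> ring

lemma act_one (v : ℤ × ℤ) : act 1 v = v := by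
  simp [act, sub2]

lemma orb2_act (A : SL(2, ℤ)) (k : ℤ) (v : ℤ × ℤ) : orb2 A (act (A ^ k) v) = orb2 A v := by
  ext w
  constructor
  · rintro ⟨j, rfl⟩
    exact ⟨j + k, by rw [zpow_add, act_mul]⟩
  · rintro ⟨j, rfl⟩
    exact ⟨j - k, by rw [← act_mul, ← zpow_add, sub_add_cancel]⟩

lemma equiv_zpow {A B : SL(2, ℤ)} {Φ : ℤ × ℤ → ℤ × ℤ} (h : ∀ v, act A (Φ v) = Φ (act B v))
    (k : ℤ) (v : ℤ × ℤ) : act (A ^ k) (Φ v) = Φ (act (B ^ k) v) := by
  have h' : ∀ v, act A⁻¹ (Φ v) = Φ (act B⁻¹ v) := by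
    intro v
    have h1 := h (act B⁻¹ v)
    rw [← act_mul, mul_inv_cancel, act_one] at h1
    rw [← h1, ← act_mul, inv_mul_cancel, act_one]
  induction k using Int.induction_on generalizing v with
  | zero => rw [zpow_zero, zpow_zero, act_one, act_one]
  | succ n ih => rw [zpow_add_one, act_mul, h, ih, ← act_mul, ← zpow_add_one]
  | pred n ih => rw [zpow_sub_one, act_mul, h', ih, ← act_mul, ← zpow_sub_one]

lemma nor_image {A B : SL(2, ℤ)} {Φ : ℤ × ℤ → ℤ × ℤ} (hΦ : Function.Injective Φ)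
    (h : ∀ v, act A (Φ v) = Φ (act B v)) (S : Set (ℤ × ℤ)) : nor A (Φ '' S) = nor B S := by
  have horb : ∀ u, orb2 A (Φ u) = Φ '' orb2 B u := by
    intro u
    ext w
    constructor
    · rintro ⟨k, rfl⟩
      exact ⟨act (B ^ k) u, ⟨k, rfl⟩, (equiv_zpow h k u).symm⟩
    · rintro ⟨_, ⟨k, rfl⟩, rfl⟩
      exact ⟨k, (equiv_zpow h k u).symm⟩
  have e : {T : Set (ℤ × ℤ) | ∃ v ∈ Φ '' S, T = orb2 A v}
      = (fun T => Φ '' T) '' {T : Set (ℤ × ℤ) | ∃ v ∈ S, T = orb2 B v} := by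
    ext T
    constructor
    · rintro ⟨_, ⟨u, hu, rfl⟩, rfl⟩
      exact ⟨orb2 B u, ⟨u, hu, rfl⟩, (horb u).symm⟩
    · rintro ⟨_, ⟨u, hu, rfl⟩, rfl⟩
      exact ⟨Φ u, ⟨u, hu, rfl⟩, (horb u).symm⟩
  unfold nor
  rw [e, Set.ncard_image_of_injective _ hΦ.image_injective]

/-! ### The units -/

/-- The units of norm `1`. -/
def Un (m : ℤ) : Set (ℤ × ℤ) := {u | u.1 ^ 2 + u.1 * u.2 - m * u.2 ^ 2 = 1}

/-- Multiplication by `s + c ω`. -/
def E0 (m s c : ℤ) (h : s ^ 2 + s * c - m * c ^ 2 = 1) : SL(2, ℤ) :=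
  ⟨!![s, c * m; c, s + c], by
    rw [Matrix.det_fin_two_of]
    linarith⟩

lemma act_E0 (m s c : ℤ) (h : s ^ 2 + s * c - m * c ^ 2 = 1) (u : ℤ × ℤ) :
    act (E0 m s c h) u = (s * u.1 + c * m * u.2, c * u.1 + (s + c) * u.2) := by
  simp [act, sub2, E0]

lemma act_mem {m s c : ℤ} (h : s ^ 2 + s * c - m * c ^ 2 = 1) {u : ℤ × ℤ} (hu : u ∈ Un m) :
    act (E0 m s c h) u ∈ Un m := by
  rw [act_E0]
  unfold Un at hu ⊢
  simp only [Set.mem_ofPred_eq] at hu ⊢
  linear_combination (s ^ 2 + s * c - m * c ^ 2) * hu + h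

/-- The real embedding. -/
noncomputable def le (m : ℤ) (u : ℤ × ℤ) : ℝ := u.1 + u.2 * ((1 + √(1 + 4 * m)) / 2)

lemma le_act {m s c : ℤ} (hm : 0 < m) (h : s ^ 2 + s * c - m * c ^ 2 = 1) (u : ℤ × ℤ) :
    le m (act (E0 m s c h) u) = (s + c * ((1 + √(1 + 4 * m)) / 2)) * le m u := by
  have hm' : (0 : ℝ) < m := by exact_mod_cast hm
  have hs : √(1 + 4 * (m : ℝ)) ^ 2 = 1 + 4 * m := Real.sq_sqrt (by positivity)
  rw [act_E0]
  unfold le
  push_cast
  linear_combination (-(c : ℝ) * u.2 / 4) * hs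

lemma le_zpow {m s c : ℤ} (hm : 0 < m) (h : s ^ 2 + s * c - m * c ^ 2 = 1)
    (hl : 0 < (s + c * ((1 + √(1 + 4 * m)) / 2) : ℝ)) (k : ℤ) (u : ℤ × ℤ) :
    le m (act (E0 m s c h ^ k) u) = (s + c * ((1 + √(1 + 4 * m)) / 2)) ^ k * le m u := by
  induction k using Int.induction_on generalizing u with
  | zero => rw [zpow_zero, zpow_zero, act_one, one_mul]
  | succ n ih => rw [zpow_add_one, act_mul, ih, le_act hm, zpow_add_one₀ hl.ne']; ring
  | pred n ih =>
    have h1 : ∀ v, le m (act (E0 m s c h)⁻¹ v)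
        = (s + c * ((1 + √(1 + 4 * m)) / 2) : ℝ)⁻¹ * le m v := by
      intro v
      have h2 := le_act hm h (act (E0 m s c h)⁻¹ v)
      rw [← act_mul, mul_inv_cancel, act_one] at h2
      rw [h2, inv_mul_cancel_left₀ hl.ne']
    rw [zpow_sub_one, act_mul, ih, h1, zpow_sub_one₀ hl.ne']
    ring

lemma mem_zpow {m s c : ℤ} (h : s ^ 2 + s * c - m * c ^ 2 = 1) (k : ℤ) {u : ℤ × ℤ}
    (hu : u ∈ Un m) : act (E0 m s c h ^ k) u ∈ Un m := by
  induction k using Int.induction_on generalizing u with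
  | zero => rwa [zpow_zero, act_one]
  | succ n ih =>
    rw [zpow_add_one, act_mul]
    exact ih (act_mem h hu)
  | pred n ih =>
    rw [zpow_sub_one, act_mul]
    refine ih ?_
    have h1 : act (E0 m s c h)⁻¹ u = ((s + c) * u.1 - c * m * u.2, -c * u.1 + s * u.2) := by
      simp [act, sub2, E0, Matrix.SpecialLinearGroup.coe_inv, Matrix.adjugate_fin_two]
      ring
    rw [h1]
    unfold Un at hu ⊢
    simp only [Set.mem_ofPred_eq] at hu ⊢
    linear_combination (s ^ 2 + s * c - m * c ^ 2) * hu + h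

/-- There are finitely many orbits. -/
lemma finite_orbits {m s c : ℤ} (hm : 0 < m) (h : s ^ 2 + s * c - m * c ^ 2 = 1)
    (hl : 1 < (s + c * ((1 + √(1 + 4 * m)) / 2) : ℝ)) :
    {T : Set (ℤ × ℤ) | ∃ v ∈ Un m, T = orb2 (E0 m s c h) v}.Finite := by
  obtain ⟨lam, hlam⟩ : ∃ lam : ℝ, lam = s + c * ((1 + √(1 + 4 * m)) / 2) := ⟨_, rfl⟩
  have hl1 : 1 < lam := by rw [hlam]; exact hl
  have hm' : (0 : ℝ) < m := by exact_mod_cast hm
  have hm1 : (1 : ℝ) ≤ m := by exact_mod_cast hm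
  have hs : √(1 + 4 * (m : ℝ)) ^ 2 = 1 + 4 * m := Real.sq_sqrt (by positivity)
  have hs0 : 1 ≤ √(1 + 4 * (m : ℝ)) := by
    rw [Real.one_le_sqrt]
    linarith
  obtain ⟨B, hB⟩ : ∃ B : ℤ, lam + 1 ≤ B := ⟨⌈lam + 1⌉, Int.le_ceil _⟩
  obtain ⟨B', hB'⟩ : ∃ B' : ℤ, lam + B * ((1 + √(1 + 4 * (m : ℝ))) / 2) ≤ B' :=
    ⟨⌈_⌉, Int.le_ceil _⟩
  have hfin : (Set.Icc (-B') B' ×ˢ Set.Icc (-B) B : Set (ℤ × ℤ)).Finite :=
    (Set.finite_Icc _ _).prod (Set.finite_Icc _ _)
  refine (hfin.image (orb2 (E0 m s c h))).subset ?_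
  rintro T ⟨v, hv, rfl⟩
  -- normalisation
  have hv0 : le m v ≠ 0 := by
    intro h0
    have h1 : ((v.1 : ℝ) ^ 2 + v.1 * v.2 - m * v.2 ^ 2) = 1 := by
      have := hv
      unfold Un at this
      simp only [Set.mem_ofPred_eq] at this
      exact_mod_cast this
    have h2 : ((v.1 : ℝ) ^ 2 + v.1 * v.2 - m * v.2 ^ 2)
        = le m v * (v.1 + v.2 * ((1 - √(1 + 4 * m)) / 2)) := by
      unfold le
      linear_combination ((v.2 : ℝ) ^ 2 / 4) * hs
    rw [h2, h0, zero_mul] at h1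
    exact zero_ne_one h1
  obtain ⟨n, hn1, hn2⟩ := exists_mem_Ico_zpow (abs_pos.2 hv0) hl1
  refine ⟨act (E0 m s c h ^ (-n)) v, ?_, orb2_act _ _ _⟩
  have hu := mem_zpow h (-n) hv
  have hlu := le_zpow hm h (zero_lt_one.trans hl) (-n) v
  obtain ⟨u, hudef⟩ : ∃ u, u = act (E0 m s c h ^ (-n)) v := ⟨_, rfl⟩
  rw [← hudef] at hu hlu ⊢
  rw [← hlam] at hlu
  have hp : 0 < lam ^ n := zpow_pos (zero_lt_one.trans hl1) n
  have habs : |le m u| = lam ^ (-n) * |le m v| := by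
    rw [hlu, abs_mul, abs_of_pos (zpow_pos (zero_lt_one.trans hl1) (-n))]
  have b1 : 1 ≤ |le m u| := by
    rw [habs, zpow_neg]
    calc (1 : ℝ) = (lam ^ n)⁻¹ * lam ^ n := (inv_mul_cancel₀ hp.ne').symm
      _ ≤ (lam ^ n)⁻¹ * |le m v| := mul_le_mul_of_nonneg_left hn1 (by positivity)
  have b2 : |le m u| < lam := by
    rw [habs, zpow_neg]
    calc (lam ^ n)⁻¹ * |le m v| < (lam ^ n)⁻¹ * lam ^ (n + 1) :=
          mul_lt_mul_of_pos_left hn2 (by positivity)
      _ = lam := by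
        rw [zpow_add_one₀ (zero_lt_one.trans hl1).ne', inv_mul_cancel_left₀ hp.ne']
  have hnorm : le m u * (u.1 + u.2 * ((1 - √(1 + 4 * m)) / 2)) = 1 := by
    have h1 : ((u.1 : ℝ) ^ 2 + u.1 * u.2 - m * u.2 ^ 2) = 1 := by
      have := hu
      unfold Un at this
      simp only [Set.mem_ofPred_eq] at this
      exact_mod_cast this
    unfold le
    linear_combination h1 - ((u.2 : ℝ) ^ 2 / 4) * hs
  have b3 : |(u.1 + u.2 * ((1 - √(1 + 4 * m)) / 2) : ℝ)| ≤ 1 := by
    have h1 : |le m u| * |(u.1 + u.2 * ((1 - √(1 + 4 * m)) / 2) : ℝ)| = 1 := by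
      rw [← abs_mul, hnorm, abs_one]
    have h2 := abs_nonneg (u.1 + u.2 * ((1 - √(1 + 4 * m)) / 2) : ℝ)
    nlinarith
  have hy : |(u.2 : ℝ)| * √(1 + 4 * (m : ℝ)) ≤ lam + 1 := by
    have h1 : (u.2 : ℝ) * √(1 + 4 * (m : ℝ))
        = le m u - (u.1 + u.2 * ((1 - √(1 + 4 * m)) / 2)) := by
      unfold le
      ring
    have h2 : |(u.2 : ℝ)| * √(1 + 4 * (m : ℝ)) = |(u.2 : ℝ) * √(1 + 4 * (m : ℝ))| := by
      rw [abs_mul, abs_of_nonneg (Real.sqrt_nonneg _)]
    rw [h2, h1]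
    refine (abs_sub _ _).trans ?_
    linarith
  have hy2 : |(u.2 : ℝ)| ≤ B := by
    have := abs_nonneg (u.2 : ℝ)
    nlinarith
  have hx2 : |(u.1 : ℝ)| ≤ B' := by
    have h1 : (u.1 : ℝ) = le m u - u.2 * ((1 + √(1 + 4 * m)) / 2) := by
      unfold le
      ring
    rw [h1]
    refine (abs_sub _ _).trans ?_
    rw [abs_mul, abs_of_nonneg (by positivity : (0 : ℝ) ≤ (1 + √(1 + 4 * m)) / 2)]
    have h2 : |(u.2 : ℝ)| * ((1 + √(1 + 4 * m)) / 2) ≤ B * ((1 + √(1 + 4 * m)) / 2) :=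
      mul_le_mul_of_nonneg_right hy2 (by positivity)
    linarith
  refine ⟨?_, ?_⟩
  · have := abs_le.1 hx2
    exact ⟨by exact_mod_cast this.1, by exact_mod_cast this.2⟩
  · have := abs_le.1 hy2
    exact ⟨by exact_mod_cast this.1, by exact_mod_cast this.2⟩

/-! ### Automorphisms of a form -/

lemma coprime_ab {m : ℤ} {a : ℕ} {β e : ℤ} (hv : Val m a β) (he : (a : ℤ) * e = fm m β) :
    IsCoprime (a : ℤ) (2 * β + 1) := by
  have h1 : IsCoprime (a : ℤ) (1 + 4 * m) := by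
    have h2 : Nat.Coprime a (1 + 4 * m).natAbs := by
      have := hv.2.1
      unfold MM at this
      exact this.coprime_mul_left_right
    have h3 := Nat.isCoprime_iff_coprime.2 h2
    rwa [Int.natCast_natAbs, IsCoprime.abs_right_iff] at h3
  have h4 : (2 * β + 1) * (2 * β + 1) = (1 + 4 * m) + a * (4 * e) := by
    unfold fm at he
    linear_combination (-4) * he
  have h5 : IsCoprime (a : ℤ) ((2 * β + 1) * (2 * β + 1)) := by
    rw [h4]
    exact h1.add_mul_left_right _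
  exact h5.of_mul_right_left

/-- The automorphisms are `x + y W`. -/
lemma auto_form {m : ℤ} {a : ℕ} {β e : ℤ} (hv : Val m a β) (he : (a : ℤ) * e = fm m β)
    {h11 h12 h21 h22 : ℤ} (hdet : h11 * h22 - h12 * h21 = 1)
    (e1 : a * h11 ^ 2 + (2 * β + 1) * (h11 * h21) + e * h21 ^ 2 = a)
    (e2 : 2 * a * h11 * h12 + (2 * β + 1) * (h11 * h22 + h12 * h21) + 2 * e * h21 * h22
      = 2 * β + 1) :
    ∃ x y : ℤ, (x, y) ∈ Un m ∧ h11 = x - y * β ∧ h12 = -(y * e) ∧ h21 = y * a ∧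
      h22 = x + y * (β + 1) := by
  have ha : (a : ℤ) ≠ 0 := by exact_mod_cast hv.1.ne'
  have k1 : (2 * β + 1) * h21 = a * (h22 - h11) := by
    have : 2 * ((2 * β + 1) * h21) = 2 * (a * (h22 - h11)) := by
      linear_combination (2 * h22) * e1 - h21 * e2
        - (2 * a * h11 + (2 * β + 1) * h21) * hdet
    linarith
  have hdvd : (a : ℤ) ∣ h21 := by
    have h1 : (a : ℤ) ∣ (2 * β + 1) * h21 := ⟨_, k1⟩
    exact (coprime_ab hv he).dvd_of_dvd_mul_left h1
  obtain ⟨y, hy⟩ := hdvd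
  have k2 : h22 - h11 = (2 * β + 1) * y := by
    apply mul_left_cancel₀ ha
    rw [← k1, hy]
    ring
  have k3 : h12 = -(y * e) := by
    have h1 : 2 * ((a : ℤ) * h12) = 2 * (a * (-(y * e))) := by
      have h2 : 2 * (a * h12 + e * h21) = 0 := by
        linear_combination (-2 * h12) * e1 + h11 * e2
          - ((2 * β + 1) * h11 + 2 * e * h21) * hdet
      rw [hy] at h2
      linear_combination h2
    exact mul_left_cancel₀ ha (by linarith)
  refine ⟨h11 + y * β, y, ?_, by ring, k3, by rw [hy]; ring, ?_⟩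
  · unfold Un
    simp only [Set.mem_ofPred_eq]
    have h22e : h22 = h11 + (2 * β + 1) * y := by linarith
    rw [h22e, k3, hy] at hdet
    unfold fm at he
    linear_combination hdet + (-y ^ 2) * he
  · linarith

end UNT

open UNT in
/-- **(UNT)** -/
theorem unt : UNT_Stmt := by
  intro m hm t c hu
  obtain ⟨hm0, -⟩ := hm
  obtain ⟨ht, hc, htc⟩ := hu
  -- parity
  have hpar : ∃ s : ℤ, t = 2 * s + c := by
    have h1 : (t - c) % 2 = 0 := by
      rcases Int.even_or_odd t with ⟨j, hj⟩ | ⟨j, hj⟩ <;>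
        rcases Int.even_or_odd c with ⟨i, hi⟩ | ⟨i, hi⟩
      · omega
      · exfalso
        have h2 : (2 * j) ^ 2 - 4 = (2 * i + 1) ^ 2 * (1 + 4 * m) := by
          rw [← hi, ← htc, hj]
          ring
        have h3 : (2 : ℤ) ∣ 1 := ⟨2 * j ^ 2 - 2 - (2 * i ^ 2 + 2 * i) * (1 + 4 * m) - 2 * m, by
          linear_combination (-1) * h2⟩
        omega
      · exfalso
        have h2 : (2 * j + 1) ^ 2 - 4 = (2 * i) ^ 2 * (1 + 4 * m) := by
          rw [show 2 * i = c by omega, ← htc, hj]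
        have h3 : (2 : ℤ) ∣ 1 := ⟨2 * j ^ 2 + 2 * j - 2 * i ^ 2 * (1 + 4 * m) - 1, by
          linear_combination (-1) * h2⟩
        omega
      · omega
    exact ⟨(t - c) / 2, by omega⟩
  obtain ⟨s, hs⟩ := hpar
  have hnorm : s ^ 2 + s * c - m * c ^ 2 = 1 := by
    have : 4 * (s ^ 2 + s * c - m * c ^ 2) = 4 * 1 := by
      rw [hs] at htc
      linear_combination htc
    linarith
  have hlam : 1 < (s + c * ((1 + √(1 + 4 * m)) / 2) : ℝ) := by
    have h1 : (s + c * ((1 + √(1 + 4 * m)) / 2) : ℝ) = (t + c * √(1 + 4 * m)) / 2 := by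
      rw [hs]
      push_cast
      ring
    rw [h1]
    have h2 : (2 : ℝ) < t := by exact_mod_cast ht
    have h3 : (0 : ℝ) < c := by exact_mod_cast hc
    have h4 : 0 ≤ √(1 + 4 * (m : ℝ)) := Real.sqrt_nonneg _
    have h5 := mul_nonneg h3.le h4
    linarith
  refine ⟨nor (E0 m s c hnorm) (Un m), ?_, ?_⟩
  · unfold nor
    rw [Set.ncard_pos (finite_orbits hm0 hnorm hlam)]
    exact ⟨_, (1, 0), by simp [Un], rfl⟩
  intro a β a₁ β₁ hv hv₁ hpe A hA
  obtain ⟨e, he⟩ := hv.2.2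
  have he' : (a : ℤ) * e = fm m β := he.symm
  have ha : (a : ℤ) ≠ 0 := by exact_mod_cast hv.1.ne'
  have hediv : fm m β / a = e := by rw [he, Int.mul_ediv_cancel_left _ ha]
  have hF : ∀ v : ℤ × ℤ, frm m a β v = a * v.1 ^ 2 + (2 * β + 1) * (v.1 * v.2) + e * v.2 ^ 2 := by
    intro v
    unfold frm
    rw [hediv]
  obtain ⟨p, q, r, z, hdet, hpe⟩ := hpe
  -- the map
  obtain ⟨w1, hw1⟩ : ∃ w1 : ℤ, w1 = -β * p - e * r := ⟨_, rfl⟩
  obtain ⟨w2, hw2⟩ : ∃ w2 : ℤ, w2 = a * p + (β + 1) * r := ⟨_, rfl⟩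
  have hval : p * w2 - r * w1 = a₁ := by
    have h1 := hpe (1, 0)
    rw [hF] at h1
    unfold frm sub2 at h1
    simp only [mul_one, mul_zero, add_zero] at h1
    rw [hw1, hw2]
    linear_combination h1
  have ha₁ : (a₁ : ℤ) ≠ 0 := by exact_mod_cast hv₁.1.ne'
  have hinj : Function.Injective (sub2 p w1 r w2) := by
    intro u v huv
    unfold sub2 at huv
    have h1 := congrArg Prod.fst huv
    have h2 := congrArg Prod.snd huv
    simp only at h1 h2
    have h3 : (a₁ : ℤ) * (u.1 - v.1) = 0 := by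
      rw [← hval]
      linear_combination w2 * h1 - w1 * h2
    have h4 : (a₁ : ℤ) * (u.2 - v.2) = 0 := by
      rw [← hval]
      linear_combination (-r) * h1 + p * h2
    have h5 := (mul_eq_zero.1 h3).resolve_left ha₁
    have h6 := (mul_eq_zero.1 h4).resolve_left ha₁
    exact Prod.ext (by linarith) (by linarith)
  -- the matrix
  obtain ⟨hA1, hA2, hA3, hA4⟩ := hA
  rw [hediv] at hA2
  have a00 : A 0 0 = s - c * β := by
    rw [hs] at hA1
    linarith
  have a11 : A 1 1 = s + c + c * β := by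
    rw [hs] at hA4
    linarith
  have hequiv : ∀ v, act A (sub2 p w1 r w2 v) = sub2 p w1 r w2 (act (E0 m s c hnorm) v) := by
    intro v
    rw [act_E0]
    unfold act sub2
    rw [a00, hA2, hA3, a11, hw1, hw2]
    unfold fm at he'
    refine Prod.ext ?_ ?_
    · simp only
      linear_combination (-c * p * v.2) * he'
    · simp only
      linear_combination (-c * r * v.2) * he'
  rw [← nor_image hinj hequiv]
  congr 1
  -- the set
  ext v
  constructor
  · rintro ⟨q', z', hd', hF'⟩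
    -- h = g g₀⁻¹
    have hcomp : ∀ u : ℤ × ℤ, frm m a β (sub2 (v.1 * z - q' * r) (-(v.1 * q) + q' * p)
        (v.2 * z - z' * r) (-(v.2 * q) + z' * p) u) = frm m a β u := by
      intro u
      have h1 := hF' (z * u.1 - q * u.2, -r * u.1 + p * u.2)
      have h2 := hpe (z * u.1 - q * u.2, -r * u.1 + p * u.2)
      have h3 : sub2 p q r z (z * u.1 - q * u.2, -r * u.1 + p * u.2) = u := by
        unfold sub2
        refine Prod.ext ?_ ?_
        · simp only
          linear_combination u.1 * hdet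
        · simp only
          linear_combination u.2 * hdet
      have h4 : sub2 v.1 q' v.2 z' (z * u.1 - q * u.2, -r * u.1 + p * u.2)
          = sub2 (v.1 * z - q' * r) (-(v.1 * q) + q' * p)
            (v.2 * z - z' * r) (-(v.2 * q) + z' * p) u := by
        unfold sub2
        refine Prod.ext ?_ ?_
        · simp only
          ring
        · simp only
          ring
      rw [h3] at h2
      rw [h4, ← h2] at h1
      exact h1
    have hd : (v.1 * z - q' * r) * (-(v.2 * q) + z' * p)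
        - (-(v.1 * q) + q' * p) * (v.2 * z - z' * r) = 1 := by
      linear_combination (p * z - q * r) * hd' + hdet
    have c1 := hcomp (1, 0)
    have c2 := hcomp (0, 1)
    have c3 := hcomp (1, 1)
    simp only [hF, sub2, mul_one, mul_zero, add_zero, zero_add] at c1 c2 c3
    obtain ⟨x, y, hxy, k1, k2, k3, k4⟩ := auto_form hv he' hd
      (by linear_combination c1) (by linear_combination c3 - c1 - c2)
    refine ⟨(x, y), hxy, ?_⟩
    unfold sub2
    refine Prod.ext ?_ ?_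
    · simp only
      rw [hw1]
      linear_combination (-p) * k1 - r * k2 + v.1 * hdet
    · simp only
      rw [hw2]
      linear_combination (-p) * k3 - r * k4 + v.2 * hdet
  · rintro ⟨⟨x, y⟩, hxy, rfl⟩
    unfold Un at hxy
    simp only [Set.mem_ofPred_eq] at hxy
    unfold fm at he'
    refine ⟨(x - y * β) * q - y * e * z, y * a * q + (x + y * (β + 1)) * z, ?_, ?_⟩
    · unfold sub2
      simp only
      rw [hw1, hw2]
      linear_combination (x ^ 2 + x * y - m * y ^ 2) * hdet + hxy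
        + (y ^ 2 * (p * z - q * r)) * he'
    · intro u
      rw [← hpe u, hF, hF]
      unfold sub2
      simp only
      rw [hw1, hw2]
      have h1 : ∀ X Y : ℤ, a * ((x - y * β) * X - y * e * Y) ^ 2
          + (2 * β + 1) * (((x - y * β) * X - y * e * Y) * (y * a * X + (x + y * (β + 1)) * Y))
          + e * (y * a * X + (x + y * (β + 1)) * Y) ^ 2
          = a * X ^ 2 + (2 * β + 1) * (X * Y) + e * Y ^ 2 := by
        intro X Y
        linear_combination (a * X ^ 2 + (2 * β + 1) * (X * Y) + e * Y ^ 2) * hxy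
          + (y ^ 2 * (a * X ^ 2 + (2 * β + 1) * (X * Y) + e * Y ^ 2)) * he'
      have h2 := h1 (p * u.1 + q * u.2) (r * u.1 + z * u.2)
      linear_combination h2

end Pool.Agent.C3A
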