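import Pool.Agent.C3A.Stmts

/-!
VAL: every primitive form of discriminant `1 + 4m` is properly equivalent to a form `(n, β)` with
`n` prime to a given number.
-/

namespace Pool.Agent.C3A

namespace VAL

/-- The value of the form `(a, b, c)`. -/
def F (a b c x y : ℤ) : ℤ := a * x ^ 2 + b * (x * y) + c * y ^ 2

theorem dvd_prod_iff {p : ℕ} (hp : p.Prime) (S : Finset ℕ) (hS : ∀ q ∈ S, q.Prime) :
    (p : ℤ) ∣ ∏ q ∈ S, (q : ℤ) ↔ p ∈ S := by
  constructor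
  · intro h
    rw [Prime.dvd_finsetProd_iff (Nat.prime_iff_prime_int.mp hp)] at h
    obtain ⟨q, hq, hpq⟩ := h
    have h1 : p ∣ q := by exact_mod_cast hpq
    have h2 : p = q := (Nat.prime_dvd_prime_iff_eq hp (hS q hq)).mp h1
    rw [h2]
    exact hq
  · intro h
    exact Finset.dvd_prod_of_mem _ h

/-- A value which is prime to `K`. -/
theorem exists_value (a b c : ℤ) (hprim : ∀ d : ℤ, d ∣ a → d ∣ b → d ∣ c → IsUnit d) (K : ℕ)
    (hK : 0 < K) : ∃ x y : ℤ, ∀ p : ℕ, p.Prime → p ∣ K → ¬ (p : ℤ) ∣ F a b c x y := by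
  classical
  let S1 : Finset ℕ := K.primeFactors.filter fun p => (p : ℤ) ∣ a ∧ ¬ (p : ℤ) ∣ c
  let S2 : Finset ℕ := K.primeFactors.filter fun p => ¬ (p : ℤ) ∣ a
  refine ⟨∏ q ∈ S1, (q : ℤ), ∏ q ∈ S2, (q : ℤ), ?_⟩
  intro p hp hpK hdiv
  have hmem : p ∈ K.primeFactors := Nat.mem_primeFactors.mpr ⟨hp, hpK, hK.ne'⟩
  have hP := Nat.prime_iff_prime_int.mp hp
  have h1 : (p : ℤ) ∣ ∏ q ∈ S1, (q : ℤ) ↔ ((p : ℤ) ∣ a ∧ ¬ (p : ℤ) ∣ c) := by
    rw [dvd_prod_iff hp S1 fun q hq => (Nat.mem_primeFactors.mp (Finset.mem_filter.mp hq).1).1,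
      Finset.mem_filter]
    exact ⟨fun h => h.2, fun h => ⟨hmem, h⟩⟩
  have h2 : (p : ℤ) ∣ ∏ q ∈ S2, (q : ℤ) ↔ ¬ (p : ℤ) ∣ a := by
    rw [dvd_prod_iff hp S2 fun q hq => (Nat.mem_primeFactors.mp (Finset.mem_filter.mp hq).1).1,
      Finset.mem_filter]
    exact ⟨fun h => h.2, fun h => ⟨hmem, h⟩⟩
  generalize (∏ q ∈ S1, (q : ℤ)) = x at h1 hdiv
  generalize (∏ q ∈ S2, (q : ℤ)) = y at h2 hdiv
  unfold F at hdiv
  by_cases ha : (p : ℤ) ∣ a
  · have hy : ¬ (p : ℤ) ∣ y := fun h => (h2.mp h) ha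
    by_cases hc : (p : ℤ) ∣ c
    · have hx : ¬ (p : ℤ) ∣ x := fun h => (h1.mp h).2 hc
      have h3 : (p : ℤ) ∣ b * (x * y) := by
        have h4 : b * (x * y) = (a * x ^ 2 + b * (x * y) + c * y ^ 2) - a * x ^ 2 - c * y ^ 2 := by
          ring
        rw [h4]
        exact dvd_sub (dvd_sub hdiv (ha.mul_right _)) (hc.mul_right _)
      rcases hP.dvd_or_dvd h3 with h5 | h5
      · exact hP.not_isUnit (hprim _ ha h5 hc)
      · rcases hP.dvd_or_dvd h5 with h6 | h6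
        · exact hx h6
        · exact hy h6
    · have hx : (p : ℤ) ∣ x := h1.mpr ⟨ha, hc⟩
      have h3 : (p : ℤ) ∣ c * y ^ 2 := by
        have h4 : c * y ^ 2 = (a * x ^ 2 + b * (x * y) + c * y ^ 2) - a * x ^ 2 - x * (b * y) := by
          ring
        rw [h4]
        exact dvd_sub (dvd_sub hdiv (ha.mul_right _)) (hx.mul_right _)
      rcases hP.dvd_or_dvd h3 with h5 | h5
      · exact hc h5
      · exact hy (hP.dvd_of_dvd_pow h5)
  · have hy : (p : ℤ) ∣ y := h2.mpr ha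
    have hx : ¬ (p : ℤ) ∣ x := fun h => ha (h1.mp h).1
    have h3 : (p : ℤ) ∣ a * x ^ 2 := by
      have h4 : a * x ^ 2 = (a * x ^ 2 + b * (x * y) + c * y ^ 2) - y * (b * x) - y * (c * y) := by
        ring
      rw [h4]
      exact dvd_sub (dvd_sub hdiv (hy.mul_right _)) (hy.mul_right _)
    rcases hP.dvd_or_dvd h3 with h5 | h5
    · exact ha h5
    · exact hx (hP.dvd_of_dvd_pow h5)

/-- A positive value. -/
theorem exists_pos (m a b c : ℤ) (hm : Good m) (hD : b ^ 2 - 4 * a * c = 1 + 4 * m) :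
    ∃ x y : ℤ, 0 < F a b c x y := by
  unfold F
  rcases lt_trichotomy a 0 with ha | ha | ha
  · refine ⟨b, -2 * a, ?_⟩
    have h1 : a * b ^ 2 + b * (b * (-2 * a)) + c * (-2 * a) ^ 2 =
        -a * (b ^ 2 - 4 * a * c) := by ring
    rw [h1, hD]
    have h2 : 0 < m := hm.1
    exact mul_pos (by linarith) (by linarith)
  · exfalso
    apply hm.2
    rw [← hD, ha]
    exact ⟨b, by ring⟩
  · exact ⟨1, 0, by simpa using ha⟩

/-- A positive value which is prime to `K`. -/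
theorem exists_pos_value (m a b c : ℤ) (hm : Good m) (hD : b ^ 2 - 4 * a * c = 1 + 4 * m)
    (hprim : ∀ d : ℤ, d ∣ a → d ∣ b → d ∣ c → IsUnit d) (K : ℕ) (hK : 0 < K) :
    ∃ x y : ℤ, 0 < F a b c x y ∧ ∀ p : ℕ, p.Prime → p ∣ K → ¬ (p : ℤ) ∣ F a b c x y := by
  obtain ⟨x0, y0, h0⟩ := exists_value a b c hprim K hK
  obtain ⟨x1, y1, h1⟩ := exists_pos m a b c hm hD
  -- the polar form
  obtain ⟨B, hB⟩ : ∃ B : ℤ, B = 2 * a * x0 * x1 + b * (x0 * y1 + x1 * y0) + 2 * c * y0 * y1 :=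
    ⟨_, rfl⟩
  obtain ⟨T, hT⟩ : ∃ T : ℤ, T = 1 + |F a b c x0 y0| + |B| := ⟨_, rfl⟩
  obtain ⟨S, hS⟩ : ∃ S : ℤ, S = K * T := ⟨_, rfl⟩
  have e1 : F a b c (x0 + S * x1) (y0 + S * y1) =
      F a b c x0 y0 + S * (B + S * F a b c x1 y1) := by
    rw [hB]
    unfold F
    ring
  refine ⟨x0 + S * x1, y0 + S * y1, ?_, ?_⟩
  · rw [e1]
    have hK' : (1 : ℤ) ≤ K := by exact_mod_cast hK
    have a1 : 0 ≤ |F a b c x0 y0| := abs_nonneg _
    have a2 : 0 ≤ |B| := abs_nonneg _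
    have a3 : -|B| ≤ B := neg_abs_le _
    have a4 : -|F a b c x0 y0| ≤ F a b c x0 y0 := neg_abs_le _
    have hT1 : 1 ≤ T := by rw [hT]; linarith
    have hST : T ≤ S := by
      rw [hS]
      nlinarith
    have hS1 : 1 ≤ S := le_trans hT1 hST
    have hF1 : 1 ≤ F a b c x1 y1 := h1
    have a5 : S ≤ S * F a b c x1 y1 := by nlinarith
    have a6 : 1 + |F a b c x0 y0| ≤ B + S * F a b c x1 y1 := by linarith
    have a7 : 1 + |F a b c x0 y0| ≤ S * (B + S * F a b c x1 y1) := by nlinarith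
    linarith
  · intro p hp hpK hdiv
    apply h0 p hp hpK
    have h2 : (p : ℤ) ∣ S := by
      rw [hS]
      exact (Int.natCast_dvd_natCast.mpr hpK).mul_right _
    rw [e1] at hdiv
    exact (dvd_add_left (h2.mul_right _)).mp hdiv

/-- The same for coprime coordinates. -/
theorem exists_prim (m a b c : ℤ) (hm : Good m) (hD : b ^ 2 - 4 * a * c = 1 + 4 * m)
    (hprim : ∀ d : ℤ, d ∣ a → d ∣ b → d ∣ c → IsUnit d) (K : ℕ) (hK : 0 < K) :
    ∃ x y : ℤ, IsCoprime x y ∧ 0 < F a b c x y ∧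
      ∀ p : ℕ, p.Prime → p ∣ K → ¬ (p : ℤ) ∣ F a b c x y := by
  obtain ⟨x, y, h1, h2⟩ := exists_pos_value m a b c hm hD hprim K hK
  have hne : x ≠ 0 ∨ y ≠ 0 := by
    by_contra h
    push Not at h
    rw [h.1, h.2] at h1
    unfold F at h1
    simp at h1
  have hg : 0 < Int.gcd x y := Int.gcd_pos_iff.mpr hne
  obtain ⟨g, x', y', hg', hc, hx, hy⟩ := Int.exists_gcd_one' hg
  have hcop : IsCoprime x' y' := Int.isCoprime_iff_gcd_eq_one.mpr hc
  have e1 : F a b c x y = (g : ℤ) ^ 2 * F a b c x' y' := by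
    rw [hx, hy]
    unfold F
    ring
  refine ⟨x', y', hcop, ?_, ?_⟩
  · rw [e1] at h1
    have h3 : (0 : ℤ) < (g : ℤ) ^ 2 := by positivity
    exact (mul_pos_iff_of_pos_left h3).mp h1
  · intro p hp hpK hdiv
    apply h2 p hp hpK
    rw [e1]
    exact hdiv.mul_left _

end VAL

open VAL in
theorem val : VAL_Stmt := by
  intro m hm a b c hD hprim K hK
  have hM : 0 < MM m := by
    unfold MM
    have h1 : 0 < m := hm.1
    have h2 : (1 + 4 * m).natAbs ≠ 0 := Int.natAbs_ne_zero.mpr (by linarith)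
    omega
  obtain ⟨x, y, hxy, hpos, hcop⟩ := exists_prim m a b c hm hD hprim (K * MM m) (Nat.mul_pos hK hM)
  obtain ⟨u, w, huw⟩ := hxy
  -- the transformed form is `(F x y, b', c')`, with the matrix `(x, -w; y, u)`
  obtain ⟨n, hn⟩ := Int.eq_ofNat_of_zero_le hpos.le
  have hn0 : 0 < n := by
    rw [hn] at hpos
    exact_mod_cast hpos
  have hcopn : Nat.Coprime n (K * MM m) := by
    by_contra h
    obtain ⟨p, hp, hp1, hp2⟩ := Nat.Prime.not_coprime_iff_dvd.mp h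
    apply hcop p hp hp2
    rw [hn]
    exact_mod_cast hp1
  obtain ⟨b', hb'⟩ : ∃ b' : ℤ, b' = 2 * a * x * (-w) + b * (x * u + (-w) * y) + 2 * c * y * u :=
    ⟨_, rfl⟩
  obtain ⟨c', hc'⟩ : ∃ c' : ℤ, c' = F a b c (-w) u := ⟨_, rfl⟩
  have hdet : x * u - -w * y = 1 := by linarith
  have hdisc : b' ^ 2 - 4 * F a b c x y * c' = 1 + 4 * m := by
    have e : b' ^ 2 - 4 * F a b c x y * c' = (b ^ 2 - 4 * a * c) * (x * u - -w * y) ^ 2 := by
      rw [hb', hc']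
      unfold F
      ring
    rw [e, hD, hdet]
    ring
  have hodd : Odd b' := by
    have h1 : Odd (b' ^ 2) := by
      have h2 : b' ^ 2 = 2 * (2 * m + 2 * F a b c x y * c') + 1 := by linarith
      exact ⟨_, h2⟩
    exact (Int.odd_pow.mp h1).resolve_right (by norm_num)
  obtain ⟨β, hβ⟩ := hodd
  have hf : fm m β = (n : ℤ) * c' := by
    unfold fm
    rw [hβ, hn] at hdisc
    have h4 : (4 : ℤ) * (β ^ 2 + β - m) = 4 * ((n : ℤ) * c') := by
      have h5 : (((n : ℕ) : ℤ)) = Int.ofNat n := rfl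
      nlinarith
    linarith
  have hn1 : (n : ℤ) ≠ 0 := by exact_mod_cast hn0.ne'
  refine ⟨n, β, ⟨hn0, Nat.Coprime.coprime_mul_left_right hcopn, ⟨c', hf⟩⟩,
    Nat.Coprime.coprime_mul_right_right hcopn, x, -w, y, u, hdet, ?_⟩
  intro v
  have hq : fm m β / (n : ℤ) = c' := by
    rw [hf]
    exact Int.mul_ediv_cancel_left _ hn1
  unfold frm sub2
  rw [hq, ← hβ]
  have hn2 : ((n : ℕ) : ℤ) = F a b c x y := hn.symm
  rw [hn2, hb', hc']
  unfold F
  ring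

end Pool.Agent.C3A
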