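import Pool.Agent.C3A.Idm
import Pool.Agent.C3A.Ide
import Pool.Agent.C3A.Clf
import Pool.Agent.C3A.Val
import Pool.Agent.C3A.Cdx
import Pool.Agent.C3A.Bcm
import Pool.Agent.C3A.Prm
import Pool.Agent.C3A.Rcm
import Pool.Agent.C3A.Loc
import Pool.Agent.C3A.Rsi
import Pool.Agent.C3A.Rgc
import Pool.Agent.C3A.Four
import Pool.Agent.C3A.Conv
import Pool.Agent.C3A.Ind
import Pool.Agent.C3A.Em1
import Pool.Agent.C3A.Em2
import Pool.Agent.C3A.Phi
import Pool.Agent.C3A.Psi
import Pool.Agent.C3A.Intf
import Pool.Agent.C3A.Res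
import Pool.Agent.C3A.Lat
import Pool.Agent.C3A.Orbs
import Pool.Agent.C3A.Unt
import Pool.Agent.C3A.Spl
import Pool.Agent.C3A.Sbd
import Pool.Agent.C3A.Nrm
import Pool.Agent.C3A.Cvt
import Pool.Agent.C3A.Arp

namespace Pool.Agent.C3A

/-- Matrices of odd trace, `|t| > 2`, are determined up to conjugation and reversal by their
counting functions. -/
theorem arith_all : ARITH_Stmt :=
  have hidm := idm
  have hide := ide hidm
  have hval := val
  have hcdx := cdx hidm hide clf hval
  have hrcm := rcm bcm prm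
  have hrsi := rsi hrcm loc
  have hrgc := rgc
  have hind := ind hrcm hrsi hrgc four conv
  have hlat := lat (em2 em1) psi intf res
  have hcnt := cnt_thm unt spl cvt
  have hsbd := sbd phi hlat orbs hcnt hrgc
  arith (arp hcdx hind hsbd hcnt (nrm hval) cnj cvt) cvt

end Pool.Agent.C3A
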