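import Pool.Agent.C3A.Stmts

/-!
Closed 3-braids, arithmetic half, module IDM: multiplication of ideals. See PAPER.md, A.
-/

set_option autoImplicit false

open scoped BigOperators

noncomputable section

namespace Pool.Agent.C3A

namespace IDM

variable {m : ℤ}

lemma smul_def' (c : Om m) (z : Km m) :
    c • z = ⟨(c.re : ℚ) * z.re + m * c.im * z.im, c.re * z.im + c.im * z.re + c.im * z.im⟩ := by
  have h : c • z = emb m c * z := rfl
  rw [h]
  ext <;> simp [emb]

lemma mem_left (a : ℕ) (β : ℤ) : (⟨(a : ℚ), 0⟩ : Km m) ∈ idl m a β :=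
  Submodule.subset_span (by simp)

lemma mem_right (a : ℕ) (β : ℤ) : (⟨(β : ℚ), 1⟩ : Km m) ∈ idl m a β :=
  Submodule.subset_span (by simp)

/-- Integral combinations. -/
lemma comb_mem {N : Submodule (Om m) (Km m)} {z w : Km m} (hz : z ∈ N) (hw : w ∈ N) (x y : ℤ) :
    (⟨x * z.re + y * w.re, x * z.im + y * w.im⟩ : Km m) ∈ N := by
  have h1 := N.smul_mem (⟨x, 0⟩ : Om m) hz
  have h2 := N.smul_mem (⟨y, 0⟩ : Om m) hw
  have h3 := N.add_mem h1 h2
  rw [smul_def', smul_def'] at h3
  convert h3 using 1
  ext <;> simp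

lemma comb_mem' (a : ℕ) (β x y : ℤ) :
    (⟨((x * a + y * β : ℤ) : ℚ), (y : ℚ)⟩ : Km m) ∈ idl m a β := by
  have := comb_mem (mem_left (m := m) a β) (mem_right (m := m) a β) x y
  convert this using 1
  ext <;> simp

lemma fm_eq (β : ℤ) : (2 * β + 1) ^ 2 = 4 * fm m β + (1 + 4 * m) := by
  unfold fm; ring

lemma fm_neg (β : ℤ) : fm m (-1 - β) = fm m β := by
  unfold fm; ring

lemma val_neg {a : ℕ} {β : ℤ} (h : Val m a β) : Val m a (-1 - β) :=
  ⟨h.1, h.2.1, by rw [fm_neg]; exact h.2.2⟩

lemma coprime_disc {a : ℕ} (h : Nat.Coprime a (MM m)) : IsCoprime (a : ℤ) (1 + 4 * m) := by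
  unfold MM at h
  have h1 : Nat.Coprime a (1 + 4 * m).natAbs := h.coprime_mul_left_right
  rw [Int.isCoprime_iff_gcd_eq_one]
  exact h1

lemma coprime_mid {a : ℕ} {β : ℤ} (h : Nat.Coprime a (MM m)) (hd : (a : ℤ) ∣ fm m β) :
    IsCoprime (a : ℤ) (2 * β + 1) := by
  have h1 := coprime_disc h
  obtain ⟨k, hk⟩ := hd
  have h2 : IsCoprime (a : ℤ) ((2 * β + 1) ^ 2) := by
    rw [fm_eq (m := m), hk]
    have h3 := h1.add_mul_left_right (4 * k)
    have h4 : (1 + 4 * m) + (a : ℤ) * (4 * k) = 4 * (a * k) + (1 + 4 * m) := by ring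
    rwa [h4] at h3
  exact (IsCoprime.pow_right_iff (by norm_num)).1 h2

lemma mem_iff {a : ℕ} {β : ℤ} (hd : (a : ℤ) ∣ fm m β) (z : Km m) :
    z ∈ idl m a β ↔ ∃ x y : ℤ, z = ⟨((x * a + y * β : ℤ) : ℚ), (y : ℚ)⟩ := by
  constructor
  · intro hz
    obtain ⟨k, hk⟩ := hd
    have hk' : β ^ 2 + β - m = a * k := hk
    unfold idl at hz
    induction hz using Submodule.span_induction with
    | mem z hz =>
      simp only [Set.mem_insert_iff, Set.mem_singleton_iff] at hz
      rcases hz with rfl | rfl
      · exact ⟨1, 0, by ext <;> simp⟩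
      · exact ⟨0, 1, by ext <;> simp⟩
    | zero => exact ⟨0, 0, by ext <;> simp⟩
    | add z w _ _ hz hw =>
      obtain ⟨x, y, rfl⟩ := hz
      obtain ⟨x', y', rfl⟩ := hw
      exact ⟨x + x', y + y', by ext <;> simp <;> ring⟩
    | smul c z _ hz =>
      obtain ⟨x, y, rfl⟩ := hz
      refine ⟨c.re * x - c.im * x * β - c.im * y * k,
        c.re * y + c.im * (x * a + y * β) + c.im * y, ?_⟩
      rw [smul_def']
      have hk2 : (β : ℚ) ^ 2 + β - m = a * k := by exact_mod_cast hk'
      ext
      · push_cast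
        linear_combination (-(c.im : ℚ) * y) * hk2
      · push_cast
        ring
  · rintro ⟨x, y, rfl⟩
    exact comb_mem' a β x y

lemma span_pair_mul (z w z' w' : Km m) :
    Submodule.span (Om m) {z, w} * Submodule.span (Om m) {z', w'} =
      Submodule.span (Om m) {z * z', z * w', w * z', w * w'} := by
  rw [Submodule.span_mul_span]
  congr 1
  ext u
  simp only [Set.mem_mul, Set.mem_insert_iff, Set.mem_singleton_iff]
  constructor
  · rintro ⟨p, rfl | rfl, q, rfl | rfl, rfl⟩ <;> simp
  · rintro (rfl | rfl | rfl | rfl)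
    · exact ⟨z, Or.inl rfl, z', Or.inl rfl, rfl⟩
    · exact ⟨z, Or.inl rfl, w', Or.inr rfl, rfl⟩
    · exact ⟨w, Or.inr rfl, z', Or.inl rfl, rfl⟩
    · exact ⟨w, Or.inr rfl, w', Or.inr rfl, rfl⟩

lemma mul_idl {a a' : ℕ} {β : ℤ} (h : Val m (a * a') β) :
    idl m (a * a') β = idl m a β * idl m a' β := by
  obtain ⟨h0, hc, hd⟩ := h
  have hd' : (a : ℤ) ∣ fm m β := by
    push_cast at hd
    exact (dvd_mul_right _ _).trans hd
  have hca : Nat.Coprime a (MM m) := hc.coprime_mul_right
  obtain ⟨u, w, huw⟩ := coprime_mid hca hd'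
  obtain ⟨k, hk⟩ := hd
  have hk2 : (β : ℚ) ^ 2 + β - m = a * a' * k := by
    have : β ^ 2 + β - m = ((a * a' : ℕ) : ℤ) * k := hk
    exact_mod_cast this
  have huw' : (u : ℚ) * a + w * (2 * β + 1) = 1 := by exact_mod_cast huw
  apply le_antisymm
  · conv_lhs => unfold idl
    rw [Submodule.span_le]
    intro z hz
    rw [SetLike.mem_coe]
    simp only [Set.mem_insert_iff, Set.mem_singleton_iff] at hz
    have e1 := Submodule.mul_mem_mul (mem_left (m := m) a β) (mem_left (m := m) a' β)
    have e2 := Submodule.mul_mem_mul (mem_left (m := m) a β) (mem_right (m := m) a' β)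
    have e3 := Submodule.mul_mem_mul (mem_right (m := m) a β) (mem_right (m := m) a' β)
    rcases hz with rfl | rfl
    · convert e1 using 1
      ext <;> simp
    · have e4 := comb_mem e3 e1 1 k
      have e5 := comb_mem e2 e4 u w
      convert e5 using 1
      ext
      · simp only [QuadraticAlgebra.re_mul, QuadraticAlgebra.im_mul]
        push_cast
        linear_combination (-(β : ℚ)) * huw' + w * hk2
      · simp only [QuadraticAlgebra.re_mul, QuadraticAlgebra.im_mul]
        push_cast
        linear_combination (-1 : ℚ) * huw'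
  · conv_lhs => unfold idl
    rw [span_pair_mul, Submodule.span_le]
    intro z hz
    rw [SetLike.mem_coe]
    simp only [Set.mem_insert_iff, Set.mem_singleton_iff] at hz
    rcases hz with rfl | rfl | rfl | rfl
    · convert comb_mem' (m := m) (a * a') β 1 0 using 1
      ext <;> simp
    · convert comb_mem' (m := m) (a * a') β 0 a using 1
      ext <;> simp
    · convert comb_mem' (m := m) (a * a') β 0 a' using 1
      ext <;> simp [mul_comm]
    · convert comb_mem' (m := m) (a * a') β (-k) (2 * β + 1) using 1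
      ext
      · simp only [QuadraticAlgebra.re_mul]
        push_cast
        linear_combination (-1 : ℚ) * hk2
      · simp only [QuadraticAlgebra.im_mul]
        push_cast
        ring

lemma mul_conj {a : ℕ} {β : ℤ} (h : Val m a β) :
    idl m a β * idl m a (-1 - β) = Submodule.span (Om m) {(⟨(a : ℚ), 0⟩ : Km m)} := by
  obtain ⟨h0, hc, hd⟩ := h
  obtain ⟨u, w, huw⟩ := coprime_mid hc hd
  obtain ⟨k, hk⟩ := hd
  have hk2 : (β : ℚ) ^ 2 + β - m = a * k := by
    have : β ^ 2 + β - m = (a : ℤ) * k := hk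
    exact_mod_cast this
  have huw' : (u : ℚ) * a + w * (2 * β + 1) = 1 := by exact_mod_cast huw
  apply le_antisymm
  · conv_lhs => unfold idl
    rw [span_pair_mul, Submodule.span_le]
    intro z hz
    simp only [Set.mem_insert_iff, Set.mem_singleton_iff] at hz
    rw [SetLike.mem_coe, Submodule.mem_span_singleton]
    rcases hz with rfl | rfl | rfl | rfl
    · refine ⟨⟨a, 0⟩, ?_⟩
      rw [smul_def']
      ext <;> simp
    · refine ⟨⟨-1 - β, 1⟩, ?_⟩
      rw [smul_def']
      ext <;> simp <;> ring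
    · refine ⟨⟨β, 1⟩, ?_⟩
      rw [smul_def']
      ext <;> simp
    · refine ⟨⟨-k, 0⟩, ?_⟩
      rw [smul_def']
      ext
      · simp only [QuadraticAlgebra.re_mul]
        push_cast
        linear_combination hk2
      · simp only [QuadraticAlgebra.im_mul]
        push_cast
        ring
  · rw [Submodule.span_le, Set.singleton_subset_iff, SetLike.mem_coe]
    have e1 := Submodule.mul_mem_mul (mem_left (m := m) a β) (mem_left (m := m) a (-1 - β))
    have e2 := Submodule.mul_mem_mul (mem_left (m := m) a β) (mem_right (m := m) a (-1 - β))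
    have e3 := Submodule.mul_mem_mul (mem_right (m := m) a β) (mem_left (m := m) a (-1 - β))
    have e4 := comb_mem e3 e2 w (-w)
    have e5 := comb_mem e1 e4 u 1
    convert e5 using 1
    ext
    · simp only [QuadraticAlgebra.re_mul, QuadraticAlgebra.im_mul]
      push_cast
      linear_combination (-(a : ℚ)) * huw'
    · simp only [QuadraticAlgebra.re_mul, QuadraticAlgebra.im_mul]
      push_cast
      ring

lemma per_le (a : ℕ) (β k : ℤ) : idl m a (β + a * k) ≤ idl m a β := by
  conv_lhs => unfold idl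
  rw [Submodule.span_le]
  intro z hz
  rw [SetLike.mem_coe]
  simp only [Set.mem_insert_iff, Set.mem_singleton_iff] at hz
  rcases hz with rfl | rfl
  · exact mem_left a β
  · have := comb_mem' (m := m) a β k 1
    convert this using 1
    ext
    · push_cast
      ring
    · simp

lemma per_idl (a : ℕ) (β k : ℤ) : idl m a (β + a * k) = idl m a β := by
  apply le_antisymm (per_le a β k)
  have := per_le (m := m) a (β + a * k) (-k)
  have h : β + a * k + a * -k = β := by ring
  rwa [h] at this

end IDM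

open IDM in
/-- IDM: multiplication of ideals. -/
theorem idm : IDM_Stmt := fun _ _ =>
  ⟨fun _ _ h z => mem_iff h.2.2 z, fun _ _ _ h => mul_idl h, fun _ _ h => mul_conj h,
    fun a β k => per_idl a β k⟩

end Pool.Agent.C3A
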