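import Pool.Agent.C3A.Stmts

/-!
Closed 3-braids (MP_31fd3b_gt), module RES: the number of residue classes with values prime to the
modulus does not depend on the form.
-/

open scoped BigOperators

namespace Pool.Agent.C3A.RES

open Finset

/-- The form with coefficients in `ZMod M`. -/
def FZ (m : ℤ) (a : ℕ) (β : ℤ) (M : ℕ) (v : ZMod M × ZMod M) : ZMod M :=
  (a : ZMod M) * v.1 ^ 2 + (2 * (β : ZMod M) + 1) * (v.1 * v.2) +
    ((fm m β / a : ℤ) : ZMod M) * v.2 ^ 2

theorem coprime_iff (M : ℕ) (z : ℤ) : Nat.Coprime z.natAbs M ↔ IsUnit ((z : ℤ) : ZMod M) := by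
  rw [ZMod.coe_int_isUnit_iff_isCoprime, Int.isCoprime_iff_gcd_eq_one, Nat.coprime_comm]
  rfl

theorem frm_cast (m : ℤ) (a : ℕ) (β : ℤ) (M : ℕ) (x y : ℤ) :
    ((frm m a β (x, y) : ℤ) : ZMod M) = FZ m a β M ((x : ZMod M), (y : ZMod M)) := by
  simp only [frm, FZ]
  push_cast
  ring

open Classical in
/-- The number of residue pairs, counted in `ZMod M`. -/
theorem card_eq (m : ℤ) (a : ℕ) (β : ℤ) (M : ℕ) [NeZero M] :
    ((range M ×ˢ range M).filter fun v : ℕ × ℕ =>
      Nat.Coprime (frm m a β (v.1, v.2)).natAbs M).card =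
    ((univ : Finset (ZMod M × ZMod M)).filter fun v => IsUnit (FZ m a β M v)).card := by
  refine Finset.card_nbij' (fun v : ℕ × ℕ => ((v.1 : ZMod M), (v.2 : ZMod M)))
    (fun v : ZMod M × ZMod M => (v.1.val, v.2.val)) ?_ ?_ ?_ ?_
  · rintro ⟨x, y⟩ h
    simp only [coe_filter, mem_product, mem_range, Set.mem_ofPred_eq, mem_univ, true_and] at h ⊢
    have h2 := (coprime_iff M _).mp h.2
    rw [frm_cast] at h2
    simpa using h2
  · rintro ⟨x, y⟩ h
    simp only [coe_filter, mem_product, mem_range, Set.mem_ofPred_eq, mem_univ, true_and] at h ⊢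
    refine ⟨⟨ZMod.val_lt x, ZMod.val_lt y⟩, ?_⟩
    rw [coprime_iff, frm_cast]
    simpa using h
  · rintro ⟨x, y⟩ h
    simp only [coe_filter, mem_product, mem_range, Set.mem_ofPred_eq] at h
    simp only [Prod.mk.injEq]
    exact ⟨ZMod.val_cast_of_lt h.1.1, ZMod.val_cast_of_lt h.1.2⟩
  · rintro ⟨x, y⟩ _
    simp

/-- Multiplication by the unit `a` and the shift by `β y`. -/
theorem card_eq_one (m : ℤ) (a : ℕ) (β : ℤ) (M : ℕ) [NeZero M] (hpos : 0 < a)
    (hc : Nat.Coprime a M) (hd : (a : ℤ) ∣ fm m β) [DecidablePred fun v => IsUnit (FZ m a β M v)]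
    [DecidablePred fun v => IsUnit (FZ m 1 0 M v)] :
    ((univ : Finset (ZMod M × ZMod M)).filter fun v => IsUnit (FZ m a β M v)).card =
    ((univ : Finset (ZMod M × ZMod M)).filter fun v => IsUnit (FZ m 1 0 M v)).card := by
  have hu : IsUnit (a : ZMod M) := (ZMod.isUnit_iff_coprime a M).mpr hc
  obtain ⟨u, hu⟩ := hu
  have hua : (a : ZMod M) * (↑u⁻¹ : ZMod M) = 1 := by rw [← hu]; exact u.mul_inv
  have hau : (↑u⁻¹ : ZMod M) * (a : ZMod M) = 1 := by rw [← hu]; exact u.inv_mul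
  have key : ∀ v : ZMod M × ZMod M,
      FZ m 1 0 M ((a : ZMod M) * v.1 + (β : ZMod M) * v.2, v.2) = (a : ZMod M) * FZ m a β M v := by
    rintro ⟨x, y⟩
    obtain ⟨c, hc'⟩ := hd
    have ha0 : (a : ℤ) ≠ 0 := by exact_mod_cast hpos.ne'
    have h1 : fm m β / a = c := by
      rw [hc', Int.mul_ediv_cancel_left _ ha0]
    have h2 : ((fm m β : ℤ) : ZMod M) = (a : ZMod M) * (c : ZMod M) := by
      rw [hc']; push_cast; ring
    have h3 : ((fm m β : ℤ) : ZMod M) = (β : ZMod M) ^ 2 + (β : ZMod M) - (m : ZMod M) := by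
      simp only [fm]; push_cast; ring
    have h4 : fm m 0 / ((1 : ℕ) : ℤ) = -m := by simp [fm]
    simp only [FZ, h1, h4]
    push_cast
    linear_combination (y ^ 2) * (h2 - h3)
  refine Finset.card_nbij' (fun v => ((a : ZMod M) * v.1 + (β : ZMod M) * v.2, v.2))
    (fun v => ((↑u⁻¹ : ZMod M) * (v.1 - (β : ZMod M) * v.2), v.2)) ?_ ?_ ?_ ?_
  · intro v h
    simp only [coe_filter, Set.mem_ofPred_eq, mem_univ, true_and] at h ⊢
    rw [key v, ← hu]
    exact u.isUnit.mul h
  · intro v h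
    simp only [coe_filter, Set.mem_ofPred_eq, mem_univ, true_and] at h ⊢
    have h1 := key ((↑u⁻¹ : ZMod M) * (v.1 - (β : ZMod M) * v.2), v.2)
    have h2 : (a : ZMod M) * ((↑u⁻¹ : ZMod M) * (v.1 - (β : ZMod M) * v.2)) +
        (β : ZMod M) * v.2 = v.1 := by
      rw [← mul_assoc, hua]; ring
    simp only [h2] at h1
    rw [show ((v.1, v.2) : ZMod M × ZMod M) = v from rfl] at h1
    rw [h1, ← hu] at h
    exact isUnit_of_mul_isUnit_right h
  · intro v _
    ext
    · show (↑u⁻¹ : ZMod M) * ((a : ZMod M) * v.1 + (β : ZMod M) * v.2 - (β : ZMod M) * v.2) = v.1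
      rw [add_sub_cancel_right, ← mul_assoc, hau, one_mul]
    · rfl
  · intro v _
    ext
    · show (a : ZMod M) * ((↑u⁻¹ : ZMod M) * (v.1 - (β : ZMod M) * v.2)) + (β : ZMod M) * v.2 = v.1
      rw [← mul_assoc, hua]; ring
    · rfl

end Pool.Agent.C3A.RES

namespace Pool.Agent.C3A

/-- RES: the number of residue classes with values prime to the modulus does not depend on the
form. -/
theorem res : RES_Stmt := by
  classical
  intro m hm a β a' β' h h'
  have hM : MM m ≠ 0 := by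
    have h1 := hm.1
    have h2 : (1 + 4 * m).natAbs ≠ 0 := by omega
    unfold MM
    omega
  have : NeZero (MM m) := ⟨hM⟩
  rw [RES.card_eq m a β (MM m), RES.card_eq m a' β' (MM m),
    RES.card_eq_one m a β (MM m) h.1 h.2.1 h.2.2,
    RES.card_eq_one m a' β' (MM m) h'.1 h'.2.1 h'.2.2]

end Pool.Agent.C3A
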