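import Pool.Agent.C3A.Defs

/-!
Closed 3-braids, arithmetic half: statements of the modules. See PAPER.md in this folder.
-/

open scoped BigOperators Real MatrixGroups ContDiff Topology
open Filter

noncomputable section

namespace Pool.Agent.C3A

/-! ### A. The class group -/

/-- The order `ℤ[ω]`, `ω² = m + ω`. -/
abbrev Om (m : ℤ) := QuadraticAlgebra ℤ m 1

/-- The quadratic field `ℚ(ω)`. -/
abbrev Km (m : ℤ) := QuadraticAlgebra ℚ (m : ℚ) 1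

/-- The inclusion of the order. -/
def emb (m : ℤ) : Om m →+* Km m where
  toFun z := ⟨z.re, z.im⟩
  map_one' := by ext <;> simp [QuadraticAlgebra.re_one, QuadraticAlgebra.im_one]
  map_mul' x y := by ext <;> simp
  map_zero' := by ext <;> simp
  map_add' x y := by ext <;> simp

instance algOK (m : ℤ) : Algebra (Om m) (Km m) := (emb m).toAlgebra

/-- The lattice `ℤ a + ℤ (β + ω)` as an `ℤ[ω]`-module. -/
def idl (m : ℤ) (a : ℕ) (β : ℤ) : Submodule (Om m) (Km m) :=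
  Submodule.span (Om m) {⟨(a : ℚ), 0⟩, ⟨(β : ℚ), 1⟩}

/-- IDM: multiplication of ideals. -/
def IDM_Stmt : Prop :=
  ∀ m : ℤ, Good m →
    (∀ a β, Val m a β → ∀ z : Km m, z ∈ idl m a β ↔ ∃ x y : ℤ, z = ⟨(x * a + y * β : ℤ), (y : ℚ)⟩) ∧
    (∀ a a' β, Val m (a * a') β → idl m (a * a') β = idl m a β * idl m a' β) ∧
    (∀ a β, Val m a β →
      idl m a β * idl m a (-1 - β) = Submodule.span (Om m) {(⟨(a : ℚ), 0⟩ : Km m)}) ∧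
    (∀ (a : ℕ) (β k : ℤ), idl m a (β + a * k) = idl m a β)

/-- IDE: narrow equivalence of ideals is proper equivalence of forms. -/
def IDE_Stmt : Prop :=
  ∀ m : ℤ, Good m → ∀ a β a' β', Val m a β → Val m a' β' →
    ((∃ α : Km m, 0 < QuadraticAlgebra.norm α ∧
      idl m a β = Submodule.span (Om m) {α} * idl m a' β') ↔ PE m a β a' β')

/-- CLF: finiteness of the number of classes. -/
def CLF_Stmt : Prop :=
  ∀ m : ℤ, Good m → ∃ S : Finset (ℕ × ℤ), ∀ a β, Val m a β →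
    ∃ p ∈ S, Val m p.1 p.2 ∧ PE m a β p.1 p.2

/-- VAL: every primitive form of discriminant `1 + 4m` is properly equivalent to a form `(n, β)`,
`n` prime to a given number. -/
def VAL_Stmt : Prop :=
  ∀ m : ℤ, Good m → ∀ a b c : ℤ, b ^ 2 - 4 * a * c = 1 + 4 * m →
    (∀ d : ℤ, d ∣ a → d ∣ b → d ∣ c → IsUnit d) → ∀ K : ℕ, 0 < K →
    ∃ (n : ℕ) (β : ℤ), Val m n β ∧ Nat.Coprime n K ∧ ∃ p q r s : ℤ, p * s - q * r = 1 ∧
      ∀ v : ℤ × ℤ, a * (sub2 p q r s v).1 ^ 2 + b * ((sub2 p q r s v).1 * (sub2 p q r s v).2) +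
        c * (sub2 p q r s v).2 ^ 2 = frm m n β v

/-- CDX: class data exist. -/
def CDX_Stmt : Prop := ∀ m : ℤ, Good m → Nonempty (CD m)

/-! ### B. Multiplicativity -/

/-- BCM: `bc` is multiplicative. -/
def BCM_Stmt : Prop :=
  ∀ m : ℤ, Good m → ∀ (D : CD m) (χ : D.G →* ℂˣ), bc D χ 1 = 1 ∧
    ∀ a a' : ℕ, Nat.Coprime a a' → bc D χ (a * a') = bc D χ a * bc D χ a'

/-- PRM: `bc` at prime powers. -/
def PRM_Stmt : Prop :=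
  ∀ m : ℤ, Good m → ∀ (D : CD m) (p : ℕ), p.Prime → Nat.Coprime p (MM m) →
    (∀ (χ : D.G →* ℂˣ) (k : ℕ), bc D χ (p ^ (k + 1)) = 0) ∨
    ∃ g : D.G, ∀ (χ : D.G →* ℂˣ) (k : ℕ), bc D χ (p ^ (k + 1)) =
      ((χ g : ℂˣ) : ℂ) ^ (k + 1) + (((χ g : ℂˣ) : ℂ)⁻¹) ^ (k + 1)

/-- RCM: `rc` is multiplicative, and its values at prime powers. -/
def RCM_Stmt : Prop :=
  ∀ m : ℤ, Good m → ∀ D : CD m,
    (∀ χ : D.G →* ℂˣ, rc D χ 1 = 1 ∧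
      ∀ N N' : ℕ, Nat.Coprime N N' → rc D χ (N * N') = rc D χ N * rc D χ N') ∧
    ∀ p : ℕ, p.Prime → Nat.Coprime p (MM m) →
      (∀ (χ : D.G →* ℂˣ) (k : ℕ), rc D χ (p ^ k) = if Even k then 1 else 0) ∨
      ∃ g : D.G, ∀ (χ : D.G →* ℂˣ) (k : ℕ), rc D χ (p ^ k) = hk ((χ g : ℂˣ) : ℂ) k

/-- LOC: the local identity. -/
def LOC_Stmt : Prop :=
  ∀ z w : ℂ, z ≠ 0 → w ≠ 0 → ∀ k : ℕ,
    ∑ i ∈ Finset.range (k / 2 + 1), hk z (k - 2 * i) * hk w (k - 2 * i) =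
      ∑ j ∈ Finset.range (k + 1), hk (z * w) j * hk (z * w⁻¹) (k - j)

/-- RSI: the Rankin-Selberg identity. -/
def RSI_Stmt : Prop :=
  ∀ m : ℤ, Good m → ∀ (D : CD m) (χ χ₀ : D.G →* ℂˣ) (N : ℕ), Nat.Coprime N (MM m) →
    ∑ a ∈ sqd N, rc D χ a * rc D χ₀ a =
      ∑ d ∈ N.divisors, rc D (χ * χ₀) d * rc D (χ * χ₀⁻¹) (N / d)

/-- RGC: characters and classes. -/
def RGC_Stmt : Prop :=
  ∀ m : ℤ, Good m → ∀ D : CD m,
    (∀ (χ : D.G →* ℂˣ) (N : ℕ), rc D χ N = ∑ᶠ g : D.G, ((χ g : ℂˣ) : ℂ) * (rg D g N : ℂ)) ∧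
    (∀ (g : D.G) (N : ℕ), rg D g⁻¹ N = rg D g N) ∧
    ∀ (χ : D.G →* ℂˣ) (N : ℕ), rc D χ⁻¹ N = rc D χ N ∧ (rc D χ N).im = 0

/-! ### C. Independence -/

/-- FOUR: characters of a finite abelian group span the functions. -/
def FOUR_Stmt : Prop :=
  ∀ (G : Type) [CommGroup G] [Finite G], Finite (G →* ℂˣ) ∧
    ∀ f : G → ℂ, ∃ c : (G →* ℂˣ) → ℂ, ∀ g, f g = ∑ᶠ χ : G →* ℂˣ, c χ * ((χ g : ℂˣ) : ℂ)

/-- CONV: smooth sums of Dirichlet convolutions. -/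
def CONV_Stmt : Prop :=
  ∃ H : ℝ → ℝ, (∀ x, 0 ≤ H x) ∧ 0 < H 1 ∧ (∀ x, 4 ≤ x → H x = 0) ∧
    ∀ u v : ℕ → ℂ, u 0 = 0 → v 0 = 0 →
      (∃ C : ℝ, ∀ z : ℝ, 1 / 2 ≤ z → ‖Sm u z‖ ≤ C / √z) →
      (∃ C : ℝ, ∀ z : ℝ, 1 / 2 ≤ z → ‖Sm v z‖ ≤ C / √z) →
      Tendsto (fun X : ℕ => ∑' N : ℕ, (∑ d ∈ N.divisors, u d * v (N / d)) * (H (N / X) : ℂ))
        atTop (𝓝 0)

/-- IND: the representation numbers determine the class up to inversion. -/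
def IND_Stmt : Prop :=
  ∀ m : ℤ, Good m → ∀ D : CD m,
    (∀ ψ : D.G →* ℂˣ, ψ ≠ 1 → ∃ C : ℝ, ∀ z : ℝ, 1 / 2 ≤ z → ‖Sm (rc D ψ) z‖ ≤ C / √z) →
    ∀ g g' : D.G, (∀ N, rg D g N = rg D g' N) → g' = g ∨ g' = g⁻¹

/-! ### D. Lattice points -/

/-- EM1: smooth sums in dimension 1, uniformly. -/
def EM1_Stmt : Prop :=
  ∀ B : ℝ, 0 < B → ∃ C : ℝ, ∀ (K : ℝ) (g : ℝ → ℝ), ContDiff ℝ ∞ g → (∀ s, B ≤ |s| → g s = 0) →
    (∀ s, |iteratedDeriv 3 g s| ≤ K) → ∀ x Y : ℝ, 1 ≤ Y →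
      |∑' n : ℤ, g ((n + x) / Y) - Y * ∫ s, g s| ≤ C * K / Y ^ 2

/-- EM2: smooth sums in dimension 2. -/
def EM2_Stmt : Prop :=
  ∀ f : ℝ × ℝ → ℝ, ContDiff ℝ ∞ f → HasCompactSupport f → ∃ C : ℝ, ∀ x y Y : ℝ, 1 ≤ Y →
    |∑' n : ℤ × ℤ, f ((n.1 + x) / Y, (n.2 + y) / Y) - Y ^ 2 * ∫ u, f u| ≤ C / Y

/-- PHI: partitions of unity. -/
def PHI_Stmt : Prop := ∀ ℓ : ℝ, 0 < ℓ → ∃ φ : ℝ → ℝ, IsPU ℓ φ

/-- PSI: the weight is smooth with compact support. -/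
def PSI_Stmt : Prop :=
  ∀ m : ℤ, Good m → ∀ (ℓ : ℝ) (φ : ℝ → ℝ), IsPU ℓ φ → ∀ a β, Val m a β →
    ContDiff ℝ ∞ (Psi m φ a β) ∧ HasCompactSupport (Psi m φ a β)

/-- INTF: the integral of the weight does not depend on the form. -/
def INTF_Stmt : Prop :=
  ∀ m : ℤ, Good m → ∀ (ℓ : ℝ) (φ : ℝ → ℝ), IsPU ℓ φ → ∀ a β a' β', Val m a β → Val m a' β' →
    ∫ u, Psi m φ a β u = ∫ u, Psi m φ a' β' u

/-- RES: the number of residue classes with values prime to the modulus does not depend on the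
form. -/
def RES_Stmt : Prop :=
  ∀ m : ℤ, Good m → ∀ a β a' β', Val m a β → Val m a' β' →
    ((Finset.range (MM m) ×ˢ Finset.range (MM m)).filter fun v : ℕ × ℕ =>
      Nat.Coprime (frm m a β (v.1, v.2)).natAbs (MM m)).card =
    ((Finset.range (MM m) ×ˢ Finset.range (MM m)).filter fun v : ℕ × ℕ =>
      Nat.Coprime (frm m a' β' (v.1, v.2)).natAbs (MM m)).card

/-- LAT: the smooth lattice sums; the main term does not depend on the form. -/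
def LAT_Stmt : Prop :=
  ∀ m : ℤ, Good m → ∀ (ℓ : ℝ) (φ : ℝ → ℝ), IsPU ℓ φ → ∃ κ : ℝ, ∀ a β, Val m a β →
    ∃ C : ℝ, ∀ X : ℝ, 1 / 2 ≤ X → |Lsum m φ a β X - κ * X| ≤ C / √X

/-! ### E. Orbits -/

/-- ORBS: the smooth sum of the numbers of orbits. -/
def ORBS_Stmt : Prop :=
  ∀ m : ℤ, Good m → ∀ t c : ℤ, Unt m t c → ∀ φ : ℝ → ℝ,
    IsPU (2 * Real.log ((t + √((t : ℝ) ^ 2 - 4)) / 2)) φ → ∀ a β, Val m a β →
    ∀ A : SL(2, ℤ), IsA m t c a β A → ∀ X : ℝ, 0 < X →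
      ∑' N : ℕ, (if Nat.Coprime N (MM m) then (nor A {v | frm m a β v = N} : ℝ) else 0) *
        Gf (N / X) = 2 * Lsum m φ a β X

/-- UNT: the number of orbits on the primitive vectors which complete to a given form. -/
def UNT_Stmt : Prop :=
  ∀ m : ℤ, Good m → ∀ t c : ℤ, Unt m t c → ∃ w : ℕ, 0 < w ∧ ∀ a β a₁ β₁, Val m a β →
    Val m a₁ β₁ → PE m a β a₁ β₁ → ∀ A : SL(2, ℤ), IsA m t c a β A →
      nor A (Pri m a β a₁ β₁) = w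

/-- SPL: the number of orbits on the vectors of value `N`. -/
def SPL_Stmt : Prop :=
  ∀ m : ℤ, Good m → ∀ (D : CD m) (a : ℕ) (β : ℤ), Val m a β → ∀ (A : SL(2, ℤ)) (w : ℕ), 0 < w →
    (∀ v, frm m a β (act A v) = frm m a β v) →
    (∀ a₁ β₁, Val m a₁ β₁ → PE m a β a₁ β₁ → nor A (Pri m a β a₁ β₁) = w) →
    ∀ N : ℕ, Nat.Coprime N (MM m) →
      nor A {v | frm m a β v = N} = w * rg D (D.cl a β) N

/-- CNT: the number of orbits and the number of ideals. -/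
def CNT_Stmt : Prop :=
  ∀ m : ℤ, Good m → ∀ t c : ℤ, Unt m t c → ∃ w : ℕ, 0 < w ∧ ∀ (D : CD m) (a : ℕ) (β : ℤ),
    Val m a β → ∀ A : SL(2, ℤ), IsA m t c a β A → ∀ N : ℕ, Nat.Coprime N (MM m) →
      nor A {v | frm m a β v = N} = w * rg D (D.cl a β) N

/-- SBD: the smooth sums of a nontrivial character are small. -/
def SBD_Stmt : Prop :=
  ∀ m : ℤ, Good m → ∀ t c : ℤ, Unt m t c → ∀ (D : CD m) (ψ : D.G →* ℂˣ), ψ ≠ 1 →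
    ∃ C : ℝ, ∀ z : ℝ, 1 / 2 ≤ z → ‖Sm (rc D ψ) z‖ ≤ C / √z

/-! ### F. Matrices -/

/-- NRM: normal form of a matrix of odd trace `t > 2`. -/
def NRM_Stmt : Prop :=
  ∀ (A : SL(2, ℤ)) (K : ℕ), 0 < K → Odd A.1.trace → 2 < A.1.trace →
    ∃ m c : ℤ, Good m ∧ Unt m A.1.trace c ∧
      (∀ d : ℤ, (d ∣ A 1 0 ∧ d ∣ A 1 1 - A 0 0 ∧ d ∣ A 0 1) ↔ d ∣ c) ∧
      ∃ a β, Val m a β ∧ Nat.Coprime a K ∧ ∃ g : SL(2, ℤ), IsA m A.1.trace c a β (g * A * g⁻¹)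

/-- CNJ: equivalent forms give conjugate matrices; reversal. -/
def CNJ_Stmt : Prop :=
  (∀ (m t c : ℤ) (a : ℕ) (β : ℤ) (a' : ℕ) (β' : ℤ) (A A' : SL(2, ℤ)), Good m → Val m a β →
    Val m a' β' → IsA m t c a β A → IsA m t c a' β' A' → PE m a β a' β' →
    ∃ g : SL(2, ℤ), A' = g * A * g⁻¹) ∧
  (∀ (m t c : ℤ) (a : ℕ) (β : ℤ) (A : SL(2, ℤ)), IsA m t c a β A →
    IsA m t c a (-1 - β) (revM A)) ∧
  (∀ g A : SL(2, ℤ), ∃ h : SL(2, ℤ), revM (g * A * g⁻¹) = h * revM A * h⁻¹)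

/-- CVT: the counting function of a matrix. -/
def CVT_Stmt : Prop :=
  (∀ (g A : SL(2, ℤ)) (N : ℤ), cnt (g * A * g⁻¹) N = cnt A N) ∧
  (∀ (m t c : ℤ) (a : ℕ) (β : ℤ) (A : SL(2, ℤ)), 0 < c → IsA m t c a β A →
    (∀ N : ℤ, cnt A (c * N) = nor A {v | frm m a β v = N}) ∧
    (∀ N : ℤ, ¬ c ∣ N → cnt A N = 0) ∧
    (∀ v, frm m a β (act A v) = frm m a β v)) ∧
  (∀ A : SL(2, ℤ), 2 < |A.1.trace| → ∀ N, cnt (-A⁻¹) N = cnt A N)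

/-- ARP: the theorem for matrices of trace greater than 2; only positive odd numbers are used. -/
def ARP_Stmt : Prop :=
  ∀ A A' : SL(2, ℤ), A.1.trace = A'.1.trace → Odd A.1.trace → 2 < A.1.trace →
    (∀ N : ℤ, 0 < N → Odd N → cnt A N = cnt A' N) →
    (∃ g : SL(2, ℤ), A' = g * A * g⁻¹) ∨ ∃ g : SL(2, ℤ), A' = g * revM A * g⁻¹

/-- ARITH: matrices of odd trace, `|t| > 2`, are determined up to conjugation and reversal by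
their counting functions. -/
def ARITH_Stmt : Prop :=
  ∀ A A' : SL(2, ℤ), A.1.trace = A'.1.trace → Odd A.1.trace → 2 < |A.1.trace| →
    (∀ N : ℤ, 0 < N → Odd N → cnt A N = cnt A' N) →
    (∃ g : SL(2, ℤ), A' = g * A * g⁻¹) ∨ ∃ g : SL(2, ℤ), A' = g * revM A * g⁻¹

end Pool.Agent.C3A
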